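import Pool.Agent.H62.WS.Lor

set_option autoImplicit false

/-!
# [H62 WS GAUSSPI] The Gaussian weight is a multiple of a product measure

`volume` on `E n` is the image of `Measure.pi (fun _ => volume)` under `WithLp.toLp 2` (`EuclideanSpace.volume_preserving_...`), `e^{-‖x‖²/2} = ∏ e^{-x_i²/2}` (`EuclideanSpace.norm_sq_eq`), and
`Measure.pi (fun _ => gaussianReal 0 1)` has the density `∏ gaussianPDF 0 1 (x i)` with respect to `Measure.pi (fun _ => volume)` (search `pi_withDensity`/`withDensity_pi`; otherwise `Measure.pi_eq` on boxes: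
`lintegral_fintype_prod_eq_prod`).  With `F = 1`: the constant is `gw n univ`; it is finite and positive (`integrable_exp_neg_mul_sq_norm`-like, or `(√(2π))^n`).
-/

namespace Pool.Agent.H62.WS

open scoped ENNReal RealInnerProductSpace
open MeasureTheory Set ProbabilityTheory

variable {n : ℕ}

/-- the Gaussian weight -/
noncomputable def gw (n : ℕ) : Measure (E n) :=
  (volume : Measure (E n)).withDensity fun x => ENNReal.ofReal (Real.exp (-(‖x‖ ^ 2 / 2)))

/-- the product of standard Gaussian measures has the product density -/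
theorem pi_gauss (n : ℕ) : (Measure.pi fun _ : Fin n => gaussianReal 0 1) =
    (volume : Measure (Fin n → ℝ)).withDensity
      fun y => ENNReal.ofReal (∏ i, gaussianPDFReal 0 1 (y i)) := by
  have hI : Integrable (fun y : Fin n → ℝ => ∏ i, gaussianPDFReal 0 1 (y i)) := by
    rw [volume_pi]
    exact Integrable.fintype_prod (f := fun _ t => gaussianPDFReal 0 1 t)
      fun _ => integrable_gaussianPDFReal 0 1
  apply Measure.pi_eq
  intro s hs
  have hpi : MeasurableSet (univ.pi s) := MeasurableSet.univ_pi hs
  rw [withDensity_apply _ hpi, ← ofReal_integral_eq_lintegral_ofReal hI.integrableOn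
    (ae_of_all _ fun y => Finset.prod_nonneg fun i _ => gaussianPDFReal_nonneg 0 1 _),
    ← integral_indicator hpi]
  have e : (fun y : Fin n → ℝ => (univ.pi s).indicator (fun y => ∏ i, gaussianPDFReal 0 1 (y i)) y) =
      fun y => ∏ i, (s i).indicator (gaussianPDFReal 0 1) (y i) := by
    ext y
    by_cases hy : y ∈ univ.pi s
    · rw [indicator_of_mem hy]
      refine Finset.prod_congr rfl fun i _ => ?_
      rw [indicator_of_mem (hy i (mem_univ i))]
    · rw [indicator_of_notMem hy]
      have : ∃ i, y i ∉ s i := by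
        by_contra hcon
        push Not at hcon
        exact hy fun i _ => hcon i
      obtain ⟨i, hi⟩ := this
      rw [Finset.prod_eq_zero (Finset.mem_univ i) (indicator_of_notMem hi _)]
  rw [e, volume_pi, integral_fintype_prod_eq_prod (fun i t => (s i).indicator (gaussianPDFReal 0 1) t),
    ENNReal.ofReal_prod_of_nonneg]
  · refine Finset.prod_congr rfl fun i _ => ?_
    rw [integral_indicator (hs i), gaussianReal_apply_eq_integral _ one_ne_zero]
  · intro i _
    exact integral_nonneg fun t => indicator_nonneg (fun t _ => gaussianPDFReal_nonneg 0 1 t) t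

theorem lintegral_gw_pi_aux {F : E n → ℝ≥0∞} (hF : Measurable F) :
    ∫⁻ x, F x ∂gw n =
      ENNReal.ofReal (√(2 * Real.pi) ^ n) *
        ∫⁻ y, F (WithLp.toLp 2 y) ∂(Measure.pi fun _ : Fin n => gaussianReal 0 1) := by
  have hw : Measurable fun x : E n => ENNReal.ofReal (Real.exp (-(‖x‖ ^ 2 / 2))) := by fun_prop
  have hFm : Measurable fun y : Fin n → ℝ => F (WithLp.toLp 2 y) :=
    hF.comp (PiLp.continuous_toLp 2 _).measurable
  have hprod : Measurable fun y : Fin n → ℝ => ENNReal.ofReal (∏ i, gaussianPDFReal 0 1 (y i)) := by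
    refine ENNReal.measurable_ofReal.comp (Finset.measurable_prod _ fun i _ => ?_)
    exact (measurable_gaussianPDFReal 0 1).comp (measurable_pi_apply i)
  rw [gw, lintegral_withDensity_eq_lintegral_mul _ hw hF, pi_gauss,
    lintegral_withDensity_eq_lintegral_mul _ hprod hFm,
    ← lintegral_const_mul _ (hprod.mul hFm),
    ← (PiLp.volume_preserving_toLp (Fin n)).lintegral_comp (hw.mul hF)]
  refine lintegral_congr fun y => ?_
  simp only [Pi.mul_apply]
  rw [← mul_assoc, ← ENNReal.ofReal_mul (by positivity)]
  congr 2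
  simp only [gaussianPDFReal, NNReal.coe_one, mul_one, sub_zero]
  rw [Finset.prod_mul_distrib, Finset.prod_const, Finset.card_univ, Fintype.card_fin, inv_pow,
    ← mul_assoc, mul_inv_cancel₀ (by positivity), one_mul, ← Real.exp_sum,
    EuclideanSpace.real_norm_sq_eq]
  congr 1
  rw [← Finset.sum_div, Finset.sum_neg_distrib]
  ring

theorem gw_univ_eq (n : ℕ) : gw n univ = ENNReal.ofReal (√(2 * Real.pi) ^ n) := by
  have h := lintegral_gw_pi_aux (n := n) (F := fun _ => 1) measurable_const
  simp only [lintegral_const, one_mul, measure_univ, mul_one] at h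
  exact h

theorem gw_univ_lt_top (n : ℕ) : gw n univ < ∞ := by
  rw [gw_univ_eq]
  exact ENNReal.ofReal_lt_top

theorem gw_univ_pos (n : ℕ) : 0 < gw n univ := by
  rw [gw_univ_eq, ENNReal.ofReal_pos]
  positivity

theorem lintegral_gw_pi {F : E n → ℝ≥0∞} (hF : Measurable F) :
    ∫⁻ x, F x ∂gw n =
      gw n univ * ∫⁻ y, F (WithLp.toLp 2 y) ∂(Measure.pi fun _ : Fin n => gaussianReal 0 1) := by
  rw [gw_univ_eq, lintegral_gw_pi_aux hF]

end Pool.Agent.H62.WS
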