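import Mathlib

set_option autoImplicit false

/-!
# [H62 WS TENS] The Efron-Stein inequality

For a probability measure `γ` on `ℝ` and `P = Measure.pi (fun _ : Fin n => γ)`:
`∬ (F x - F y)² dP dP ≤ Σ_i ∫∫ (F x - F (update x i t))² dγ(t) dP(x)` for measurable `F` with `∫ F² < ∞`.
Two factors: `∬∬ (F(x,y) - F(x',y'))² = 2 Var F`, `Var F = E_y Var_x F + Var_y (E_x F) ≤ E_y Var_x F + E_x Var_y F` (Jensen/Cauchy-Schwarz
for `(E_x (F(x,y) - F(x,y')))² ≤ E_x (F(x,y) - F(x,y'))²`).  Induction on `n` with `measurePreserving_piFinSuccAbove` /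
`MeasurableEquiv.piFinSuccAbove` (or any other proof).
-/

namespace Pool.Agent.H62.WS

open scoped ENNReal
open MeasureTheory Set ProbabilityTheory

namespace TensAux

variable {n : ℕ}

/-- exchange of the coordinates in `S` -/
noncomputable def sw (S : Finset (Fin n)) (p : (Fin n → ℝ) × (Fin n → ℝ)) :
    (Fin n → ℝ) × (Fin n → ℝ) :=
  (S.piecewise p.2 p.1, S.piecewise p.1 p.2)

/-- exchange of the coordinates in `S`, as a map of functions into the product -/
noncomputable def swp (S : Finset (Fin n)) (w : Fin n → ℝ × ℝ) : Fin n → ℝ × ℝ :=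
  fun i => (if i ∈ S then Prod.swap else id) (w i)

theorem swp_mp (γ : Measure ℝ) [IsProbabilityMeasure γ] (S : Finset (Fin n)) :
    MeasurePreserving (swp S) (Measure.pi fun _ : Fin n => γ.prod γ)
      (Measure.pi fun _ : Fin n => γ.prod γ) := by
  refine measurePreserving_pi (fun _ : Fin n => γ.prod γ) (fun _ : Fin n => γ.prod γ)
    (f := fun i => if i ∈ S then Prod.swap else id) ?_
  intro i
  by_cases h : i ∈ S
  · simp only [h, if_true]
    exact Measure.measurePreserving_swap
  · simp only [h, if_false]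
    exact MeasurePreserving.id _

theorem sw_lint (γ : Measure ℝ) [IsProbabilityMeasure γ] (S : Finset (Fin n))
    (Φ : (Fin n → ℝ) × (Fin n → ℝ) → ℝ≥0∞) :
    ∫⁻ p, Φ (sw S p) ∂((Measure.pi fun _ : Fin n => γ).prod (Measure.pi fun _ : Fin n => γ)) =
    ∫⁻ p, Φ p ∂((Measure.pi fun _ : Fin n => γ).prod (Measure.pi fun _ : Fin n => γ)) := by
  have he := measurePreserving_arrowProdEquivProdArrow ℝ ℝ (Fin n) (fun _ => γ) (fun _ => γ)
  rw [← he.lintegral_comp_emb (MeasurableEquiv.measurableEmbedding _) (fun p => Φ (sw S p)),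
    ← he.lintegral_comp_emb (MeasurableEquiv.measurableEmbedding _) Φ]
  have h1 : ∀ w : Fin n → ℝ × ℝ,
      sw S (MeasurableEquiv.arrowProdEquivProdArrow ℝ ℝ (Fin n) w) =
      MeasurableEquiv.arrowProdEquivProdArrow ℝ ℝ (Fin n) (swp S w) := by
    intro w
    refine Prod.ext ?_ ?_
    · funext i
      by_cases h : i ∈ S
      · simp [sw, swp, h, MeasurableEquiv.arrowProdEquivProdArrow]
      · simp [sw, swp, h, MeasurableEquiv.arrowProdEquivProdArrow]
    · funext i
      by_cases h : i ∈ S
      · simp [sw, swp, h, MeasurableEquiv.arrowProdEquivProdArrow]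
      · simp [sw, swp, h, MeasurableEquiv.arrowProdEquivProdArrow]
  simp_rw [h1]
  have h2 : Function.Involutive (swp S) := by
    intro w
    funext i
    by_cases h : i ∈ S
    · simp [swp, h]
    · simp [swp, h]
  have h3 : MeasurableEmbedding (swp S) :=
    (MeasurableEquiv.mk ⟨swp S, swp S, h2, h2⟩ (swp_mp γ S).measurable
      (swp_mp γ S).measurable).measurableEmbedding
  exact (swp_mp γ S).lintegral_comp_emb h3
    (fun w => Φ (MeasurableEquiv.arrowProdEquivProdArrow ℝ ℝ (Fin n) w))

/-- the mean square of the difference when the coordinates in `S` are renewed -/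
noncomputable def dd (γ : Measure ℝ) (F : (Fin n → ℝ) → ℝ) (S : Finset (Fin n)) : ℝ≥0∞ :=
  ∫⁻ p, ENNReal.ofReal ((F p.1 - F (S.piecewise p.2 p.1)) ^ 2)
    ∂((Measure.pi fun _ : Fin n => γ).prod (Measure.pi fun _ : Fin n => γ))

theorem pw_meas (S : Finset (Fin n)) :
    Measurable (fun p : (Fin n → ℝ) × (Fin n → ℝ) => S.piecewise p.2 p.1) := by
  rw [measurable_pi_iff]
  intro i
  by_cases h : i ∈ S
  · simp only [h, Finset.piecewise_eq_of_mem]
    exact (measurable_pi_apply i).comp measurable_snd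
  · simp only [h, not_false_eq_true, Finset.piecewise_eq_of_notMem]
    exact (measurable_pi_apply i).comp measurable_fst

theorem quad (a b c d : ℝ) :
    ENNReal.ofReal ((a - d) ^ 2) + ENNReal.ofReal ((b - c) ^ 2) ≤
      ENNReal.ofReal ((a - b) ^ 2) + ENNReal.ofReal ((c - d) ^ 2) +
        (ENNReal.ofReal ((a - c) ^ 2) + ENNReal.ofReal ((b - d) ^ 2)) := by
  rw [← ENNReal.ofReal_add (by positivity) (by positivity),
    ← ENNReal.ofReal_add (by positivity) (by positivity),
    ← ENNReal.ofReal_add (by positivity) (by positivity),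
    ← ENNReal.ofReal_add (by positivity) (by positivity)]
  refine ENNReal.ofReal_le_ofReal ?_
  nlinarith [sq_nonneg (a - b - c + d)]

theorem step (γ : Measure ℝ) [IsProbabilityMeasure γ] {F : (Fin n → ℝ) → ℝ}
    (hF : Measurable F) (S : Finset (Fin n)) (i : Fin n) (hi : i ∉ S) :
    dd γ F (insert i S) ≤ dd γ F S + dd γ F {i} := by
  set P := (Measure.pi fun _ : Fin n => γ).prod (Measure.pi fun _ : Fin n => γ) with hP
  set A : (Fin n → ℝ) × (Fin n → ℝ) → ℝ := fun p => F p.1 with hA
  set B : (Fin n → ℝ) × (Fin n → ℝ) → ℝ := fun p => F (S.piecewise p.2 p.1) with hB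
  set C : (Fin n → ℝ) × (Fin n → ℝ) → ℝ :=
    fun p => F (({i} : Finset (Fin n)).piecewise p.2 p.1) with hC
  set E : (Fin n → ℝ) × (Fin n → ℝ) → ℝ :=
    fun p => F ((insert i S).piecewise p.2 p.1) with hE
  have mA : Measurable A := hF.comp measurable_fst
  have mB : Measurable B := hF.comp (pw_meas S)
  have mC : Measurable C := hF.comp (pw_meas {i})
  have mE : Measurable E := hF.comp (pw_meas (insert i S))
  have hAi : ∀ p, A (sw {i} p) = C p := by
    intro p
    rfl
  have hCi : ∀ p, C (sw {i} p) = A p := by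
    intro p
    simp only [hA, hC, sw]
    congr 1
    funext j
    by_cases hj : j ∈ ({i} : Finset (Fin n))
    · simp [Finset.piecewise, hj]
    · simp [Finset.piecewise, hj]
  have hBi : ∀ p, B (sw {i} p) = E p := by
    intro p
    simp only [hB, hE, sw]
    congr 1
    funext j
    by_cases hj : j ∈ S
    · have hji : j ≠ i := fun h => hi (h ▸ hj)
      simp [Finset.piecewise, hj, hji]
    · by_cases hji : j = i
      · subst hji
        simp [Finset.piecewise, hj]
      · simp [Finset.piecewise, hj, hji]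
  have hEi : ∀ p, E (sw {i} p) = B p := by
    intro p
    simp only [hB, hE, sw]
    congr 1
    funext j
    by_cases hj : j ∈ S
    · have hji : j ≠ i := fun h => hi (h ▸ hj)
      simp [Finset.piecewise, hj, hji]
    · by_cases hji : j = i
      · subst hji
        simp [Finset.piecewise, hj]
      · simp [Finset.piecewise, hj, hji]
  have hAS : ∀ p, A (sw S p) = B p := by
    intro p
    rfl
  have hCS : ∀ p, C (sw S p) = E p := by
    intro p
    simp only [hC, hE, sw]
    congr 1
    funext j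
    by_cases hj : j ∈ S
    · have hji : j ≠ i := fun h => hi (h ▸ hj)
      simp [Finset.piecewise, hj, hji]
    · by_cases hji : j = i
      · subst hji
        simp [Finset.piecewise, hj]
      · simp [Finset.piecewise, hj, hji]
  have e1 : ∫⁻ p, ENNReal.ofReal ((C p - E p) ^ 2) ∂P = ∫⁻ p, ENNReal.ofReal ((A p - B p) ^ 2) ∂P := by
    rw [← sw_lint γ {i} (fun p => ENNReal.ofReal ((A p - B p) ^ 2))]
    simp only [hAi, hBi]
    rfl
  have e2 : ∫⁻ p, ENNReal.ofReal ((B p - C p) ^ 2) ∂P = ∫⁻ p, ENNReal.ofReal ((A p - E p) ^ 2) ∂P := by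
    rw [← sw_lint γ {i} (fun p => ENNReal.ofReal ((A p - E p) ^ 2))]
    simp only [hAi, hEi]
    refine lintegral_congr fun p => ?_
    congr 1
    ring
  have e3 : ∫⁻ p, ENNReal.ofReal ((B p - E p) ^ 2) ∂P = ∫⁻ p, ENNReal.ofReal ((A p - C p) ^ 2) ∂P := by
    rw [← sw_lint γ S (fun p => ENNReal.ofReal ((A p - C p) ^ 2))]
    simp only [hAS, hCS]
    rfl
  have hq : ∫⁻ p, (ENNReal.ofReal ((A p - E p) ^ 2) + ENNReal.ofReal ((B p - C p) ^ 2)) ∂P ≤
      ∫⁻ p, (ENNReal.ofReal ((A p - B p) ^ 2) + ENNReal.ofReal ((C p - E p) ^ 2) +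
        (ENNReal.ofReal ((A p - C p) ^ 2) + ENNReal.ofReal ((B p - E p) ^ 2))) ∂P :=
    lintegral_mono fun p => quad _ _ _ _
  have mAE : Measurable fun p => ENNReal.ofReal ((A p - E p) ^ 2) :=
    ((mA.sub mE).pow_const 2).ennreal_ofReal
  have mAB : Measurable fun p => ENNReal.ofReal ((A p - B p) ^ 2) :=
    ((mA.sub mB).pow_const 2).ennreal_ofReal
  have mCE : Measurable fun p => ENNReal.ofReal ((C p - E p) ^ 2) :=
    ((mC.sub mE).pow_const 2).ennreal_ofReal
  have mAC : Measurable fun p => ENNReal.ofReal ((A p - C p) ^ 2) :=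
    ((mA.sub mC).pow_const 2).ennreal_ofReal
  have mABCE : Measurable fun p =>
      ENNReal.ofReal ((A p - B p) ^ 2) + ENNReal.ofReal ((C p - E p) ^ 2) := mAB.add mCE
  rw [lintegral_add_left mAE, lintegral_add_left mABCE, lintegral_add_left mAB,
    lintegral_add_left mAC, e1, e2, e3, ← two_mul, ← two_mul, ← two_mul, ← mul_add] at hq
  exact (ENNReal.mul_le_mul_iff_right (by norm_num) (by norm_num)).1 hq

theorem all (γ : Measure ℝ) [IsProbabilityMeasure γ] {F : (Fin n → ℝ) → ℝ}
    (hF : Measurable F) (S : Finset (Fin n)) : dd γ F S ≤ ∑ i ∈ S, dd γ F {i} := by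
  induction S using Finset.induction_on with
  | empty =>
    simp [dd]
  | insert i S hi ih =>
    rw [Finset.sum_insert hi, add_comm]
    exact (step γ hF S i hi).trans (add_le_add_left ih _)

end TensAux

open TensAux in
theorem efron_stein (γ : Measure ℝ) [IsProbabilityMeasure γ] (n : ℕ) {F : (Fin n → ℝ) → ℝ}
    (hF : Measurable F)
    (hF2 : ∫⁻ x, ENNReal.ofReal (F x ^ 2) ∂(Measure.pi fun _ : Fin n => γ) < ∞) :
    ∫⁻ x, (∫⁻ y, ENNReal.ofReal ((F x - F y) ^ 2) ∂(Measure.pi fun _ : Fin n => γ))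
        ∂(Measure.pi fun _ : Fin n => γ) ≤
      ∑ i : Fin n, ∫⁻ x, (∫⁻ t, ENNReal.ofReal ((F x - F (Function.update x i t)) ^ 2) ∂γ)
        ∂(Measure.pi fun _ : Fin n => γ) := by
  have h1 := all γ hF Finset.univ
  have h2 : dd γ F Finset.univ =
      ∫⁻ x, (∫⁻ y, ENNReal.ofReal ((F x - F y) ^ 2) ∂(Measure.pi fun _ : Fin n => γ))
        ∂(Measure.pi fun _ : Fin n => γ) := by
    unfold dd
    simp only [Finset.piecewise_univ]
    refine lintegral_prod _ (Measurable.aemeasurable ?_)
    exact (((hF.comp measurable_fst).sub (hF.comp measurable_snd)).pow_const 2).ennreal_ofReal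
  have h3 : ∀ i : Fin n, dd γ F {i} =
      ∫⁻ x, (∫⁻ t, ENNReal.ofReal ((F x - F (Function.update x i t)) ^ 2) ∂γ)
        ∂(Measure.pi fun _ : Fin n => γ) := by
    intro i
    unfold dd
    simp only [Finset.piecewise_singleton]
    have hu : Measurable (fun q : (Fin n → ℝ) × ℝ => Function.update q.1 i q.2) := by
      exact (continuous_fst.update i continuous_snd).measurable
    have hm : Measurable (fun q : (Fin n → ℝ) × ℝ =>
        ENNReal.ofReal ((F q.1 - F (Function.update q.1 i q.2)) ^ 2)) :=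
      (((hF.comp measurable_fst).sub (hF.comp hu)).pow_const 2).ennreal_ofReal
    have hpm : Measurable (fun p : (Fin n → ℝ) × (Fin n → ℝ) =>
        ENNReal.ofReal ((F p.1 - F (Function.update p.1 i (p.2 i))) ^ 2)) :=
      hm.comp (measurable_fst.prodMk ((measurable_pi_apply i).comp measurable_snd))
    rw [lintegral_prod _ hpm.aemeasurable]
    refine lintegral_congr fun x => ?_
    exact (measurePreserving_eval (fun _ : Fin n => γ) i).lintegral_comp
      (f := fun t => ENNReal.ofReal ((F x - F (Function.update x i t)) ^ 2))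
      (hm.comp measurable_prodMk_left)
  rw [h2] at h1
  simpa only [h3] using h1

end Pool.Agent.H62.WS
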