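import Pool.Agent.H62.WS.Gauss1
import Pool.Agent.H62.WS.Tens
import Pool.Agent.H62.WS.GaussPi

set_option autoImplicit false

/-!
# [H62 WS GAUSSN] The Gaussian Poincare inequality on `E n`

`P = Measure.pi (fun _ => gaussianReal 0 1)`, `F' y = F (toLp 2 y)`.  `F` is Lipschitz up to a constant (continuous and `‖DF‖ ≤ C` off `0`: `|F x - F 0| ≤ C ‖x‖` along the segment), so `∫ F'² dP < ∞` (second moments
of the Gaussian).  `efron_stein` for `F'`; for every `i` and every `y` with some `y_j ≠ 0`, `j ≠ i` (`P`-almost every `y`, `n ≥ 2`, no atoms) `h(t) = F' (update y i t)` is `C^1` (the line does not meet `0`) with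
`h'(t) = DF(toLp (update y i t)) e_i`; `∫⁻ y, ∫⁻ t, (F' y - F' (update y i t))² = ∫⁻ y ∫⁻ s ∫⁻ t (F' (update y i s) - F' (update y i t))²` (the coordinate `i` of `P` is resampled: `P` is the image of `P ⊗ γ` under `(y,s) ↦ update y i s`)
`≤ ∫⁻ y 2 ∫⁻ u (DF(update y i u) e_i)² = 2 ∫⁻ y (DF(y) e_i)² dP` (`gauss_poincare_one`), and `Σ_i (DF e_i)² = ‖DF‖²`.  Translate to `gw` by `lintegral_gw_pi` (twice on the left side, factor `gw n univ`²; `gw_univ_lt_top`).
-/

namespace Pool.Agent.H62.WS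

open scoped ENNReal RealInnerProductSpace
open MeasureTheory Set ProbabilityTheory

variable {n : ℕ}

/-- linear growth -/
theorem growth_of_bound {F : E n → ℝ} (hF : Continuous F)
    (hF1 : ContDiffOn ℝ 1 F {x | x ≠ 0}) {C : ℝ} (hC : ∀ x, x ≠ 0 → ‖fderiv ℝ F x‖ ≤ C) (x : E n) :
    |F x - F 0| ≤ C * ‖x‖ := by
  by_cases hx : x = 0
  · subst hx
    simp
  have hopen : IsOpen {x : E n | x ≠ 0} := isOpen_ne
  have hd : ∀ y : E n, y ≠ 0 → HasFDerivAt F (fderiv ℝ F y) y := fun y hy =>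
    ((hF1.differentiableOn one_ne_zero).differentiableAt (hopen.mem_nhds hy)).hasFDerivAt
  have h1 : ∀ t ∈ Ioo (0 : ℝ) 1, HasDerivAt (fun t : ℝ => F (t • x)) (fderiv ℝ F (t • x) x) t := by
    intro t ht
    have h2 : HasDerivAt (fun t : ℝ => t • x) x t := by
      simpa using (hasDerivAt_id t).smul_const x
    exact (hd (t • x) (smul_ne_zero ht.1.ne' hx)).comp_hasDerivAt t h2
  obtain ⟨c, hc, he⟩ := exists_hasDerivAt_eq_slope (fun t : ℝ => F (t • x))
    (fun t => fderiv ℝ F (t • x) x) (zero_lt_one) (by fun_prop) h1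
  rw [sub_zero, div_one, one_smul, zero_smul] at he
  rw [← he, ← Real.norm_eq_abs]
  exact ((fderiv ℝ F (c • x)).le_opNorm x).trans
    (mul_le_mul_of_nonneg_right (hC _ (smul_ne_zero hc.1.ne' hx)) (norm_nonneg _))

theorem lintegral_resample {γ : Measure ℝ} [IsProbabilityMeasure γ] {G : (Fin n → ℝ) → ℝ≥0∞}
    (hG : Measurable G) (i : Fin n) :
    ∫⁻ y, (∫⁻ s, G (Function.update y i s) ∂γ) ∂(Measure.pi fun _ : Fin n => γ) =
      ∫⁻ y, G y ∂(Measure.pi fun _ : Fin n => γ) := by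
  have e : (∫⋯∫⁻_{i}, G ∂(fun _ : Fin n => γ)) = fun y => ∫⁻ s, G (Function.update y i s) ∂γ :=
    lmarginal_singleton G i
  rw [← e]
  refine lintegral_eq_of_lmarginal_eq (μ := fun _ : Fin n => γ) {i}
    (Measurable.lmarginal (fun _ : Fin n => γ) hG) hG ?_
  rw [lmarginal_singleton]
  ext y
  have : ∀ s : ℝ, (∫⋯∫⁻_{i}, G ∂(fun _ : Fin n => γ)) (Function.update y i s) =
      (∫⋯∫⁻_{i}, G ∂(fun _ : Fin n => γ)) y := fun s =>
    lmarginal_update_of_mem (fun _ : Fin n => γ) (Finset.mem_singleton_self i) G y s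
  simp only [this, lintegral_const, measure_univ, mul_one]

theorem norm_sq_functional (L : E n →L[ℝ] ℝ) : ‖L‖ ^ 2 = ∑ i, L (EuclideanSpace.single i 1) ^ 2 := by
  have h1 := (EuclideanSpace.basisFun (Fin n) ℝ).sum_sq_norm_inner_left
    ((InnerProductSpace.toDual ℝ (E n)).symm L)
  rw [LinearIsometryEquiv.norm_map] at h1
  rw [← h1]
  refine Finset.sum_congr rfl fun i _ => ?_
  rw [InnerProductSpace.toDual_symm_apply, EuclideanSpace.basisFun_apply, Real.norm_eq_abs, sq_abs]

theorem measurable_toLp_n : Measurable (fun y : Fin n → ℝ => (WithLp.toLp 2 y : E n)) :=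
  (PiLp.continuous_toLp 2 _).measurable

theorem lintegral_sq_lt_top {F : E n → ℝ} (hF : Continuous F)
    (hF1 : ContDiffOn ℝ 1 F {x | x ≠ 0}) {C : ℝ} (hC : ∀ x, x ≠ 0 → ‖fderiv ℝ F x‖ ≤ C) :
    ∫⁻ y, ENNReal.ofReal (F (WithLp.toLp 2 y) ^ 2)
      ∂(Measure.pi fun _ : Fin n => gaussianReal 0 1) < ∞ := by
  have hm : ∀ i : Fin n, ∫⁻ y, ENNReal.ofReal (y i ^ 2)
      ∂(Measure.pi fun _ : Fin n => gaussianReal 0 1) < ∞ := by
    intro i
    have h1 := (measurePreserving_eval (fun _ : Fin n => gaussianReal 0 1) i).lintegral_comp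
      (f := fun t : ℝ => ENNReal.ofReal (t ^ 2)) (by fun_prop)
    simp only [Function.eval] at h1
    rw [h1]
    have h2 : Integrable (fun t : ℝ => t ^ 2) (gaussianReal 0 1) :=
      (memLp_id_gaussianReal (μ := 0) (v := 1) 2).integrable_sq
    exact h2.lintegral_lt_top
  have hb : ∀ y : Fin n → ℝ, ENNReal.ofReal (F (WithLp.toLp 2 y) ^ 2) ≤
      ENNReal.ofReal (2 * F 0 ^ 2) + ENNReal.ofReal (2 * C ^ 2) * ∑ i, ENNReal.ofReal (y i ^ 2) := by
    intro y
    rw [← ENNReal.ofReal_sum_of_nonneg (fun i _ => sq_nonneg _), ← ENNReal.ofReal_mul (by positivity),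
      ← ENNReal.ofReal_add (by positivity) (by positivity)]
    apply ENNReal.ofReal_le_ofReal
    have h1 := growth_of_bound hF hF1 hC (WithLp.toLp 2 y)
    have h2 : ‖(WithLp.toLp 2 y : E n)‖ ^ 2 = ∑ i, y i ^ 2 := by
      rw [EuclideanSpace.real_norm_sq_eq]
    have h3 : (F (WithLp.toLp 2 y) - F 0) ^ 2 ≤ C ^ 2 * ∑ i, y i ^ 2 := by
      rw [← h2, ← mul_pow, ← sq_abs]
      exact pow_le_pow_left₀ (abs_nonneg _) h1 2
    nlinarith [sq_nonneg (F (WithLp.toLp 2 y) - 2 * F 0)]
  refine (lintegral_mono hb).trans_lt ?_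
  rw [lintegral_add_left measurable_const, lintegral_const, measure_univ, mul_one,
    lintegral_const_mul _ (by fun_prop), lintegral_finsetSum _ (fun i _ => by fun_prop)]
  exact ENNReal.add_lt_top.mpr ⟨ENNReal.ofReal_lt_top, ENNReal.mul_lt_top ENNReal.ofReal_lt_top
    (ENNReal.sum_lt_top.mpr fun i _ => hm i)⟩

theorem coord_ineq (hn : 2 ≤ n) {F : E n → ℝ} (hF : Continuous F)
    (hF1 : ContDiffOn ℝ 1 F {x | x ≠ 0}) (i : Fin n) :
    ∫⁻ y, (∫⁻ t, ENNReal.ofReal ((F (WithLp.toLp 2 y) -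
      F (WithLp.toLp 2 (Function.update y i t))) ^ 2) ∂gaussianReal 0 1)
        ∂(Measure.pi fun _ : Fin n => gaussianReal 0 1) ≤
      2 * ∫⁻ y, ENNReal.ofReal (fderiv ℝ F (WithLp.toLp 2 y) (EuclideanSpace.single i 1) ^ 2)
        ∂(Measure.pi fun _ : Fin n => gaussianReal 0 1) := by
  have hFm : Measurable fun y : Fin n → ℝ => F (WithLp.toLp 2 y) :=
    hF.measurable.comp measurable_toLp_n
  have hup : Measurable fun p : (Fin n → ℝ) × ℝ => Function.update p.1 i p.2 := by
    refine measurable_pi_iff.mpr fun j => ?_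
    by_cases hj : j = i
    · subst hj
      simpa using measurable_snd
    · simp only [Function.update_of_ne hj]
      exact (measurable_pi_apply j).comp measurable_fst
  have hG : Measurable fun y : Fin n → ℝ => ∫⁻ t, ENNReal.ofReal ((F (WithLp.toLp 2 y) -
      F (WithLp.toLp 2 (Function.update y i t))) ^ 2) ∂gaussianReal 0 1 := by
    refine Measurable.lintegral_prod_right' (f := fun p : (Fin n → ℝ) × ℝ =>
      ENNReal.ofReal ((F (WithLp.toLp 2 p.1) - F (WithLp.toLp 2 (Function.update p.1 i p.2))) ^ 2)) ?_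
    exact (((hFm.comp measurable_fst).sub (hFm.comp hup)).pow_const 2).ennreal_ofReal
  have hH : Measurable fun y : Fin n → ℝ =>
      ENNReal.ofReal (fderiv ℝ F (WithLp.toLp 2 y) (EuclideanSpace.single i 1) ^ 2) :=
    (((measurable_fderiv_apply_const ℝ F _).comp measurable_toLp_n).pow_const 2).ennreal_ofReal
  rw [← lintegral_resample hG i, ← lintegral_resample hH i, ← lintegral_const_mul']
  swap
  · exact ENNReal.ofNat_ne_top
  -- a second coordinate
  obtain ⟨j, hj⟩ : ∃ j : Fin n, j ≠ i := by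
    have : Nontrivial (Fin n) := Fin.nontrivial_iff_two_le.mpr hn
    exact exists_ne i
  have hnull : ∀ᵐ y ∂(Measure.pi fun _ : Fin n => gaussianReal 0 1), y j ≠ 0 := by
    have h1 : NullSingletonClass (gaussianReal 0 1) := nullSingletonClass_gaussianReal one_ne_zero
    have h2 := (measurePreserving_eval (fun _ : Fin n => gaussianReal 0 1) j).measure_preimage
      (s := {(0 : ℝ)}) (measurableSet_singleton _).nullMeasurableSet
    rw [measure_singleton] at h2
    rw [ae_iff]
    convert h2 using 2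
    ext y
    simp
  refine lintegral_mono_ae (hnull.mono fun y hy => ?_)
  simp only [Function.update_idem]
  -- the line does not meet the origin
  have hne : ∀ t : ℝ, (WithLp.toLp 2 (Function.update y i t) : E n) ≠ 0 := by
    intro t h0
    apply hy
    have := congrArg (fun z : E n => z j) h0
    simpa [Function.update_of_ne hj] using this
  have hline : ∀ t : ℝ, (WithLp.toLp 2 (Function.update y i t) : E n) =
      WithLp.toLp 2 (Function.update y i 0) + t • EuclideanSpace.single i 1 := by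
    intro t
    ext k
    by_cases hk : k = i
    · subst hk
      simp
    · simp [hk]
  have hsm : ContDiff ℝ 1 fun t : ℝ => (WithLp.toLp 2 (Function.update y i t) : E n) := by
    rw [funext hline]
    fun_prop
  have hh : ContDiff ℝ 1 fun t : ℝ => F (WithLp.toLp 2 (Function.update y i t)) := by
    rw [← contDiffOn_univ]
    exact hF1.comp hsm.contDiffOn fun t _ => hne t
  have hder : ∀ t : ℝ, deriv (fun t : ℝ => F (WithLp.toLp 2 (Function.update y i t))) t =
      fderiv ℝ F (WithLp.toLp 2 (Function.update y i t)) (EuclideanSpace.single i 1) := by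
    intro t
    have hopen : IsOpen {x : E n | x ≠ 0} := isOpen_ne
    have h1 : HasFDerivAt F (fderiv ℝ F (WithLp.toLp 2 (Function.update y i t)))
        (WithLp.toLp 2 (Function.update y i t)) :=
      ((hF1.differentiableOn one_ne_zero).differentiableAt (hopen.mem_nhds (hne t))).hasFDerivAt
    have h2 : HasDerivAt (fun t : ℝ => (WithLp.toLp 2 (Function.update y i t) : E n))
        (EuclideanSpace.single i 1) t := by
      rw [funext hline]
      simpa using ((hasDerivAt_id t).smul_const (EuclideanSpace.single i (1 : ℝ))).const_add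
        (WithLp.toLp 2 (Function.update y i 0) : E n)
    exact (h1.comp_hasDerivAt t h2).deriv
  have h3 := gauss_poincare_one hh
  simp only [hder] at h3
  exact h3

theorem gauss_poincare (hn : 2 ≤ n) {F : E n → ℝ} (hF : Continuous F)
    (hF1 : ContDiffOn ℝ 1 F {x | x ≠ 0}) {C : ℝ} (hC : ∀ x, x ≠ 0 → ‖fderiv ℝ F x‖ ≤ C) :
    ∫⁻ x, (∫⁻ y, ENNReal.ofReal ((F x - F y) ^ 2) ∂gw n) ∂gw n ≤
      2 * gw n univ * ∫⁻ x, ENNReal.ofReal (‖fderiv ℝ F x‖ ^ 2) ∂gw n := by
  have hFm : Measurable fun y : Fin n → ℝ => F (WithLp.toLp 2 y) :=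
    hF.measurable.comp measurable_toLp_n
  have h1 := efron_stein (gaussianReal 0 1) n hFm (lintegral_sq_lt_top hF hF1 hC)
  have h2 : ∫⁻ x, (∫⁻ y, ENNReal.ofReal ((F (WithLp.toLp 2 x) - F (WithLp.toLp 2 y)) ^ 2)
        ∂(Measure.pi fun _ : Fin n => gaussianReal 0 1))
        ∂(Measure.pi fun _ : Fin n => gaussianReal 0 1) ≤
      2 * ∫⁻ y, ENNReal.ofReal (‖fderiv ℝ F (WithLp.toLp 2 y)‖ ^ 2)
        ∂(Measure.pi fun _ : Fin n => gaussianReal 0 1) := by
    refine h1.trans ((Finset.sum_le_sum fun i _ => coord_ineq hn hF hF1 i).trans_eq ?_)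
    rw [← Finset.mul_sum, ← lintegral_finsetSum]
    · congr 2
      ext y
      rw [norm_sq_functional, ENNReal.ofReal_sum_of_nonneg fun i _ => sq_nonneg _]
    · intro i _
      exact (((measurable_fderiv_apply_const ℝ F _).comp measurable_toLp_n).pow_const 2).ennreal_ofReal
  have e1 : ∀ x : E n, ∫⁻ y, ENNReal.ofReal ((F x - F y) ^ 2) ∂gw n =
      gw n univ * ∫⁻ y, ENNReal.ofReal ((F x - F (WithLp.toLp 2 y)) ^ 2)
        ∂(Measure.pi fun _ : Fin n => gaussianReal 0 1) := by
    intro x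
    exact lintegral_gw_pi (F := fun y => ENNReal.ofReal ((F x - F y) ^ 2))
      ((measurable_const.sub hF.measurable).pow_const 2).ennreal_ofReal
  have hm : Measurable fun x : E n => ∫⁻ y, ENNReal.ofReal ((F x - F (WithLp.toLp 2 y)) ^ 2)
        ∂(Measure.pi fun _ : Fin n => gaussianReal 0 1) := by
    refine Measurable.lintegral_prod_right' (f := fun p : E n × (Fin n → ℝ) =>
      ENNReal.ofReal ((F p.1 - F (WithLp.toLp 2 p.2)) ^ 2)) ?_
    exact (((hF.measurable.comp measurable_fst).sub (hFm.comp measurable_snd)).pow_const 2).ennreal_ofReal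
  simp only [e1]
  rw [lintegral_const_mul _ hm, lintegral_gw_pi hm, lintegral_gw_pi
    (((measurable_fderiv ℝ F).norm.pow_const 2).ennreal_ofReal)]
  calc gw n univ * (gw n univ * ∫⁻ x, (∫⁻ y, ENNReal.ofReal ((F (WithLp.toLp 2 x) -
        F (WithLp.toLp 2 y)) ^ 2) ∂(Measure.pi fun _ : Fin n => gaussianReal 0 1))
        ∂(Measure.pi fun _ : Fin n => gaussianReal 0 1))
      ≤ gw n univ * (gw n univ * (2 * ∫⁻ y, ENNReal.ofReal (‖fderiv ℝ F (WithLp.toLp 2 y)‖ ^ 2)
        ∂(Measure.pi fun _ : Fin n => gaussianReal 0 1))) := by gcongr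
    _ = _ := by ring

end Pool.Agent.H62.WS
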