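import Pool.Agent.H62.WS.Top

set_option autoImplicit false

/-!
# [H62 WS POLAR] Geodesic polar coordinates

`∫⁻ F dvol = ∫⁻_{E n} F(⟨x⟩) ofReal (1/tc x) dx` (`lintegral_map`, `lintegral_withDensity_eq_lintegral_mul`), polar coordinates
`(volume : Measure (E n)).measurePreserving_homeomorphUnitSphereProd` (`x = ρ θ`, `volumeIoiPow (n-1)`, the point `0` is null), then
`ρ = sinh r` (`lintegral_image_eq_lintegral_abs_deriv_mul` on `Ioi 0`, `sinh '' Ioi 0 = Ioi 0`), `1/√(1+sinh²) cosh = 1`.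
-/

namespace Pool.Agent.H62.WS

open scoped RealInnerProductSpace MeasureTheory ENNReal
open MeasureTheory Set Metric

variable {n : ℕ}

instance : IsFiniteMeasure (sg n) := by
  unfold sg
  infer_instance

private theorem nontriv (hn : 2 ≤ n) : Nontrivial (E n) :=
  Module.nontrivial_of_finrank_pos (R := ℝ) (by rw [finrank_euclideanSpace_fin]; omega)

theorem sg_univ_pos (hn : 2 ≤ n) : 0 < sg n univ := by
  have := nontriv hn
  rw [Measure.measure_univ_pos]
  exact Measure.toSphere_ne_zero _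

private theorem tc_cont : Continuous (tc : E n → ℝ) := by
  unfold tc
  exact Real.continuous_sqrt.comp (continuous_const.add (continuous_norm.pow 2))

private theorem dens_meas : Measurable (fun x : E n => ENNReal.ofReal (1 / tc x)) := by
  have h : Continuous (fun x : E n => 1 / tc x) :=
    continuous_const.div tc_cont (fun x => (tc_pos x).ne')
  exact h.measurable.ennreal_ofReal

private theorem sinh_image : Real.sinh '' Ioi (0 : ℝ) = Ioi 0 := by
  ext y
  constructor
  · rintro ⟨x, hx, rfl⟩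
    exact Real.sinh_pos_iff.mpr hx
  · intro hy
    exact ⟨Real.arsinh y, Real.arsinh_pos_iff.mpr hy, Real.sinh_arsinh y⟩

private theorem polar_E (hn : 2 ≤ n) {G : E n → ℝ≥0∞} (hG : Measurable G) :
    ∫⁻ x, G x = ∫⁻ θ, (∫⁻ ρ in Ioi (0 : ℝ), ENNReal.ofReal (ρ ^ (n - 1)) * G (ρ • (θ : E n))) ∂sg n := by
  have := nontriv hn
  have h1 : ∫⁻ x, G x = ∫⁻ x : ({(0 : E n)}ᶜ : Set (E n)), G x.1
      ∂(Measure.comap Subtype.val (volume : Measure (E n))) := by
    rw [lintegral_subtype_comap (measurableSet_singleton _).compl, restrict_compl_singleton]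
  have hf : Measurable (fun z : sphere (0 : E n) 1 × Ioi (0 : ℝ) => G ((z.2 : ℝ) • (z.1 : E n))) := by
    apply hG.comp
    exact (measurable_subtype_coe.comp measurable_snd).smul
      (measurable_subtype_coe.comp measurable_fst)
  have h2 : ∫⁻ x : ({(0 : E n)}ᶜ : Set (E n)), G x.1
      ∂(Measure.comap Subtype.val (volume : Measure (E n)))
      = ∫⁻ z : sphere (0 : E n) 1 × Ioi (0 : ℝ), G ((z.2 : ℝ) • (z.1 : E n))
        ∂((sg n).prod (Measure.volumeIoiPow (n - 1))) := by
    have h3 := ((volume : Measure (E n)).measurePreserving_homeomorphUnitSphereProd).lintegral_comp hf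
    rw [finrank_euclideanSpace_fin] at h3
    unfold sg
    rw [← h3]
    apply lintegral_congr
    intro x
    congr 1
    have hx : (x : E n) ≠ 0 := x.2
    have hx' : ‖(x : E n)‖ ≠ 0 := norm_ne_zero_iff.mpr hx
    rw [homeomorphUnitSphereProd_apply_snd_coe, homeomorphUnitSphereProd_apply_fst_coe, smul_smul,
      mul_inv_cancel₀ hx', one_smul]
  rw [h1, h2, lintegral_prod _ hf.aemeasurable]
  apply lintegral_congr
  intro θ
  have hg : Measurable (fun ρ : Ioi (0 : ℝ) => G ((ρ : ℝ) • (θ : E n))) :=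
    hG.comp (measurable_subtype_coe.smul_const _)
  have hd : Measurable (fun r : Ioi (0 : ℝ) => ENNReal.ofReal ((r : ℝ) ^ (n - 1))) :=
    (measurable_subtype_coe.pow_const _).ennreal_ofReal
  unfold Measure.volumeIoiPow
  rw [lintegral_withDensity_eq_lintegral_mul _ hd hg]
  exact lintegral_subtype_comap measurableSet_Ioi
    (fun ρ : ℝ => ENNReal.ofReal (ρ ^ (n - 1)) * G (ρ • (θ : E n)))

theorem lintegral_vol (hn : 2 ≤ n) {F : Hyp n → ℝ≥0∞} (hF : Measurable F) :
    ∫⁻ p, F p ∂vol n =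
      ∫⁻ θ, (∫⁻ r in Ioi (0 : ℝ), ENNReal.ofReal (Real.sinh r ^ (n - 1)) * F (sph r θ)) ∂sg n := by
  have hmk : Measurable (Hyp.mk : E n → Hyp n) := continuous_mk.measurable
  have hFm : Measurable (fun x : E n => F ⟨x⟩) := hF.comp hmk
  unfold vol
  rw [lintegral_map hF hmk, lintegral_withDensity_eq_lintegral_mul _ dens_meas hFm,
    polar_E hn (dens_meas.mul hFm)]
  apply lintegral_congr
  intro θ
  have hθ : ‖(θ : E n)‖ = 1 := by
    have := θ.2
    rwa [mem_sphere_zero_iff_norm] at this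
  have key := lintegral_image_eq_lintegral_abs_deriv_mul (f := Real.sinh) (f' := Real.cosh)
    (s := Ioi (0 : ℝ)) measurableSet_Ioi
    (fun x _ => (Real.hasDerivAt_sinh x).hasDerivWithinAt) Real.sinh_injective.injOn
    (fun ρ => ENNReal.ofReal (ρ ^ (n - 1)) *
      ((fun x : E n => ENNReal.ofReal (1 / tc x)) * fun x : E n => F ⟨x⟩) (ρ • (θ : E n)))
  rw [sinh_image] at key
  rw [key]
  apply setLIntegral_congr_fun measurableSet_Ioi
  intro r hr
  have hr' : (0 : ℝ) < r := hr
  have hcosh : tc (Real.sinh r • (θ : E n)) = Real.cosh r := by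
    unfold tc
    rw [norm_smul, hθ, mul_one, Real.norm_eq_abs, sq_abs, ← Real.sqrt_sq (Real.cosh_pos r).le]
    congr 1
    rw [Real.cosh_sq]
    ring
  simp only [Pi.mul_apply]
  rw [hcosh]
  have h1 : ENNReal.ofReal |Real.cosh r| * ENNReal.ofReal (1 / Real.cosh r) = 1 := by
    rw [← ENNReal.ofReal_mul (abs_nonneg _), abs_of_pos (Real.cosh_pos r),
      mul_one_div_cancel (Real.cosh_pos r).ne', ENNReal.ofReal_one]
  calc ENNReal.ofReal |Real.cosh r| * (ENNReal.ofReal (Real.sinh r ^ (n - 1)) *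
        (ENNReal.ofReal (1 / Real.cosh r) * F ⟨Real.sinh r • (θ : E n)⟩))
      = (ENNReal.ofReal |Real.cosh r| * ENNReal.ofReal (1 / Real.cosh r)) *
        (ENNReal.ofReal (Real.sinh r ^ (n - 1)) * F ⟨Real.sinh r • (θ : E n)⟩) := by ring
    _ = ENNReal.ofReal (Real.sinh r ^ (n - 1)) * F (sph r θ) := by rw [h1, one_mul]; rfl

/-- bounded sets have finite volume -/
theorem vol_lt_top_of_isBounded {A : Set (Hyp n)} (hA : Bornology.IsBounded A) : vol n A < ∞ := by
  obtain ⟨R, hR⟩ := hA.subset_closedBall (org n)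
  have hmk : Measurable (Hyp.mk : E n → Hyp n) := continuous_mk.measurable
  have hmeas : MeasurableSet (closedBall (org n) R) := isClosed_closedBall.measurableSet
  refine lt_of_le_of_lt (measure_mono hR) ?_
  unfold vol
  rw [Measure.map_apply hmk hmeas, withDensity_apply _ (hmk hmeas)]
  have h1 : ∫⁻ x in Hyp.mk ⁻¹' closedBall (org n) R, ENNReal.ofReal (1 / tc x)
      ≤ ∫⁻ x in Hyp.mk ⁻¹' closedBall (org n) R, (1 : ℝ≥0∞) := by
    apply lintegral_mono
    intro x
    have h2 := one_le_tc x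
    have h3 : 1 / tc x ≤ 1 := by
      rw [div_le_one (tc_pos x)]; exact h2
    calc ENNReal.ofReal (1 / tc x) ≤ ENNReal.ofReal 1 := ENNReal.ofReal_le_ofReal h3
      _ = 1 := ENNReal.ofReal_one
  refine lt_of_le_of_lt h1 ?_
  rw [setLIntegral_one]
  refine lt_of_le_of_lt (measure_mono (t := closedBall (0 : E n) (Real.sinh R)) ?_)
    measure_closedBall_lt_top
  intro x hx
  have h2 : dist (⟨x⟩ : Hyp n) (org n) ≤ R := hx
  rw [mem_closedBall_zero_iff]
  have h3 : ‖x‖ = Real.sinh (dist (org n) ⟨x⟩) := (sinh_dist_org (⟨x⟩ : Hyp n)).symm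
  rw [h3, Real.sinh_le_sinh, dist_comm]
  exact h2

end Pool.Agent.H62.WS
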