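import Pool.Agent.H62.WS.GaussPi
import Pool.Agent.H62.WS.Polar

set_option autoImplicit false

/-!
# [H62 WS POINSA] Polar coordinates for the Gaussian weight

`lintegral_gw`: `lintegral_withDensity_eq_lintegral_mul` and polar coordinates of `E n` (`MeasureTheory.Measure.lintegral...`/`measurePreserving_homeomorphUnitSphereProd`, `volumeIoiPow (n-1)`; see the module `Polar` for the same
computation), `‖r • θ‖ = r`.
-/

namespace Pool.Agent.H62.WS

open scoped RealInnerProductSpace MeasureTheory ENNReal NNReal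
open MeasureTheory Set Metric

variable {n : ℕ}

private theorem nontriv (hn : 2 ≤ n) : Nontrivial (E n) :=
  Module.nontrivial_of_finrank_pos (R := ℝ) (by rw [finrank_euclideanSpace_fin]; omega)

private theorem polar_E (hn : 2 ≤ n) {G : E n → ℝ≥0∞} (hG : Measurable G) :
    ∫⁻ x, G x = ∫⁻ θ, (∫⁻ ρ in Ioi (0 : ℝ), ENNReal.ofReal (ρ ^ (n - 1)) * G (ρ • (θ : E n))) ∂sg n := by
  have := nontriv hn
  have h1 : ∫⁻ x, G x = ∫⁻ x : ({(0 : E n)}ᶜ : Set (E n)), G x.1
      ∂(Measure.comap Subtype.val (volume : Measure (E n))) := by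
    rw [lintegral_subtype_comap (measurableSet_singleton _).compl, restrict_compl_singleton]
  have hf : Measurable (fun z : sphere (0 : E n) 1 × Ioi (0 : ℝ) => G ((z.2 : ℝ) • (z.1 : E n))) := by
    apply hG.comp
    exact (measurable_subtype_coe.comp measurable_snd).smul
      (measurable_subtype_coe.comp measurable_fst)
  have h2 : ∫⁻ x : ({(0 : E n)}ᶜ : Set (E n)), G x.1
      ∂(Measure.comap Subtype.val (volume : Measure (E n)))
      = ∫⁻ z : sphere (0 : E n) 1 × Ioi (0 : ℝ), G ((z.2 : ℝ) • (z.1 : E n))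
        ∂((sg n).prod (Measure.volumeIoiPow (n - 1))) := by
    have h3 := ((volume : Measure (E n)).measurePreserving_homeomorphUnitSphereProd).lintegral_comp hf
    rw [finrank_euclideanSpace_fin] at h3
    unfold sg
    rw [← h3]
    apply lintegral_congr
    intro x
    congr 1
    have hx : (x : E n) ≠ 0 := x.2
    have hx' : ‖(x : E n)‖ ≠ 0 := norm_ne_zero_iff.mpr hx
    rw [homeomorphUnitSphereProd_apply_snd_coe, homeomorphUnitSphereProd_apply_fst_coe, smul_smul,
      mul_inv_cancel₀ hx', one_smul]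
  rw [h1, h2, lintegral_prod _ hf.aemeasurable]
  apply lintegral_congr
  intro θ
  have hg : Measurable (fun ρ : Ioi (0 : ℝ) => G ((ρ : ℝ) • (θ : E n))) :=
    hG.comp (measurable_subtype_coe.smul_const _)
  have hd : Measurable (fun r : Ioi (0 : ℝ) => ENNReal.ofReal ((r : ℝ) ^ (n - 1))) :=
    (measurable_subtype_coe.pow_const _).ennreal_ofReal
  unfold Measure.volumeIoiPow
  rw [lintegral_withDensity_eq_lintegral_mul _ hd hg]
  exact lintegral_subtype_comap measurableSet_Ioi
    (fun ρ : ℝ => ENNReal.ofReal (ρ ^ (n - 1)) * G (ρ • (θ : E n)))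

/-- polar coordinates for the Gaussian weight -/
theorem lintegral_gw (hn : 2 ≤ n) {F : E n → ℝ≥0∞} (hF : Measurable F) :
    ∫⁻ x, F x ∂gw n =
      ∫⁻ θ, (∫⁻ r in Ioi (0 : ℝ), ENNReal.ofReal (r ^ (n - 1) * Real.exp (-(r ^ 2 / 2))) *
        F (r • (θ : E n))) ∂sg n := by
  have hd : Measurable fun x : E n => ENNReal.ofReal (Real.exp (-(‖x‖ ^ 2 / 2))) := by
    have : Continuous fun x : E n => Real.exp (-(‖x‖ ^ 2 / 2)) := by fun_prop
    exact this.measurable.ennreal_ofReal
  unfold gw
  rw [lintegral_withDensity_eq_lintegral_mul _ hd hF, polar_E hn (hd.mul hF)]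
  apply lintegral_congr
  intro θ
  have hθ : ‖(θ : E n)‖ = 1 := by
    have := θ.2
    rwa [mem_sphere_zero_iff_norm] at this
  apply setLIntegral_congr_fun measurableSet_Ioi
  intro r hr
  have hr' : (0 : ℝ) < r := hr
  simp only [Pi.mul_apply]
  rw [norm_smul, hθ, mul_one, Real.norm_eq_abs, sq_abs, ENNReal.ofReal_mul (by positivity), mul_assoc]

end Pool.Agent.H62.WS
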