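import Mathlib

/-!
# [H62 WS POINSR] The radial integrals

`(r^n e^{-r²/2})' = n r^(n-1) e^{-r²/2} - r^(n+1) e^{-r²/2}`, limits `0` at `0` and `∞` (`n ≥ 1`); or the Gamma function values `integral_rpow_mul_exp_neg_mul_sq`-like
(`∫_0^∞ r^q e^{-b r²} dr = b^(-(q+1)/2) (1/2) Γ((q+1)/2)`: `integral_rpow_mul_exp_neg_mul_rpow`), `Real.Gamma_add_one`.
-/

set_option autoImplicit false

namespace Pool.Agent.H62.WS

open scoped ENNReal
open MeasureTheory Set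

private theorem poinSR_int (m : ℕ) :
    IntegrableOn (fun r : ℝ => r ^ m * Real.exp (-(r ^ 2 / 2))) (Ioi 0) := by
  have h := integrableOn_rpow_mul_exp_neg_mul_sq (b := 1 / 2) (by norm_num) (s := (m : ℝ))
    (by have : (0 : ℝ) ≤ m := Nat.cast_nonneg m
        linarith)
  refine h.congr_fun ?_ measurableSet_Ioi
  intro r hr
  dsimp only
  rw [Real.rpow_natCast]
  congr 2
  ring

private theorem poinSR_val (m : ℕ) :
    ∫ r in Ioi (0 : ℝ), r ^ m * Real.exp (-(r ^ 2 / 2)) =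
      (1 / 2 : ℝ) ^ (-((m : ℝ) + 1) / 2) * (1 / 2) * Real.Gamma (((m : ℝ) + 1) / 2) := by
  have hm : (0 : ℝ) ≤ m := Nat.cast_nonneg m
  have h := integral_rpow_mul_exp_neg_mul_rpow (p := 2) (q := (m : ℝ)) (b := 1 / 2)
    (by norm_num) (by linarith) (by norm_num)
  rw [← h]
  apply setIntegral_congr_fun measurableSet_Ioi
  intro r hr
  dsimp only
  rw [Real.rpow_natCast]
  congr 2
  rw [show (2 : ℝ) = ((2 : ℕ) : ℝ) by norm_num, Real.rpow_natCast]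
  push_cast
  ring

private theorem poinSR_eq (m : ℕ) :
    ∫⁻ r in Ioi (0 : ℝ), ENNReal.ofReal (r ^ m * Real.exp (-(r ^ 2 / 2))) =
      ENNReal.ofReal ((1 / 2 : ℝ) ^ (-((m : ℝ) + 1) / 2) * (1 / 2) *
        Real.Gamma (((m : ℝ) + 1) / 2)) := by
  rw [← poinSR_val, ofReal_integral_eq_lintegral_ofReal (poinSR_int m)]
  filter_upwards [ae_restrict_mem measurableSet_Ioi] with r hr
  have : (0 : ℝ) < r := hr
  show (0 : ℝ) ≤ r ^ m * Real.exp (-(r ^ 2 / 2))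
  positivity

/-- the radial integrals -/
theorem radial_integrals {n : ℕ} (hn : 2 ≤ n) :
    ∫⁻ r in Ioi (0 : ℝ), ENNReal.ofReal (r ^ (n - 1) * Real.exp (-(r ^ 2 / 2)) * r ^ 2) =
      n * ∫⁻ r in Ioi (0 : ℝ), ENNReal.ofReal (r ^ (n - 1) * Real.exp (-(r ^ 2 / 2))) := by
  have h1 : ∀ r : ℝ, r ^ (n - 1) * Real.exp (-(r ^ 2 / 2)) * r ^ 2 =
      r ^ (n + 1) * Real.exp (-(r ^ 2 / 2)) := by
    intro r
    have h2 : r ^ (n + 1) = r ^ (n - 1) * r ^ 2 := by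
      rw [← pow_add]
      congr 1
      omega
    rw [h2]
    ring
  simp only [h1]
  rw [poinSR_eq, poinSR_eq, ← ENNReal.ofReal_natCast, ← ENNReal.ofReal_mul (Nat.cast_nonneg n)]
  congr 1
  have hn0 : (0 : ℝ) < n := by
    have : 0 < n := by omega
    exact_mod_cast this
  have h3 : (((n - 1 : ℕ) : ℝ) + 1) = n := by
    rw [Nat.cast_sub (by omega)]
    push_cast
    ring
  rw [h3]
  have h4 : (((n + 1 : ℕ) : ℝ) + 1) / 2 = (n : ℝ) / 2 + 1 := by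
    push_cast
    ring
  have h5 : -(((n + 1 : ℕ) : ℝ) + 1) / 2 = -(n : ℝ) / 2 - 1 := by
    push_cast
    ring
  rw [h4, h5, Real.Gamma_add_one (by positivity), Real.rpow_sub (by norm_num), Real.rpow_one]
  ring

theorem radial_lt_top {n : ℕ} (hn : 2 ≤ n) :
    ∫⁻ r in Ioi (0 : ℝ), ENNReal.ofReal (r ^ (n - 1) * Real.exp (-(r ^ 2 / 2))) < ∞ := by
  rw [poinSR_eq]
  exact ENNReal.ofReal_lt_top

theorem radial_pos {n : ℕ} (hn : 2 ≤ n) :
    0 < ∫⁻ r in Ioi (0 : ℝ), ENNReal.ofReal (r ^ (n - 1) * Real.exp (-(r ^ 2 / 2))) := by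
  rw [poinSR_eq, ENNReal.ofReal_pos]
  have h1 : 0 < Real.Gamma ((((n - 1 : ℕ) : ℝ) + 1) / 2) := by
    apply Real.Gamma_pos_of_pos
    positivity
  positivity

end Pool.Agent.H62.WS
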