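import Pool.Agent.H62.WS.PoinF
import Pool.Agent.H62.WS.PoinSA
import Pool.Agent.H62.WS.PoinSR
import Pool.Agent.H62.WS.GaussN

set_option autoImplicit false

/-!
# [H62 WS POINS] The sharp Poincare inequality on the unit sphere

`m` the mean of `θ ↦ u(s θ)`, `v θ = u(s θ) - m`, `∫ v dsg = 0`, `F = FF u s m`, `F(rθ) = r v(θ)`.  `gauss_poincare` for `F` (`continuous_FF`, `contDiffOn_FF`, `exists_bound_FF`).  Let `I = ∫ r^(n-1) e^{-r²/2} dr` (`radial_lt_top`, `radial_pos`), `ω = sg(univ)`,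
`gw n univ = ω I` (`lintegral_gw`).  Left side: `∬ (F x - F y)² dgw dgw = 2 gw(univ) ∫F² - 2 (∫F)² = 2 (ω I) (n I ∫ v²)` (`radial_integrals`; `∫ F dgw = (∫ r^n e^{-r²/2}) ∫ v dsg = 0`).  Right side: `2 (ω I) I ∫ (v² + s² (..)) dsg`
(`norm_fderiv_FF`, `lintegral_gw`).  Hence `(n-1) ∫ v² ≤ ∫ s² (..)`, and `∬ (u(sθ) - u(sη))² = ∬ (v θ - v η)² = 2 ω ∫ v²`.  (All functions are bounded and continuous on the compact sphere, `sg n` is finite.)
-/

namespace Pool.Agent.H62.WS

open scoped RealInnerProductSpace MeasureTheory ENNReal NNReal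
open MeasureTheory Set Metric

variable {n : ℕ}

/-- a double integral -/
theorem double_integral_sq {α : Type*} [MeasurableSpace α] {μ : Measure α} [IsFiniteMeasure μ]
    {f : α → ℝ} (hf : Integrable f μ) (hf2 : Integrable (fun x => f x ^ 2) μ) :
    ∫ x, (∫ y, (f x - f y) ^ 2 ∂μ) ∂μ = 2 * μ.real univ * (∫ x, f x ^ 2 ∂μ) - 2 * (∫ x, f x ∂μ) ^ 2 := by
  have h1 : ∀ x, ∫ y, (f x - f y) ^ 2 ∂μ =
      μ.real univ * f x ^ 2 - 2 * f x * (∫ y, f y ∂μ) + ∫ y, f y ^ 2 ∂μ := by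
    intro x
    have e : ∀ y, (f x - f y) ^ 2 = (f x ^ 2 - 2 * f x * f y) + f y ^ 2 := fun y => by ring
    have i1 : Integrable (fun y => 2 * f x * f y) μ := hf.const_mul _
    have i2 : Integrable (fun y => f x ^ 2 - 2 * f x * f y) μ := (integrable_const _).sub i1
    simp only [e]
    rw [integral_add i2 hf2, integral_sub (integrable_const _) i1, integral_const,
      integral_const_mul, smul_eq_mul]
  simp only [h1]
  have e : ∀ x, μ.real univ * f x ^ 2 - 2 * f x * (∫ y, f y ∂μ) + ∫ y, f y ^ 2 ∂μ =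
      (μ.real univ * f x ^ 2 - (2 * ∫ y, f y ∂μ) * f x) + ∫ y, f y ^ 2 ∂μ := fun x => by ring
  have i1 : Integrable (fun x => μ.real univ * f x ^ 2) μ := hf2.const_mul _
  have i2 : Integrable (fun x => (2 * ∫ y, f y ∂μ) * f x) μ := hf.const_mul _
  have i3 : Integrable (fun x => μ.real univ * f x ^ 2 - (2 * ∫ y, f y ∂μ) * f x) μ := i1.sub i2
  simp only [e]
  rw [integral_add i3 (integrable_const _), integral_sub i1 i2, integral_const, integral_const_mul,
    integral_const_mul, smul_eq_mul]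
  ring

/-- the corresponding lower integral, for functions of mean zero -/
theorem double_lintegral_sq {α : Type*} [MeasurableSpace α] {μ : Measure α} [IsFiniteMeasure μ]
    {f : α → ℝ} (hf : Integrable f μ) (hf2 : Integrable (fun x => f x ^ 2) μ)
    (h0 : ∫ x, f x ∂μ = 0) :
    ∫⁻ x, (∫⁻ y, ENNReal.ofReal ((f x - f y) ^ 2) ∂μ) ∂μ =
      2 * μ univ * ∫⁻ x, ENNReal.ofReal (f x ^ 2) ∂μ := by
  have hi : ∀ x, Integrable (fun y => (f x - f y) ^ 2) μ := by
    intro x
    have e : ∀ y, (f x - f y) ^ 2 = (f x ^ 2 - 2 * f x * f y) + f y ^ 2 := fun y => by ring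
    simp only [e]
    exact ((integrable_const _).sub (hf.const_mul _)).add hf2
  have h1 : ∀ x, ∫ y, (f x - f y) ^ 2 ∂μ = μ.real univ * f x ^ 2 + ∫ y, f y ^ 2 ∂μ := by
    intro x
    have e : ∀ y, (f x - f y) ^ 2 = (f x ^ 2 - 2 * f x * f y) + f y ^ 2 := fun y => by ring
    have i1 : Integrable (fun y => 2 * f x * f y) μ := hf.const_mul _
    have i2 : Integrable (fun y => f x ^ 2 - 2 * f x * f y) μ := (integrable_const _).sub i1
    simp only [e]
    rw [integral_add i2 hf2, integral_sub (integrable_const _) i1, integral_const,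
      integral_const_mul, smul_eq_mul, h0]
    ring
  have h2 : ∀ x, ∫⁻ y, ENNReal.ofReal ((f x - f y) ^ 2) ∂μ =
      ENNReal.ofReal (μ.real univ * f x ^ 2 + ∫ y, f y ^ 2 ∂μ) := by
    intro x
    rw [← h1 x, ofReal_integral_eq_lintegral_ofReal (hi x) (ae_of_all _ fun y => sq_nonneg _)]
  have hn : 0 ≤ ∫ y, f y ^ 2 ∂μ := integral_nonneg fun y => sq_nonneg _
  have i1 : Integrable (fun x => μ.real univ * f x ^ 2) μ := hf2.const_mul _
  have i2 : Integrable (fun x => μ.real univ * f x ^ 2 + ∫ y, f y ^ 2 ∂μ) μ :=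
    i1.add (integrable_const _)
  simp only [h2]
  rw [← ofReal_integral_eq_lintegral_ofReal i2
    (ae_of_all _ fun x => add_nonneg (mul_nonneg measureReal_nonneg (sq_nonneg _)) hn),
    ← ofReal_integral_eq_lintegral_ofReal hf2 (ae_of_all _ fun x => sq_nonneg _),
    integral_add i1 (integrable_const _), integral_const, integral_const_mul,
    smul_eq_mul, ← two_mul, ENNReal.ofReal_mul zero_le_two, ENNReal.ofReal_mul measureReal_nonneg,
    measureReal_def, ENNReal.ofReal_toReal (measure_ne_top _ _)]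
  simp only [ENNReal.ofReal_ofNat]
  ring

theorem FF_smul (u : E n → ℝ) (s m : ℝ) {r : ℝ} (hr : 0 < r) (θ : sphere (0 : E n) 1) :
    FF u s m (r • (θ : E n)) = r * (u (s • (θ : E n)) - m) := by
  have h1 : ‖(θ : E n)‖ = 1 := by simp
  have h2 : r⁻¹ • r • (θ : E n) = θ := by rw [smul_smul, inv_mul_cancel₀ hr.ne', one_smul]
  unfold FF
  rw [norm_smul, h1, mul_one, Real.norm_of_nonneg hr.le, h2]

theorem integrable_of_continuous_sphere {f : sphere (0 : E n) 1 → ℝ} (hf : Continuous f) :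
    Integrable f (sg n) :=
  hf.integrable_of_hasCompactSupport (HasCompactSupport.of_compactSpace f)

theorem poincare_sphere (hn : 2 ≤ n) {u : E n → ℝ} (hu : ContDiff ℝ 1 u) {s : ℝ} (hs : 0 < s) :
    ((n - 1 : ℕ) : ℝ) * ∫ θ, (∫ η, (u (s • (θ : E n)) - u (s • (η : E n))) ^ 2 ∂sg n) ∂sg n ≤
      2 * (sg n).real univ * ∫ θ, s ^ 2 * (‖fderiv ℝ u (s • (θ : E n))‖ ^ 2 -
        (fderiv ℝ u (s • (θ : E n)) (θ : E n)) ^ 2) ∂sg n := by
  have hω0 : 0 < sg n univ := sg_univ_pos hn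
  have hω : 0 < (sg n).real univ := ENNReal.toReal_pos hω0.ne' (measure_ne_top _ _)
  set m : ℝ := (∫ θ, u (s • (θ : E n)) ∂sg n) / (sg n).real univ with hm
  set v : sphere (0 : E n) 1 → ℝ := fun θ => u (s • (θ : E n)) - m with hv
  have hsc : Continuous fun θ : sphere (0 : E n) 1 => s • (θ : E n) :=
    continuous_subtype_val.const_smul s
  have hbc : Continuous fun θ : sphere (0 : E n) 1 => u (s • (θ : E n)) :=
    hu.continuous.comp hsc
  have hvc : Continuous v := hbc.sub continuous_const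
  have hvi : Integrable v (sg n) := integrable_of_continuous_sphere hvc
  have hv2 : Integrable (fun θ => v θ ^ 2) (sg n) := integrable_of_continuous_sphere (hvc.pow 2)
  have hv0 : ∫ θ, v θ ∂sg n = 0 := by
    rw [hv, integral_sub (integrable_of_continuous_sphere hbc) (integrable_const _), integral_const,
      smul_eq_mul, hm, mul_div_cancel₀ _ hω.ne', sub_self]
  -- the tangential energy
  set K : sphere (0 : E n) 1 → ℝ := fun θ => s ^ 2 * (‖fderiv ℝ u (s • (θ : E n))‖ ^ 2 -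
        (fderiv ℝ u (s • (θ : E n)) (θ : E n)) ^ 2) with hK
  have hdc : Continuous fun θ : sphere (0 : E n) 1 => fderiv ℝ u (s • (θ : E n)) :=
    (hu.continuous_fderiv one_ne_zero).comp hsc
  have hKc : Continuous K :=
    continuous_const.mul ((hdc.norm.pow 2).sub ((hdc.clm_apply continuous_subtype_val).pow 2))
  have hKi : Integrable K (sg n) := integrable_of_continuous_sphere hKc
  have hK0 : ∀ θ, 0 ≤ K θ := by
    intro θ
    have h1 : ‖(θ : E n)‖ = 1 := by simp
    have h2 := (fderiv ℝ u (s • (θ : E n))).le_opNorm (θ : E n)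
    rw [h1, mul_one] at h2
    have h3 : (fderiv ℝ u (s • (θ : E n)) (θ : E n)) ^ 2 ≤ ‖fderiv ℝ u (s • (θ : E n))‖ ^ 2 := by
      rw [← sq_abs, ← Real.norm_eq_abs]
      exact pow_le_pow_left₀ (norm_nonneg _) h2 2
    exact mul_nonneg (sq_nonneg _) (by linarith)
  -- the homogeneous extension
  set F := FF u s m with hFdef
  have hFc : Continuous F := continuous_FF hu s m
  obtain ⟨C, hC⟩ := exists_bound_FF hu s m
  have hP := gauss_poincare hn hFc (contDiffOn_FF hu s m) hC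
  set w : ℝ → ℝ≥0∞ := fun r => ENNReal.ofReal (r ^ (n - 1) * Real.exp (-(r ^ 2 / 2))) with hw
  have hwm : Measurable w := by
    rw [hw]
    fun_prop
  set I : ℝ≥0∞ := ∫⁻ r in Ioi (0 : ℝ), w r with hI
  have hI0 : 0 < I := radial_pos hn
  have hI1 : I < ∞ := radial_lt_top hn
  have hfin : IsFiniteMeasure (gw n) := ⟨gw_univ_lt_top n⟩
  -- second moment
  have hF2 : ∫⁻ x, ENNReal.ofReal (F x ^ 2) ∂gw n = n * I * ∫⁻ θ, ENNReal.ofReal (v θ ^ 2) ∂sg n := by
    rw [lintegral_gw hn ((hFc.measurable.pow_const 2).ennreal_ofReal)]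
    rw [← lintegral_const_mul _ ((hvc.measurable.pow_const 2).ennreal_ofReal)]
    refine lintegral_congr fun θ => ?_
    have e1 : ∫⁻ r in Ioi (0 : ℝ), w r * ENNReal.ofReal (F (r • (θ : E n)) ^ 2) =
        ∫⁻ r in Ioi (0 : ℝ), ENNReal.ofReal (r ^ (n - 1) * Real.exp (-(r ^ 2 / 2)) * r ^ 2) *
          ENNReal.ofReal (v θ ^ 2) := by
      refine setLIntegral_congr_fun measurableSet_Ioi fun r hr => ?_
      have hr' : 0 < r := hr
      simp only [hw]
      rw [hFdef, FF_smul u s m hr' θ, ← ENNReal.ofReal_mul (by positivity),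
        ← ENNReal.ofReal_mul (by positivity)]
      congr 1
      simp only [hv]
      ring
    rw [e1, lintegral_mul_const _ (by fun_prop), radial_integrals hn]
  have hF2' : Integrable (fun x => F x ^ 2) (gw n) := by
    have hFs : Continuous fun x => F x ^ 2 := hFc.pow 2
    rw [← lintegral_ofReal_ne_top_iff_integrable hFs.aestronglyMeasurable
      (ae_of_all _ fun x => sq_nonneg _), hF2]
    refine (ENNReal.mul_lt_top (ENNReal.mul_lt_top (ENNReal.natCast_lt_top n) hI1) ?_).ne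
    exact hv2.lintegral_lt_top
  have hF1' : Integrable F (gw n) :=
    ((memLp_two_iff_integrable_sq hFc.aestronglyMeasurable).mpr hF2').integrable one_le_two
  -- first moment
  have hF0 : ∫ x, F x ∂gw n = 0 := by
    have hpos : ∀ c : ℝ, ∫⁻ x, ENNReal.ofReal (c * F x) ∂gw n =
        (∫⁻ r in Ioi (0 : ℝ), w r * ENNReal.ofReal r) * ∫⁻ θ, ENNReal.ofReal (c * v θ) ∂sg n := by
      intro c
      rw [lintegral_gw hn ((hFc.measurable.const_mul c).ennreal_ofReal),
        ← lintegral_const_mul _ ((hvc.measurable.const_mul c).ennreal_ofReal)]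
      refine lintegral_congr fun θ => ?_
      have hwr : Measurable fun r : ℝ => w r * ENNReal.ofReal r := hwm.mul ENNReal.measurable_ofReal
      rw [← lintegral_mul_const _ hwr]
      refine setLIntegral_congr_fun measurableSet_Ioi fun r hr => ?_
      have hr' : 0 < r := hr
      rw [hFdef, FF_smul u s m hr' θ, mul_assoc, ← ENNReal.ofReal_mul hr'.le]
      congr 2
      simp only [hv]
      ring
    have h1 := hpos 1
    have h2 := hpos (-1)
    simp only [one_mul] at h1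
    simp only [neg_mul, one_mul] at h2
    have h3 := integral_eq_lintegral_pos_part_sub_lintegral_neg_part hvi
    rw [hv0] at h3
    have h4 : (∫⁻ θ, ENNReal.ofReal (v θ) ∂sg n) = ∫⁻ θ, ENNReal.ofReal (-v θ) ∂sg n := by
      have t1 : (∫⁻ θ, ENNReal.ofReal (v θ) ∂sg n) ≠ ∞ := hvi.lintegral_lt_top.ne
      have t2 : (∫⁻ θ, ENNReal.ofReal (-v θ) ∂sg n) ≠ ∞ := hvi.neg.lintegral_lt_top.ne
      rw [← ENNReal.toReal_eq_toReal_iff' t1 t2]
      linarith
    rw [integral_eq_lintegral_pos_part_sub_lintegral_neg_part hF1', h1, h2, h4, sub_self]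
  -- the energy
  have hE : ∫⁻ x, ENNReal.ofReal (‖fderiv ℝ F x‖ ^ 2) ∂gw n =
      I * ∫⁻ θ, ENNReal.ofReal (v θ ^ 2 + K θ) ∂sg n := by
    have hvK : Measurable fun θ => ENNReal.ofReal (v θ ^ 2 + K θ) :=
      ((hvc.pow 2).add hKc).measurable.ennreal_ofReal
    rw [lintegral_gw hn (((measurable_fderiv ℝ F).norm.pow_const 2).ennreal_ofReal),
      ← lintegral_const_mul _ hvK]
    refine lintegral_congr fun θ => ?_
    rw [hI, ← lintegral_mul_const _ hwm]
    refine setLIntegral_congr_fun measurableSet_Ioi fun r hr => ?_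
    have hr' : 0 < r := hr
    rw [hFdef, norm_fderiv_FF hu s m hr' θ]
  rw [double_lintegral_sq hF1' hF2' hF0, hF2, hE] at hP
  have hg0 : 2 * gw n univ * I ≠ 0 := by
    refine mul_ne_zero (mul_ne_zero two_ne_zero (gw_univ_pos n).ne') hI0.ne'
  have hg1 : 2 * gw n univ * I ≠ ∞ :=
    (ENNReal.mul_lt_top (ENNReal.mul_lt_top ENNReal.ofNat_lt_top (gw_univ_lt_top n)) hI1).ne
  have h5 : (n : ℝ≥0∞) * ∫⁻ θ, ENNReal.ofReal (v θ ^ 2) ∂sg n ≤
      ∫⁻ θ, ENNReal.ofReal (v θ ^ 2 + K θ) ∂sg n := by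
    refine (ENNReal.mul_le_mul_iff_right hg0 hg1).mp ?_
    calc 2 * gw n univ * I * ((n : ℝ≥0∞) * ∫⁻ θ, ENNReal.ofReal (v θ ^ 2) ∂sg n)
        = 2 * gw n univ * ((n : ℝ≥0∞) * I * ∫⁻ θ, ENNReal.ofReal (v θ ^ 2) ∂sg n) := by ring
      _ ≤ 2 * gw n univ * (I * ∫⁻ θ, ENNReal.ofReal (v θ ^ 2 + K θ) ∂sg n) := hP
      _ = _ := by ring
  have hvKi : Integrable (fun θ => v θ ^ 2 + K θ) (sg n) := hv2.add hKi
  rw [← ofReal_integral_eq_lintegral_ofReal hv2 (ae_of_all _ fun x => sq_nonneg _),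
    ← ofReal_integral_eq_lintegral_ofReal hvKi
      (ae_of_all _ fun x => add_nonneg (sq_nonneg _) (hK0 x)), ← ENNReal.ofReal_natCast,
    ← ENNReal.ofReal_mul (Nat.cast_nonneg n), ENNReal.ofReal_le_ofReal_iff
      (integral_nonneg fun x => add_nonneg (sq_nonneg _) (hK0 x)),
    integral_add hv2 hKi] at h5
  have e2 : ∀ θ η : sphere (0 : E n) 1, (u (s • (θ : E n)) - u (s • (η : E n))) ^ 2 =
      (v θ - v η) ^ 2 := by
    intro θ η
    simp only [hv]
    ring
  simp only [e2]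
  rw [double_integral_sq hvi hv2, hv0]
  have hcast : ((n - 1 : ℕ) : ℝ) = n - 1 := by
    rw [Nat.cast_sub (by omega), Nat.cast_one]
  rw [hcast]
  have h6 : ((n : ℝ) - 1) * ∫ θ, v θ ^ 2 ∂sg n ≤ ∫ θ, K θ ∂sg n := by linarith
  have h7 : 2 * (sg n).real univ * (((n : ℝ) - 1) * ∫ θ, v θ ^ 2 ∂sg n) ≤
      2 * (sg n).real univ * ∫ θ, K θ ∂sg n := by gcongr
  calc _ = 2 * (sg n).real univ * (((n : ℝ) - 1) * ∫ θ, v θ ^ 2 ∂sg n) := by ring
    _ ≤ _ := h7

end Pool.Agent.H62.WS
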