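import Mathlib

set_option autoImplicit false

/-!
# [H62 WS HUNIF] Uniformly distributed measures are unique (Christensen's lemma)

`h r = μ (ball x r) > 0`, `k r = ν (ball x r) > 0` for `r > 0` (finitely many balls of radius `r` cover `X`, all have the same measure, so
measure `0` would give `μ = 0`).  For `U` open, `ν U ≤ liminf_{r → 0} (h r)⁻¹ ∫⁻_{x ∈ U} μ (U ∩ ball x r) dν` (Fatou:
`lintegral_liminf_le` along `r = 1/(j+1)`; for `x ∈ U` the integrand is eventually `1`) `= liminf (h r)⁻¹ ∫⁻_{y ∈ U} ν (U ∩ ball y r) dμ`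
(Tonelli for the open set `{(x,y) | dist x y < r}`) `≤ (liminf k r / h r) μ U =: c₁ μ U`.  In the same way `μ U ≤ c₂ ν U`,
`c₂ = liminf h r / k r`; `c₁ c₂ ≤ 1` and from `U = univ` `c₁ c₂ ≥ 1`; so `ν U = c₁ μ U` for all open `U`, hence `ν = c₁ • μ`
(`Measure.ext_of_generateFrom_of_iUnion`/`ext_of_generate_finite`, open sets are a π-system).
-/

namespace Pool.Agent.H62.WS

open scoped MeasureTheory ENNReal NNReal
open MeasureTheory Set Metric

private theorem hu_pos {X : Type*} [MetricSpace X] [CompactSpace X] [MeasurableSpace X]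
    [BorelSpace X] (μ : Measure X) (hμ : μ ≠ 0)
    (h1 : ∀ (x y : X) (r : ℝ), μ (ball x r) = μ (ball y r)) (x : X) {r : ℝ} (hr : 0 < r) :
    μ (ball x r) ≠ 0 := by
  intro h0
  apply hμ
  rw [← Measure.measure_univ_eq_zero]
  refine measure_null_of_locally_null _ fun y _ => ⟨ball y r, ?_, ?_⟩
  · exact mem_nhdsWithin_of_mem_nhds (ball_mem_nhds y hr)
  · rw [h1 y x r, h0]

private theorem hu_key {X : Type*} [MetricSpace X] [CompactSpace X] [MeasurableSpace X]
    [BorelSpace X] (μ ν : Measure X) [IsFiniteMeasure μ] [IsFiniteMeasure ν] (r : ℕ → ℝ)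
    (hr : Filter.Tendsto r Filter.atTop (nhds 0)) (h k : ℕ → ℝ≥0∞)
    (hh : ∀ j x, μ (ball x (r j)) = h j) (hk : ∀ j x, ν (ball x (r j)) = k j)
    (h0 : ∀ j, h j ≠ 0) (ht : ∀ j, h j ≠ ⊤) {U : Set X} (hU : IsOpen U) :
    ν U ≤ Filter.liminf (fun j => k j / h j) Filter.atTop * μ U := by
  have hS : ∀ s : ℝ, MeasurableSet {p : X × X | dist p.1 p.2 < s} := fun s =>
    (isOpen_lt (continuous_dist) continuous_const).measurableSet
  have hmeas : ∀ s : ℝ, Measurable fun x => (μ.restrict U) (ball x s) := by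
    intro s
    have h2 := measurable_measure_prodMk_left (ν := μ.restrict U) (hS s)
    have h3 : (fun x => (μ.restrict U) (Prod.mk x ⁻¹' {p : X × X | dist p.1 p.2 < s})) =
        fun x => (μ.restrict U) (ball x s) := by
      funext x
      congr 1
      ext y
      simp [dist_comm]
    rw [h3] at h2
    exact h2
  have hswap : ∀ s : ℝ, ∫⁻ x, (μ.restrict U) (ball x s) ∂(ν.restrict U) =
      ∫⁻ y, (ν.restrict U) (ball y s) ∂(μ.restrict U) := by
    intro s
    have h2 := Measure.prod_apply (μ := ν.restrict U) (ν := μ.restrict U) (hS s)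
    have h3 := Measure.prod_apply_symm (μ := ν.restrict U) (ν := μ.restrict U) (hS s)
    have h4 : ∀ x : X, Prod.mk x ⁻¹' {p : X × X | dist p.1 p.2 < s} = ball x s := by
      intro x
      ext y
      simp [dist_comm]
    have h5 : ∀ y : X, (fun x => (x, y)) ⁻¹' {p : X × X | dist p.1 p.2 < s} = ball y s := by
      intro y
      ext x
      simp
    simp_rw [h4] at h2
    simp_rw [h5] at h3
    rw [← h2, h3]
  have e1 : ν U = ∫⁻ _x, 1 ∂(ν.restrict U) := by
    rw [lintegral_const, one_mul, Measure.restrict_apply_univ]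
  have e2 : ∫⁻ _x, (1 : ℝ≥0∞) ∂(ν.restrict U) ≤
      ∫⁻ x, Filter.liminf (fun j => (μ.restrict U) (ball x (r j)) / h j) Filter.atTop
        ∂(ν.restrict U) := by
    refine lintegral_mono_ae ?_
    filter_upwards [ae_restrict_mem hU.measurableSet] with x hx
    obtain ⟨ε, hε, hεU⟩ := Metric.isOpen_iff.1 hU x hx
    have h2 : ∀ᶠ j in Filter.atTop, (μ.restrict U) (ball x (r j)) / h j = 1 := by
      filter_upwards [hr.eventually_lt_const hε] with j hj
      rw [Measure.restrict_apply measurableSet_ball,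
        inter_eq_left.2 ((ball_subset_ball hj.le).trans hεU), hh j x,
        ENNReal.div_self (h0 j) (ht j)]
    rw [Filter.liminf_congr h2, Filter.liminf_const]
  rw [e1]
  refine e2.trans ((lintegral_liminf_le fun j => (hmeas (r j)).div_const _).trans ?_)
  have e3 : ∀ j, ∫⁻ x, (μ.restrict U) (ball x (r j)) / h j ∂(ν.restrict U) ≤ k j / h j * μ U := by
    intro j
    simp_rw [div_eq_mul_inv]
    rw [lintegral_mul_const _ (hmeas (r j)), hswap]
    have h3 : ∫⁻ y, (ν.restrict U) (ball y (r j)) ∂(μ.restrict U) ≤ k j * μ U := by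
      calc ∫⁻ y, (ν.restrict U) (ball y (r j)) ∂(μ.restrict U)
          ≤ ∫⁻ _y, k j ∂(μ.restrict U) := by
            refine lintegral_mono fun y => ?_
            rw [← hk j y]
            exact Measure.restrict_apply_le _ _
        _ = k j * μ U := by
            rw [lintegral_const, Measure.restrict_apply_univ]
    calc (∫⁻ y, (ν.restrict U) (ball y (r j)) ∂(μ.restrict U)) * (h j)⁻¹
        ≤ k j * μ U * (h j)⁻¹ := mul_le_mul_left h3 _
      _ = k j * (h j)⁻¹ * μ U := by ring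
  refine (Filter.liminf_le_liminf (Filter.Eventually.of_forall e3)).trans (le_of_eq ?_)
  rw [ENNReal.liminf_mul_const_of_ne_top (measure_ne_top μ U), mul_comm]

theorem smul_eq_smul_of_uniform {X : Type*} [MetricSpace X] [CompactSpace X] [MeasurableSpace X]
    [BorelSpace X] (μ ν : Measure X) [IsFiniteMeasure μ] [IsFiniteMeasure ν] (hμ : μ ≠ 0)
    (hν : ν ≠ 0) (h1 : ∀ (x y : X) (r : ℝ), μ (ball x r) = μ (ball y r))
    (h2 : ∀ (x y : X) (r : ℝ), ν (ball x r) = ν (ball y r)) :
    (ν univ) • μ = (μ univ) • ν := by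
  have hne : Nonempty X := by
    by_contra hX
    rw [not_nonempty_iff] at hX
    exact hμ (Subsingleton.elim _ _)
  obtain ⟨x0⟩ := hne
  obtain ⟨r, hr⟩ : ∃ r : ℕ → ℝ, r = fun j : ℕ => 1 / ((j : ℝ) + 1) := ⟨_, rfl⟩
  have hr0 : ∀ j, 0 < r j := fun j => by rw [hr]; positivity
  have hrt : Filter.Tendsto r Filter.atTop (nhds 0) := by
    rw [hr]
    exact tendsto_one_div_add_atTop_nhds_zero_nat
  obtain ⟨h, hh⟩ : ∃ h : ℕ → ℝ≥0∞, h = fun j => μ (ball x0 (r j)) := ⟨_, rfl⟩
  obtain ⟨k, hk⟩ : ∃ k : ℕ → ℝ≥0∞, k = fun j => ν (ball x0 (r j)) := ⟨_, rfl⟩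
  have hh1 : ∀ j x, μ (ball x (r j)) = h j := fun j x => by rw [hh]; exact h1 _ _ _
  have hk1 : ∀ j x, ν (ball x (r j)) = k j := fun j x => by rw [hk]; exact h2 _ _ _
  have hh0 : ∀ j, h j ≠ 0 := fun j => by rw [hh]; exact hu_pos μ hμ h1 x0 (hr0 j)
  have hk0 : ∀ j, k j ≠ 0 := fun j => by rw [hk]; exact hu_pos ν hν h2 x0 (hr0 j)
  have hht : ∀ j, h j ≠ ⊤ := fun j => by rw [hh]; exact measure_ne_top _ _
  have hkt : ∀ j, k j ≠ ⊤ := fun j => by rw [hk]; exact measure_ne_top _ _
  obtain ⟨C, hC⟩ : ∃ C, C = Filter.limsup (fun j => k j / h j) Filter.atTop := ⟨_, rfl⟩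
  have key1 : ∀ U : Set X, IsOpen U → ν U ≤ C * μ U := by
    intro U hU
    refine (hu_key μ ν r hrt h k hh1 hk1 hh0 hht hU).trans ?_
    rw [hC]
    exact mul_le_mul_left Filter.liminf_le_limsup _
  have key2 : ∀ U : Set X, IsOpen U → μ U ≤ C⁻¹ * ν U := by
    intro U hU
    refine (hu_key ν μ r hrt k h hk1 hh1 hk0 hkt hU).trans (le_of_eq ?_)
    rw [hC, ENNReal.inv_limsup]
    congr 2
    funext j
    rw [ENNReal.inv_div (Or.inl (hht j)) (Or.inl (hh0 j))]
  have hμ0 : μ univ ≠ 0 := fun h => hμ (Measure.measure_univ_eq_zero.1 h)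
  have hν0 : ν univ ≠ 0 := fun h => hν (Measure.measure_univ_eq_zero.1 h)
  have hC0 : C ≠ 0 := by
    intro h3
    have := key1 univ isOpen_univ
    rw [h3, zero_mul] at this
    exact hν0 (le_antisymm this bot_le)
  have hCt : C ≠ ⊤ := by
    intro h3
    have := key2 univ isOpen_univ
    rw [h3, ENNReal.inv_top, zero_mul] at this
    exact hμ0 (le_antisymm this bot_le)
  have key : ∀ U : Set X, IsOpen U → ν U = C * μ U := by
    intro U hU
    refine le_antisymm (key1 U hU) ?_
    calc C * μ U ≤ C * (C⁻¹ * ν U) := mul_le_mul_right (key2 U hU) _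
      _ = ν U := by rw [← mul_assoc, ENNReal.mul_inv_cancel hC0 hCt, one_mul]
  have hfin1 : IsFiniteMeasure ((ν univ) • μ) := Measure.smul_finite μ (measure_ne_top ν univ)
  have e : ∀ U : Set X, IsOpen U → ((ν univ) • μ) U = ((μ univ) • ν) U := by
    intro U hU
    rw [Measure.smul_apply, Measure.smul_apply, smul_eq_mul, smul_eq_mul, key U hU,
      key univ isOpen_univ]
    ring
  refine ext_of_generate_finite {s : Set X | IsOpen s} ?_ isPiSystem_isOpen e (e univ isOpen_univ)
  exact BorelSpace.measurable_eq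

end Pool.Agent.H62.WS
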