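import Pool.Agent.H62.WS.HLoc
import Pool.Agent.H62.WS.HUnif
import Pool.Agent.H62.WS.Polar

set_option autoImplicit false

/-!
# [H62 WS HSPHB] Balls of the same radius of the unit sphere have the same measure

For two points `x, y` of the sphere there is a linear isometry `T` of `E n` with `T x = y` (a reflection: `reflection_sub`, or `x = y`).  `T` restricts to an isometry of the
sphere (as a subtype) which maps `ball x r` to `ball y r` (`dist` of the subtype is the distance of `E n`): `Isometry.euclideanHausdorffMeasure_image`.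
`sg`: `Measure.toSphere_apply'`: `toSphere A = dim * volume (Ioo 0 1 • (coe '' A))`; `T` preserves `volume` (`LinearIsometryEquiv.measurePreserving`) and commutes
with the scaling.
-/

namespace Pool.Agent.H62.WS

open scoped RealInnerProductSpace MeasureTheory ENNReal NNReal Pointwise
open MeasureTheory Set Metric

variable {n : ℕ}

/-- the isometry of the sphere given by a linear isometry -/
private noncomputable def sphIso (T : E n ≃ₗᵢ[ℝ] E n) :
    sphere (0 : E n) 1 ≃ᵢ sphere (0 : E n) 1 where
  toFun z := ⟨T z, by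
    have := z.2
    rw [mem_sphere_zero_iff_norm] at this ⊢
    rw [T.norm_map, this]⟩
  invFun z := ⟨T.symm z, by
    have := z.2
    rw [mem_sphere_zero_iff_norm] at this ⊢
    rw [T.symm.norm_map, this]⟩
  left_inv z := by
    apply Subtype.ext
    simp
  right_inv z := by
    apply Subtype.ext
    simp
  isometry_toFun := by
    refine Isometry.of_dist_eq fun p q => ?_
    rw [Subtype.dist_eq, Subtype.dist_eq]
    exact T.dist_map _ _

private theorem sphIso_coe (T : E n ≃ₗᵢ[ℝ] E n) (z : sphere (0 : E n) 1) :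
    ((sphIso T z : sphere (0 : E n) 1) : E n) = T z := rfl

private theorem exists_iso (x y : sphere (0 : E n) 1) :
    ∃ T : E n ≃ₗᵢ[ℝ] E n, sphIso T x = y := by
  have hx : ‖(x : E n)‖ = 1 := by
    have := x.2
    rwa [mem_sphere_zero_iff_norm] at this
  have hy : ‖(y : E n)‖ = 1 := by
    have := y.2
    rwa [mem_sphere_zero_iff_norm] at this
  refine ⟨Submodule.reflection (ℝ ∙ ((x : E n) - (y : E n)))ᗮ, ?_⟩
  apply Subtype.ext
  rw [sphIso_coe]
  exact Submodule.reflection_sub (by rw [hx, hy])

private theorem image_ball_sph (T : E n ≃ₗᵢ[ℝ] E n) {x y : sphere (0 : E n) 1}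
    (h : sphIso T x = y) (r : ℝ) : sphIso T '' ball x r = ball y r := by
  rw [IsometryEquiv.image_ball, h]

theorem hsph_ball (hn : 2 ≤ n) (x y : sphere (0 : E n) 1) (r : ℝ) :
    (μHE[n - 1] : Measure (sphere (0 : E n) 1)) (ball x r) =
      (μHE[n - 1] : Measure (sphere (0 : E n) 1)) (ball y r) := by
  obtain ⟨T, hT⟩ := exists_iso x y
  rw [← image_ball_sph T hT r]
  exact ((sphIso T).isometry.euclideanHausdorffMeasure_image (ball x r)).symm

theorem sg_ball (hn : 2 ≤ n) (x y : sphere (0 : E n) 1) (r : ℝ) :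
    sg n (ball x r) = sg n (ball y r) := by
  obtain ⟨T, hT⟩ := exists_iso x y
  rw [← image_ball_sph T hT r]
  unfold sg
  have hm : MeasurableSet (ball x r) := measurableSet_ball
  have hm' : MeasurableSet (sphIso T '' ball x r) := by
    rw [image_ball_sph T hT r]
    exact measurableSet_ball
  rw [Measure.toSphere_apply' _ hm, Measure.toSphere_apply' _ hm']
  congr 1
  have himg : Ioo (0 : ℝ) 1 • (Subtype.val '' (sphIso T '' ball x r) : Set (E n))
      = T '' (Ioo (0 : ℝ) 1 • (Subtype.val '' ball x r : Set (E n))) := by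
    ext z
    constructor
    · rintro ⟨c, hc, _, ⟨_, ⟨w, hw, rfl⟩, rfl⟩, rfl⟩
      refine ⟨c • (w : E n), ⟨c, hc, w, ⟨w, hw, rfl⟩, rfl⟩, ?_⟩
      rw [map_smul]
      rfl
    · rintro ⟨_, ⟨c, hc, _, ⟨w, hw, rfl⟩, rfl⟩, rfl⟩
      refine ⟨c, hc, T w, ⟨sphIso T w, ⟨w, hw, rfl⟩, rfl⟩, ?_⟩
      simp only [map_smul]
  rw [himg]
  have h1 := T.isometry.euclideanHausdorffMeasure_image (d := n)
    (Ioo (0 : ℝ) 1 • (Subtype.val '' ball x r : Set (E n)))
  rw [EuclideanSpace.euclideanHausdorffMeasure_eq_volume] at h1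
  exact h1.symm

end Pool.Agent.H62.WS
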