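import Pool.Agent.H62.WS.HLoc
import Pool.Agent.H62.WS.Polar

set_option autoImplicit false

/-!
# [H62 WS HSPHPOS] The Hausdorff measure of the unit sphere is positive

`n = m + 1`.  The projection `π : E (m+1) → E m` which forgets the coordinate `0` is `1`-Lipschitz and maps the sphere onto the closed unit ball
(`y` is the image of `(√(1-‖y‖²), y)`): `μHE[m] (closedBall 0 1) ≤ μHE[m] (sphere 0 1)` (`euclideanHausdorffMeasure_image_le`, HLoc) and
`μHE[m] (closedBall 0 1) > 0` in `E m` (Mathlib: `μHE[m] = volume` on a euclidean space of dimension `m`).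
-/

namespace Pool.Agent.H62.WS

open scoped RealInnerProductSpace MeasureTheory ENNReal NNReal
open MeasureTheory Set Metric

variable {n : ℕ}

private noncomputable def proj0 {m : ℕ} (x : E (m + 1)) : E m := WithLp.toLp 2 (fun j => x j.succ)

private theorem proj0_apply {m : ℕ} (x : E (m + 1)) (j : Fin m) : proj0 x j = x j.succ := rfl

theorem sphere_meas_pos (hn : 2 ≤ n) : 0 < μHE[n - 1] (sphere (0 : E n) 1) := by
  obtain ⟨m, rfl⟩ : ∃ m, n = m + 1 := ⟨n - 1, by omega⟩
  rw [Nat.add_sub_cancel]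
  have hlip : LipschitzOnWith 1 (proj0 : E (m + 1) → E m) (sphere 0 1) := by
    refine LipschitzOnWith.of_dist_le_mul fun y _ z _ => ?_
    rw [NNReal.coe_one, one_mul, EuclideanSpace.dist_eq, EuclideanSpace.dist_eq]
    apply Real.sqrt_le_sqrt
    rw [Fin.sum_univ_succ]
    have h0 : 0 ≤ dist (y 0) (z 0) ^ 2 := by positivity
    simp only [proj0_apply]
    linarith
  have himg : closedBall (0 : E m) 1 ⊆ proj0 '' sphere (0 : E (m + 1)) 1 := by
    intro y hy
    rw [mem_closedBall_zero_iff] at hy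
    have hy2 : ‖y‖ ^ 2 ≤ 1 := by
      have := norm_nonneg y
      nlinarith
    refine ⟨WithLp.toLp 2 (Fin.cons (√(1 - ‖y‖ ^ 2)) (fun j => y j)), ?_, ?_⟩
    · rw [mem_sphere_zero_iff_norm, EuclideanSpace.norm_eq, Fin.sum_univ_succ]
      have h1 : ∑ j : Fin m, ‖y j‖ ^ 2 = ‖y‖ ^ 2 := by
        rw [EuclideanSpace.norm_eq, Real.sq_sqrt]
        exact Finset.sum_nonneg (fun _ _ => by positivity)
      simp only [Fin.cons_zero, Fin.cons_succ]
      rw [h1, Real.norm_eq_abs, sq_abs, Real.sq_sqrt (by linarith)]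
      rw [sub_add_cancel, Real.sqrt_one]
    · ext j
      rw [proj0_apply]
      simp
  have h1 := euclideanHausdorffMeasure_image_le m hlip
  have h2 : 0 < μHE[m] (closedBall (0 : E m) 1) := by
    rw [EuclideanSpace.euclideanHausdorffMeasure_eq_volume]
    exact measure_closedBall_pos volume 0 one_pos
  calc 0 < μHE[m] (closedBall (0 : E m) 1) := h2
    _ ≤ μHE[m] (proj0 '' sphere (0 : E (m + 1)) 1) := measure_mono himg
    _ ≤ ((1 : ℝ≥0) : ℝ≥0∞) ^ m * μHE[m] (sphere (0 : E (m + 1)) 1) := h1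
    _ = μHE[m] (sphere (0 : E (m + 1)) 1) := by simp

end Pool.Agent.H62.WS
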