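import Pool.Agent.H62.WS.HSphFin
import Pool.Agent.H62.WS.HSphPos
import Pool.Agent.H62.WS.HSphB

set_option autoImplicit false

/-!
# [H62 WS HSPH] The Hausdorff measure of the unit sphere is a multiple of the cone measure

`smul_eq_smul_of_uniform` (HUnif) for `μ = sg n`, `ν = μHE[n-1]` on the subtype `sphere (0 : E n) 1` (compact; finite and nonzero by `sphere_meas_lt_top`,
`sphere_meas_pos` and the isometry `Subtype.val`: `μHE[n-1] (A : Set (sphere 0 1)) = μHE[n-1] (Subtype.val '' A)`, `isometry_subtype_coe`;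
`sg_univ_pos`), then divide: `cst n = μHE[n-1] (sphere) / sg n univ`.
-/

namespace Pool.Agent.H62.WS

open scoped RealInnerProductSpace MeasureTheory ENNReal NNReal
open MeasureTheory Set Metric

variable {n : ℕ}

theorem cst_ne_zero (hn : 2 ≤ n) : cst n ≠ 0 := by
  unfold cst
  exact (ENNReal.div_pos (sphere_meas_pos hn).ne' (measure_ne_top _ _)).ne'

theorem cst_ne_top (hn : 2 ≤ n) : cst n ≠ ∞ := by
  unfold cst
  exact (ENNReal.div_lt_top (sphere_meas_lt_top hn).ne (sg_univ_pos hn).ne').ne

theorem hsph (hn : 2 ≤ n) {A : Set (sphere (0 : E n) 1)} (hA : MeasurableSet A) :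
    μHE[n - 1] A = cst n * sg n A := by
  have huniv : (μHE[n - 1] : Measure (sphere (0 : E n) 1)) univ = μHE[n - 1] (sphere (0 : E n) 1) := by
    have h1 := (isometry_subtype_coe (s := sphere (0 : E n) 1)).euclideanHausdorffMeasure_image
      (d := n - 1) univ
    rw [image_univ, Subtype.range_coe] at h1
    exact h1.symm
  have hfin : IsFiniteMeasure (μHE[n - 1] : Measure (sphere (0 : E n) 1)) :=
    ⟨by rw [huniv]; exact sphere_meas_lt_top hn⟩
  have hne : (μHE[n - 1] : Measure (sphere (0 : E n) 1)) ≠ 0 := by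
    intro h0
    have h1 := sphere_meas_pos hn
    rw [← huniv, h0] at h1
    simp at h1
  have hsgne : sg n ≠ 0 := by
    intro h0
    have h1 := sg_univ_pos hn
    rw [h0] at h1
    simp at h1
  have key := smul_eq_smul_of_uniform (sg n) (μHE[n - 1] : Measure (sphere (0 : E n) 1)) hsgne hne
    (sg_ball hn) (hsph_ball hn)
  have h2 := congrArg (fun μ : Measure (sphere (0 : E n) 1) => μ A) key
  simp only [Measure.smul_apply, smul_eq_mul] at h2
  rw [huniv] at h2
  have hpos := (sg_univ_pos hn).ne'
  have hlt : sg n univ ≠ ∞ := measure_ne_top _ _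
  unfold cst
  rw [div_eq_mul_inv, mul_right_comm, h2, mul_comm (sg n univ), mul_assoc,
    ENNReal.mul_inv_cancel hpos hlt, mul_one]

end Pool.Agent.H62.WS
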