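import Mathlib

set_option autoImplicit false

/-!
# [H62 WS TESTQ] The profile of the test functions

`qq N z = ∫_0^1 τ^N (1 + τ² z)^(-1/2) dτ` (`z > -1`) is `C^1` on `(-1,∞)` with derivative `-(1/2) ∫_0^1 τ^(N+2) (1 + τ² z)^(-3/2) dτ` (`intervalIntegral.hasDerivAt_integral_of_dominated_loc_of_deriv_le`:
near `z₀ > -1` we have `1 + τ² z ≥ min 1 ((1+z₀)/2) > 0`, bounded derivative in `z`); the derivative is continuous (`intervalIntegral.continuousWithinAt_of_dominated_interval`, or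
`contDiffOn` through `contDiffOn_succ_iff_deriv_of_isOpen`; or apply the same differentiation again, differentiable implies continuous).
-/

namespace Pool.Agent.H62.WS

open MeasureTheory Set

/-- `∫_0^1 τ^N / √(1 + τ² z) dτ` -/
noncomputable def qq (N : ℕ) (z : ℝ) : ℝ := ∫ t in (0 : ℝ)..1, t ^ N / √(1 + t ^ 2 * z)

theorem lower_bound_one_add {z c t : ℝ} (h1 : c ≤ 1) (hz : c ≤ 1 + z) (ht : t ∈ Icc (0 : ℝ) 1) :
    c ≤ 1 + t ^ 2 * z := by
  have h2 : t ^ 2 ≤ 1 := pow_le_one₀ ht.1 ht.2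
  have h3 : 0 ≤ t ^ 2 := sq_nonneg t
  nlinarith

/-- the `z`-derivative of the integrand -/
noncomputable def qq' (N : ℕ) (z t : ℝ) : ℝ :=
  t ^ N * (-(t ^ 2 / (2 * √(1 + t ^ 2 * z))) / √(1 + t ^ 2 * z) ^ 2)

theorem hasDerivAt_integrand (N : ℕ) {z t : ℝ} (h : 0 < 1 + t ^ 2 * z) :
    HasDerivAt (fun z => t ^ N / √(1 + t ^ 2 * z)) (qq' N z t) z := by
  have h1 : HasDerivAt (fun z : ℝ => 1 + t ^ 2 * z) (t ^ 2) z := by
    simpa using ((hasDerivAt_id z).const_mul (t ^ 2)).const_add 1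
  have h2 := (h1.sqrt h.ne').inv (Real.sqrt_pos.mpr h).ne'
  have h3 := h2.const_mul (t ^ N)
  exact h3

theorem abs_qq'_le (N : ℕ) {z c t : ℝ} (hc : 0 < c) (h1 : c ≤ 1) (hz : c ≤ 1 + z)
    (ht : t ∈ Icc (0 : ℝ) 1) : ‖qq' N z t‖ ≤ 1 / (2 * √c * c) := by
  have h2 := lower_bound_one_add h1 hz ht
  have h3 : 0 < 1 + t ^ 2 * z := hc.trans_le h2
  have h4 : √c ≤ √(1 + t ^ 2 * z) := Real.sqrt_le_sqrt h2
  have hsc : 0 < √c := Real.sqrt_pos.mpr hc
  have hs3 : 0 < √(1 + t ^ 2 * z) := Real.sqrt_pos.mpr h3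
  have e : ‖qq' N z t‖ = t ^ N * (t ^ 2 / (2 * √(1 + t ^ 2 * z)) / (1 + t ^ 2 * z)) := by
    rw [qq', Real.sq_sqrt h3.le, neg_div, mul_neg, norm_neg, Real.norm_of_nonneg]
    have := ht.1
    positivity
  rw [e]
  have h5 : t ^ N ≤ 1 := pow_le_one₀ ht.1 ht.2
  have h6 : t ^ 2 ≤ 1 := pow_le_one₀ ht.1 ht.2
  have h7 : 0 ≤ t ^ N := pow_nonneg ht.1 N
  calc t ^ N * (t ^ 2 / (2 * √(1 + t ^ 2 * z)) / (1 + t ^ 2 * z))
      ≤ 1 * (1 / (2 * √c) / c) := by
        refine mul_le_mul h5 ?_ (by positivity) zero_le_one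
        refine div_le_div₀ (by positivity) ?_ hc h2
        exact div_le_div₀ zero_le_one h6 (by positivity) (by linarith)
    _ = 1 / (2 * √c * c) := by
        rw [one_mul, div_div]

theorem continuousOn_integrand (N : ℕ) {z : ℝ} (hz : -1 < z) :
    ContinuousOn (fun t : ℝ => t ^ N / √(1 + t ^ 2 * z)) (Icc 0 1) := by
  refine ContinuousOn.div (by fun_prop) (by fun_prop) fun t ht => ?_
  have h1 : 0 < min 1 (1 + z) := lt_min one_pos (by linarith)
  have h2 := lower_bound_one_add (min_le_left 1 (1 + z)) (min_le_right 1 (1 + z)) ht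
  exact (Real.sqrt_pos.mpr (h1.trans_le h2)).ne'

theorem continuousOn_qq'_t (N : ℕ) {z : ℝ} (hz : -1 < z) :
    ContinuousOn (fun t : ℝ => qq' N z t) (Icc 0 1) := by
  unfold qq'
  have h3 : ∀ t ∈ Icc (0 : ℝ) 1, √(1 + t ^ 2 * z) ≠ 0 := by
    intro t ht
    have h1 : 0 < min 1 (1 + z) := lt_min one_pos (by linarith)
    have h2 := lower_bound_one_add (min_le_left 1 (1 + z)) (min_le_right 1 (1 + z)) ht
    exact (Real.sqrt_pos.mpr (h1.trans_le h2)).ne'
  refine ContinuousOn.mul (by fun_prop) (ContinuousOn.div ?_ (by fun_prop) fun t ht =>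
    pow_ne_zero 2 (h3 t ht))
  exact (ContinuousOn.div (by fun_prop) (by fun_prop) fun t ht =>
    mul_ne_zero two_ne_zero (h3 t ht)).neg

theorem hasDerivAt_qq (N : ℕ) {z₀ : ℝ} (hz : -1 < z₀) :
    HasDerivAt (qq N) (∫ t in (0 : ℝ)..1, qq' N z₀ t) z₀ := by
  set c := min 1 ((1 + z₀) / 2) with hc
  have hc0 : 0 < c := lt_min one_pos (by linarith)
  have hs : Ioi ((z₀ - 1) / 2) ∈ nhds z₀ := Ioi_mem_nhds (by linarith)
  have hzc : ∀ z ∈ Ioi ((z₀ - 1) / 2), c ≤ 1 + z := fun z hz' => by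
    have h1 : (z₀ - 1) / 2 < z := hz'
    exact (min_le_right _ _).trans (by linarith)
  have hI : ∀ t ∈ uIoc (0 : ℝ) 1, t ∈ Icc (0 : ℝ) 1 := by
    intro t ht
    rw [uIoc_of_le zero_le_one] at ht
    exact ⟨ht.1.le, ht.2⟩
  have hm : ∀ {f : ℝ → ℝ}, ContinuousOn f (Icc 0 1) →
      AEStronglyMeasurable f (volume.restrict (uIoc (0 : ℝ) 1)) := fun hf =>
    (hf.mono fun t ht => hI t ht).aestronglyMeasurable measurableSet_uIoc
  refine (intervalIntegral.hasDerivAt_integral_of_dominated_loc_of_deriv_le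
    (F := fun z t => t ^ N / √(1 + t ^ 2 * z)) (F' := fun z t => qq' N z t)
    (bound := fun _ => 1 / (2 * √c * c)) hs ?_ ?_ ?_ ?_ ?_ ?_).2
  · filter_upwards [hs] with z hz'
    exact hm (continuousOn_integrand N (by have := hzc z hz'; linarith))
  · rw [intervalIntegrable_iff_integrableOn_Icc_of_le zero_le_one]
    exact (continuousOn_integrand N hz).integrableOn_Icc
  · exact hm (continuousOn_qq'_t N hz)
  · exact ae_of_all _ fun t ht z hz' => abs_qq'_le N hc0 (min_le_left _ _) (hzc z hz') (hI t ht)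
  · exact intervalIntegrable_const
  · refine ae_of_all _ fun t ht z hz' => hasDerivAt_integrand N ?_
    exact hc0.trans_le (lower_bound_one_add (min_le_left _ _) (hzc z hz') (hI t ht))

theorem continuousOn_qq'_int (N : ℕ) :
    ContinuousOn (fun z => ∫ t in (0 : ℝ)..1, qq' N z t) (Ioi (-1)) := by
  intro z₀ hz
  have hz : -1 < z₀ := hz
  apply ContinuousAt.continuousWithinAt
  set c := min 1 ((1 + z₀) / 2) with hc
  have hc0 : 0 < c := lt_min one_pos (by linarith)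
  have hs : Ioi ((z₀ - 1) / 2) ∈ nhds z₀ := Ioi_mem_nhds (by linarith)
  have hzc : ∀ z ∈ Ioi ((z₀ - 1) / 2), c ≤ 1 + z := fun z hz' => by
    have h1 : (z₀ - 1) / 2 < z := hz'
    exact (min_le_right _ _).trans (by linarith)
  have hI : ∀ t ∈ uIoc (0 : ℝ) 1, t ∈ Icc (0 : ℝ) 1 := by
    intro t ht
    rw [uIoc_of_le zero_le_one] at ht
    exact ⟨ht.1.le, ht.2⟩
  have hm : ∀ {f : ℝ → ℝ}, ContinuousOn f (Icc 0 1) →
      AEStronglyMeasurable f (volume.restrict (uIoc (0 : ℝ) 1)) := fun hf =>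
    (hf.mono fun t ht => hI t ht).aestronglyMeasurable measurableSet_uIoc
  refine intervalIntegral.continuousAt_of_dominated_interval (bound := fun _ => 1 / (2 * √c * c))
    ?_ ?_ ?_ ?_
  · filter_upwards [hs] with z hz'
    exact hm (continuousOn_qq'_t N (by have := hzc z hz'; linarith))
  · filter_upwards [hs] with z hz'
    exact ae_of_all _ fun t ht => abs_qq'_le N hc0 (min_le_left _ _) (hzc z hz') (hI t ht)
  · exact intervalIntegrable_const
  · refine ae_of_all _ fun t ht => ?_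
    have h1 : 0 < 1 + t ^ 2 * z₀ :=
      hc0.trans_le (lower_bound_one_add (min_le_left _ _) (hzc z₀ (mem_of_mem_nhds hs)) (hI t ht))
    have h2 : √(1 + t ^ 2 * z₀) ≠ 0 := (Real.sqrt_pos.mpr h1).ne'
    unfold qq'
    refine ContinuousAt.mul (by fun_prop) (ContinuousAt.div (ContinuousAt.neg ?_) (by fun_prop)
      (pow_ne_zero 2 h2))
    exact ContinuousAt.div (by fun_prop) (by fun_prop) (mul_ne_zero two_ne_zero h2)

theorem contDiffOn_qq (N : ℕ) : ContDiffOn ℝ 1 (qq N) (Ioi (-1)) := by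
  rw [show (1 : WithTop ℕ∞) = 0 + 1 from rfl, contDiffOn_succ_iff_deriv_of_isOpen isOpen_Ioi]
  refine ⟨fun z hz => (hasDerivAt_qq N hz).differentiableAt.differentiableWithinAt, by simp, ?_⟩
  rw [contDiffOn_zero]
  refine (continuousOn_qq'_int N).congr fun z hz => ?_
  exact (hasDerivAt_qq N hz).deriv

end Pool.Agent.H62.WS
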