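import Pool.Agent.H62.WS.Pair
import Pool.Agent.H62.WS.Polar

set_option autoImplicit false

/-!
# [H62 WS BALLPAIR] The pair inequality, integrated

`a r θ = cosh r * Dw(sinh r θ) θ` is the derivative of `r ↦ w(sinh r θ)`.  `pair_ineq` with `D(r) = w(sinh r θ) - w(sinh r η)`, `D'(r) = a r θ - a r η` for fixed `θ, η` (`N = n - 1`), integrate over `θ, η` (`sg n` finite) and swap the integrals:
all integrands are continuous and bounded on `[0,R] × S × S` except for the factor `D²/sinh²`, which is bounded too: `|D(r)| ≤ M sinh r` (mean value inequality, `‖Dw‖` bounded on the ball of radius `sinh R`), measurable.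
-/

namespace Pool.Agent.H62.WS

open scoped RealInnerProductSpace MeasureTheory ENNReal NNReal
open MeasureTheory Set Metric

variable {n : ℕ}

theorem hasDerivAt_radial {w : E n → ℝ} (hw : ContDiff ℝ 1 w) (r : ℝ) (θ : E n) :
    HasDerivAt (fun r : ℝ => w (Real.sinh r • θ))
      (Real.cosh r * fderiv ℝ w (Real.sinh r • θ) θ) r := by
  have h1 : HasFDerivAt w (fderiv ℝ w (Real.sinh r • θ)) (Real.sinh r • θ) :=
    (hw.differentiable one_ne_zero _).hasFDerivAt
  have h2 : HasDerivAt (fun r : ℝ => Real.sinh r • θ) (Real.cosh r • θ) r :=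
    (Real.hasDerivAt_sinh r).smul_const θ
  have h3 := h1.comp_hasDerivAt r h2
  rwa [map_smul, smul_eq_mul] at h3

theorem pair_int (hn : 2 ≤ n) {R : ℝ} (hR : 0 < R) {w : E n → ℝ} (hw : ContDiff ℝ 1 w) :
    gg (n - 1) R * Real.sinh R ^ (n - 1) *
        ∫ θ, (∫ η, (w (Real.sinh R • (θ : E n)) - w (Real.sinh R • (η : E n))) ^ 2 ∂sg n) ∂sg n ≤
      ∫ r in (0 : ℝ)..R, Real.sinh r ^ (n - 1) *
        ((∫ θ, (∫ η, (Real.cosh r * fderiv ℝ w (Real.sinh r • (θ : E n)) (θ : E n) -
            Real.cosh r * fderiv ℝ w (Real.sinh r • (η : E n)) (η : E n)) ^ 2 ∂sg n) ∂sg n) +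
          ((n - 1 : ℕ) : ℝ) * (∫ θ, (∫ η, (w (Real.sinh r • (θ : E n)) -
            w (Real.sinh r • (η : E n))) ^ 2 ∂sg n) ∂sg n) / Real.sinh r ^ 2) := by
  have hN : 1 ≤ n - 1 := by omega
  set N := n - 1 with hNdef
  have hsR : 0 < Real.sinh R := Real.sinh_pos_iff.mpr hR
  -- continuity
  have hx : Continuous fun p : ℝ × sphere (0 : E n) 1 => Real.sinh p.1 • (p.2 : E n) :=
    (Real.continuous_sinh.comp continuous_fst).smul (continuous_subtype_val.comp continuous_snd)
  have hcw : Continuous fun p : ℝ × sphere (0 : E n) 1 => w (Real.sinh p.1 • (p.2 : E n)) :=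
    hw.continuous.comp hx
  have hcd : Continuous fun p : ℝ × sphere (0 : E n) 1 =>
      Real.cosh p.1 * fderiv ℝ w (Real.sinh p.1 • (p.2 : E n)) (p.2 : E n) :=
    (Real.continuous_cosh.comp continuous_fst).mul
      (((hw.continuous_fderiv one_ne_zero).comp hx).clm_apply
        (continuous_subtype_val.comp continuous_snd))
  set D : ℝ → sphere (0 : E n) 1 × sphere (0 : E n) 1 → ℝ := fun r q =>
    w (Real.sinh r • (q.1 : E n)) - w (Real.sinh r • (q.2 : E n)) with hDdef
  set D' : ℝ → sphere (0 : E n) 1 × sphere (0 : E n) 1 → ℝ := fun r q =>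
    Real.cosh r * fderiv ℝ w (Real.sinh r • (q.1 : E n)) (q.1 : E n) -
      Real.cosh r * fderiv ℝ w (Real.sinh r • (q.2 : E n)) (q.2 : E n) with hD'def
  have h1 : Continuous fun p : ℝ × (sphere (0 : E n) 1 × sphere (0 : E n) 1) => (p.1, p.2.1) :=
    continuous_fst.prodMk (continuous_fst.comp continuous_snd)
  have h2 : Continuous fun p : ℝ × (sphere (0 : E n) 1 × sphere (0 : E n) 1) => (p.1, p.2.2) :=
    continuous_fst.prodMk (continuous_snd.comp continuous_snd)
  have hDc : Continuous fun p : ℝ × (sphere (0 : E n) 1 × sphere (0 : E n) 1) => D p.1 p.2 :=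
    (hcw.comp h1).sub (hcw.comp h2)
  have hD'c : Continuous fun p : ℝ × (sphere (0 : E n) 1 × sphere (0 : E n) 1) => D' p.1 p.2 :=
    (hcd.comp h1).sub (hcd.comp h2)
  -- bounds
  obtain ⟨M, hM⟩ : ∃ M, ∀ x ∈ closedBall (0 : E n) (Real.sinh R), ‖fderiv ℝ w x‖ ≤ M :=
    (isCompact_closedBall (0 : E n) (Real.sinh R)).exists_bound_of_continuousOn
      (hw.continuous_fderiv one_ne_zero).continuousOn
  have hM0 : 0 ≤ M := (norm_nonneg _).trans (hM 0 (mem_closedBall_self hsR.le))
  have hmem : ∀ r ∈ Icc 0 R, ∀ θ : sphere (0 : E n) 1,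
      Real.sinh r • (θ : E n) ∈ closedBall (0 : E n) (Real.sinh R) := by
    intro r hr θ
    have h3 : ‖(θ : E n)‖ = 1 := by simp
    rw [mem_closedBall_zero_iff, norm_smul, h3, mul_one,
      Real.norm_of_nonneg (Real.sinh_nonneg_iff.mpr hr.1)]
    exact Real.sinh_le_sinh.mpr hr.2
  have hDb : ∀ r ∈ Icc 0 R, ∀ q, |D r q| ≤ 2 * M * Real.sinh r := by
    intro r hr q
    have h3 : ‖(q.1 : E n)‖ = 1 := by simp
    have h4 : ‖(q.2 : E n)‖ = 1 := by simp
    have h5 := (convex_closedBall (0 : E n) (Real.sinh R)).norm_image_sub_le_of_norm_fderiv_le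
      (𝕜 := ℝ) (f := w) (fun x _ => hw.differentiable one_ne_zero x) hM (hmem r hr q.2) (hmem r hr q.1)
    rw [Real.norm_eq_abs] at h5
    refine h5.trans ?_
    have h6 : ‖Real.sinh r • (q.1 : E n) - Real.sinh r • (q.2 : E n)‖ ≤ 2 * Real.sinh r := by
      refine (_root_.norm_sub_le _ _).trans ?_
      rw [norm_smul, norm_smul, h3, h4, Real.norm_of_nonneg (Real.sinh_nonneg_iff.mpr hr.1)]
      linarith
    calc M * ‖Real.sinh r • (q.1 : E n) - Real.sinh r • (q.2 : E n)‖ ≤ M * (2 * Real.sinh r) := by gcongr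
      _ = 2 * M * Real.sinh r := by ring
  have hdb : ∀ r ∈ Icc 0 R, ∀ θ : sphere (0 : E n) 1,
      |Real.cosh r * fderiv ℝ w (Real.sinh r • (θ : E n)) (θ : E n)| ≤ Real.cosh R * M := by
    intro r hr θ
    have h3 : ‖(θ : E n)‖ = 1 := by simp
    rw [abs_mul, abs_of_pos (Real.cosh_pos r)]
    have h4 := (fderiv ℝ w (Real.sinh r • (θ : E n))).le_opNorm (θ : E n)
    rw [h3, mul_one, Real.norm_eq_abs] at h4
    have h5 : Real.cosh r ≤ Real.cosh R := by
      rw [Real.cosh_le_cosh, abs_of_nonneg hr.1, abs_of_pos hR]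
      exact hr.2
    exact mul_le_mul h5 (h4.trans (hM _ (hmem r hr θ))) (abs_nonneg _) (Real.cosh_pos R).le
  have hD'b : ∀ r ∈ Icc 0 R, ∀ q, |D' r q| ≤ 2 * (Real.cosh R * M) := by
    intro r hr q
    have h3 := abs_sub (Real.cosh r * fderiv ℝ w (Real.sinh r • (q.1 : E n)) (q.1 : E n))
      (Real.cosh r * fderiv ℝ w (Real.sinh r • (q.2 : E n)) (q.2 : E n))
    have h4 := hdb r hr q.1
    have h5 := hdb r hr q.2
    simp only [hD'def]
    linarith
  -- the integrand
  set Φ : ℝ → sphere (0 : E n) 1 × sphere (0 : E n) 1 → ℝ := fun r q =>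
    Real.sinh r ^ N * (D' r q ^ 2 + N * D r q ^ 2 / Real.sinh r ^ 2) with hΦdef
  have hΦm : Measurable fun p : (sphere (0 : E n) 1 × sphere (0 : E n) 1) × ℝ => Φ p.2 p.1 := by
    have hs : Continuous fun p : (sphere (0 : E n) 1 × sphere (0 : E n) 1) × ℝ => Real.sinh p.2 :=
      Real.continuous_sinh.comp continuous_snd
    have t1 : Measurable fun p : (sphere (0 : E n) 1 × sphere (0 : E n) 1) × ℝ => D' p.2 p.1 :=
      (hD'c.comp continuous_swap).measurable
    have t2 : Measurable fun p : (sphere (0 : E n) 1 × sphere (0 : E n) 1) × ℝ => D p.2 p.1 :=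
      (hDc.comp continuous_swap).measurable
    exact (hs.measurable.pow_const N).mul ((t1.pow_const 2).add
      (((t2.pow_const 2).const_mul _).div (hs.measurable.pow_const 2)))
  have hΦb : ∀ r ∈ Ioc 0 R, ∀ q, ‖Φ r q‖ ≤
      Real.sinh R ^ N * ((2 * (Real.cosh R * M)) ^ 2 + N * (2 * M) ^ 2) := by
    intro r hr q
    have hs : 0 < Real.sinh r := Real.sinh_pos_iff.mpr hr.1
    have hr' : r ∈ Icc 0 R := ⟨hr.1.le, hr.2⟩
    have h3 : D' r q ^ 2 ≤ (2 * (Real.cosh R * M)) ^ 2 := by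
      rw [← sq_abs]
      exact pow_le_pow_left₀ (abs_nonneg _) (hD'b r hr' q) 2
    have h4 : D r q ^ 2 ≤ (2 * M * Real.sinh r) ^ 2 := by
      rw [← sq_abs]
      exact pow_le_pow_left₀ (abs_nonneg _) (hDb r hr' q) 2
    have h5 : (N : ℝ) * D r q ^ 2 / Real.sinh r ^ 2 ≤ N * (2 * M) ^ 2 := by
      rw [div_le_iff₀ (by positivity)]
      calc (N : ℝ) * D r q ^ 2 ≤ N * (2 * M * Real.sinh r) ^ 2 := by gcongr
        _ = N * (2 * M) ^ 2 * Real.sinh r ^ 2 := by ring
    have h6 : 0 ≤ (N : ℝ) * D r q ^ 2 / Real.sinh r ^ 2 := by positivity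
    have h7 : Real.sinh r ^ N ≤ Real.sinh R ^ N :=
      pow_le_pow_left₀ hs.le (Real.sinh_le_sinh.mpr hr.2) N
    rw [Real.norm_of_nonneg (by positivity)]
    exact mul_le_mul h7 (by linarith) (by positivity) (by positivity)
  have hΦi : Integrable (fun p : (sphere (0 : E n) 1 × sphere (0 : E n) 1) × ℝ => Φ p.2 p.1)
      (((sg n).prod (sg n)).prod (volume.restrict (Ioc 0 R))) := by
    have : IsFiniteMeasure (volume.restrict (Ioc 0 R)) :=
      ⟨by rw [Measure.restrict_apply_univ, Real.volume_Ioc]; exact ENNReal.ofReal_lt_top⟩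
    refine Integrable.of_bound hΦm.aestronglyMeasurable
      (Real.sinh R ^ N * ((2 * (Real.cosh R * M)) ^ 2 + N * (2 * M) ^ 2)) ?_
    have e : ((sg n).prod (sg n)).prod (volume.restrict (Ioc 0 R)) =
        (((sg n).prod (sg n)).prod volume).restrict (univ ×ˢ Ioc 0 R) := by
      rw [← Measure.prod_restrict, Measure.restrict_univ]
    rw [e]
    filter_upwards [ae_restrict_mem (MeasurableSet.univ.prod measurableSet_Ioc)] with p hp
    exact hΦb p.2 hp.2 p.1
  -- pointwise inequality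
  have hpt : ∀ q, gg N R * Real.sinh R ^ N * D R q ^ 2 ≤ ∫ r in Ioc 0 R, Φ r q := by
    intro q
    have h3 := pair_ineq hN hR (D := fun r => D r q) (D' := fun r => D' r q)
      (fun r _ => (hasDerivAt_radial hw r (q.1 : E n)).sub (hasDerivAt_radial hw r (q.2 : E n)))
      (hD'c.comp (continuous_id.prodMk continuous_const)).continuousOn
      (by simp [hDdef])
    rwa [intervalIntegral.integral_of_le hR.le] at h3
  have hq : Continuous fun q => D R q := hDc.comp (continuous_const.prodMk continuous_id)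
  have hqi : ∀ {f : sphere (0 : E n) 1 × sphere (0 : E n) 1 → ℝ}, Continuous f →
      Integrable f ((sg n).prod (sg n)) := fun hf =>
    hf.integrable_of_hasCompactSupport (HasCompactSupport.of_compactSpace _)
  have hLi : Integrable (fun q => gg N R * Real.sinh R ^ N * D R q ^ 2) ((sg n).prod (sg n)) :=
    hqi (continuous_const.mul (hq.pow 2))
  have hmain := integral_mono hLi hΦi.integral_prod_left hpt
  rw [integral_const_mul, integral_integral_swap hΦi] at hmain
  have e1 : ∀ {f : sphere (0 : E n) 1 → sphere (0 : E n) 1 → ℝ},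
      Continuous (fun q : sphere (0 : E n) 1 × sphere (0 : E n) 1 => f q.1 q.2) →
      ∫ q, f q.1 q.2 ∂((sg n).prod (sg n)) = ∫ θ, (∫ η, f θ η ∂sg n) ∂sg n := fun {f} hf =>
    integral_prod (fun q : sphere (0 : E n) 1 × sphere (0 : E n) 1 => f q.1 q.2) (hqi hf)
  have e2 : ∫ q, D R q ^ 2 ∂((sg n).prod (sg n)) = ∫ θ, (∫ η, (w (Real.sinh R • (θ : E n)) -
      w (Real.sinh R • (η : E n))) ^ 2 ∂sg n) ∂sg n :=
    e1 (f := fun θ η => (w (Real.sinh R • (θ : E n)) - w (Real.sinh R • (η : E n))) ^ 2) (hq.pow 2)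
  rw [e2] at hmain
  refine hmain.trans_eq ?_
  rw [intervalIntegral.integral_of_le hR.le]
  refine setIntegral_congr_fun measurableSet_Ioc fun r hr => ?_
  have hc1 : Continuous fun q => D' r q := hD'c.comp (continuous_const.prodMk continuous_id)
  have hc2 : Continuous fun q => D r q := hDc.comp (continuous_const.prodMk continuous_id)
  have i1 : Integrable (fun q => D' r q ^ 2) ((sg n).prod (sg n)) := hqi (hc1.pow 2)
  have i2 : Integrable (fun q => N * D r q ^ 2 / Real.sinh r ^ 2) ((sg n).prod (sg n)) :=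
    hqi ((continuous_const.mul (hc2.pow 2)).div_const _)
  have e3 : ∫ q, D' r q ^ 2 ∂((sg n).prod (sg n)) =
      ∫ θ, (∫ η, (Real.cosh r * fderiv ℝ w (Real.sinh r • (θ : E n)) (θ : E n) -
            Real.cosh r * fderiv ℝ w (Real.sinh r • (η : E n)) (η : E n)) ^ 2 ∂sg n) ∂sg n :=
    e1 (f := fun θ η => (Real.cosh r * fderiv ℝ w (Real.sinh r • (θ : E n)) (θ : E n) -
            Real.cosh r * fderiv ℝ w (Real.sinh r • (η : E n)) (η : E n)) ^ 2) (hc1.pow 2)
  have e4 : ∫ q, D r q ^ 2 ∂((sg n).prod (sg n)) = ∫ θ, (∫ η, (w (Real.sinh r • (θ : E n)) -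
      w (Real.sinh r • (η : E n))) ^ 2 ∂sg n) ∂sg n :=
    e1 (f := fun θ η => (w (Real.sinh r • (θ : E n)) - w (Real.sinh r • (η : E n))) ^ 2) (hc2.pow 2)
  simp only [hΦdef]
  rw [integral_const_mul, integral_add i1 i2, integral_div, integral_const_mul, e3, e4]

end Pool.Agent.H62.WS
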