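import Pool.Agent.H62.WS.HHyp

set_option autoImplicit false

/-!
# [H62 WS HHYPI] Integrals over geodesic spheres

`bd n` restricted to `sphere (org n) r` is `c • (sg n).map (sph r)` with `c = ofReal (sinh r ^ (n-1)) * cst n` (`bd_sph_image` for `A = (sph r)⁻¹' B`, `B` measurable:
`B ∩ sphere (org n) r = sph r '' ((sph r)⁻¹' B)` by `exists_sph`, `dist_org_sph`; `Measure.ext`); then `integral_smul_measure`, `integral_map`
(`u` continuous, `sph r` continuous), `ENNReal.toReal_mul`, `toReal_ofReal`.
-/

namespace Pool.Agent.H62.WS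

open scoped RealInnerProductSpace MeasureTheory ENNReal NNReal
open MeasureTheory Set Metric

variable {n : ℕ}

private theorem bd_restrict_sphere (hn : 2 ≤ n) {r : ℝ} (hr : 0 < r) :
    (bd n).restrict (sphere (org n) r) =
      (ENNReal.ofReal (Real.sinh r ^ (n - 1)) * cst n) • (sg n).map (sph r) := by
  have hcont : Continuous (sph r : sphere (0 : E n) 1 → Hyp n) :=
    continuous_sph.comp (continuous_const.prodMk continuous_id)
  ext B hB
  have himg : B ∩ sphere (org n) r = sph r '' ((sph r : sphere (0 : E n) 1 → Hyp n) ⁻¹' B) := by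
    ext p
    constructor
    · rintro ⟨hpB, hp⟩
      obtain ⟨θ, hθ⟩ := exists_sph hn p
      have hd : dist (org n) p = r := by
        rw [dist_comm]; exact hp
      rw [hd] at hθ
      exact ⟨θ, by rw [mem_preimage, ← hθ]; exact hpB, hθ.symm⟩
    · rintro ⟨θ, hθ, rfl⟩
      refine ⟨hθ, ?_⟩
      rw [mem_sphere, dist_comm, dist_org_sph hr.le]
  rw [Measure.restrict_apply hB, himg, bd_sph_image hn hr (hcont.measurable hB),
    Measure.smul_apply, Measure.map_apply hcont.measurable hB, smul_eq_mul, mul_assoc]

theorem integral_bd_sphere (hn : 2 ≤ n) {r : ℝ} (hr : 0 < r) {u : Hyp n → ℝ} (hu : Continuous u) :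
    ∫ p in sphere (org n) r, u p ∂bd n =
      Real.sinh r ^ (n - 1) * (cst n).toReal * ∫ θ, u (sph r θ) ∂sg n := by
  have hcont : Continuous (sph r : sphere (0 : E n) 1 → Hyp n) :=
    continuous_sph.comp (continuous_const.prodMk continuous_id)
  rw [bd_restrict_sphere hn hr, integral_smul_measure,
    integral_map hcont.measurable.aemeasurable hu.aestronglyMeasurable, ENNReal.toReal_mul,
    ENNReal.toReal_ofReal (by
      have := Real.sinh_pos_iff.mpr hr
      positivity), smul_eq_mul]

end Pool.Agent.H62.WS
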