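import Pool.Agent.H62.WS.BallPol
import Pool.Agent.H62.WS.BallPair
import Pool.Agent.H62.WS.PoinS
import Pool.Agent.H62.WS.HHypI

set_option autoImplicit false

/-!
# [H62 WS BALLLOW] The lower bound for balls

`w x = u ⟨x⟩`, `ω = (sg n).real univ`, `b(θ) = w(sinh R θ)`: `∫ b = 0` by `h0` and `integral_bd_sphere` (`cst_ne_zero`, `cst_ne_top`), so `∬ (b θ - b η)² = 2ω ∫ b²`.  For `r ∈ (0,R]`: `∬ (a θ - a η)² ≤ 2ω ∫ a²` (`= 2ω∫a² - 2(∫a)²`), `a θ = cosh r Dw(sinh r θ) θ`, and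
`poincare_sphere` with `s = sinh r`: `(n-1) ∬ (w(sθ) - w(sη))²/s² ≤ 2ω ∫ (‖Dw‖² - (Dw θ)²)`.  So the bracket on the right of `pair_int` is `≤ 2ω ∫ gradSq u (sph r θ) dsg` (`gradSq_sph`), `integral_ball_polar`, `integral_bd_sphere` for `u²`:
`g s^N(R) 2ω ∫ b² ≤ 2ω ∫_ball gradSq u`, multiply by `(cst n).toReal`, divide by `2ω > 0` (`sg_univ_pos`).
(Monotonicity of the interval integral needs integrability of both sides; `intervalIntegral.integral_mono_on`; if the left integrand were not integrable its integral is `0`, so no integrability of the left side is needed: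
`integral_mono_of_nonneg`.)
-/

namespace Pool.Agent.H62.WS

open scoped RealInnerProductSpace MeasureTheory ENNReal NNReal
open MeasureTheory Set Metric

variable {n : ℕ}

private theorem bl_int {a : sphere (0 : E n) 1 → ℝ} (ha : Continuous a) : Integrable a (sg n) :=
  ha.integrable_of_hasCompactSupport (HasCompactSupport.of_compactSpace _)

private theorem bl_pair {a : sphere (0 : E n) 1 → ℝ} (ha : Continuous a) :
    ∫ θ, (∫ η, (a θ - a η) ^ 2 ∂sg n) ∂sg n =
      2 * (sg n).real univ * (∫ θ, a θ ^ 2 ∂sg n) - 2 * (∫ θ, a θ ∂sg n) ^ 2 := by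
  have h1 : ∀ θ, ∫ η, (a θ - a η) ^ 2 ∂sg n =
      (sg n).real univ * a θ ^ 2 - 2 * (∫ η, a η ∂sg n) * a θ + ∫ η, a η ^ 2 ∂sg n := by
    intro θ
    have e1 : ∀ η, (a θ - a η) ^ 2 = (a θ ^ 2 - 2 * a θ * a η) + a η ^ 2 := by
      intro η
      ring
    have i1 : Integrable (fun _ : sphere (0 : E n) 1 => a θ ^ 2) (sg n) := integrable_const _
    have i2 : Integrable (fun η => 2 * a θ * a η) (sg n) := (bl_int ha).const_mul _
    have i3 : Integrable (fun η => a η ^ 2) (sg n) := bl_int (ha.pow 2)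
    have i12 : Integrable (fun η => a θ ^ 2 - 2 * a θ * a η) (sg n) := i1.sub i2
    rw [integral_congr_ae (Filter.Eventually.of_forall e1), integral_add i12 i3,
      integral_sub i1 i2, integral_const, integral_const_mul, smul_eq_mul]
    ring
  have i1 : Integrable (fun θ => (sg n).real univ * a θ ^ 2) (sg n) :=
    (bl_int (ha.pow 2)).const_mul _
  have i2 : Integrable (fun θ => 2 * (∫ η, a η ∂sg n) * a θ) (sg n) := (bl_int ha).const_mul _
  have i3 : Integrable (fun _ : sphere (0 : E n) 1 => ∫ η, a η ^ 2 ∂sg n) (sg n) :=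
    integrable_const _
  have i12 : Integrable (fun θ => (sg n).real univ * a θ ^ 2 - 2 * (∫ η, a η ∂sg n) * a θ)
      (sg n) := i1.sub i2
  rw [integral_congr_ae (Filter.Eventually.of_forall h1), integral_add i12 i3,
    integral_sub i1 i2, integral_const, integral_const_mul, integral_const_mul, smul_eq_mul]
  ring

private theorem bl_cont_u {u : Hyp n → ℝ} (hu : IsC1 u) : Continuous u := by
  have h1 : Continuous (fun x : E n => u ⟨x⟩) := hu.continuous
  have h2 : u = (fun x : E n => u ⟨x⟩) ∘ Hyp.pt := by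
    funext p
    rfl
  rw [h2]
  exact h1.comp continuous_pt

private theorem bl_cont_fd {u : Hyp n → ℝ} (hu : IsC1 u) :
    Continuous (fderiv ℝ (fun x : E n => u ⟨x⟩)) :=
  ContDiff.continuous_fderiv hu one_ne_zero

/-- the bracket of the pair inequality is at most the energy -/
private theorem bl_step (hn : 2 ≤ n) {r : ℝ} (hr : 0 < r) {u : Hyp n → ℝ} (hu : IsC1 u) :
    (∫ θ, (∫ η, (Real.cosh r *
          fderiv ℝ (fun x : E n => u ⟨x⟩) (Real.sinh r • (θ : E n)) (θ : E n) -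
        Real.cosh r * fderiv ℝ (fun x : E n => u ⟨x⟩) (Real.sinh r • (η : E n)) (η : E n)) ^ 2
          ∂sg n) ∂sg n) +
      ((n - 1 : ℕ) : ℝ) * (∫ θ, (∫ η, (u ⟨Real.sinh r • (θ : E n)⟩ -
        u ⟨Real.sinh r • (η : E n)⟩) ^ 2 ∂sg n) ∂sg n) / Real.sinh r ^ 2 ≤
      2 * (sg n).real univ * ∫ θ, gradSq u (sph r θ) ∂sg n := by
  have hs : 0 < Real.sinh r := Real.sinh_pos_iff.mpr hr
  have hfd := bl_cont_fd hu
  have hc1 : Continuous (fun θ : sphere (0 : E n) 1 =>
      fderiv ℝ (fun x : E n => u ⟨x⟩) (Real.sinh r • (θ : E n))) :=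
    hfd.comp (by fun_prop : Continuous fun θ : sphere (0 : E n) 1 => Real.sinh r • (θ : E n))
  have hc2 : Continuous (fun θ : sphere (0 : E n) 1 =>
      fderiv ℝ (fun x : E n => u ⟨x⟩) (Real.sinh r • (θ : E n)) (θ : E n)) :=
    hc1.clm_apply continuous_subtype_val
  have h1 := bl_pair (a := fun θ : sphere (0 : E n) 1 => Real.cosh r *
          fderiv ℝ (fun x : E n => u ⟨x⟩) (Real.sinh r • (θ : E n)) (θ : E n))
          (continuous_const.mul hc2)
  have h2 := poincare_sphere hn hu hs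
  have h3 : ∫ θ, Real.sinh r ^ 2 * (‖fderiv ℝ (fun x : E n => u ⟨x⟩) (Real.sinh r • (θ : E n))‖ ^ 2 -
        (fderiv ℝ (fun x : E n => u ⟨x⟩) (Real.sinh r • (θ : E n)) (θ : E n)) ^ 2) ∂sg n =
      Real.sinh r ^ 2 * ∫ θ, (‖fderiv ℝ (fun x : E n => u ⟨x⟩) (Real.sinh r • (θ : E n))‖ ^ 2 -
        (fderiv ℝ (fun x : E n => u ⟨x⟩) (Real.sinh r • (θ : E n)) (θ : E n)) ^ 2) ∂sg n :=
    integral_const_mul _ _
  rw [h3] at h2
  have i1 : Integrable (fun θ : sphere (0 : E n) 1 => (Real.cosh r *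
          fderiv ℝ (fun x : E n => u ⟨x⟩) (Real.sinh r • (θ : E n)) (θ : E n)) ^ 2) (sg n) :=
    bl_int ((continuous_const.mul hc2).pow 2)
  have i2 : Integrable (fun θ : sphere (0 : E n) 1 =>
      (‖fderiv ℝ (fun x : E n => u ⟨x⟩) (Real.sinh r • (θ : E n))‖ ^ 2 -
        (fderiv ℝ (fun x : E n => u ⟨x⟩) (Real.sinh r • (θ : E n)) (θ : E n)) ^ 2)) (sg n) :=
    bl_int ((hc1.norm.pow 2).sub (hc2.pow 2))
  have h4 : ∫ θ, gradSq u (sph r θ) ∂sg n =
      (∫ θ, (Real.cosh r *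
          fderiv ℝ (fun x : E n => u ⟨x⟩) (Real.sinh r • (θ : E n)) (θ : E n)) ^ 2 ∂sg n) +
      ∫ θ, (‖fderiv ℝ (fun x : E n => u ⟨x⟩) (Real.sinh r • (θ : E n))‖ ^ 2 -
        (fderiv ℝ (fun x : E n => u ⟨x⟩) (Real.sinh r • (θ : E n)) (θ : E n)) ^ 2) ∂sg n := by
    rw [← integral_add i1 i2]
    exact integral_congr_ae (Filter.Eventually.of_forall fun θ => gradSq_sph u r θ)
  have h5 : ((n - 1 : ℕ) : ℝ) * (∫ θ, (∫ η, (u ⟨Real.sinh r • (θ : E n)⟩ -
        u ⟨Real.sinh r • (η : E n)⟩) ^ 2 ∂sg n) ∂sg n) / Real.sinh r ^ 2 ≤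
      2 * (sg n).real univ * ∫ θ, (‖fderiv ℝ (fun x : E n => u ⟨x⟩) (Real.sinh r • (θ : E n))‖ ^ 2 -
        (fderiv ℝ (fun x : E n => u ⟨x⟩) (Real.sinh r • (θ : E n)) (θ : E n)) ^ 2) ∂sg n := by
    rw [div_le_iff₀ (by positivity)]
    calc _ ≤ _ := h2
      _ = _ := by ring
  rw [h1, h4, mul_add]
  have h6 := sq_nonneg (∫ θ, Real.cosh r *
          fderiv ℝ (fun x : E n => u ⟨x⟩) (Real.sinh r • (θ : E n)) (θ : E n) ∂sg n)
  linarith

theorem ball_lower (hn : 2 ≤ n) {R : ℝ} (hR : 0 < R) {u : Hyp n → ℝ} (hu : IsC1 u)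
    (h0 : ∫ p in sphere (org n) R, u p ∂bd n = 0) :
    gg (n - 1) R * ∫ p in sphere (org n) R, u p ^ 2 ∂bd n ≤
      (cst n).toReal * ∫ p in ball (org n) R, gradSq u p ∂vol n := by
  have hcu := bl_cont_u hu
  have hcs : 0 < (cst n).toReal := ENNReal.toReal_pos (cst_ne_zero hn) (cst_ne_top hn)
  have hsR : 0 < Real.sinh R := Real.sinh_pos_iff.mpr hR
  have hω : 0 < (sg n).real univ :=
    ENNReal.toReal_pos (sg_univ_pos hn).ne' (measure_ne_top _ _)
  have hsph : ∀ r : ℝ, Continuous (fun θ : sphere (0 : E n) 1 => sph r θ) := fun r =>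
    continuous_sph.comp (continuous_const.prodMk continuous_id)
  have hb : Continuous (fun θ : sphere (0 : E n) 1 => u (sph R θ)) := hcu.comp (hsph R)
  -- mean zero
  rw [integral_bd_sphere hn hR hcu] at h0
  have h1 : ∫ θ, u (sph R θ) ∂sg n = 0 := by
    rcases mul_eq_zero.mp h0 with h2 | h2
    · exact absurd h2 (mul_pos (pow_pos hsR _) hcs).ne'
    · exact h2
  have h2 := bl_pair hb
  rw [h1] at h2
  -- the pair inequality
  have h3 := pair_int hn hR (w := fun x : E n => u ⟨x⟩) hu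
  have h4 : ∫ r in (0 : ℝ)..R, Real.sinh r ^ (n - 1) *
        ((∫ θ, (∫ η, (Real.cosh r *
            fderiv ℝ (fun x : E n => u ⟨x⟩) (Real.sinh r • (θ : E n)) (θ : E n) -
            Real.cosh r * fderiv ℝ (fun x : E n => u ⟨x⟩) (Real.sinh r • (η : E n)) (η : E n)) ^ 2
              ∂sg n) ∂sg n) +
          ((n - 1 : ℕ) : ℝ) * (∫ θ, (∫ η, (u ⟨Real.sinh r • (θ : E n)⟩ -
            u ⟨Real.sinh r • (η : E n)⟩) ^ 2 ∂sg n) ∂sg n) / Real.sinh r ^ 2) ≤
      ∫ r in (0 : ℝ)..R, 2 * (sg n).real univ *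
        (Real.sinh r ^ (n - 1) * ∫ θ, gradSq u (sph r θ) ∂sg n) := by
    have hcont : Continuous (fun r : ℝ => 2 * (sg n).real univ *
        (Real.sinh r ^ (n - 1) * ∫ θ, gradSq u (sph r θ) ∂sg n)) := by
      have h5 : Continuous (fun r : ℝ => ∫ θ, gradSq u (sph r θ) ∂sg n) := by
        have h6 := continuous_parametric_integral_of_continuous (μ := sg n)
          (f := fun (r : ℝ) (θ : sphere (0 : E n) 1) => gradSq u (sph r θ))
          ((continuous_gradSq hu).comp continuous_sph) (s := univ) isCompact_univ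
        simpa using h6
      exact continuous_const.mul ((Real.continuous_sinh.pow _).mul h5)
    rw [intervalIntegral.integral_of_le hR.le, intervalIntegral.integral_of_le hR.le]
    apply integral_mono_of_nonneg
    · refine ae_restrict_of_forall_mem measurableSet_Ioc fun r hr => ?_
      have hs : 0 < Real.sinh r := Real.sinh_pos_iff.mpr hr.1
      simp only [Pi.zero_apply]
      apply mul_nonneg (pow_nonneg hs.le _)
      apply add_nonneg
      · exact integral_nonneg fun θ => integral_nonneg fun η => sq_nonneg _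
      · apply div_nonneg _ (sq_nonneg _)
        exact mul_nonneg (Nat.cast_nonneg _)
          (integral_nonneg fun θ => integral_nonneg fun η => sq_nonneg _)
    · exact (hcont.integrableOn_Icc (a := 0) (b := R)).mono_set Ioc_subset_Icc_self
    · refine ae_restrict_of_forall_mem measurableSet_Ioc fun r hr => ?_
      have hs : 0 < Real.sinh r := Real.sinh_pos_iff.mpr hr.1
      have h5 := mul_le_mul_of_nonneg_left (bl_step hn hr.1 hu) (pow_nonneg hs.le (n - 1))
      calc _ ≤ _ := h5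
        _ = _ := by ring
  have h5 := h3.trans h4
  rw [intervalIntegral.integral_const_mul, ← integral_ball_polar hn hR (continuous_gradSq hu)] at h5
  have h6 : ∫ θ, (∫ η, (u ⟨Real.sinh R • (θ : E n)⟩ - u ⟨Real.sinh R • (η : E n)⟩) ^ 2 ∂sg n) ∂sg n =
      2 * (sg n).real univ * ∫ θ, u (sph R θ) ^ 2 ∂sg n := by
    have h7 : ∫ θ, (∫ η, (u ⟨Real.sinh R • (θ : E n)⟩ - u ⟨Real.sinh R • (η : E n)⟩) ^ 2
        ∂sg n) ∂sg n = ∫ θ, (∫ η, (u (sph R θ) - u (sph R η)) ^ 2 ∂sg n) ∂sg n := rfl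
    rw [h7, h2]
    ring
  rw [h6] at h5
  have h7 : gg (n - 1) R * Real.sinh R ^ (n - 1) * (∫ θ, u (sph R θ) ^ 2 ∂sg n) ≤
      ∫ p in ball (org n) R, gradSq u p ∂vol n := by
    have h8 : (2 * (sg n).real univ) *
        (gg (n - 1) R * Real.sinh R ^ (n - 1) * (∫ θ, u (sph R θ) ^ 2 ∂sg n)) ≤
        (2 * (sg n).real univ) * ∫ p in ball (org n) R, gradSq u p ∂vol n := by
      calc _ = _ := by ring
        _ ≤ _ := h5
    exact le_of_mul_le_mul_left h8 (by positivity)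
  rw [integral_bd_sphere hn hR (u := fun p => u p ^ 2) (hcu.pow 2)]
  calc _ = (cst n).toReal *
        (gg (n - 1) R * Real.sinh R ^ (n - 1) * (∫ θ, u (sph R θ) ^ 2 ∂sg n)) := by ring
    _ ≤ _ := mul_le_mul_of_nonneg_left h7 hcs.le

end Pool.Agent.H62.WS
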