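import Pool.Agent.H62.WS.Iso

set_option autoImplicit false

/-!
# [H62 WS HHYPF] The frontier of a ball

For the origin by the chart `homeo n` (`Homeomorph.image_frontier`, `mem_ball_org`, `mem_sphere_org`: the ball is the image of `ball (0 : E n) (sinh r)`; `frontier_ball` in the normed
space `E n`, `sinh r ≠ 0`), for `p` by the isometry `boostIso p.pt` (`image_frontier`, `IsometryEquiv.image_ball`, `IsometryEquiv.image_sphere`, `boostIso_self`,
injectivity of the image).
-/

namespace Pool.Agent.H62.WS

open scoped RealInnerProductSpace MeasureTheory ENNReal NNReal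
open MeasureTheory Set Metric

variable {n : ℕ}

private theorem frontier_ball_org {r : ℝ} (hr : 0 < r) :
    frontier (ball (org n) r) = sphere (org n) r := by
  have h1 : ball (org n) r = homeo n '' ball (0 : E n) (Real.sinh r) := by
    ext p
    rw [mem_ball_org hr.le]
    constructor
    · intro hp
      exact ⟨p.pt, by rwa [mem_ball_zero_iff], rfl⟩
    · rintro ⟨x, hx, rfl⟩
      rwa [mem_ball_zero_iff] at hx
  have h2 : sphere (org n) r = homeo n '' sphere (0 : E n) (Real.sinh r) := by
    ext p
    rw [mem_sphere_org hr.le]
    constructor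
    · intro hp
      exact ⟨p.pt, by rwa [mem_sphere_zero_iff_norm], rfl⟩
    · rintro ⟨x, hx, rfl⟩
      rwa [mem_sphere_zero_iff_norm] at hx
  rw [h1, h2, ← (homeo n).image_frontier, frontier_ball _ (Real.sinh_pos_iff.mpr hr).ne']

theorem frontier_ball_hyp (hn : 2 ≤ n) (p : Hyp n) {r : ℝ} (hr : 0 < r) :
    frontier (ball p r) = sphere p r := by
  have h1 : boostIso p.pt '' frontier (ball p r) = boostIso p.pt '' sphere p r := by
    rw [← image_frontier, IsometryEquiv.image_ball, IsometryEquiv.image_sphere, boostIso_self,
      frontier_ball_org hr]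
  exact (boostIso p.pt).injective.image_injective h1

end Pool.Agent.H62.WS
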