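import Pool.Agent.H62.WS.Top

set_option autoImplicit false

/-!
# [H62 WS UPPERA] Nonnegativity and continuity of the energy density

`continuous_gradSq`: `fderiv` of a `C^1` function is continuous (`ContDiff.continuous_fderiv`), composed with the continuous `Hyp.pt` (`continuous_pt`), evaluation is continuous.
-/

namespace Pool.Agent.H62.WS

open scoped RealInnerProductSpace MeasureTheory ENNReal NNReal
open MeasureTheory Set Metric

variable {n : ℕ}

theorem gradSq_nonneg (u : Hyp n → ℝ) (p : Hyp n) : 0 ≤ gradSq u p := by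
  unfold gradSq
  positivity

theorem continuous_gradSq {u : Hyp n → ℝ} (hu : IsC1 u) : Continuous (gradSq u) := by
  have hc : Continuous (fun p : Hyp n => fderiv ℝ (fun x : E n => u ⟨x⟩) p.pt) :=
    (ContDiff.continuous_fderiv hu one_ne_zero).comp continuous_pt
  unfold gradSq
  exact (hc.norm.pow 2).add ((hc.clm_apply continuous_pt).pow 2)

theorem rayleigh_nonneg {Ω : Set (Hyp n)} {t : ℝ} (ht : t ∈ rayleigh Ω) : 0 ≤ t := by
  obtain ⟨u, _, _, h1, rfl⟩ := ht
  exact div_nonneg (integral_nonneg fun p => gradSq_nonneg u p) h1.le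

theorem bddBelow_rayleigh (Ω : Set (Hyp n)) : BddBelow (rayleigh Ω) :=
  ⟨0, fun _ ht => rayleigh_nonneg ht⟩

end Pool.Agent.H62.WS
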