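import Pool.Agent.H62.WS.HHypI
import Pool.Agent.H62.WS.HHypF
import Pool.Agent.H62.WS.UpperA

set_option autoImplicit false

/-!
# [H62 WS BALLNE] The set of quotients of a ball is not empty

The coordinate function `u p = p.pt i` (`i = 0`) is `C^1`, `∫ u = 0` over the sphere: `integral_bd_sphere` and `∫ θ_i dsg = 0` by the symmetry `θ ↦ -θ` of `sg n` (the map is `volume` preserving on `E n`, `toSphere_apply'`; or
`u` and `u ∘ (reflection isometry)`: the isometry `p ↦ ⟨-p.pt⟩` of `Hyp n` maps the sphere to itself and preserves `bd n`), and `∫ u² > 0` (`u²` is continuous, nonnegative, nonzero at a point `θ`; `sg n` is positive on open sets; or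
`Σ_i ∫ θ_i² = ω > 0`, so some coordinate `i` has a positive integral: choose that `i`).
-/

namespace Pool.Agent.H62.WS

open scoped RealInnerProductSpace MeasureTheory ENNReal NNReal Pointwise
open MeasureTheory Set Metric

variable {n : ℕ}

private theorem bn_meas_neg :
    MeasurePreserving (fun θ : sphere (0 : E n) 1 => -θ) (sg n) (sg n) := by
  have hm : Measurable (fun θ : sphere (0 : E n) 1 => -θ) := continuous_neg.measurable
  refine ⟨hm, ?_⟩
  ext s hs
  rw [Measure.map_apply hm hs]
  unfold sg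
  rw [Measure.toSphere_apply' _ (hm hs), Measure.toSphere_apply' _ hs]
  congr 1
  have himg : Ioo (0 : ℝ) 1 • (Subtype.val '' ((fun θ : sphere (0 : E n) 1 => -θ) ⁻¹' s) : Set (E n))
      = -(Ioo (0 : ℝ) 1 • (Subtype.val '' s : Set (E n))) := by
    ext z
    constructor
    · rintro ⟨c, hc, _, ⟨w, hw, rfl⟩, rfl⟩
      rw [Set.mem_neg]
      refine ⟨c, hc, ((-w : sphere (0 : E n) 1) : E n), ⟨-w, hw, rfl⟩, ?_⟩
      simp only [coe_neg_sphere, smul_neg]
    · intro hz
      rw [Set.mem_neg] at hz
      obtain ⟨c, hc, _, ⟨w, hw, rfl⟩, hz⟩ := hz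
      refine ⟨c, hc, ((-w : sphere (0 : E n) 1) : E n), ⟨-w, ?_, rfl⟩, ?_⟩
      · change -(-w) ∈ s
        rwa [neg_neg]
      · simp only [coe_neg_sphere, smul_neg] at hz ⊢
        rw [hz, neg_neg]
  rw [himg, Measure.measure_neg]

private theorem bn_int_zero (i : Fin n) : ∫ θ : sphere (0 : E n) 1, (θ : E n) i ∂sg n = 0 := by
  have h1 := (bn_meas_neg (n := n)).integral_comp
    (Homeomorph.neg (sphere (0 : E n) 1)).measurableEmbedding
    (fun θ : sphere (0 : E n) 1 => (θ : E n) i)
  have h2 : ∀ θ : sphere (0 : E n) 1, ((-θ : sphere (0 : E n) 1) : E n) i = -((θ : E n) i) := by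
    intro θ
    rw [coe_neg_sphere]
    rfl
  simp only [h2] at h1
  rw [integral_neg] at h1
  linarith

private theorem bn_cont (i : Fin n) : Continuous fun θ : sphere (0 : E n) 1 => (θ : E n) i := by
  have h1 : Continuous fun x : E n => x i := by fun_prop
  exact h1.comp continuous_subtype_val

private theorem bn_int_sq (hn : 2 ≤ n) :
    ∃ i : Fin n, 0 < ∫ θ : sphere (0 : E n) 1, (θ : E n) i ^ 2 ∂sg n := by
  by_contra hcon
  push Not at hcon
  have hint : ∀ i : Fin n, Integrable (fun θ : sphere (0 : E n) 1 => (θ : E n) i ^ 2) (sg n) :=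
    fun i => ((bn_cont i).pow 2).integrable_of_hasCompactSupport
      (HasCompactSupport.of_compactSpace _)
  have h1 : ∫ θ : sphere (0 : E n) 1, ∑ i, (θ : E n) i ^ 2 ∂sg n ≤ 0 := by
    rw [integral_finsetSum _ fun i _ => hint i]
    exact Finset.sum_nonpos fun i _ => hcon i
  have h2 : ∀ θ : sphere (0 : E n) 1, ∑ i, (θ : E n) i ^ 2 = 1 := by
    intro θ
    have h3 : ‖(θ : E n)‖ = 1 := by
      have := θ.2
      rwa [mem_sphere_zero_iff_norm] at this
    have h4 := EuclideanSpace.real_norm_sq_eq (θ : E n)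
    rw [h3] at h4
    linarith
  simp only [h2] at h1
  rw [integral_const, smul_eq_mul, mul_one] at h1
  have h5 : 0 < (sg n).real univ := by
    rw [Measure.real]
    exact ENNReal.toReal_pos (sg_univ_pos hn).ne' (measure_ne_top _ _)
  linarith

theorem rayleigh_ball_nonempty (hn : 2 ≤ n) {R : ℝ} (hR : 0 < R) :
    (rayleigh (ball (org n) R)).Nonempty := by
  obtain ⟨i, hi⟩ := bn_int_sq hn
  have hu : Continuous fun p : Hyp n => p.pt i := by
    have h1 : Continuous fun x : E n => x i := by fun_prop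
    exact h1.comp continuous_pt
  have hsph : ∀ θ : sphere (0 : E n) 1, (sph R θ).pt i = Real.sinh R * (θ : E n) i := fun θ => rfl
  have hc : 0 < (cst n).toReal := ENNReal.toReal_pos (cst_ne_zero hn) (cst_ne_top hn)
  have hs : 0 < Real.sinh R := Real.sinh_pos_iff.mpr hR
  refine ⟨_, fun p => p.pt i, ?_, ?_, ?_, rfl⟩
  · unfold IsC1
    change ContDiff ℝ 1 fun x : E n => x i
    fun_prop
  · rw [frontier_ball_hyp hn _ hR, integral_bd_sphere hn hR hu]
    simp only [hsph]
    rw [integral_const_mul, bn_int_zero, mul_zero, mul_zero]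
  · have hu2 : Continuous fun p : Hyp n => p.pt i ^ 2 := hu.pow 2
    rw [frontier_ball_hyp hn _ hR, integral_bd_sphere hn hR hu2]
    simp only [hsph, mul_pow]
    rw [integral_const_mul]
    positivity

end Pool.Agent.H62.WS
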