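import Pool.Agent.H62.WS.UpperA
import Pool.Agent.H62.WS.Polar

set_option autoImplicit false

/-!
# [H62 WS BALLPOL] The energy density and integrals over balls in polar coordinates

`integral_ball_polar`: split `F` into the positive and the negative part (or add a constant / use `integral_eq_lintegral_of_nonneg_ae` for `F⁺`, `F⁻`), `lintegral_vol` for the indicator of the ball times `ofReal F⁺`
(`mem_ball`: `sph r θ ∈ ball (org n) R` iff `r < R` for `r ≥ 0`, `dist_org_sph`), Tonelli (swap `θ` and `r`), everything is bounded on the compact `closedBall (org n) R`.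
-/

namespace Pool.Agent.H62.WS

open scoped RealInnerProductSpace MeasureTheory ENNReal NNReal
open MeasureTheory Set Metric

variable {n : ℕ}

theorem gradSq_sph (u : Hyp n → ℝ) (r : ℝ) (θ : sphere (0 : E n) 1) :
    gradSq u (sph r θ) =
      (Real.cosh r * fderiv ℝ (fun x : E n => u ⟨x⟩) (Real.sinh r • (θ : E n)) (θ : E n)) ^ 2 +
      (‖fderiv ℝ (fun x : E n => u ⟨x⟩) (Real.sinh r • (θ : E n))‖ ^ 2 -
        (fderiv ℝ (fun x : E n => u ⟨x⟩) (Real.sinh r • (θ : E n)) (θ : E n)) ^ 2) := by
  unfold gradSq sph
  simp only [map_smul, smul_eq_mul]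
  have h := Real.cosh_sq r
  rw [mul_pow, mul_pow, h]
  ring

/-- the radial measure -/
noncomputable def ballpolRad (n : ℕ) : Measure ℝ :=
  (volume.restrict (Ioi (0 : ℝ))).withDensity (fun r => ENNReal.ofReal (Real.sinh r ^ (n - 1)))

instance : SFinite (ballpolRad n) := by
  unfold ballpolRad
  infer_instance

theorem ballpol_meas : Measurable (fun q : sphere (0 : E n) 1 × ℝ => sph q.2 q.1) := by
  have h1 : Continuous (fun q : sphere (0 : E n) 1 × ℝ => ((q.2, q.1) : ℝ × sphere (0 : E n) 1)) :=
    continuous_swap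
  have h2 := (continuous_sph (n := n)).comp h1
  exact h2.measurable

theorem ballpol_vol_eq (hn : 2 ≤ n) :
    vol n = ((sg n).prod (ballpolRad n)).map
      (fun q : sphere (0 : E n) 1 × ℝ => sph q.2 q.1) := by
  have hm := ballpol_meas (n := n)
  ext A hA
  rw [Measure.map_apply hm hA, ← lintegral_indicator_one hA,
    lintegral_vol hn (measurable_one.indicator hA), Measure.prod_apply (hm hA)]
  refine lintegral_congr fun θ => ?_
  have h1 : MeasurableSet (Prod.mk θ ⁻¹' ((fun q : sphere (0 : E n) 1 × ℝ => sph q.2 q.1) ⁻¹' A)) :=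
    measurable_prodMk_left (hm hA)
  unfold ballpolRad
  rw [withDensity_apply _ h1, ← lintegral_indicator h1]
  refine lintegral_congr fun r => ?_
  by_cases h : sph r θ ∈ A
  · rw [indicator_of_mem h, indicator_of_mem (by exact h)]
    simp
  · rw [indicator_of_notMem h, indicator_of_notMem (by exact h)]
    simp

theorem integral_ball_polar (hn : 2 ≤ n) {R : ℝ} (hR : 0 < R) {F : Hyp n → ℝ} (hF : Continuous F) :
    ∫ p in ball (org n) R, F p ∂vol n =
      ∫ r in (0 : ℝ)..R, Real.sinh r ^ (n - 1) * ∫ θ, F (sph r θ) ∂sg n := by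
  have hm := ballpol_meas (n := n)
  have hb : IntegrableOn F (ball (org n) R) (vol n) := by
    obtain ⟨C, hC⟩ := (isCompact_closedBall (org n) R).exists_bound_of_continuousOn
      hF.continuousOn
    refine Measure.integrableOn_of_bounded (M := C)
      (vol_lt_top_of_isBounded isBounded_ball).ne hF.aestronglyMeasurable ?_
    filter_upwards [ae_restrict_mem measurableSet_ball] with p hp
    exact hC p (ball_subset_closedBall hp)
  have hi : Integrable ((ball (org n) R).indicator F) (vol n) :=
    (integrable_indicator_iff measurableSet_ball).2 hb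
  rw [← integral_indicator measurableSet_ball]
  rw [ballpol_vol_eq hn] at hi ⊢
  have hi2 : Integrable (fun q : sphere (0 : E n) 1 × ℝ =>
      (ball (org n) R).indicator F (sph q.2 q.1)) ((sg n).prod (ballpolRad n)) :=
    hi.comp_measurable hm
  rw [integral_map hm.aemeasurable hi.aestronglyMeasurable, integral_prod_symm _ hi2]
  unfold ballpolRad
  rw [integral_withDensity_eq_integral_toReal_smul (by fun_prop)
    (ae_of_all _ fun r => ENNReal.ofReal_lt_top)]
  rw [intervalIntegral.integral_of_le hR.le, integral_Ioc_eq_integral_Ioo]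
  have hsub : Ioo (0 : ℝ) R ⊆ Ioi 0 := fun r hr => hr.1
  refine (setIntegral_eq_of_subset_of_forall_sdiff_eq_zero measurableSet_Ioi hsub ?_).trans
    (setIntegral_congr_fun measurableSet_Ioo fun r hr => ?_)
  rotate_left
  · have h1 : 0 ≤ Real.sinh r ^ (n - 1) := pow_nonneg (Real.sinh_nonneg_iff.2 hr.1.le) _
    simp only [smul_eq_mul]
    rw [ENNReal.toReal_ofReal h1]
    congr 1
    refine integral_congr_ae (ae_of_all _ fun θ => ?_)
    simp only
    rw [indicator_of_mem]
    rw [mem_ball, dist_comm, dist_org_sph hr.1.le]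
    exact hr.2
  · intro r hr
    have hr0 : 0 < r := hr.1
    have hrR : ¬ r < R := fun h => hr.2 ⟨hr0, h⟩
    have h2 : ∀ θ : sphere (0 : E n) 1, (ball (org n) R).indicator F (sph r θ) = 0 := by
      intro θ
      rw [indicator_of_notMem]
      rw [mem_ball, dist_comm, dist_org_sph hr0.le]
      exact hrR
    simp [h2]

end Pool.Agent.H62.WS
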