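import Pool.Agent.H62.WS.BallLow
import Pool.Agent.H62.WS.BallNe

set_option autoImplicit false

/-!
# [H62 WS BALLSIG] The first Steklov eigenvalue of a ball

(proved)
-/

namespace Pool.Agent.H62.WS

open scoped RealInnerProductSpace MeasureTheory ENNReal NNReal
open MeasureTheory Set Metric

variable {n : ℕ}

theorem le_sigma1_ball (hn : 2 ≤ n) {R : ℝ} (hR : 0 < R) :
    gg (n - 1) R / (cst n).toReal ≤ sigma1 (ball (org n) R) := by
  have hc : 0 < (cst n).toReal := ENNReal.toReal_pos (cst_ne_zero hn) (cst_ne_top hn)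
  apply le_csInf (rayleigh_ball_nonempty hn hR)
  rintro t ⟨u, hu, h0, h1, rfl⟩
  rw [frontier_ball_hyp hn (org n) hR] at h0 h1 ⊢
  rw [div_le_div_iff₀ hc h1]
  have h2 := ball_lower hn hR hu h0
  linarith

end Pool.Agent.H62.WS
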