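import Pool.Agent.H62.WS.VolInv

set_option autoImplicit false

/-!
# [H62 WS SIG] `sigma1` is invariant under boosts
-/

namespace Pool.Agent.H62.WS

open scoped RealInnerProductSpace MeasureTheory
open MeasureTheory Set Metric

variable {n : ℕ}

theorem setIntegral_bd_image (φ : Hyp n ≃ᵢ Hyp n) (A : Set (Hyp n)) (u : Hyp n → ℝ) :
    ∫ p in φ '' A, u p ∂bd n = ∫ p in A, u (φ p) ∂bd n := by
  have h : MeasurePreserving φ (bd n) (bd n) :=
    φ.measurePreserving_euclideanHausdorffMeasure (n - 1)
  exact h.setIntegral_image_emb φ.toHomeomorph.measurableEmbedding u A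

theorem setIntegral_vol_image (a : E n) (A : Set (Hyp n)) (u : Hyp n → ℝ) :
    ∫ p in boostIso a '' A, u p ∂vol n = ∫ p in A, u (boostIso a p) ∂vol n :=
  (measurePreserving_boostIso a).setIntegral_image_emb
    (boostIso a).toHomeomorph.measurableEmbedding u A

theorem rayleigh_image_subset (a : E n) (Ω : Set (Hyp n)) :
    rayleigh (boostIso a '' Ω) ⊆ rayleigh Ω := by
  rintro t ⟨u, hu, h0, h1, rfl⟩
  refine ⟨u ∘ boostIso a, hu.comp_boost a, ?_, ?_, ?_⟩
  · rw [image_frontier, setIntegral_bd_image] at h0
    exact h0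
  · rw [image_frontier, setIntegral_bd_image] at h1
    exact h1
  · rw [image_frontier, setIntegral_bd_image, setIntegral_vol_image]
    simp only [gradSq_boost hu, Function.comp_apply]

theorem boostIso_neg_image (a : E n) (Ω : Set (Hyp n)) :
    boostIso (-a) '' (boostIso a '' Ω) = Ω := by
  rw [← image_comp]
  have : (boostIso (-a) : Hyp n → Hyp n) ∘ boostIso a = id := by
    ext p : 1
    simp only [Function.comp_apply, boostIso_apply, boost_neg_boost, id]
  rw [this, image_id]

theorem sigma1_image (a : E n) (Ω : Set (Hyp n)) : sigma1 (boostIso a '' Ω) = sigma1 Ω := by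
  have h : rayleigh (boostIso a '' Ω) = rayleigh Ω := by
    apply (rayleigh_image_subset a Ω).antisymm
    have h2 := rayleigh_image_subset (-a) (boostIso a '' Ω)
    rwa [boostIso_neg_image] at h2
  rw [sigma1, sigma1, h]

end Pool.Agent.H62.WS
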