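import Pool.Agent.H62.WS.TopA

set_option autoImplicit false

/-!
# [H62 WS TOP] Polar coordinates of points

`Real.sinh_eq...`; `dist (org n) p = arsinh ‖p.pt‖` (`dist_org`), `cosh_dist`, `sinh_dist_org`, `four_sinh_half_sq`.
-/

namespace Pool.Agent.H62.WS

open scoped RealInnerProductSpace MeasureTheory ENNReal NNReal
open MeasureTheory Set Metric

variable {n : ℕ}

private theorem norm_sph_pt {r : ℝ} (hr : 0 ≤ r) (θ : sphere (0 : E n) 1) :
    ‖(sph r θ).pt‖ = Real.sinh r := by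
  have h1 : ‖(θ : E n)‖ = 1 := by
    have := θ.2
    rwa [mem_sphere_zero_iff_norm] at this
  have h2 : (sph r θ).pt = Real.sinh r • (θ : E n) := rfl
  rw [h2, norm_smul, h1, mul_one, Real.norm_eq_abs, abs_of_nonneg (Real.sinh_nonneg_iff.mpr hr)]

theorem dist_org_sph {r : ℝ} (hr : 0 ≤ r) (θ : sphere (0 : E n) 1) : dist (org n) (sph r θ) = r := by
  rw [dist_org, norm_sph_pt hr, Real.arsinh_sinh]

theorem mem_ball_org {r : ℝ} (hr : 0 ≤ r) {p : Hyp n} : p ∈ ball (org n) r ↔ ‖p.pt‖ < Real.sinh r := by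
  rw [mem_ball, dist_comm, ← sinh_dist_org, Real.sinh_lt_sinh]

theorem mem_sphere_org {r : ℝ} (hr : 0 ≤ r) {p : Hyp n} : p ∈ sphere (org n) r ↔ ‖p.pt‖ = Real.sinh r := by
  rw [mem_sphere, dist_comm, ← sinh_dist_org, Real.sinh_inj]

/-- every point is `sph r θ`, `r` its distance to the origin -/
theorem exists_sph (hn : 2 ≤ n) (p : Hyp n) : ∃ θ : sphere (0 : E n) 1, p = sph (dist (org n) p) θ := by
  by_cases hp : p.pt = 0
  · refine ⟨⟨EuclideanSpace.single (⟨0, by omega⟩ : Fin n) (1 : ℝ), ?_⟩, ?_⟩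
    · rw [mem_sphere_zero_iff_norm, EuclideanSpace.norm_single, norm_one]
    · apply Hyp.ext
      show p.pt = Real.sinh (dist (org n) p) • _
      rw [sinh_dist_org, hp, norm_zero, zero_smul]
  · have hn0 : ‖p.pt‖ ≠ 0 := norm_ne_zero_iff.mpr hp
    refine ⟨⟨‖p.pt‖⁻¹ • p.pt, ?_⟩, ?_⟩
    · rw [mem_sphere_zero_iff_norm, norm_smul, norm_inv, norm_norm, inv_mul_cancel₀ hn0]
    · apply Hyp.ext
      show p.pt = Real.sinh (dist (org n) p) • (‖p.pt‖⁻¹ • p.pt)
      rw [sinh_dist_org, smul_smul, mul_inv_cancel₀ hn0, one_smul]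

theorem sph_injective {r s : ℝ} (hr : 0 < r) (hs : 0 < s) {θ η : sphere (0 : E n) 1}
    (h : sph r θ = sph s η) : r = s ∧ θ = η := by
  have h1 : r = s := by
    rw [← dist_org_sph hr.le θ, h, dist_org_sph hs.le]
  subst h1
  refine ⟨rfl, ?_⟩
  have h2 : Real.sinh r • (θ : E n) = Real.sinh r • (η : E n) := congrArg Hyp.pt h
  have h3 : Real.sinh r ≠ 0 := (Real.sinh_pos_iff.mpr hr).ne'
  exact Subtype.ext (smul_right_injective _ h3 h2)

theorem continuous_sph : Continuous fun p : ℝ × sphere (0 : E n) 1 => sph p.1 p.2 := by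
  apply continuous_mk.comp
  exact (Real.continuous_sinh.comp continuous_fst).smul (continuous_subtype_val.comp continuous_snd)

/-- `cosh d = 1 + s² |θ-η|²/2`, i.e. `2 sinh (d/2) = s |θ-η|` -/
theorem dist_sph_sph {r : ℝ} (hr : 0 ≤ r) (θ η : sphere (0 : E n) 1) :
    2 * Real.sinh (dist (sph r θ) (sph r η) / 2) = Real.sinh r * dist θ η := by
  have h1 := four_sinh_half_sq (sph r θ).pt (sph r η).pt
  have h2 : tc (sph r θ).pt = tc (sph r η).pt := by
    unfold tc
    rw [norm_sph_pt hr, norm_sph_pt hr]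
  have h3 : (sph r θ).pt - (sph r η).pt = Real.sinh r • ((θ : E n) - (η : E n)) := by
    rw [smul_sub]
    rfl
  have hs : 0 ≤ Real.sinh r := Real.sinh_nonneg_iff.mpr hr
  rw [h2, sub_self, h3, norm_smul, Real.norm_eq_abs, abs_of_nonneg hs] at h1
  have h4 : dist θ η = ‖(θ : E n) - (η : E n)‖ := by
    rw [Subtype.dist_eq, dist_eq_norm]
  have h5 : 0 ≤ Real.sinh (dist (sph r θ) (sph r η) / 2) := by
    rw [Real.sinh_nonneg_iff]; positivity
  have h6 : (2 * Real.sinh (dist (sph r θ) (sph r η) / 2)) ^ 2 = (Real.sinh r * dist θ η) ^ 2 := by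
    rw [h4]
    have h7 : dist (sph r θ) (sph r η) = dist (⟨(sph r θ).pt⟩ : Hyp n) ⟨(sph r η).pt⟩ := rfl
    rw [h7]
    nlinarith
  exact (pow_left_inj₀ (by positivity) (by positivity) two_ne_zero).mp h6

end Pool.Agent.H62.WS
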