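import Pool.Agent.H62.WS.TestA
import Pool.Agent.H62.WS.Top

set_option autoImplicit false

/-!
# [H62 WS TEST] The test functions `u_i(x) = qq (n-1) (‖x‖²) x_i`

* `isC1_uu`: `contDiffOn_qq` composed with `x ↦ ‖x‖²` (`contDiff_norm_sq`), values in `[0,∞) ⊆ Ioi (-1)`; coordinates are linear.
* `sum_uu_sq`: `Σ_i (p.pt i)² = ‖p.pt‖²` (`EuclideanSpace.norm_sq_eq`), `‖p.pt‖ = sinh (dist (org n) p)` (`sinh_dist_org`), `qq_sinh`; at the origin `ff N 0 = 0` (`N = n - 1 ≥ 1`).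
-/

namespace Pool.Agent.H62.WS

open scoped RealInnerProductSpace MeasureTheory ENNReal NNReal
open MeasureTheory Set Metric

variable {n : ℕ}

/-- the test functions -/
noncomputable def uu (i : Fin n) (p : Hyp n) : ℝ := qq (n - 1) (‖p.pt‖ ^ 2) * p.pt i

theorem isC1_uu (i : Fin n) : IsC1 (uu i) := by
  unfold IsC1 uu
  simp only
  have h1 : ContDiff ℝ 1 fun x : E n => ‖x‖ ^ 2 := contDiff_norm_sq ℝ
  have h2 : ContDiff ℝ 1 fun x : E n => qq (n - 1) (‖x‖ ^ 2) := by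
    rw [← contDiffOn_univ]
    refine (contDiffOn_qq (n - 1)).comp h1.contDiffOn fun x _ => ?_
    have h3 : 0 ≤ ‖x‖ ^ 2 := sq_nonneg _
    exact lt_of_lt_of_le (by norm_num) h3
  have h3 : ContDiff ℝ 1 fun x : E n => x i := (EuclideanSpace.proj i : E n →L[ℝ] ℝ).contDiff
  exact h2.mul h3

theorem sum_uu_sq (hn : 2 ≤ n) (p : Hyp n) : ∑ i : Fin n, uu i p ^ 2 = ff (n - 1) (dist (org n) p) ^ 2 := by
  have h1 : ∑ i : Fin n, uu i p ^ 2 = (qq (n - 1) (‖p.pt‖ ^ 2) * ‖p.pt‖) ^ 2 := by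
    simp only [uu, mul_pow]
    rw [← Finset.mul_sum, EuclideanSpace.real_norm_sq_eq]
  rw [h1]
  by_cases hp : dist (org n) p = 0
  · have h2 : ‖p.pt‖ = 0 := by rw [← sinh_dist_org, hp, Real.sinh_zero]
    have h3 : n - 1 ≠ 0 := by omega
    rw [h2, hp]
    simp [ff, VV_zero]
  · have h2 : 0 < dist (org n) p := lt_of_le_of_ne dist_nonneg (Ne.symm hp)
    rw [← sinh_dist_org, qq_sinh _ h2]

end Pool.Agent.H62.WS
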