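import Pool.Agent.H62.WS.ComA
import Pool.Agent.H62.WS.SigInv
import Pool.Agent.H62.WS.Test

set_option autoImplicit false

/-!
# [H62 WS COM] The centre, in terms of the test functions

`image_frontier`, `setIntegral_bd_image` (SigInv), `exists_center` for `K = frontier Ω` (compact: closed and bounded in the proper space `Hyp n`), the coordinate `i` of the vector-valued integral
(`EuclideanSpace.proj i`, `ContinuousLinearMap.integral_comp_comm`; integrable on a compact set of finite measure; if not integrable both are `0`...).
-/

namespace Pool.Agent.H62.WS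

open scoped RealInnerProductSpace MeasureTheory ENNReal NNReal
open MeasureTheory Set Metric

variable {n : ℕ}

/-- in terms of the test functions, for the image of `K` under `boostIso a` -/
theorem exists_center_uu (hn : 2 ≤ n) {Ω : Set (Hyp n)} (hb : Bornology.IsBounded Ω)
    (hfin : bd n (frontier Ω) < ∞) :
    ∃ a : E n, ∀ i : Fin n, ∫ p in frontier (boostIso a '' Ω), uu i p ∂bd n = 0 := by
  have hK : IsCompact (frontier Ω) :=
    Metric.isCompact_of_isClosed_isBounded isClosed_frontier (hb.closure.subset frontier_subset_closure)
  obtain ⟨a, ha⟩ := exists_center (n - 1) hK (bd n) hfin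
  have hint := integrableOn_qq_boost (n - 1) hK (bd n) hfin a
  refine ⟨a, fun i => ?_⟩
  rw [image_frontier, setIntegral_bd_image]
  have h1 : ∀ p : Hyp n, uu i (boostIso a p) =
      (EuclideanSpace.proj i : E n →L[ℝ] ℝ) (qq (n - 1) (‖boost a p.pt‖ ^ 2) • boost a p.pt) := by
    intro p
    rw [boostIso_apply]
    simp [uu]
  simp only [h1]
  have h2 := ContinuousLinearMap.integral_comp_comm (EuclideanSpace.proj i : E n →L[ℝ] ℝ) hint
  rw [h2, ha, map_zero]

end Pool.Agent.H62.WS
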