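import Pool.Agent.H62.WS.ComG
import Pool.Agent.H62.WS.Top

/-!
# [H62 WS COMC] The derivative of the potential of the centre

With `y = boost a p.pt`: `boost a (boost (-a) (ε v)) = ε v` (`boost_boost_neg`), so `lor (boost (-a) (ε v)) p.pt = lor (ε v) y` (`lor_boost`) `= √(1+ε²‖v‖²) tc y - ε ⟪v,y⟫ ≥ 1`, with `ε`-derivative `ε‖v‖²/√(1+ε²‖v‖²) tc y - ⟪v,y⟫`
(at `0`: `-⟪v,y⟫`).  `hasDerivAt_integral_of_dominated_loc_of_deriv_le` on `|ε| < 1`: `p ∈ K` compact, everything bounded (`hasDerivAt_Gam`, `continuousOn_qq_sq`); at `ε = 0`: `lor 0 y = tc y`, `tc y ^2 - 1 = ‖y‖²`.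
-/

set_option autoImplicit false

namespace Pool.Agent.H62.WS

open scoped RealInnerProductSpace MeasureTheory ENNReal NNReal
open MeasureTheory Set Metric

variable {n : ℕ}

private theorem comC_lor (a v : E n) (ε : ℝ) (p : Hyp n) :
    lor (boost (-a) (ε • v)) p.pt =
      √(1 + ε ^ 2 * ‖v‖ ^ 2) * tc (boost a p.pt) - ε * ⟪v, boost a p.pt⟫ := by
  rw [← lor_boost a, boost_boost_neg, lor, real_inner_smul_left]
  congr 2
  rw [tc, norm_smul, mul_pow, Real.norm_eq_abs, sq_abs]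

private theorem comC_deriv (w t s ε : ℝ) :
    HasDerivAt (fun ε : ℝ => √(1 + ε ^ 2 * w ^ 2) * t - ε * s)
      (ε * w ^ 2 / √(1 + ε ^ 2 * w ^ 2) * t - s) ε := by
  have hpos : 1 + ε ^ 2 * w ^ 2 ≠ 0 := by positivity
  have h0 : HasDerivAt (fun ε : ℝ => ε ^ 2) (2 * ε) ε := by
    have := hasDerivAt_pow 2 ε
    refine this.congr_deriv ?_
    norm_num
  have h1 : HasDerivAt (fun ε : ℝ => 1 + ε ^ 2 * w ^ 2) (2 * ε * w ^ 2) ε :=
    (h0.mul_const (w ^ 2)).const_add 1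
  have h2 := ((h1.sqrt hpos).mul_const t).sub ((hasDerivAt_id ε).mul_const s)
  refine h2.congr_deriv ?_
  have h3 : √(1 + ε ^ 2 * w ^ 2) ≠ 0 := by positivity
  rw [one_mul]
  congr 2
  rw [mul_assoc, mul_div_mul_left _ _ two_ne_zero]

theorem hasDerivAt_Psi (N : ℕ) {K : Set (Hyp n)} (hK : IsCompact K) (μ : Measure (Hyp n))
    (hμ : μ K < ∞) (a v : E n) :
    HasDerivAt (fun ε : ℝ => ∫ p in K, Gam N (lor (boost (-a) (ε • v)) p.pt) ∂μ)
      (-∫ p in K, qq N (‖boost a p.pt‖ ^ 2) * ⟪v, boost a p.pt⟫ ∂μ) 0 := by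
  have hy : Continuous fun p : Hyp n => boost a p.pt := (continuous_boost a).comp continuous_pt
  -- continuity of L
  have hL : Continuous fun x : ℝ × Hyp n => lor (boost (-a) (x.1 • v)) x.2.pt := by
    have h1a : Continuous fun x : ℝ × Hyp n => x.1 • v := continuous_fst.smul continuous_const
    have h1b : Continuous fun x : ℝ × Hyp n => boost (-a) (x.1 • v) :=
      (continuous_boost (-a)).comp h1a
    have h1c : Continuous fun x : ℝ × Hyp n => x.2.pt := continuous_pt.comp continuous_snd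
    exact continuous_lor.comp₂ h1b h1c
  have hLpos : ∀ x : ℝ × Hyp n, lor (boost (-a) (x.1 • v)) x.2.pt ∈ Ioi (0 : ℝ) := by
    intro x
    have := one_le_lor (boost (-a) (x.1 • v)) x.2.pt
    exact lt_of_lt_of_le one_pos this
  have hG : ContinuousOn (Gam N) (Ioi 0) := fun y hy =>
    (hasDerivAt_Gam N hy).continuousAt.continuousWithinAt
  have hF : Continuous fun x : ℝ × Hyp n => Gam N (lor (boost (-a) (x.1 • v)) x.2.pt) :=
    hG.comp_continuous hL hLpos
  have hq : Continuous fun x : ℝ × Hyp n =>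
      qq N (lor (boost (-a) (x.1 • v)) x.2.pt ^ 2 - 1) :=
    (continuousOn_qq_sq N).comp_continuous hL hLpos
  have hF' : Continuous fun x : ℝ × Hyp n =>
      qq N (lor (boost (-a) (x.1 • v)) x.2.pt ^ 2 - 1) *
        (x.1 * ‖v‖ ^ 2 / √(1 + x.1 ^ 2 * ‖v‖ ^ 2) * tc (boost a x.2.pt) -
          ⟪v, boost a x.2.pt⟫) := by
    refine hq.mul (Continuous.sub (Continuous.mul (Continuous.div ?_ ?_ ?_) ?_) ?_)
    · exact continuous_fst.mul continuous_const
    · exact Real.continuous_sqrt.comp (continuous_const.add ((continuous_fst.pow 2).mul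
        continuous_const))
    · intro x
      positivity
    · exact continuous_tc.comp (hy.comp continuous_snd)
    · exact continuous_const.inner (hy.comp continuous_snd)
  haveI hfin : IsFiniteMeasure (μ.restrict K) := ⟨by rw [Measure.restrict_apply_univ]; exact hμ⟩
  have hcomp : IsCompact (Icc (-1 : ℝ) 1 ×ˢ K) := isCompact_Icc.prod hK
  obtain ⟨C, hC⟩ := hcomp.exists_bound_of_continuousOn hF'.continuousOn
  obtain ⟨C0, hC0⟩ := hcomp.exists_bound_of_continuousOn hF.continuousOn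
  have hKm : MeasurableSet K := hK.isClosed.measurableSet
  have hmem0 : (0 : ℝ) ∈ Icc (-1 : ℝ) 1 := ⟨by norm_num, by norm_num⟩
  have key := hasDerivAt_integral_of_dominated_loc_of_deriv_le (μ := μ.restrict K)
    (F := fun (ε : ℝ) (p : Hyp n) => Gam N (lor (boost (-a) (ε • v)) p.pt))
    (F' := fun (ε : ℝ) (p : Hyp n) => qq N (lor (boost (-a) (ε • v)) p.pt ^ 2 - 1) *
        (ε * ‖v‖ ^ 2 / √(1 + ε ^ 2 * ‖v‖ ^ 2) * tc (boost a p.pt) - ⟪v, boost a p.pt⟫))
    (x₀ := 0) (s := Icc (-1 : ℝ) 1) (bound := fun _ => C)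
    (Icc_mem_nhds (by norm_num) (by norm_num))
    (Filter.Eventually.of_forall fun ε =>
      (hF.comp (Continuous.prodMk_right ε)).aestronglyMeasurable)
    ?_ ((hF'.comp (Continuous.prodMk_right (0 : ℝ))).aestronglyMeasurable) ?_
    (integrable_const C) ?_
  · have h2 := key.2
    have h3 : (∫ p in K, qq N (lor (boost (-a) ((0 : ℝ) • v)) p.pt ^ 2 - 1) *
        ((0 : ℝ) * ‖v‖ ^ 2 / √(1 + (0 : ℝ) ^ 2 * ‖v‖ ^ 2) * tc (boost a p.pt) -
          ⟪v, boost a p.pt⟫) ∂μ) =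
        -∫ p in K, qq N (‖boost a p.pt‖ ^ 2) * ⟪v, boost a p.pt⟫ ∂μ := by
      rw [← integral_neg]
      congr 1
      ext p
      rw [comC_lor]
      have h4 : √(1 + (0 : ℝ) ^ 2 * ‖v‖ ^ 2) = 1 := by
        rw [show (1 + (0 : ℝ) ^ 2 * ‖v‖ ^ 2) = 1 by ring, Real.sqrt_one]
      rw [h4]
      have h5 : (1 * tc (boost a p.pt) - 0 * ⟪v, boost a p.pt⟫) ^ 2 - 1 =
          ‖boost a p.pt‖ ^ 2 := by
        have := tc_sq (boost a p.pt)
        linarith
      rw [h5]
      ring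
    rw [← h3]
    exact h2
  · refine Integrable.of_bound (hF.comp (Continuous.prodMk_right (0 : ℝ))).aestronglyMeasurable C0 ?_
    filter_upwards [ae_restrict_mem hKm] with p hp
    exact hC0 (0, p) ⟨hmem0, hp⟩
  · filter_upwards [ae_restrict_mem hKm] with p hp ε hε
    exact hC (ε, p) ⟨hε, hp⟩
  · refine Filter.Eventually.of_forall fun p ε _ => ?_
    have h1 : HasDerivAt (fun ε : ℝ => lor (boost (-a) (ε • v)) p.pt)
        (ε * ‖v‖ ^ 2 / √(1 + ε ^ 2 * ‖v‖ ^ 2) * tc (boost a p.pt) - ⟪v, boost a p.pt⟫) ε := by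
      have h2 : (fun ε : ℝ => lor (boost (-a) (ε • v)) p.pt) =
          fun ε : ℝ => √(1 + ε ^ 2 * ‖v‖ ^ 2) * tc (boost a p.pt) - ε * ⟪v, boost a p.pt⟫ := by
        ext ε
        exact comC_lor a v ε p
      rw [h2]
      exact comC_deriv ‖v‖ (tc (boost a p.pt)) ⟪v, boost a p.pt⟫ ε
    exact (hasDerivAt_Gam N (hLpos (ε, p))).comp ε h1

end Pool.Agent.H62.WS
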