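import Pool.Agent.H62.WS.ComB
import Pool.Agent.H62.WS.ComC

set_option autoImplicit false

/-!
# [H62 WS COMA] The centre

If `μ K = 0` the integral is `0`.  Otherwise take the minimum `a` of `exists_min`; `boost (-a) (0 • v) = a`, so `ε ↦ Ψ(boost (-a) (ε v))` has a minimum at `0` and its derivative vanishes (`IsLocalMin.hasDerivAt_eq_zero`, `hasDerivAt_Psi`):
`∫_K qq N (‖y‖²) ⟪v,y⟫ dμ = 0` for every `v`; `⟪v, ∫ ..⟫ = ∫ ⟪v, ..⟫` (`integral_inner`, integrable as bounded and continuous on the compact `K`), take `v` the integral itself.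
-/

namespace Pool.Agent.H62.WS

open scoped RealInnerProductSpace MeasureTheory ENNReal NNReal
open MeasureTheory Set Metric

variable {n : ℕ}

theorem integrableOn_qq_boost (N : ℕ) {K : Set (Hyp n)} (hK : IsCompact K) (μ : Measure (Hyp n))
    (hμ : μ K < ∞) (a : E n) :
    IntegrableOn (fun p : Hyp n => qq N (‖boost a p.pt‖ ^ 2) • boost a p.pt) K μ := by
  have hy : Continuous fun p : Hyp n => boost a p.pt := (continuous_boost a).comp continuous_pt
  have hq : Continuous fun p : Hyp n => qq N (‖boost a p.pt‖ ^ 2) := by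
    have h1 : Continuous fun p : Hyp n => ‖boost a p.pt‖ ^ 2 := hy.norm.pow 2
    refine (contDiffOn_qq N).continuousOn.comp_continuous h1 ?_
    intro p
    show (-1 : ℝ) < ‖boost a p.pt‖ ^ 2
    have : 0 ≤ ‖boost a p.pt‖ ^ 2 := by positivity
    linarith
  have hf : Continuous fun p : Hyp n => qq N (‖boost a p.pt‖ ^ 2) • boost a p.pt := hq.smul hy
  obtain ⟨C, hC⟩ := hK.exists_bound_of_continuousOn hf.continuousOn
  refine Measure.integrableOn_of_bounded (M := C) hμ.ne hf.aestronglyMeasurable ?_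
  exact (ae_restrict_iff' hK.measurableSet).mpr (Filter.Eventually.of_forall fun p hp => hC p hp)

theorem exists_center (N : ℕ) {K : Set (Hyp n)} (hK : IsCompact K) (μ : Measure (Hyp n))
    (hμ : μ K < ∞) :
    ∃ a : E n, ∫ p in K, qq N (‖boost a p.pt‖ ^ 2) • boost a p.pt ∂μ = 0 := by
  rcases eq_or_ne (μ K) 0 with h0 | h0
  · refine ⟨0, ?_⟩
    rw [Measure.restrict_eq_zero.mpr h0, integral_zero_measure]
  have hpos : 0 < μ K := pos_iff_ne_zero.mpr h0
  obtain ⟨a, ha⟩ := exists_min N hK μ hμ hpos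
  refine ⟨a, ?_⟩
  have hint := integrableOn_qq_boost N hK μ hμ a
  have key : ∀ v : E n, ⟪v, ∫ p in K, qq N (‖boost a p.pt‖ ^ 2) • boost a p.pt ∂μ⟫ = 0 := by
    intro v
    have h1 := hasDerivAt_Psi N hK μ hμ a v
    have h2 : IsLocalMin (fun ε : ℝ => ∫ p in K, Gam N (lor (boost (-a) (ε • v)) p.pt) ∂μ) 0 := by
      refine Filter.Eventually.of_forall fun ε => ?_
      show ∫ p in K, Gam N (lor (boost (-a) ((0 : ℝ) • v)) p.pt) ∂μ ≤
        ∫ p in K, Gam N (lor (boost (-a) (ε • v)) p.pt) ∂μ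
      rw [zero_smul, boost_zero_right, neg_neg]
      exact ha _
    have h3 := h2.hasDerivAt_eq_zero h1
    have h4 : ∫ p in K, ⟪v, qq N (‖boost a p.pt‖ ^ 2) • boost a p.pt⟫ ∂μ =
        ⟪v, ∫ p in K, qq N (‖boost a p.pt‖ ^ 2) • boost a p.pt ∂μ⟫ := integral_inner hint v
    rw [← h4]
    have h5 : ∀ p : Hyp n, ⟪v, qq N (‖boost a p.pt‖ ^ 2) • boost a p.pt⟫ =
        qq N (‖boost a p.pt‖ ^ 2) * ⟪v, boost a p.pt⟫ := fun p => real_inner_smul_right _ _ _
    simp only [h5]
    linarith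
  exact inner_self_eq_zero.mp (key _)

end Pool.Agent.H62.WS
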