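import Pool.Agent.H62.WS.ComG
import Pool.Agent.H62.WS.Top

set_option autoImplicit false

/-!
# [H62 WS COMB] The potential of the centre has a minimum

`Ψ(a) = ∫_K Γ(lor a x) dμ`.  For `a` in a bounded set and `x ∈ K` (compact, so `x.pt` bounded) `lor a x` stays in a compact interval of `[1,∞)` (`one_le_lor`, `continuous_lor`), where `Γ` is continuous and bounded: `Ψ` is continuous
(`continuous_of_dominated`-type locally, or sequentially).  Coercive: `lor a x = cosh d(a,x)`, `le_Gam`: `Ψ(a) ≥ μ(K) (log (inf_K lor a x))/(N+1) → ∞` as `‖a‖ → ∞` (`lor a x ≥ tc a tc x - ‖a‖ ‖x‖ ≥ tc a (tc x - ‖x‖) ≥ tc a/(2 tc M')`...,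
e.g. `tc x - ‖x‖ = 1/(tc x + ‖x‖) ≥ 1/(2 tc x)`).  `Continuous.exists_forall_le` on the proper space `E n` (`Tendsto Ψ (cocompact) atTop`), or minimise over a large closed ball.
-/

namespace Pool.Agent.H62.WS

open scoped RealInnerProductSpace MeasureTheory ENNReal NNReal
open MeasureTheory Set Metric

variable {n : ℕ}

theorem comb_lor_ge {M : ℝ} (a x : E n) (hx : ‖x‖ ≤ M) :
    ‖a‖ / (2 * √(1 + M ^ 2)) ≤ lor a x := by
  have hM : 0 ≤ M := (norm_nonneg _).trans hx
  have h1 : tc x ≤ √(1 + M ^ 2) := by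
    unfold tc
    exact Real.sqrt_le_sqrt (by gcongr)
  have h2 := norm_lt_tc x
  have h3 := norm_lt_tc a
  have h4 := tc_sq x
  have h5 := tc_pos x
  have h6 : ⟪a, x⟫ ≤ ‖a‖ * ‖x‖ := real_inner_le_norm a x
  have h7 : tc a * (tc x - ‖x‖) ≤ lor a x := by
    unfold lor
    nlinarith [norm_nonneg x]
  have h8 : 1 / (2 * √(1 + M ^ 2)) ≤ tc x - ‖x‖ := by
    have h9 : 1 / (2 * √(1 + M ^ 2)) ≤ 1 / (tc x + ‖x‖) := by
      apply one_div_le_one_div_of_le
      · linarith [norm_nonneg x]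
      · linarith
    refine h9.trans ?_
    rw [div_le_iff₀ (by linarith [norm_nonneg x])]
    nlinarith
  have h10 : ‖a‖ * (1 / (2 * √(1 + M ^ 2))) ≤ tc a * (tc x - ‖x‖) := by
    apply mul_le_mul h3.le h8
    · positivity
    · exact (tc_pos a).le
  calc ‖a‖ / (2 * √(1 + M ^ 2)) = ‖a‖ * (1 / (2 * √(1 + M ^ 2))) := by ring
    _ ≤ _ := h10
    _ ≤ _ := h7

theorem exists_min (N : ℕ) {K : Set (Hyp n)} (hK : IsCompact K) (μ : Measure (Hyp n))
    (hμ : μ K < ∞) (hpos : 0 < μ K) :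
    ∃ a : E n, ∀ b : E n, ∫ p in K, Gam N (lor a p.pt) ∂μ ≤ ∫ p in K, Gam N (lor b p.pt) ∂μ := by
  have hfin : IsFiniteMeasure (μ.restrict K) := ⟨by simpa using hμ⟩
  have hKm : MeasurableSet K := hK.measurableSet
  have hGc : ContinuousOn (Gam N) (Ioi 0) :=
    fun y hy => (hasDerivAt_Gam N hy).continuousAt.continuousWithinAt
  have hc : Continuous (fun q : E n × Hyp n => Gam N (lor q.1 q.2.pt)) := by
    have hl : Continuous (fun q : E n × Hyp n => lor q.1 q.2.pt) := by
      have hl1 : Continuous (fun q : E n × Hyp n => ((q.1, q.2.pt) : E n × E n)) :=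
        continuous_fst.prodMk (continuous_pt.comp continuous_snd)
      have hl3 := (continuous_lor (n := n)).comp hl1
      exact hl3
    have hl2 : ∀ q : E n × Hyp n, lor q.1 q.2.pt ∈ Ioi (0 : ℝ) := fun q =>
      lt_of_lt_of_le one_pos (one_le_lor _ _)
    exact hGc.comp_continuous hl hl2
  have hrr : (μ.restrict K).restrict K = μ.restrict K := by
    rw [Measure.restrict_restrict hKm, inter_self]
  have hΨ : Continuous (fun a : E n => ∫ p in K, Gam N (lor a p.pt) ∂μ) := by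
    have h1 := continuous_parametric_integral_of_continuous (μ := μ.restrict K)
      (f := fun (a : E n) (p : Hyp n) => Gam N (lor a p.pt)) hc hK
    rwa [hrr] at h1
  have hint : ∀ a : E n, IntegrableOn (fun p : Hyp n => Gam N (lor a p.pt)) K μ := by
    intro a
    have h0 : Continuous (fun p : Hyp n => ((a, p) : E n × Hyp n)) :=
      continuous_const.prodMk continuous_id
    have h00 := hc.comp h0
    have h1 : Continuous (fun p : Hyp n => Gam N (lor a p.pt)) := h00
    have h2 : IntegrableOn (fun p : Hyp n => Gam N (lor a p.pt)) K (μ.restrict K) :=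
      h1.continuousOn.integrableOn_compact hK
    unfold IntegrableOn at h2 ⊢
    rwa [hrr] at h2
  obtain ⟨M, hM⟩ : ∃ M : ℝ, ∀ p ∈ K, ‖p.pt‖ ≤ M := by
    obtain ⟨M, hM⟩ := (hK.image continuous_pt).isBounded.exists_norm_le
    exact ⟨M, fun p hp => hM _ ⟨p, hp, rfl⟩⟩
  set Ψ : E n → ℝ := fun a => ∫ p in K, Gam N (lor a p.pt) ∂μ with hΨd
  set m : ℝ := μ.real K with hm
  have hm0 : 0 < m := ENNReal.toReal_pos hpos.ne' hμ.ne
  set c : ℝ := 2 * √(1 + M ^ 2) with hcd
  have hc0 : 0 < c := by positivity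
  have hN : (0 : ℝ) < N + 1 := by positivity
  have hlow : ∀ a : E n, 0 < ‖a‖ → m * (Real.log (‖a‖ / c) / (N + 1)) ≤ Ψ a := by
    intro a ha
    have h1 : ∫ p in K, (Real.log (‖a‖ / c) / (N + 1)) ∂μ ≤ Ψ a := by
      refine setIntegral_mono_on (integrableOn_const hμ.ne) (hint a) hKm ?_
      intro p hp
      refine le_trans ?_ (le_Gam N (one_le_lor a p.pt))
      have h2 := comb_lor_ge a p.pt (hM p hp)
      gcongr
    rwa [setIntegral_const, smul_eq_mul] at h1
  refine hΨ.exists_forall_le' 0 ?_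
  set R : ℝ := c * Real.exp ((N + 1) * Ψ 0 / m) with hR
  have hR0 : 0 < R := by positivity
  have hev : (closedBall (0 : E n) R)ᶜ ∈ Filter.cocompact (E n) :=
    (isCompact_closedBall (0 : E n) R).compl_mem_cocompact
  filter_upwards [hev] with a ha
  have ha1 : R < ‖a‖ := by
    rw [mem_compl_iff, mem_closedBall, dist_zero_right, not_le] at ha
    exact ha
  have ha0 : 0 < ‖a‖ := hR0.trans ha1
  refine le_trans ?_ (hlow a ha0)
  have h3 : (N + 1) * Ψ 0 / m ≤ Real.log (‖a‖ / c) := by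
    rw [Real.le_log_iff_exp_le (by positivity), le_div_iff₀ hc0, mul_comm]
    exact ha1.le
  have h4 : (N + 1) * Ψ 0 / m / (N + 1) ≤ Real.log (‖a‖ / c) / (N + 1) := by gcongr
  have h5 : m * ((N + 1) * Ψ 0 / m / (N + 1)) ≤ m * (Real.log (‖a‖ / c) / (N + 1)) := by
    gcongr
  have h6 : m * ((N + 1) * Ψ 0 / m / (N + 1)) = Ψ 0 := by
    field_simp
  linarith

end Pool.Agent.H62.WS
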