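import Pool.Agent.H62.WS.TestA

set_option autoImplicit false

/-!
# [H62 WS COMG] The potential of the centre

`z ↦ qq N (z²-1)` is continuous on `(0,∞)` (`contDiffOn_qq`; `z² - 1 > -1`), so `Γ' = qq N (y²-1)` (fundamental theorem of calculus), `≥ 0` (`qq_pos` for `y ≥ 1`), and `qq N (z²-1) ≥ 1/((N+1) z)` (`le_qq`, `√(1 + (z²-1)) = z`) gives `le_Gam`.
-/

namespace Pool.Agent.H62.WS

open MeasureTheory Set

noncomputable def Gam (N : ℕ) (y : ℝ) : ℝ := ∫ z in (1 : ℝ)..y, qq N (z ^ 2 - 1)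

private theorem cont_aux (N : ℕ) : ContinuousOn (fun y => qq N (y ^ 2 - 1)) (Ioi 0) := by
  refine (contDiffOn_qq N).continuousOn.comp (by fun_prop) ?_
  intro y hy
  have hy' : (0 : ℝ) < y := hy
  show (-1 : ℝ) < y ^ 2 - 1
  have : 0 < y ^ 2 := by positivity
  linarith

private theorem ii_aux (N : ℕ) {y : ℝ} (hy : 0 < y) :
    IntervalIntegrable (fun y => qq N (y ^ 2 - 1)) volume 1 y := by
  apply ContinuousOn.intervalIntegrable
  apply (cont_aux N).mono
  intro z hz
  rw [mem_uIcc] at hz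
  show (0 : ℝ) < z
  rcases hz with h | h
  · linarith [h.1]
  · linarith [h.1]

theorem hasDerivAt_Gam (N : ℕ) {y : ℝ} (hy : 0 < y) : HasDerivAt (Gam N) (qq N (y ^ 2 - 1)) y :=
  intervalIntegral.integral_hasDerivAt_right (ii_aux N hy)
    ((cont_aux N).stronglyMeasurableAtFilter isOpen_Ioi y hy)
    ((cont_aux N).continuousAt (Ioi_mem_nhds hy))

theorem continuousOn_qq_sq (N : ℕ) : ContinuousOn (fun y => qq N (y ^ 2 - 1)) (Ioi 0) :=
  cont_aux N

theorem Gam_nonneg (N : ℕ) {y : ℝ} (hy : 1 ≤ y) : 0 ≤ Gam N y := by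
  unfold Gam
  apply intervalIntegral.integral_nonneg hy
  intro z hz
  have h1 : 0 ≤ z ^ 2 - 1 := by nlinarith [hz.1]
  exact (qq_pos N h1).le

theorem le_Gam (N : ℕ) {y : ℝ} (hy : 1 ≤ y) : Real.log y / (N + 1) ≤ Gam N y := by
  have hy0 : 0 < y := by linarith
  have h0 : ∫ z in (1 : ℝ)..y, (1 / ((N : ℝ) + 1)) * z⁻¹ = Real.log y / (N + 1) := by
    rw [intervalIntegral.integral_const_mul, integral_inv_of_pos one_pos hy0, div_one]
    ring
  rw [← h0]
  unfold Gam
  apply intervalIntegral.integral_mono_on hy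
  · apply ContinuousOn.intervalIntegrable
    apply ContinuousOn.mul continuousOn_const
    apply ContinuousOn.inv₀ continuousOn_id
    intro z hz
    rw [uIcc_of_le hy] at hz
    have : 0 < z := by linarith [hz.1]
    exact this.ne'
  · exact ii_aux N hy0
  · intro z hz
    have hz0 : 0 < z := by linarith [hz.1]
    have h1 : 0 ≤ z ^ 2 - 1 := by nlinarith [hz.1]
    have h2 := le_qq N h1
    have h3 : √(1 + (z ^ 2 - 1)) = z := by
      rw [add_sub_cancel, Real.sqrt_sq hz0.le]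
    rw [h3] at h2
    refine le_trans (le_of_eq ?_) h2
    field_simp

end Pool.Agent.H62.WS
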