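import Pool.Agent.H62.WS.Top

set_option autoImplicit false

/-!
# [H62 WS CONE] Measurability of cones

On the closed set `{p | sinh r ≤ ‖p.pt‖}` (`0 < r`, so `p.pt ≠ 0` there) the direction map `p ↦ ⟨‖p.pt‖⁻¹ • p.pt, _⟩ ∈ sphere 0 1` is continuous; the cone is the set of the `p` of this closed set
whose direction lies in `D` (`exists_sph`: `p = sph (dist (org n) p) θ`, `dist_org`, `sph_injective`).  E.g. use a measurable map
`d : Hyp n → sphere (0 : E n) 1` (`if h : p.pt = 0 then (some fixed direction) else ⟨‖p.pt‖⁻¹ • p.pt, _⟩`, `Measurable.dite`/`Measurable.subtype_mk`), the cone is `{p | sinh r ≤ ‖p.pt‖} ∩ d⁻¹' D`.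
-/

namespace Pool.Agent.H62.WS

open scoped RealInnerProductSpace MeasureTheory ENNReal NNReal
open MeasureTheory Set Metric

variable {n : ℕ}

theorem measurableSet_cone (hn : 2 ≤ n) {r : ℝ} (hr : 0 < r) {D : Set (sphere (0 : E n) 1)}
    (hD : MeasurableSet D) : MeasurableSet {p : Hyp n | ∃ θ ∈ D, ∃ t, r ≤ t ∧ p = sph t θ} := by
  classical
  obtain ⟨θ0, -⟩ := exists_sph hn (org n)
  have hpt : Measurable fun p : Hyp n => p.pt := continuous_pt.measurable
  let g : Hyp n → E n := fun p => if p.pt = 0 then (θ0 : E n) else ‖p.pt‖⁻¹ • p.pt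
  have hgm : Measurable g := by
    refine Measurable.ite ?_ measurable_const ?_
    · exact hpt (measurableSet_singleton (0 : E n))
    · exact hpt.norm.inv.smul hpt
  have hg : ∀ p, g p ∈ sphere (0 : E n) 1 := by
    intro p
    simp only [g]
    split_ifs with h
    · exact θ0.2
    · rw [mem_sphere_zero_iff_norm, norm_smul, norm_inv, norm_norm,
        inv_mul_cancel₀ (norm_ne_zero_iff.mpr h)]
  have hdm : Measurable fun p : Hyp n => (⟨g p, hg p⟩ : sphere (0 : E n) 1) := hgm.subtype_mk
  have hset : {p : Hyp n | ∃ θ ∈ D, ∃ t, r ≤ t ∧ p = sph t θ} =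
      {p : Hyp n | Real.sinh r ≤ ‖p.pt‖} ∩
        (fun p : Hyp n => (⟨g p, hg p⟩ : sphere (0 : E n) 1)) ⁻¹' D := by
    ext p
    constructor
    · rintro ⟨θ, hθ, t, hrt, rfl⟩
      have h1 : ‖(θ : E n)‖ = 1 := by
        have := θ.2
        rwa [mem_sphere_zero_iff_norm] at this
      have ht : 0 < Real.sinh t := Real.sinh_pos_iff.mpr (hr.trans_le hrt)
      have h2 : (sph t θ).pt = Real.sinh t • (θ : E n) := rfl
      have h3 : ‖(sph t θ).pt‖ = Real.sinh t := by
        rw [h2, norm_smul, h1, mul_one, Real.norm_eq_abs, abs_of_pos ht]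
      refine ⟨?_, ?_⟩
      · rw [mem_setOf_eq, h3]
        exact Real.sinh_le_sinh.mpr hrt
      · rw [mem_preimage]
        have h4 : (⟨g (sph t θ), hg (sph t θ)⟩ : sphere (0 : E n) 1) = θ := by
          apply Subtype.ext
          show g (sph t θ) = (θ : E n)
          have h5 : (sph t θ).pt ≠ 0 := by
            rw [← norm_ne_zero_iff, h3]
            exact ht.ne'
          simp only [g]
          rw [if_neg h5, h3, h2, smul_smul, inv_mul_cancel₀ ht.ne', one_smul]
        rw [h4]
        exact hθ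
    · rintro ⟨h1, h2⟩
      rw [mem_setOf_eq] at h1
      have h3 : 0 < ‖p.pt‖ := (Real.sinh_pos_iff.mpr hr).trans_le h1
      have h5 : p.pt ≠ 0 := norm_pos_iff.mp h3
      refine ⟨_, h2, Real.arsinh ‖p.pt‖, ?_, ?_⟩
      · rw [← Real.arsinh_sinh r]
        exact Real.arsinh_le_arsinh.mpr h1
      · apply Hyp.ext
        show p.pt = Real.sinh (Real.arsinh ‖p.pt‖) • g p
        simp only [g]
        rw [if_neg h5, Real.sinh_arsinh, smul_smul, mul_inv_cancel₀ h3.ne', one_smul]
  rw [hset]
  refine MeasurableSet.inter ?_ (hdm hD)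
  exact measurableSet_le measurable_const hpt.norm

end Pool.Agent.H62.WS
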