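import Pool.Agent.H62.WS.HHypA

set_option autoImplicit false

/-!
# [H62 WS HHYP] The boundary measure of geodesic spheres

Consequences of `bd_sph_image`: the sphere of radius `r` around the origin is `sph r '' univ` (`exists_sph`, `dist_org_sph`), and `sphere (org n) r \ Ω = sph r '' {θ | sph r θ ∉ Ω}`
(the set of directions is measurable: preimage of `Ωᶜ` under the continuous `sph r`, `continuous_sph`); other centres by `boostIso p.pt` (`bd_image`,
`IsometryEquiv.image_sphere`, `boostIso_self`).
-/

namespace Pool.Agent.H62.WS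

open scoped RealInnerProductSpace MeasureTheory ENNReal NNReal
open MeasureTheory Set Metric

variable {n : ℕ}

theorem bd_sphere_org_diff (hn : 2 ≤ n) {r : ℝ} (hr : 0 < r) {Ω : Set (Hyp n)}
    (hΩ : MeasurableSet Ω) :
    bd n (sphere (org n) r \ Ω) =
      ENNReal.ofReal (Real.sinh r ^ (n - 1)) * (cst n * sg n {θ | sph r θ ∉ Ω}) := by
  have hcont : Continuous (sph r : sphere (0 : E n) 1 → Hyp n) :=
    continuous_sph.comp (continuous_const.prodMk continuous_id)
  have hmeas : MeasurableSet {θ : sphere (0 : E n) 1 | sph r θ ∉ Ω} :=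
    hcont.measurable hΩ.compl
  have himg : sphere (org n) r \ Ω = sph r '' {θ : sphere (0 : E n) 1 | sph r θ ∉ Ω} := by
    ext p
    constructor
    · rintro ⟨hp, hpΩ⟩
      obtain ⟨θ, hθ⟩ := exists_sph hn p
      have hd : dist (org n) p = r := by
        rw [dist_comm]; exact hp
      rw [hd] at hθ
      exact ⟨θ, by rw [mem_setOf_eq, ← hθ]; exact hpΩ, hθ.symm⟩
    · rintro ⟨θ, hθ, rfl⟩
      refine ⟨?_, hθ⟩
      rw [mem_sphere, dist_comm, dist_org_sph hr.le]
  rw [himg, bd_sph_image hn hr hmeas]

theorem bd_sphere (hn : 2 ≤ n) (p : Hyp n) {r : ℝ} (hr : 0 < r) :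
    bd n (sphere p r) = ENNReal.ofReal (Real.sinh r ^ (n - 1)) * (cst n * sg n univ) := by
  have h1 : boostIso p.pt '' sphere p r = sphere (org n) r := by
    rw [IsometryEquiv.image_sphere, boostIso_self]
  rw [← bd_image (boostIso p.pt), h1]
  have h2 := bd_sphere_org_diff hn hr (Ω := (∅ : Set (Hyp n))) MeasurableSet.empty
  rw [diff_empty] at h2
  rw [h2]
  simp

end Pool.Agent.H62.WS
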