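import Pool.Agent.H62.WS.Iso

set_option autoImplicit false

/-!
# [H62 WS RAY] Outward rays spread

`ray x v τ = boost (-x) (sinh τ • v)`, the point at distance `τ` from `x` in the direction `v`.  In Minkowski space
`(tc, ray) = cosh τ X + sinh τ N`, `X = (tc x, x)`, `N = (⟪v,x⟫, v + ⟪v,x⟫/(1+tc x) x)`.  With `L((a₀,a),(b₀,b)) = a₀ b₀ - ⟪a,b⟫`:
`L(N,N) = -1`, `L(N,X) = 0`, `L(N,X') = -⟪v, boost x x'⟫ ≥ 0`.
* key lemma `lor_unit`: `L(N,N') ≥ -1` (after the boost to `x = 0`: `N = (0,v)`, `N' = (b₀,b)`, `‖b‖² = 1 + b₀²`, `b₀ tc x' = ⟪b,x'⟫`,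
  `⟪v,x'⟫ ≤ 0`, `b₀ ≥ 0`; `b_⊥ = b - (b₀ tc x'/‖x'‖²) x'` has `‖b_⊥‖² = 1 - b₀²/‖x'‖² ≤ 1` and `⟪v,b⟫ ≤ ⟪v,b_⊥⟫ ≤ 1`).
* then `L(coshτ X + sinhτ N, coshτ' X' + sinhτ' N') ≥ coshτ coshτ' D - sinhτ sinhτ' ≥ D cosh(τ-τ') ≥ D`, `D = L(X,X') ≥ 1`.
-/

namespace Pool.Agent.H62.WS

open scoped RealInnerProductSpace MeasureTheory ENNReal NNReal
open MeasureTheory Set Metric

variable {n : ℕ}

/-- the point at distance `τ` from `x` in the direction `v` -/
noncomputable def ray (x v : E n) (τ : ℝ) : E n := boost (-x) (Real.sinh τ • v)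

theorem boost_ray (x v : E n) (τ : ℝ) : boost x (ray x v τ) = Real.sinh τ • v := by
  rw [ray, boost_boost_neg]

theorem ray_zero (x v : E n) : ray x v 0 = x := by
  rw [ray, Real.sinh_zero, zero_smul, boost_zero_right, neg_neg]

theorem tc_sinh_smul {v : E n} (hv : ‖v‖ = 1) (τ : ℝ) : tc (Real.sinh τ • v) = Real.cosh τ := by
  rw [tc, norm_smul, hv, mul_one, Real.norm_eq_abs, sq_abs, ← Real.cosh_sq',
    Real.sqrt_sq (Real.cosh_pos τ).le]

theorem dist_ray (x : E n) {v : E n} (hv : ‖v‖ = 1) {τ : ℝ} (hτ : 0 ≤ τ) :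
    dist (⟨x⟩ : Hyp n) ⟨ray x v τ⟩ = τ := by
  rw [dist_def]
  change Real.arcosh (lor x (ray x v τ)) = τ
  rw [← tc_boost, boost_ray, tc_sinh_smul hv, Real.arcosh_cosh hτ]

theorem continuous_ray (x v : E n) : Continuous (ray x v) := by
  unfold ray
  exact (continuous_boost _).comp (Real.continuous_sinh.smul continuous_const)

/-- the Lorentz form on pairs -/
noncomputable def LL (p q : ℝ × E n) : ℝ := p.1 * q.1 - ⟪p.2, q.2⟫

/-- the boost as a linear map of Minkowski space -/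
noncomputable def BB (a : E n) (p : ℝ × E n) : ℝ × E n :=
  (tc a * p.1 - ⟪p.2, a⟫, p.2 - (p.1 - ⟪p.2, a⟫ / (1 + tc a)) • a)

theorem LL_BB (a : E n) (p q : ℝ × E n) : LL (BB a p) (BB a q) = LL p q := by
  have hpos : 0 < 1 + tc a := by linarith [tc_pos a]
  have ha := tc_sq a
  have e2 : ‖a‖ ^ 2 = (tc a - 1) * (1 + tc a) := by nlinarith
  have e : ⟪p.2 - (p.1 - ⟪p.2, a⟫ / (1 + tc a)) • a, q.2 - (q.1 - ⟪q.2, a⟫ / (1 + tc a)) • a⟫ =
      ⟪p.2, q.2⟫ - (q.1 - ⟪q.2, a⟫ / (1 + tc a)) * ⟪p.2, a⟫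
      - (p.1 - ⟪p.2, a⟫ / (1 + tc a)) * ⟪q.2, a⟫
      + (p.1 - ⟪p.2, a⟫ / (1 + tc a)) * (q.1 - ⟪q.2, a⟫ / (1 + tc a)) * ‖a‖ ^ 2 := by
    rw [inner_sub_left, inner_sub_right, inner_sub_right, real_inner_smul_right,
      real_inner_smul_left, real_inner_smul_left, real_inner_smul_right,
      real_inner_self_eq_norm_sq, real_inner_comm a q.2]
    ring
  unfold LL BB
  simp only
  rw [e, e2]
  field_simp
  ring

theorem BB_neg_BB (a : E n) (p : ℝ × E n) : BB a (BB (-a) p) = p := by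
  have hpos : 0 < 1 + tc a := by linarith [tc_pos a]
  have ha := tc_sq a
  have e2 : ‖a‖ ^ 2 = (tc a - 1) * (1 + tc a) := by nlinarith
  have h1 : ⟪p.2 - (p.1 - ⟪p.2, -a⟫ / (1 + tc a)) • (-a), a⟫ =
      ⟪p.2, a⟫ + (p.1 + ⟪p.2, a⟫ / (1 + tc a)) * ‖a‖ ^ 2 := by
    rw [inner_sub_left, real_inner_smul_left, inner_neg_left, inner_neg_right,
      real_inner_self_eq_norm_sq]
    ring
  refine Prod.ext ?_ ?_
  · simp only [BB, tc_neg]
    rw [h1, e2, inner_neg_right]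
    field_simp
    ring
  · simp only [BB, tc_neg]
    rw [h1, e2, inner_neg_right]
    have h2 : p.2 - (p.1 - -⟪p.2, a⟫ / (1 + tc a)) • -a -
        (tc a * p.1 - -⟪p.2, a⟫ - (⟪p.2, a⟫ + (p.1 + ⟪p.2, a⟫ / (1 + tc a)) *
          ((tc a - 1) * (1 + tc a))) / (1 + tc a)) • a =
        p.2 + ((p.1 - -⟪p.2, a⟫ / (1 + tc a)) - (tc a * p.1 - -⟪p.2, a⟫ - (⟪p.2, a⟫ +
          (p.1 + ⟪p.2, a⟫ / (1 + tc a)) * ((tc a - 1) * (1 + tc a))) / (1 + tc a))) • a := by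
      rw [sub_smul (p.1 - -⟪p.2, a⟫ / (1 + tc a)), smul_neg]
      abel
    rw [h2]
    have h3 : (p.1 - -⟪p.2, a⟫ / (1 + tc a)) - (tc a * p.1 - -⟪p.2, a⟫ - (⟪p.2, a⟫ +
          (p.1 + ⟪p.2, a⟫ / (1 + tc a)) * ((tc a - 1) * (1 + tc a))) / (1 + tc a)) = 0 := by
      field_simp
      ring
    rw [h3, zero_smul, add_zero]

theorem BB_point (a x : E n) : BB a (tc x, x) = (tc (boost a x), boost a x) := by
  rw [tc_boost]
  unfold BB lor boost
  simp only [real_inner_comm a x]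

/-- the unit tangent vector `v` at `x`, in Minkowski space -/
noncomputable def NN (x v : E n) : ℝ × E n := BB (-x) (0, v)

theorem BB_NN (x v : E n) : BB x (NN x v) = (0, v) := BB_neg_BB x _

theorem LL_NN_self (x : E n) {v : E n} (hv : ‖v‖ = 1) : LL (NN x v) (NN x v) = -1 := by
  rw [NN, LL_BB, LL]
  simp only
  rw [real_inner_self_eq_norm_sq, hv]
  norm_num

theorem LL_NN_point (x v x' : E n) : LL (NN x v) (tc x', x') = -⟪v, boost x x'⟫ := by
  rw [← LL_BB x, BB_NN, BB_point, LL]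
  simp only
  ring

theorem LL_NN_same (x v : E n) : LL (NN x v) (tc x, x) = 0 := by
  rw [LL_NN_point, boost_self, inner_zero_right, neg_zero]

theorem LL_comm (p q : ℝ × E n) : LL p q = LL q p := by
  unfold LL
  rw [real_inner_comm, mul_comm]

/-- the point of the ray, in Minkowski space -/
theorem ray_point (x : E n) {v : E n} (hv : ‖v‖ = 1) (τ : ℝ) :
    (tc (ray x v τ), ray x v τ) = Real.cosh τ • (tc x, x) + Real.sinh τ • NN x v := by
  have h1 : (tc (ray x v τ), ray x v τ) = BB (-x) (Real.cosh τ, Real.sinh τ • v) := by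
    rw [ray, ← BB_point, tc_sinh_smul hv]
  rw [h1]
  unfold NN BB
  refine Prod.ext ?_ ?_
  · simp only [tc_neg, inner_neg_right, real_inner_smul_left, Prod.fst_add, Prod.smul_fst,
      smul_eq_mul]
    ring
  · simp only [tc_neg, inner_neg_right, real_inner_smul_left, Prod.snd_add, Prod.smul_snd]
    rw [smul_sub, smul_neg, smul_neg, smul_neg, sub_neg_eq_add, sub_neg_eq_add, sub_smul, smul_smul]
    have e : (-(Real.sinh τ * ⟪v, x⟫) / (1 + tc x)) • x = -((Real.sinh τ * (⟪v, x⟫ / (1 + tc x))) • x) := by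
      rw [← neg_smul]
      congr 1
      ring
    have e' : (Real.sinh τ * (0 - -⟪v, x⟫ / (1 + tc x))) • x =
        (Real.sinh τ * (⟪v, x⟫ / (1 + tc x))) • x := by
      congr 1
      ring
    rw [e, e']
    abel

theorem LL_smul_add (a b c d : ℝ) (p q r s : ℝ × E n) :
    LL (a • p + b • q) (c • r + d • s) =
      a * c * LL p r + a * d * LL p s + b * c * LL q r + b * d * LL q s := by
  unfold LL
  simp only [Prod.fst_add, Prod.snd_add, Prod.smul_fst, Prod.smul_snd, smul_eq_mul, inner_add_left,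
    inner_add_right, real_inner_smul_left, real_inner_smul_right]
  ring

theorem neg_one_le_LL {x x' v v' : E n} (hv : ‖v‖ = 1) (hv' : ‖v'‖ = 1)
    (h : ⟪v, boost x x'⟫ ≤ 0) (h' : ⟪v', boost x' x⟫ ≤ 0) : -1 ≤ LL (NN x v) (NN x' v') := by
  obtain ⟨b0, b, hb⟩ : ∃ b0 b, BB x (NN x' v') = (b0, b) := ⟨_, _, rfl⟩
  have e1 : LL (NN x v) (NN x' v') = -⟪v, b⟫ := by
    rw [← LL_BB x, BB_NN, hb, LL]
    simp only
    ring
  have e2 : b0 ^ 2 - ‖b‖ ^ 2 = -1 := by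
    have := LL_NN_self x' hv'
    rw [← LL_BB x, hb, LL] at this
    simp only at this
    rw [real_inner_self_eq_norm_sq] at this
    linarith
  have e3 : 0 ≤ b0 := by
    have h1 := LL_NN_point x' v' x
    rw [← LL_BB x, hb, BB_point, boost_self, LL] at h1
    simp only [tc_zero, mul_one, inner_zero_right, sub_zero] at h1
    linarith
  have e4 : b0 * tc (boost x x') = ⟪b, boost x x'⟫ := by
    have h1 := LL_NN_same x' v'
    rw [← LL_BB x, hb, BB_point, LL] at h1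
    simp only at h1
    linarith
  rw [e1, neg_le_neg_iff]
  set y := boost x x' with hy
  by_cases hy0 : y = 0
  · rw [hy0, tc_zero, mul_one, inner_zero_right] at e4
    rw [e4] at e2
    have h2 : ‖b‖ ^ 2 = 1 := by linarith
    have h3 : ‖b‖ = 1 := by
      have := norm_nonneg b
      nlinarith
    have h4 := real_inner_le_norm v b
    rw [hv, h3] at h4
    linarith
  · have hyp : 0 < ‖y‖ := norm_pos_iff.mpr hy0
    have hty := tc_sq y
    have htp := tc_pos y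
    set c := b - (b0 * tc y / ‖y‖ ^ 2) • y with hc
    have h2 : ‖c‖ ^ 2 = ‖b‖ ^ 2 - (b0 * tc y) ^ 2 / ‖y‖ ^ 2 := by
      rw [hc, norm_sub_sq_real, real_inner_smul_right, norm_smul, ← e4, mul_pow, Real.norm_eq_abs,
        sq_abs]
      field_simp
      ring
    have h3 : ‖c‖ ^ 2 ≤ 1 := by
      have h4 : (b0 * tc y) ^ 2 / ‖y‖ ^ 2 = b0 ^ 2 + b0 ^ 2 / ‖y‖ ^ 2 := by
        rw [mul_pow, hty]
        field_simp
        ring
      have h5 : 0 ≤ b0 ^ 2 / ‖y‖ ^ 2 := by positivity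
      rw [h2, h4]
      linarith
    have h4 : ‖c‖ ≤ 1 := by
      have := norm_nonneg c
      nlinarith
    have h5 : ⟪v, b⟫ = ⟪v, c⟫ + (b0 * tc y / ‖y‖ ^ 2) * ⟪v, y⟫ := by
      rw [hc, inner_sub_right, real_inner_smul_right]
      ring
    have h6 : (b0 * tc y / ‖y‖ ^ 2) * ⟪v, y⟫ ≤ 0 :=
      mul_nonpos_of_nonneg_of_nonpos (by positivity) h
    have h7 := real_inner_le_norm v c
    rw [hv, one_mul] at h7
    linarith

theorem lor_le_lor_ray {x x' v v' : E n} (hv : ‖v‖ = 1) (hv' : ‖v'‖ = 1)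
    (h : ⟪v, boost x x'⟫ ≤ 0) (h' : ⟪v', boost x' x⟫ ≤ 0) {τ τ' : ℝ} (hτ : 0 ≤ τ) (hτ' : 0 ≤ τ') :
    lor x x' ≤ lor (ray x v τ) (ray x' v' τ') := by
  have e : lor (ray x v τ) (ray x' v' τ') =
      LL (tc (ray x v τ), ray x v τ) (tc (ray x' v' τ'), ray x' v' τ') := rfl
  have e' : LL (tc x, x) (tc x', x') = lor x x' := rfl
  rw [e, ray_point x hv, ray_point x' hv', LL_smul_add, e', LL_comm (tc x, x), LL_NN_point,
    LL_NN_point]
  have h1 := neg_one_le_LL hv hv' h h'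
  have hs := Real.sinh_nonneg_iff.mpr hτ
  have hs' := Real.sinh_nonneg_iff.mpr hτ'
  have hc := Real.cosh_pos τ
  have hc' := Real.cosh_pos τ'
  have hD := one_le_lor x x'
  have h2 : 0 ≤ Real.cosh τ * Real.sinh τ' * -⟪v', boost x' x⟫ :=
    mul_nonneg (by positivity) (by linarith)
  have h3 : 0 ≤ Real.sinh τ * Real.cosh τ' * -⟪v, boost x x'⟫ :=
    mul_nonneg (by positivity) (by linarith)
  have h4 : -(Real.sinh τ * Real.sinh τ') ≤ Real.sinh τ * Real.sinh τ' * LL (NN x v) (NN x' v') := by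
    have : 0 ≤ Real.sinh τ * Real.sinh τ' := by positivity
    nlinarith
  have h5 : 1 ≤ Real.cosh τ * Real.cosh τ' - Real.sinh τ * Real.sinh τ' := by
    rw [← Real.cosh_sub]
    exact Real.one_le_cosh _
  have h6 : 0 ≤ Real.sinh τ * Real.sinh τ' := by positivity
  nlinarith

theorem dist_le_dist_ray {x x' v v' : E n} (hv : ‖v‖ = 1) (hv' : ‖v'‖ = 1)
    (h : ⟪v, boost x x'⟫ ≤ 0) (h' : ⟪v', boost x' x⟫ ≤ 0) {τ τ' : ℝ} (hτ : 0 ≤ τ) (hτ' : 0 ≤ τ') :
    dist (⟨x⟩ : Hyp n) ⟨x'⟩ ≤ dist (⟨ray x v τ⟩ : Hyp n) ⟨ray x' v' τ'⟩ := by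
  have h1 : Real.cosh (dist (⟨x⟩ : Hyp n) ⟨x'⟩) ≤
      Real.cosh (dist (⟨ray x v τ⟩ : Hyp n) ⟨ray x' v' τ'⟩) := by
    rw [cosh_dist, cosh_dist]
    exact lor_le_lor_ray hv hv' h h' hτ hτ'
  rwa [Real.cosh_le_cosh, abs_of_nonneg dist_nonneg, abs_of_nonneg dist_nonneg] at h1

end Pool.Agent.H62.WS
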