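import Pool.Agent.H62.WS.Seg
import Pool.Agent.H62.WS.Ray
import Pool.Agent.H62.WS.HHyp
import Pool.Agent.H62.WS.HHypF

set_option autoImplicit false

/-!
# [H62 WS CONV] Convex sets satisfy the ball condition

For `x ∈ ∂Ω ∩ closedBall p t` take `v_x` from `exists_sep` (`x ∉ Ω`), `⟪v_x, boost x z⟫ ≤ 0` for `z ∈ closure Ω`; the ray
`τ ↦ ray x v_x τ` starts in the closed ball and leaves every ball (`dist_ray`), so there is `τ_x ≥ 0` with
`y(x) := ray x v_x τ_x ∈ sphere p t` (intermediate value theorem for `τ ↦ dist p (ray ..)`), `y(x) ∉ Ω` as `⟪v_x, boost x y⟫ = sinh τ ≥ 0`.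
`dist_le_dist_ray`: `x ↦ y(x)` does not decrease distances, so its inverse on `y '' (∂Ω ∩ closedBall p t)` is `1`-Lipschitz
(`euclideanHausdorffMeasure_image_le`).
-/

namespace Pool.Agent.H62.WS

open scoped RealInnerProductSpace MeasureTheory ENNReal NNReal
open MeasureTheory Set Metric

variable {n : ℕ}

/-- the exit point of the ray -/
theorem exists_exit {Ω : Set (Hyp n)} (hΩ : IsOpen Ω) (hc : GeodConvex Ω)
    (hne : Ω.Nonempty) (p : Hyp n) {t : ℝ} (ht : 0 < t) (x : Hyp n)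
    (hx : x ∈ frontier Ω ∩ closedBall p t) :
    ∃ (v : E n) (τ : ℝ), ‖v‖ = 1 ∧ 0 ≤ τ ∧ (∀ z ∈ closure Ω, ⟪v, boost x.pt z.pt⟫ ≤ 0) ∧
      (⟨ray x.pt v τ⟩ : Hyp n) ∈ sphere p t \ Ω := by
  have hxΩ : x ∉ Ω := by
    have := hx.1
    rw [hΩ.frontier_eq] at this
    exact this.2
  obtain ⟨v, hv, hsep⟩ := exists_sep hΩ hc hne hxΩ
  have hcl : ∀ z ∈ closure Ω, ⟪v, boost x.pt z.pt⟫ ≤ 0 := by
    intro z hz
    have hcont : Continuous fun z : Hyp n => ⟪v, boost x.pt z.pt⟫ :=
      continuous_const.inner ((continuous_boost _).comp continuous_pt)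
    exact closure_minimal (fun q hq => (hsep q hq).le)
      (isClosed_le hcont continuous_const) hz
  have hfc : Continuous fun τ : ℝ => dist p (⟨ray x.pt v τ⟩ : Hyp n) :=
    continuous_const.dist (continuous_mk.comp (continuous_ray _ _))
  have h0 : dist p (⟨ray x.pt v 0⟩ : Hyp n) ≤ t := by
    rw [ray_zero]
    have := hx.2
    rwa [mem_closedBall, dist_comm] at this
  have h1 : t ≤ dist p (⟨ray x.pt v (2 * t)⟩ : Hyp n) := by
    have h2 := dist_ray x.pt hv (τ := 2 * t) (by linarith)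
    have h3 := dist_triangle (⟨x.pt⟩ : Hyp n) p ⟨ray x.pt v (2 * t)⟩
    have h4 : dist (⟨x.pt⟩ : Hyp n) p ≤ t := hx.2
    linarith
  obtain ⟨τ, hτ, he⟩ := intermediate_value_Icc (by linarith : (0 : ℝ) ≤ 2 * t) hfc.continuousOn ⟨h0, h1⟩
  refine ⟨v, τ, hv, hτ.1, hcl, ?_, fun hmem => ?_⟩
  · rw [mem_sphere, dist_comm]
    exact he
  · have h2 := hsep _ hmem
    change ⟪v, boost x.pt (ray x.pt v τ)⟫ < 0 at h2
    rw [boost_ray, real_inner_smul_right, real_inner_self_eq_norm_sq, hv] at h2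
    have h3 := Real.sinh_nonneg_iff.mpr hτ.1
    nlinarith

theorem bd_inter_closedBall_le {Ω : Set (Hyp n)} (hΩ : IsOpen Ω) (hc : GeodConvex Ω)
    (hne : Ω.Nonempty) (p : Hyp n) {t : ℝ} (ht : 0 < t) :
    bd n (frontier Ω ∩ closedBall p t) ≤ bd n (sphere p t \ Ω) := by
  classical
  choose! v τ hv hτ hcl hmem using fun (x : Hyp n) (hx : x ∈ frontier Ω ∩ closedBall p t) =>
    exists_exit hΩ hc hne p ht x hx
  set A := frontier Ω ∩ closedBall p t with hA
  set y : Hyp n → Hyp n := fun x => ⟨ray x.pt (v x) (τ x)⟩ with hy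
  have hd : ∀ x ∈ A, ∀ x' ∈ A, dist x x' ≤ dist (y x) (y x') := by
    intro x hx x' hx'
    exact dist_le_dist_ray (hv x hx) (hv x' hx') (hcl x hx x' (frontier_subset_closure hx'.1))
      (hcl x' hx' x (frontier_subset_closure hx.1)) (hτ x hx) (hτ x' hx')
  have hinj : InjOn y A := by
    intro x hx x' hx' he
    have h1 := hd x hx x' hx'
    rw [he, dist_self] at h1
    exact dist_le_zero.mp h1
  have hinv : LeftInvOn (Function.invFunOn y A) y A := hinj.leftInvOn_invFunOn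
  have hL : LipschitzOnWith 1 (Function.invFunOn y A) (y '' A) := by
    refine LipschitzOnWith.of_dist_le_mul ?_
    rintro _ ⟨x, hx, rfl⟩ _ ⟨x', hx', rfl⟩
    rw [hinv hx, hinv hx', NNReal.coe_one, one_mul]
    exact hd x hx x' hx'
  have h1 := euclideanHausdorffMeasure_image_le (n - 1) hL
  rw [hinv.image_image, ENNReal.coe_one, one_pow, one_mul] at h1
  refine h1.trans (measure_mono ?_)
  rintro _ ⟨x, hx, rfl⟩
  exact hmem x hx

theorem GeodConvex.ballCond {Ω : Set (Hyp n)} (hΩ : IsOpen Ω) (hc : GeodConvex Ω)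
    (hne : Ω.Nonempty) : BallCond Ω := by
  intro p t ht _
  exact (measure_mono (inter_subset_inter_right _ ball_subset_closedBall)).trans
    (bd_inter_closedBall_le hΩ hc hne p ht)

/-- with a ball which contains the closure of `Ω` -/
theorem bd_frontier_lt_top (hn : 2 ≤ n) {Ω : Set (Hyp n)} (hΩ : IsOpen Ω) (hc : GeodConvex Ω)
    (hb : Bornology.IsBounded Ω) (hne : Ω.Nonempty) : bd n (frontier Ω) < ∞ := by
  obtain ⟨t, ht, hsub⟩ : ∃ t, 0 < t ∧ closure Ω ⊆ closedBall (org n) t := by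
    obtain ⟨t, ht⟩ := hb.closure.subset_closedBall (org n)
    exact ⟨max t 1, by positivity, ht.trans (closedBall_subset_closedBall (le_max_left _ _))⟩
  have h1 := bd_inter_closedBall_le hΩ hc hne (org n) ht
  rw [inter_eq_left.mpr (frontier_subset_closure.trans hsub)] at h1
  refine (h1.trans (measure_mono diff_subset)).trans_lt ?_
  rw [bd_sphere hn _ ht]
  exact ENNReal.mul_lt_top ENNReal.ofReal_lt_top
    (ENNReal.mul_lt_top (cst_ne_top hn).lt_top (measure_lt_top _ _))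

end Pool.Agent.H62.WS
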