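import Pool.Agent.H62.WS.Space

set_option autoImplicit false

/-!
# [H62 WS DEFS] Volume, gradient, Steklov eigenvalue, convexity in hyperbolic space
-/

namespace Pool.Agent.H62.WS

open scoped RealInnerProductSpace MeasureTheory
open MeasureTheory Set Metric

variable {n : ℕ}

/-- The Riemannian volume of `H^n`: in the hyperboloid chart it is `dx / √(1+|x|²)`. -/
noncomputable def vol (n : ℕ) : Measure (Hyp n) :=
  ((volume : Measure (E n)).withDensity fun x => ENNReal.ofReal (1 / tc x)).map Hyp.mk

/-- `|∇u|²` for the hyperbolic metric: in the hyperboloid chart it is `|Du|² + (Du(x))²`. -/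
noncomputable def gradSq (u : Hyp n → ℝ) (p : Hyp n) : ℝ :=
  ‖fderiv ℝ (fun x : E n => u ⟨x⟩) p.pt‖ ^ 2 + (fderiv ℝ (fun x : E n => u ⟨x⟩) p.pt p.pt) ^ 2

/-- `u` is of class `C^1` on `H^n` -/
def IsC1 (u : Hyp n → ℝ) : Prop := ContDiff ℝ 1 fun x : E n => u ⟨x⟩

/-- The boundary measure: the `(n-1)`-dimensional Hausdorff measure of the hyperbolic metric, normalised so that
it is Lebesgue measure in the Euclidean case (this is the `(n-1)`-dimensional Riemannian measure on hypersurfaces). -/
noncomputable def bd (n : ℕ) : Measure (Hyp n) := μHE[n - 1]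

/-- The set of the Rayleigh quotients of the Steklov problem on `Ω`. -/
def rayleigh (Ω : Set (Hyp n)) : Set ℝ :=
  {t | ∃ u : Hyp n → ℝ, IsC1 u ∧ ∫ p in frontier Ω, u p ∂bd n = 0 ∧
    0 < ∫ p in frontier Ω, u p ^ 2 ∂bd n ∧
    t = (∫ p in Ω, gradSq u p ∂vol n) / ∫ p in frontier Ω, u p ^ 2 ∂bd n}

/-- The first nonzero Steklov eigenvalue. -/
noncomputable def sigma1 (Ω : Set (Hyp n)) : ℝ := sInf (rayleigh Ω)

/-- Geodesic convexity: `Ω` contains the geodesic segments between its points
(the segment from `p` to `q` is the set of the `m` with `d(p,m) + d(m,q) = d(p,q)`). -/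
def GeodConvex (Ω : Set (Hyp n)) : Prop :=
  ∀ p ∈ Ω, ∀ q ∈ Ω, ∀ m : Hyp n, dist p m + dist m q = dist p q → m ∈ Ω

/-- Adding a geodesic ball with smaller boundary measure does not decrease the boundary measure. -/
def BallCond (Ω : Set (Hyp n)) : Prop :=
  ∀ (p : Hyp n) (t : ℝ), 0 < t → bd n (sphere p t) < bd n (frontier Ω) →
    bd n (frontier Ω ∩ ball p t) ≤ bd n (sphere p t \ Ω)

/-- the point at distance `r` from the origin in the direction `θ` -/
noncomputable def sph (r : ℝ) (θ : sphere (0 : E n) 1) : Hyp n := ⟨Real.sinh r • (θ : E n)⟩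

/-- the surface measure of the unit sphere of the chart -/
noncomputable def sg (n : ℕ) : Measure (sphere (0 : E n) 1) := (volume : Measure (E n)).toSphere

/-- the constant of proportionality between `μHE[n-1]` and `toSphere` on the unit sphere (it is `1`, which is not needed) -/
noncomputable def cst (n : ℕ) : ENNReal := (μHE[n - 1] (sphere (0 : E n) 1)) / sg n univ

end Pool.Agent.H62.WS
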