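import Pool.Agent.H62.WS.DirA

set_option autoImplicit false

/-!
# [H62 WS DIRB] The integral of `ww`

* `lintegral_ww`: `P(t) = g f² s^N` has the derivative `ww` on `(0,∞)`: `(-G + 2 g² + N c g) f² s^N = (g² + N/s²) f² s^N`; `P → 0` at `0` (`0 < g < c`, `0 < f ≤ s`: `0 ≤ P ≤ C s^(N+1)`), and with the Lean conventions
  `P 0 = 0` (`ff N 0 = 0`), so `P` is continuous on `[0,ρ]` (`ContinuousOn`), `ww ≥ 0`; fundamental theorem of calculus for nonnegative derivatives (as in the module `DirI`).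
* `aa'_mul_lt_ww`: `ww - a' s^N = f² s^N (g² + N/s² - 2 g(R) g)`, `g(R) < g(t)` and `g² ≤ N/s²` (`sinh_mul_gg_le_one`).
-/

namespace Pool.Agent.H62.WS

open scoped RealInnerProductSpace MeasureTheory ENNReal NNReal
open MeasureTheory Set Metric

variable {n : ℕ}

theorem ww_pos {N : ℕ} (hN : 1 ≤ N) {t : ℝ} (ht : 0 < t) : 0 < ww N t := by
  have h1 := sinh_pos' ht
  have h2 := ff_pos N ht
  have h3 : (0 : ℝ) < N := by exact_mod_cast hN
  unfold ww
  positivity

theorem lintegral_ww {N : ℕ} (hN : 1 ≤ N) {ρ : ℝ} (hρ : 0 ≤ ρ) :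
    ∫⁻ t in Ioo 0 ρ, ENNReal.ofReal (ww N t) =
      ENNReal.ofReal (gg N ρ * ff N ρ ^ 2 * Real.sinh ρ ^ N) := by
  have hP0 : gg N 0 * ff N 0 ^ 2 * Real.sinh 0 ^ N = 0 := by
    rw [DirA_ff_zero]
    ring
  have hc : ContinuousOn (fun t => gg N t * ff N t ^ 2 * Real.sinh t ^ N) (Icc 0 ρ) := by
    intro x hx
    rcases eq_or_lt_of_le hx.1 with h | h
    · subst h
      unfold ContinuousWithinAt
      dsimp only
      rw [hP0]
      have hb : Filter.Tendsto (fun x => Real.cosh x * Real.sinh x ^ (N + 1))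
          (nhdsWithin 0 (Icc 0 ρ)) (nhds 0) := by
        have hc : Continuous fun x => Real.cosh x * Real.sinh x ^ (N + 1) :=
          Real.continuous_cosh.mul (Real.continuous_sinh.pow _)
        have h1 := hc.tendsto 0
        rw [Real.sinh_zero, zero_pow (Nat.succ_ne_zero N), mul_zero] at h1
        exact h1.mono_left nhdsWithin_le_nhds
      refine squeeze_zero_norm' ?_ hb
      filter_upwards [self_mem_nhdsWithin] with y hy
      rcases eq_or_lt_of_le hy.1 with h | h
      · subst h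
        rw [hP0]
        simp
      · have hs := sinh_pos' h
        have h1 := gg_lt_cth N h
        have h2 := gg_pos hN h
        have h4 := ff_pos N h
        have h5 := ff_le N h
        have h6 := Real.cosh_pos y
        rw [Real.norm_eq_abs, abs_of_pos (by positivity)]
        have h8 : ff N y ^ 2 ≤ Real.sinh y ^ 2 := by nlinarith
        have h9 : 0 < cth y := h2.trans h1
        calc gg N y * ff N y ^ 2 * Real.sinh y ^ N
            ≤ cth y * Real.sinh y ^ 2 * Real.sinh y ^ N := by gcongr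
          _ = Real.cosh y * Real.sinh y ^ (N + 1) := by
              unfold cth
              field_simp
              ring
    · have h1 : HasDerivAt (fun t => gg N t * ff N t ^ 2 * Real.sinh t ^ N) _ x :=
        ((hasDerivAt_gg N h).fun_mul ((hasDerivAt_ff N h).fun_pow 2)).fun_mul (Ode_pow N h)
      exact h1.continuousAt.continuousWithinAt
  have hd : ∀ x ∈ Ioo 0 ρ, HasDerivAt (fun t => gg N t * ff N t ^ 2 * Real.sinh t ^ N) (ww N x) x := by
    intro x hx
    have h1 : HasDerivAt (fun t => gg N t * ff N t ^ 2 * Real.sinh t ^ N) _ x :=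
      ((hasDerivAt_gg N hx.1).fun_mul ((hasDerivAt_ff N hx.1).fun_pow 2)).fun_mul
        (Ode_pow N hx.1)
    refine h1.congr_deriv ?_
    unfold ww GG
    simp only [Nat.cast_ofNat, Nat.add_one_sub_one, pow_one]
    ring
  rw [DirA_ftc hρ hc hd fun x hx => (ww_pos hN hx.1).le, hP0, sub_zero]

theorem aa'_mul_lt_ww {N : ℕ} (hN : 1 ≤ N) {R t : ℝ} (ht : 0 < t) (htR : t < R) :
    aa' N R t * Real.sinh t ^ N < ww N t := by
  have hs := sinh_pos' ht
  have hf := ff_pos N ht
  have hg := gg_pos hN ht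
  have hR : 0 < R := ht.trans htR
  have hgR := gg_pos hN hR
  have hlt := gg_strictAntiOn hN (mem_Ioi.2 ht) (mem_Ioi.2 hR) htR
  have hN1 : (1 : ℝ) ≤ N := by exact_mod_cast hN
  have h2 := sinh_mul_gg_le_one hN ht
  have h3 : gg N t ^ 2 ≤ N / Real.sinh t ^ 2 := by
    rw [le_div_iff₀ (pow_pos hs 2)]
    have h4 : (Real.sinh t * gg N t) ^ 2 ≤ 1 := by
      have : 0 < Real.sinh t * gg N t := by positivity
      nlinarith
    nlinarith
  have h5 : 2 * gg N R * gg N t < gg N t ^ 2 + N / Real.sinh t ^ 2 := by nlinarith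
  have h6 : 0 < ff N t ^ 2 * Real.sinh t ^ N := by positivity
  unfold aa' ww
  nlinarith

end Pool.Agent.H62.WS
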