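import Pool.Agent.H62.WS.DirA

set_option autoImplicit false

/-!
# [H62 WS DIRI] The integral of `a`

For `r ≥ r₀` both sides are `0`.  For `0 ≤ r < r₀`: `lintegral` of the nonnegative `aa'` (`gg_pos`) by the fundamental theorem of calculus: `aa N R` is continuous on `[r, r₀]` — also at `r = 0`, because
`aa N R 0 = -mm N R` (`ff N 0 = VV N 0 / sinh 0 ^ N = 0`) and `0 ≤ ff N t ≤ sinh t` (`ff_le`) —, with derivative `aa'` on `(r, r₀)` (`hasDerivAt_aa`);
`MeasureTheory.integrableOn_Ioo..`/`intervalIntegral.integrableOn_deriv_of_nonneg` and `intervalIntegral.integral_eq_sub_of_hasDerivAt_of_le`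
(`integrableOn_Ioc_of_...nonneg` versions with continuity on `Icc` and a nonnegative derivative on `Ioo`), `ofReal_integral_eq_lintegral_ofReal`; value `aa r₀ - aa r = -aa r`.
-/

namespace Pool.Agent.H62.WS

open scoped RealInnerProductSpace MeasureTheory ENNReal NNReal
open MeasureTheory Set Metric

variable {n : ℕ}

theorem int_aa' {N : ℕ} (hN : 1 ≤ N) {R : ℝ} (hR : 0 < R) {r₀ : ℝ} (h0 : 0 < r₀)
    (ha : aa N R r₀ = 0) (hneg : ∀ t, 0 < t → t < r₀ → aa N R t < 0)
    (hpos : ∀ t, r₀ ≤ t → 0 ≤ aa N R t) {r : ℝ} (hr : 0 ≤ r) :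
    ∫⁻ t in Ioo r r₀, ENNReal.ofReal (aa' N R t) = ENNReal.ofReal (-aa N R r) := by
  rcases le_or_gt r₀ r with h | h
  · rw [Ioo_eq_empty (not_lt.2 h), Measure.restrict_empty, lintegral_zero_measure]
    have h1 := hpos r h
    rw [ENNReal.ofReal_of_nonpos (by linarith)]
  · rw [DirA_ftc h.le ((DirA_aa_cont N R).mono fun x hx => mem_Ici.2 (hr.trans hx.1))
      (fun x hx => hasDerivAt_aa N R (hr.trans_lt hx.1)) fun x hx => ?_, ha, zero_sub]
    have hx0 : 0 < x := hr.trans_lt hx.1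
    have h1 := gg_pos hN hR
    have h2 := gg_pos hN hx0
    have h3 := ff_pos N hx0
    unfold aa'
    positivity

end Pool.Agent.H62.WS
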