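import Pool.Agent.H62.WS.DirR
import Pool.Agent.H62.WS.DirI
import Pool.Agent.H62.WS.DirB

set_option autoImplicit false

/-!
# [H62 WS DIR] The inequality for one direction

Write `α(t) = ofReal(a' t) ofReal(s^N)`, `w(t) = ofReal(ww t)`; `α ≤ w` on `(0,R)` (`aa'_mul_lt_ww`).
* Replacing `A` by `Ioo 0 ρ` does not decrease the left side `L(A) = ∫_{(0,r₀) ∖ A} α + ∫_A w`:
  `∫_{(0,r₀) ∖ A} α = ∫_{(0,r₀) ∖ (0,ρ)} α + ∫_{((0,r₀) ∩ (0,ρ)) ∖ A} α ≤ ∫_{(0,r₀) ∖ (0,ρ)} α + ∫_{((0,r₀) ∩ (0,ρ)) ∖ A} w` and `A`, `((0,r₀) ∩ (0,ρ)) ∖ A` are disjoint subsets of `(0,ρ)` (`lintegral_union`).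
* `ρ ≥ r₀`: `L((0,ρ)) = ∫_{(0,ρ)} w = ofReal (g f² s^N (ρ))` (`lintegral_ww`), and `g f² s^N (ρ) = a(ρ) s^N(ρ) - hh N R ρ ≤ a(ρ) s^N(ρ) - hh N R R` (`hh_strictAntiOn`, `hh_strictMonoOn`, `hh_self`; `a(ρ) ≥ 0`), strict if `ρ ≠ R`.
* `ρ < r₀`: `L((0,ρ)) = ∫_{[ρ,r₀)} α + ∫_{(0,ρ)} w ≤ ∫_{(0,r₀)} w = ofReal (g f² s^N (r₀))`, strict as `α < w` on the interval `[ρ,r₀)` of positive length (or: use `hh` strictly decreasing in case `r₀ < R`), and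
  `g f² s^N (r₀) = -hh N R r₀ ≤ -hh N R R = mm sinh^N(R)` (`a(r₀) = 0`); for the strict inequality when `ρ < r₀`: a finite `w`-integral, `lintegral_strict_mono`.
-/

namespace Pool.Agent.H62.WS

open scoped RealInnerProductSpace MeasureTheory ENNReal NNReal
open MeasureTheory Set Metric

variable {n : ℕ}

private theorem Dir_meas_a (N : ℕ) (R : ℝ) : Measurable fun t =>
    ENNReal.ofReal (aa' N R t) * ENNReal.ofReal (Real.sinh t ^ N) :=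
  (measurable_aa' N R).ennreal_ofReal.mul
    (Real.continuous_sinh.measurable.pow_const N).ennreal_ofReal

private theorem Dir_meas_w (N : ℕ) : Measurable fun t => ENNReal.ofReal (ww N t) :=
  (measurable_ww N).ennreal_ofReal

private theorem Dir_lt {N : ℕ} (hN : 1 ≤ N) {R t : ℝ} (ht : 0 < t) (htR : t < R) :
    ENNReal.ofReal (aa' N R t) * ENNReal.ofReal (Real.sinh t ^ N) < ENNReal.ofReal (ww N t) := by
  have h1 : 0 ≤ aa' N R t := by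
    have h1 := gg_pos hN (ht.trans htR)
    have h2 := gg_pos hN ht
    have h3 := ff_pos N ht
    unfold aa'
    positivity
  rw [← ENNReal.ofReal_mul h1, ENNReal.ofReal_lt_ofReal_iff (ww_pos hN ht)]
  exact aa'_mul_lt_ww hN ht htR

/-- replacing `A` by the interval -/
private theorem Dir_red {N : ℕ} (hN : 1 ≤ N) {R : ℝ} (hR : 0 < R) {r₀ ρ : ℝ}
    (h0R : r₀ ≤ R) {A : Set ℝ} (hA : MeasurableSet A) (hsub : A ⊆ Ioo 0 ρ) :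
    (∫⁻ t in Ioo 0 r₀ \ A, ENNReal.ofReal (aa' N R t) * ENNReal.ofReal (Real.sinh t ^ N)) +
      ∫⁻ t in A, ENNReal.ofReal (ww N t) ≤
    (∫⁻ t in Ioo 0 r₀ \ Ioo 0 ρ, ENNReal.ofReal (aa' N R t) * ENNReal.ofReal (Real.sinh t ^ N)) +
      ∫⁻ t in Ioo 0 ρ, ENNReal.ofReal (ww N t) := by
  set α : ℝ → ℝ≥0∞ := fun t => ENNReal.ofReal (aa' N R t) * ENNReal.ofReal (Real.sinh t ^ N)
  set w : ℝ → ℝ≥0∞ := fun t => ENNReal.ofReal (ww N t)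
  set B : Set ℝ := (Ioo 0 r₀ ∩ Ioo 0 ρ) \ A with hB
  have hBm : MeasurableSet B := (measurableSet_Ioo.inter measurableSet_Ioo).diff hA
  have h1 : Ioo 0 r₀ \ A ⊆ (Ioo 0 r₀ \ Ioo 0 ρ) ∪ B := by
    intro x hx
    by_cases h : x ∈ Ioo 0 ρ
    · exact Or.inr ⟨⟨hx.1, h⟩, hx.2⟩
    · exact Or.inl ⟨hx.1, h⟩
  have h2 : ∫⁻ t in Ioo 0 r₀ \ A, α t ≤ (∫⁻ t in Ioo 0 r₀ \ Ioo 0 ρ, α t) + ∫⁻ t in B, α t :=
    (lintegral_mono_set h1).trans (lintegral_union_le _ _ _)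
  have h3 : ∫⁻ t in B, α t ≤ ∫⁻ t in B, w t := by
    refine setLIntegral_mono (Dir_meas_w N) fun t ht => ?_
    exact (Dir_lt hN ht.1.1.1 (ht.1.1.2.trans_le h0R)).le
  have h4 : (∫⁻ t in B, w t) + ∫⁻ t in A, w t ≤ ∫⁻ t in Ioo 0 ρ, w t := by
    rw [← lintegral_union hA (Set.disjoint_left.2 fun x hx hxA => hx.2 hxA)]
    refine lintegral_mono_set ?_
    rintro x (hx | hx)
    · exact hx.1.2
    · exact hsub hx
  calc (∫⁻ t in Ioo 0 r₀ \ A, α t) + ∫⁻ t in A, w t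
      ≤ ((∫⁻ t in Ioo 0 r₀ \ Ioo 0 ρ, α t) + ∫⁻ t in B, w t) + ∫⁻ t in A, w t := by
        gcongr
        exact h2.trans (by gcongr)
    _ = (∫⁻ t in Ioo 0 r₀ \ Ioo 0 ρ, α t) + ((∫⁻ t in B, w t) + ∫⁻ t in A, w t) := by
        rw [add_assoc]
    _ ≤ _ := by gcongr

private theorem Dir_hh {N : ℕ} (hN : 1 ≤ N) {R : ℝ} (hR : 0 < R) {ρ : ℝ} (hρ : 0 < ρ)
    (hne : ρ ≠ R) : gg N ρ * ff N ρ ^ 2 * Real.sinh ρ ^ N <
      aa N R ρ * Real.sinh ρ ^ N + mm N R * Real.sinh R ^ N := by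
  have h1 : hh N R R < hh N R ρ := by
    rcases lt_or_gt_of_ne hne with h | h
    · exact hh_strictAntiOn hN hR ⟨hρ, h.le⟩ ⟨hR, le_rfl⟩ h
    · exact hh_strictMonoOn hN hR (mem_Ici.2 le_rfl) (mem_Ici.2 h.le) h
  rw [hh_self] at h1
  unfold hh at h1
  linarith

private theorem Dir_big_real {N : ℕ} (hN : 1 ≤ N) {R : ℝ} (hR : 0 < R) {r₀ : ℝ} (h0 : 0 < r₀)
    (hpos : ∀ t, r₀ ≤ t → 0 ≤ aa N R t) {ρ : ℝ} (hρ : r₀ ≤ ρ) :
    ENNReal.ofReal (aa N R ρ) * ENNReal.ofReal (Real.sinh ρ ^ N) +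
        ENNReal.ofReal (mm N R * Real.sinh R ^ N) =
      ENNReal.ofReal (aa N R ρ * Real.sinh ρ ^ N + mm N R * Real.sinh R ^ N) := by
  have h1 := hpos ρ hρ
  have h2 := sinh_pos' (h0.trans_le hρ)
  have h3 := sinh_pos' hR
  have h4 := mm_pos hN hR
  rw [← ENNReal.ofReal_mul h1, ENNReal.ofReal_add (by positivity) (by positivity)]

/-- the case `ρ ≥ r₀` -/
private theorem Dir_big {N : ℕ} (hN : 1 ≤ N) {R : ℝ} (hR : 0 < R) {r₀ : ℝ} (h0 : 0 < r₀)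
    (hpos : ∀ t, r₀ ≤ t → 0 ≤ aa N R t) {ρ : ℝ} (hρ : r₀ ≤ ρ) :
    (∫⁻ t in Ioo 0 r₀ \ Ioo 0 ρ, ENNReal.ofReal (aa' N R t) * ENNReal.ofReal (Real.sinh t ^ N)) +
      ∫⁻ t in Ioo 0 ρ, ENNReal.ofReal (ww N t) ≤
      ENNReal.ofReal (aa N R ρ) * ENNReal.ofReal (Real.sinh ρ ^ N) +
        ENNReal.ofReal (mm N R * Real.sinh R ^ N) := by
  have hρ0 := h0.trans_le hρ
  rw [Set.diff_eq_empty.2 (Ioo_subset_Ioo_right hρ), Measure.restrict_empty,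
    lintegral_zero_measure, zero_add, lintegral_ww hN hρ0.le, Dir_big_real hN hR h0 hpos hρ]
  refine ENNReal.ofReal_le_ofReal ?_
  by_cases hne : ρ = R
  · subst hne
    have h1 := hh_self N ρ
    unfold hh at h1
    linarith
  · exact (Dir_hh hN hR hρ0 hne).le

private theorem Dir_strict {N : ℕ} (hN : 1 ≤ N) {R : ℝ} (hR : 0 < R) {r₀ : ℝ} (h0 : 0 < r₀)
    (h0R : r₀ ≤ R) (ha : aa N R r₀ = 0)
    (hpos : ∀ t, r₀ ≤ t → 0 ≤ aa N R t) {A : Set ℝ} (hA : MeasurableSet A) {ρ : ℝ} (hρ : 0 ≤ ρ)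
    (hsub : A ⊆ Ioo 0 ρ) (hne : ρ ≠ R) :
    (∫⁻ t in Ioo 0 r₀ \ A, ENNReal.ofReal (aa' N R t) * ENNReal.ofReal (Real.sinh t ^ N)) +
      ∫⁻ t in A, ENNReal.ofReal (ww N t) <
      ENNReal.ofReal (aa N R ρ) * ENNReal.ofReal (Real.sinh ρ ^ N) +
        ENNReal.ofReal (mm N R * Real.sinh R ^ N) := by
  refine (Dir_red hN hR h0R hA hsub).trans_lt ?_
  have hmm := mm_pos hN hR
  have hsR := sinh_pos' hR
  rcases le_or_gt r₀ ρ with h | h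
  · have hρ0 := h0.trans_le h
    rw [Set.diff_eq_empty.2 (Ioo_subset_Ioo_right h), Measure.restrict_empty,
      lintegral_zero_measure, zero_add, lintegral_ww hN hρ0.le, Dir_big_real hN hR h0 hpos h]
    have h1 := hpos ρ h
    have h2 := sinh_pos' hρ0
    rw [ENNReal.ofReal_lt_ofReal_iff (by positivity)]
    exact Dir_hh hN hR hρ0 hne
  · -- `ρ < r₀`
    set α : ℝ → ℝ≥0∞ := fun t => ENNReal.ofReal (aa' N R t) * ENNReal.ofReal (Real.sinh t ^ N)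
      with hα
    set w : ℝ → ℝ≥0∞ := fun t => ENNReal.ofReal (ww N t) with hw
    have hwfin : ∫⁻ t in Ioo 0 r₀, w t ≠ ⊤ := by
      rw [hw, lintegral_ww hN h0.le]
      exact ENNReal.ofReal_ne_top
    have hDsub : Ioo 0 r₀ \ Ioo 0 ρ ⊆ Ioo 0 r₀ := diff_subset
    have hDm : MeasurableSet (Ioo 0 r₀ \ Ioo 0 ρ) := measurableSet_Ioo.diff measurableSet_Ioo
    have hlt : ∀ t ∈ Ioo 0 r₀ \ Ioo 0 ρ, α t < w t := fun t ht =>
      Dir_lt hN ht.1.1 (ht.1.2.trans_le h0R)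
    have hle : ∫⁻ t in Ioo 0 r₀ \ Ioo 0 ρ, α t ≤ ∫⁻ t in Ioo 0 r₀ \ Ioo 0 ρ, w t :=
      setLIntegral_mono (Dir_meas_w N) fun t ht => (hlt t ht).le
    have hwD : ∫⁻ t in Ioo 0 r₀ \ Ioo 0 ρ, w t ≠ ⊤ :=
      ne_top_of_le_ne_top hwfin (lintegral_mono_set hDsub)
    have hvol : volume (Ioo 0 r₀ \ Ioo 0 ρ) ≠ 0 := by
      have h1 : Ioo ρ r₀ ⊆ Ioo 0 r₀ \ Ioo 0 ρ := fun x hx =>
        ⟨⟨hρ.trans_lt hx.1, hx.2⟩, fun h2 => absurd h2.2 (not_lt.2 hx.1.le)⟩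
      have h2 : 0 < volume (Ioo ρ r₀) := by
        rw [Real.volume_Ioo]
        exact ENNReal.ofReal_pos.2 (by linarith)
      exact (h2.trans_le (measure_mono h1)).ne'
    have hstrict : ∫⁻ t in Ioo 0 r₀ \ Ioo 0 ρ, α t < ∫⁻ t in Ioo 0 r₀ \ Ioo 0 ρ, w t :=
      setLIntegral_strict_mono hDm hvol (Dir_meas_w N) (ne_top_of_le_ne_top hwD hle)
        (Filter.Eventually.of_forall hlt)
    have hsum : (∫⁻ t in Ioo 0 r₀ \ Ioo 0 ρ, w t) + ∫⁻ t in Ioo 0 ρ, w t =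
        ∫⁻ t in Ioo 0 r₀, w t := by
      rw [← lintegral_union measurableSet_Ioo disjoint_sdiff_left,
        Set.diff_union_of_subset (Ioo_subset_Ioo_right h.le)]
    have hwρ : ∫⁻ t in Ioo 0 ρ, w t ≠ ⊤ :=
      ne_top_of_le_ne_top hwfin (lintegral_mono_set (Ioo_subset_Ioo_right h.le))
    have h1 : (∫⁻ t in Ioo 0 r₀ \ Ioo 0 ρ, α t) + ∫⁻ t in Ioo 0 ρ, w t < ∫⁻ t in Ioo 0 r₀, w t := by
      rw [← hsum]
      exact ENNReal.add_lt_add_right hwρ hstrict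
    refine h1.trans_le ?_
    rw [hw, lintegral_ww hN h0.le]
    refine le_trans ?_ le_add_self
    refine ENNReal.ofReal_le_ofReal ?_
    by_cases hr : r₀ = R
    · subst hr
      have h1 := hh_self N r₀
      unfold hh at h1
      rw [ha] at h1
      linarith
    · have h2 := Dir_hh hN hR h0 hr
      rw [ha] at h2
      linarith

theorem dir_ineq {N : ℕ} (hN : 1 ≤ N) {R : ℝ} (hR : 0 < R) {r₀ : ℝ} (h0 : 0 < r₀) (h0R : r₀ ≤ R)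
    (ha : aa N R r₀ = 0) (hneg : ∀ t, 0 < t → t < r₀ → aa N R t < 0)
    (hpos : ∀ t, r₀ ≤ t → 0 ≤ aa N R t) {A : Set ℝ} (hA : MeasurableSet A) {ρ : ℝ} (hρ : 0 ≤ ρ)
    (hsub : A ⊆ Ioo 0 ρ) :
    (∫⁻ t in Ioo 0 r₀ \ A, ENNReal.ofReal (aa' N R t) * ENNReal.ofReal (Real.sinh t ^ N)) +
      ∫⁻ t in A, ENNReal.ofReal (ww N t) ≤
      ENNReal.ofReal (aa N R ρ) * ENNReal.ofReal (Real.sinh ρ ^ N) +
        ENNReal.ofReal (mm N R * Real.sinh R ^ N) := by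
  by_cases hne : ρ = R
  · subst hne
    refine (Dir_red hN hR (ρ := ρ) h0R hA hsub).trans ?_
    exact Dir_big hN hR h0 hpos h0R
  · exact (Dir_strict hN hR h0 h0R ha hpos hA hρ hsub hne).le

theorem dir_ineq_strict {N : ℕ} (hN : 1 ≤ N) {R : ℝ} (hR : 0 < R) {r₀ : ℝ} (h0 : 0 < r₀)
    (h0R : r₀ ≤ R) (ha : aa N R r₀ = 0) (hneg : ∀ t, 0 < t → t < r₀ → aa N R t < 0)
    (hpos : ∀ t, r₀ ≤ t → 0 ≤ aa N R t) {A : Set ℝ} (hA : MeasurableSet A) {ρ : ℝ} (hρ : 0 ≤ ρ)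
    (hsub : A ⊆ Ioo 0 ρ) (hne : ρ ≠ R) :
    (∫⁻ t in Ioo 0 r₀ \ A, ENNReal.ofReal (aa' N R t) * ENNReal.ofReal (Real.sinh t ^ N)) +
      ∫⁻ t in A, ENNReal.ofReal (ww N t) <
      ENNReal.ofReal (aa N R ρ) * ENNReal.ofReal (Real.sinh ρ ^ N) +
        ENNReal.ofReal (mm N R * Real.sinh R ^ N) := by
  exact Dir_strict hN hR h0 h0R ha hpos hA hρ hsub hne

end Pool.Agent.H62.WS
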