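import Pool.Agent.H62.WS.OdeH

set_option autoImplicit false

/-!
# [H62 WS ODEHB] The function `h` increases on `[R,∞)`

For `t > R`: `U(t) = G f²/(N c) + f² (g(R) - g)` has `U(R) = m0` and
`(G f²/(N c))' = f²/(N c) [G' + 2 g G + G/(c s²)]` (as `(1/c)' = 1/(c² s²)`) `= f²/(N c) [-N c G + N (2c - g)/s² + G/(c s²)]`, `(f² (g(R) - g))' = 2 g f² (g(R) - g) + f² G`, so
`U' = f²/(N c) [N (2c - g)/s² + G/(c s²)] + 2 g f² (g(R) - g) > 0` for `t ≥ R` (`g ≤ g(R)`, `g < c`); so `U > m0` on `(R,∞)`, and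
`h'/(N c s^N) = U - m0 + (2g/(N c)) (g(R) - g) f² > 0` there.
-/

namespace Pool.Agent.H62.WS

open MeasureTheory Set

theorem hh_strictMonoOn {N : ℕ} (hN : 1 ≤ N) {R : ℝ} (hR : 0 < R) :
    StrictMonoOn (hh N R) (Ici R) := by
  have hN0 : (0 : ℝ) < N := by exact_mod_cast hN
  have hUd : ∀ t, 0 < t → HasDerivAt
      (fun t => GG N t * ff N t ^ 2 / (N * cth t) + ff N t ^ 2 * (gg N R - gg N t))
      ((2 * cth t - gg N t) * ff N t ^ 2 / (cth t * Real.sinh t ^ 2) +
        GG N t * ff N t ^ 2 / (N * cth t ^ 2 * Real.sinh t ^ 2) +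
        2 * gg N t * ff N t ^ 2 * (gg N R - gg N t)) t := by
    intro t ht
    have hc : 0 < cth t := by linarith [one_lt_cth ht]
    have hs := sinh_pos' ht
    have hf := (hasDerivAt_ff N ht).fun_pow 2
    have h1 := ((hasDerivAt_GG N ht).fun_mul hf).fun_div ((hasDerivAt_cth ht).const_mul (N : ℝ))
      (mul_pos hN0 hc).ne'
    have h2 := hf.fun_mul ((hasDerivAt_gg N ht).const_sub (gg N R))
    refine (h1.fun_add h2).congr_deriv ?_
    simp only [Nat.cast_ofNat, Nat.add_one_sub_one, pow_one]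
    field_simp
    ring
  have hUmono : StrictMonoOn (fun t => GG N t * ff N t ^ 2 / (N * cth t) +
      ff N t ^ 2 * (gg N R - gg N t)) (Ici R) := by
    refine strictMonoOn_of_deriv_pos (convex_Ici R)
      (fun x hx => (hUd x (hR.trans_le hx)).continuousAt.continuousWithinAt) fun x hx => ?_
    rw [interior_Ici] at hx
    have hx0 : 0 < x := hR.trans hx
    rw [(hUd x hx0).deriv]
    have h1 := GG_pos hN hx0
    have h2 := gg_strictAntiOn hN (mem_Ioi.2 hR) (mem_Ioi.2 hx0) hx
    have h3 := gg_lt_cth N hx0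
    have h4 := one_lt_cth hx0
    have h5 := sinh_pos' hx0
    have h6 := ff_pos N hx0
    have h7 := gg_pos hN hx0
    have h8 : 0 < 2 * cth x - gg N x := by linarith
    have h9 : 0 < gg N R - gg N x := by linarith
    have h10 : 0 < cth x := by linarith
    positivity
  refine strictMonoOn_of_deriv_pos (convex_Ici R)
    (fun x hx => (hasDerivAt_hh N R (hR.trans_le hx)).continuousAt.continuousWithinAt) fun x hx => ?_
  rw [interior_Ici] at hx
  have hx0 : 0 < x := hR.trans hx
  rw [(hasDerivAt_hh N R hx0).deriv]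
  have hs := sinh_pos' hx0
  have hf := ff_pos N hx0
  have hg := gg_pos hN hx0
  have hcx : 0 < cth x := by linarith [one_lt_cth hx0]
  have hU : GG N R * ff N R ^ 2 / (N * cth R) + ff N R ^ 2 * (gg N R - gg N R) <
      GG N x * ff N x ^ 2 / (N * cth x) + ff N x ^ 2 * (gg N R - gg N x) :=
    hUmono (mem_Ici.2 le_rfl) (mem_Ici.2 (le_of_lt hx)) hx
  have hU' : 0 < GG N x * ff N x ^ 2 / (N * cth x) + ff N x ^ 2 * (gg N R - gg N x) - mm N R := by
    have : mm N R = GG N R * ff N R ^ 2 / (N * cth R) + ff N R ^ 2 * (gg N R - gg N R) := by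
      unfold mm
      ring
    rw [this]
    linarith
  have hgR : gg N x < gg N R := gg_strictAntiOn hN (mem_Ioi.2 hR) (mem_Ioi.2 hx0) hx
  have e1 : (2 * gg N x + N * cth x) * (gg N R - gg N x) * ff N x ^ 2 + GG N x * ff N x ^ 2 -
      N * cth x * mm N R =
      N * cth x * (GG N x * ff N x ^ 2 / (N * cth x) + ff N x ^ 2 * (gg N R - gg N x) - mm N R) +
        2 * gg N x * (gg N R - gg N x) * ff N x ^ 2 := by
    field_simp
    ring
  rw [e1]
  have h9 : 0 < gg N R - gg N x := by linarith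
  positivity

end Pool.Agent.H62.WS
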