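import Pool.Agent.H62.WS.OdeHA
import Pool.Agent.H62.WS.OdeHB

set_option autoImplicit false

/-!
# [H62 WS DIRA] The function `a = aa N R`: monotone, measurable

`a' = 2 g(R) g f² > 0` (`hasDerivAt_aa`).  Measurability: `VV N` is continuous (`hasDerivAt_VV`), `sinh`, `cosh` are continuous, quotients are measurable.
-/

namespace Pool.Agent.H62.WS

open scoped RealInnerProductSpace MeasureTheory ENNReal NNReal
open MeasureTheory Set Metric

variable {n : ℕ}

/-- the fundamental theorem of calculus for nonnegative derivatives -/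
theorem DirA_ftc {F f : ℝ → ℝ} {a b : ℝ} (hab : a ≤ b) (hc : ContinuousOn F (Icc a b))
    (hd : ∀ x ∈ Ioo a b, HasDerivAt F (f x) x) (hf : ∀ x ∈ Ioo a b, 0 ≤ f x) :
    ∫⁻ t in Ioo a b, ENNReal.ofReal (f t) = ENNReal.ofReal (F b - F a) := by
  have h1 : IntegrableOn f (Ioc a b) := intervalIntegral.integrableOn_deriv_of_nonneg hc hd hf
  have h2 : ∫ y in a..b, f y = F b - F a :=
    intervalIntegral.integral_eq_sub_of_hasDerivAt_of_le hab hc hd
      ((intervalIntegrable_iff_integrableOn_Ioc_of_le hab).2 h1)
  have h3 : IntegrableOn f (Ioo a b) := h1.mono_set Ioo_subset_Ioc_self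
  rw [intervalIntegral.integral_of_le hab, integral_Ioc_eq_integral_Ioo] at h2
  rw [← h2, ofReal_integral_eq_lintegral_ofReal h3]
  rw [Filter.EventuallyLE, ae_restrict_iff' measurableSet_Ioo]
  exact Filter.Eventually.of_forall fun x hx => hf x hx

theorem DirA_ff_zero (N : ℕ) : ff N 0 = 0 := by
  unfold ff
  rw [VV_zero, zero_div]

/-- `f` is continuous on `[0,∞)` -/
theorem DirA_ff_cont (N : ℕ) : ContinuousOn (ff N) (Ici 0) := by
  intro x hx
  rcases eq_or_lt_of_le (mem_Ici.1 hx) with h | h
  · subst h
    unfold ContinuousWithinAt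
    rw [DirA_ff_zero]
    have hs : Filter.Tendsto Real.sinh (nhdsWithin 0 (Ici 0)) (nhds 0) := by
      have := Real.continuous_sinh.tendsto 0
      rw [Real.sinh_zero] at this
      exact this.mono_left nhdsWithin_le_nhds
    refine squeeze_zero_norm' ?_ hs
    filter_upwards [self_mem_nhdsWithin] with y hy
    rcases eq_or_lt_of_le (mem_Ici.1 hy) with h | h
    · subst h
      rw [DirA_ff_zero]
      simp
    · rw [Real.norm_eq_abs, abs_of_pos (ff_pos N h)]
      exact ff_le N h
  · exact (hasDerivAt_ff N h).continuousAt.continuousWithinAt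

theorem DirA_aa_cont (N : ℕ) (R : ℝ) : ContinuousOn (aa N R) (Ici 0) :=
  (continuousOn_const.mul ((DirA_ff_cont N).pow 2)).sub continuousOn_const

theorem aa_strictMonoOn {N : ℕ} (hN : 1 ≤ N) {R : ℝ} (hR : 0 < R) : StrictMonoOn (aa N R) (Ioi 0) := by
  refine strictMonoOn_of_deriv_pos (convex_Ioi 0)
    (fun x hx => (hasDerivAt_aa N R hx).continuousAt.continuousWithinAt) fun x hx => ?_
  rw [interior_Ioi] at hx
  rw [(hasDerivAt_aa N R hx).deriv]
  have h1 := gg_pos hN hR
  have h2 := gg_pos hN hx
  have h3 := ff_pos N hx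
  unfold aa'
  positivity

theorem aa_monotoneOn {N : ℕ} (hN : 1 ≤ N) {R : ℝ} (hR : 0 < R) : MonotoneOn (aa N R) (Ioi 0) :=
  (aa_strictMonoOn hN hR).monotoneOn

theorem aa_continuousOn (N : ℕ) (R : ℝ) : ContinuousOn (aa N R) (Ioi 0) := by
  exact fun x hx => (hasDerivAt_aa N R hx).continuousAt.continuousWithinAt

theorem measurable_ff (N : ℕ) : Measurable (ff N) := by
  have h1 : Continuous (VV N) :=
    continuous_iff_continuousAt.2 fun r => (hasDerivAt_VV N r).continuousAt
  exact h1.measurable.div (Real.continuous_sinh.measurable.pow_const N)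

theorem measurable_gg (N : ℕ) : Measurable (gg N) := by
  have h1 : Continuous (VV N) :=
    continuous_iff_continuousAt.2 fun r => (hasDerivAt_VV N r).continuousAt
  have h2 : Measurable cth := Real.continuous_cosh.measurable.div Real.continuous_sinh.measurable
  exact ((Real.continuous_sinh.measurable.pow_const N).div h1.measurable).sub
    (h2.const_mul (N : ℝ))

theorem measurable_aa (N : ℕ) (R : ℝ) : Measurable (aa N R) := by
  exact (((measurable_ff N).pow_const 2).const_mul (gg N R)).sub_const (mm N R)

theorem measurable_aa' (N : ℕ) (R : ℝ) : Measurable (aa' N R) := by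
  exact ((measurable_gg N).const_mul (2 * gg N R)).mul ((measurable_ff N).pow_const 2)

theorem measurable_ww (N : ℕ) : Measurable (ww N) := by
  have h1 := Real.continuous_sinh.measurable
  exact ((((measurable_gg N).pow_const 2).add (measurable_const.div (h1.pow_const 2))).mul
    ((measurable_ff N).pow_const 2)).mul (h1.pow_const N)

end Pool.Agent.H62.WS
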