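import Pool.Agent.H62.WS.DirA

set_option autoImplicit false

/-!
# [H62 WS DIRR] The zero of `a = aa N R`

`a` is continuous and strictly increasing on `(0,∞)` (`aa_continuousOn`, `aa_strictMonoOn`); near `0` it is negative: `0 < f(t) ≤ sinh t` (`ff_le`) so `a(t) ≤ g(R) sinh² t - m0 < 0` for small `t > 0` (`mm_pos`);
`a(R) ≥ 0`: `a(R) N c(R) = f(R)² (g N c - G) = f(R)² (N/s² - g²) ≥ 0` (`sinh_mul_gg_le_one`: `g s ≤ 1`, `N ≥ 1`).  Intermediate value theorem; the signs from `aa_strictMonoOn`.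
-/

namespace Pool.Agent.H62.WS

open scoped RealInnerProductSpace MeasureTheory ENNReal NNReal
open MeasureTheory Set Metric

variable {n : ℕ}

theorem exists_r0 {N : ℕ} (hN : 1 ≤ N) {R : ℝ} (hR : 0 < R) :
    ∃ r₀, 0 < r₀ ∧ r₀ ≤ R ∧ aa N R r₀ = 0 ∧ (∀ t, 0 < t → t < r₀ → aa N R t < 0) ∧
      ∀ t, r₀ ≤ t → 0 ≤ aa N R t := by
  have hN0 : (0 : ℝ) < N := by exact_mod_cast hN
  have hN1 : (1 : ℝ) ≤ N := by exact_mod_cast hN
  have hm := mm_pos hN hR
  have hgR := gg_pos hN hR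
  -- a small point
  obtain ⟨t₁, ht₁, ht₁R, ht₁a⟩ : ∃ t₁, 0 < t₁ ∧ t₁ < R ∧ aa N R t₁ < 0 := by
    have h1 : Filter.Tendsto (fun t => gg N R * Real.sinh t ^ 2 - mm N R) (nhdsWithin 0 (Ioi 0))
        (nhds (-mm N R)) := by
      have hc : Continuous fun t => gg N R * Real.sinh t ^ 2 - mm N R :=
        (continuous_const.mul (Real.continuous_sinh.pow 2)).sub continuous_const
      have h2 := hc.tendsto 0
      rw [Real.sinh_zero] at h2
      have h3 : gg N R * 0 ^ 2 - mm N R = -mm N R := by ring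
      rw [h3] at h2
      exact h2.mono_left nhdsWithin_le_nhds
    have h4 : ∀ᶠ t in nhdsWithin (0 : ℝ) (Ioi 0), gg N R * Real.sinh t ^ 2 - mm N R < 0 :=
      h1.eventually (gt_mem_nhds (by linarith))
    have h5 : ∀ᶠ t in nhdsWithin (0 : ℝ) (Ioi 0), t ∈ Ioo 0 R := Ioo_mem_nhdsGT hR
    obtain ⟨t, ht1, ht2⟩ := (h4.and h5).exists
    refine ⟨t, ht2.1, ht2.2, ?_⟩
    have h6 := ff_le N ht2.1
    have h7 := ff_pos N ht2.1
    have h8 : ff N t ^ 2 ≤ Real.sinh t ^ 2 := by nlinarith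
    have h9 : gg N R * ff N t ^ 2 ≤ gg N R * Real.sinh t ^ 2 := by gcongr
    unfold aa
    linarith
  have haR : 0 ≤ aa N R R := by
    have hcR : 0 < cth R := by linarith [one_lt_cth hR]
    have hsR := sinh_pos' hR
    have h1 : aa N R R = ff N R ^ 2 * (N / Real.sinh R ^ 2 - gg N R ^ 2) / (N * cth R) := by
      unfold aa mm GG
      field_simp
      ring
    have h2 := sinh_mul_gg_le_one hN hR
    have h3 : gg N R ^ 2 ≤ N / Real.sinh R ^ 2 := by
      rw [le_div_iff₀ (pow_pos hsR 2)]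
      have h4 : (Real.sinh R * gg N R) ^ 2 ≤ 1 := by
        have : 0 < Real.sinh R * gg N R := by positivity
        nlinarith
      nlinarith
    rw [h1]
    have h5 : 0 ≤ N / Real.sinh R ^ 2 - gg N R ^ 2 := by linarith
    positivity
  have hcont : ContinuousOn (aa N R) (Icc t₁ R) :=
    (aa_continuousOn N R).mono fun x hx => mem_Ioi.2 (ht₁.trans_le hx.1)
  obtain ⟨r₀, hr₀, hr₀a⟩ := intermediate_value_Icc ht₁R.le hcont ⟨ht₁a.le, haR⟩
  have hr0 : 0 < r₀ := ht₁.trans_le hr₀.1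
  refine ⟨r₀, hr0, hr₀.2, hr₀a, fun t ht htr => ?_, fun t ht => ?_⟩
  · have := aa_strictMonoOn hN hR (mem_Ioi.2 ht) (mem_Ioi.2 hr0) htr
    rwa [hr₀a] at this
  · have := aa_monotoneOn hN hR (mem_Ioi.2 hr0) (mem_Ioi.2 (hr0.trans_le ht)) ht
    rwa [hr₀a] at this

end Pool.Agent.H62.WS
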