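import Pool.Agent.H62.WS.Top

set_option autoImplicit false

/-!
# [H62 WS DISTSPH] The radial projection does not increase distances

`lor (sinh t • θ) (sinh t' • η) = (cosh t cosh t' - sinh t sinh t') + sinh t sinh t' (1 - ⟪θ,η⟫) ≥ 1 + sinh² s (1 - ⟪θ,η⟫) = lor (sinh s • θ) (sinh s • η)` for `0 ≤ s ≤ t, t'`
(`tc (sinh t • θ) = cosh t`, `cosh (t - t') ≥ 1`, `⟪θ,η⟫ ≤ 1`); `dist_def`, monotonicity of `Real.arcosh` on `[1,∞)` (or compare `cosh` of both: `Real.cosh_le_cosh`, `cosh_dist`).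
-/

namespace Pool.Agent.H62.WS

open scoped RealInnerProductSpace MeasureTheory ENNReal NNReal
open MeasureTheory Set Metric

variable {n : ℕ}

private theorem ds_tc (t : ℝ) (θ : sphere (0 : E n) 1) :
    tc (Real.sinh t • (θ : E n)) = Real.cosh t := by
  have h1 : ‖(θ : E n)‖ = 1 := by simp
  unfold tc
  rw [norm_smul, h1, mul_one, Real.norm_eq_abs, sq_abs]
  have h2 : 1 + Real.sinh t ^ 2 = Real.cosh t ^ 2 := by
    rw [Real.cosh_sq]
    ring
  rw [h2, Real.sqrt_sq (Real.cosh_pos t).le]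

private theorem ds_lor (t t' : ℝ) (θ η : sphere (0 : E n) 1) :
    lor (Real.sinh t • (θ : E n)) (Real.sinh t' • (η : E n)) =
      Real.cosh t * Real.cosh t' - Real.sinh t * Real.sinh t' * ⟪(θ : E n), (η : E n)⟫ := by
  unfold lor
  rw [ds_tc, ds_tc, real_inner_smul_left, real_inner_smul_right]
  ring

theorem dist_sph_le {s t t' : ℝ} (hs : 0 ≤ s) (h1 : s ≤ t) (h2 : s ≤ t') (θ η : sphere (0 : E n) 1) :
    dist (sph s θ) (sph s η) ≤ dist (sph t θ) (sph t' η) := by
  have hc : Real.cosh (dist (sph s θ) (sph s η)) ≤ Real.cosh (dist (sph t θ) (sph t' η)) := by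
    rw [cosh_dist, cosh_dist]
    unfold sph
    rw [ds_lor, ds_lor]
    have h3 : ⟪(θ : E n), (η : E n)⟫ ≤ 1 := by
      have h4 := real_inner_le_norm (θ : E n) (η : E n)
      have h5 : ‖(θ : E n)‖ = 1 := by simp
      have h6 : ‖(η : E n)‖ = 1 := by simp
      rwa [h5, h6, mul_one] at h4
    have h7 : 0 ≤ Real.sinh s := Real.sinh_nonneg_iff.mpr hs
    have h8 : Real.sinh s ≤ Real.sinh t := Real.sinh_le_sinh.mpr h1
    have h9 : Real.sinh s ≤ Real.sinh t' := Real.sinh_le_sinh.mpr h2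
    have h10 : 1 ≤ Real.cosh (t - t') := Real.one_le_cosh _
    rw [Real.cosh_sub] at h10
    have h11 : Real.sinh s * Real.sinh s ≤ Real.sinh t * Real.sinh t' :=
      mul_le_mul h8 h9 h7 (h7.trans h8)
    have h12 := Real.cosh_sq s
    have h13 : Real.sinh s * Real.sinh s * (1 - ⟪(θ : E n), (η : E n)⟫) ≤
        Real.sinh t * Real.sinh t' * (1 - ⟪(θ : E n), (η : E n)⟫) :=
      mul_le_mul_of_nonneg_right h11 (by linarith)
    nlinarith
  have h3 := Real.cosh_le_cosh.mp hc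
  rwa [abs_of_nonneg dist_nonneg, abs_of_nonneg dist_nonneg] at h3

end Pool.Agent.H62.WS
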