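import Pool.Agent.H62.WS.Seg0

set_option autoImplicit false

/-!
# [H62 WS SEG] Separation from a convex set

By `boostIso p.pt` (image of `Ω`: open, `GeodConvex.image`, and `boostIso p.pt p = org n`) we may take `p = org n`, `p.pt = 0`, `boost 0 q = q`.  The cone `s = {l • x | l > 0, ⟨x⟩ ∈ Ω} ⊆ E n` is open (union over `l` of
open sets), convex: for `x, y ∈ Ω`, `l, m > 0` the vector `l x + m y` is `κ z` with `z = α x + β y`, `α = l/κ`, `β = m/κ`, `κ² = (l tc x + m tc y)² - ‖l x + m y‖² > 0`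
(then `tc z = α tc x + β tc y`: `1 + ‖z‖² = (α tc x + β tc y)²`; `dist_add_dist` and `GeodConvex` give `⟨z⟩ ∈ Ω`), and `0 ∉ s` (`l • x = 0` gives `x = 0`, but `org ∉ Ω`).
`geometric_hahn_banach_open_point` gives a continuous functional `f` with `f z < f 0 = 0` on `s`; represent it by a vector (`InnerProductSpace.toDual`), nonzero as `Ω` is nonempty, normalise.
-/

namespace Pool.Agent.H62.WS

open scoped RealInnerProductSpace MeasureTheory ENNReal NNReal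
open MeasureTheory Set Metric

variable {n : ℕ}

private theorem sep_org {Ω : Set (Hyp n)} (hΩ : IsOpen Ω) (hc : GeodConvex Ω) (hne : Ω.Nonempty)
    (hp : org n ∉ Ω) : ∃ v : E n, ‖v‖ = 1 ∧ ∀ q ∈ Ω, ⟪v, q.pt⟫ < 0 := by
  obtain ⟨s, hs⟩ : ∃ s : Set (E n), s = {z | ∃ l : ℝ, 0 < l ∧ ∃ x : E n, (⟨x⟩ : Hyp n) ∈ Ω ∧
    z = l • x} := ⟨_, rfl⟩
  have hmem : ∀ z, z ∈ s ↔ ∃ l : ℝ, 0 < l ∧ ∃ x : E n, (⟨x⟩ : Hyp n) ∈ Ω ∧ z = l • x := by
    intro z
    rw [hs]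
    rfl
  have hopen : IsOpen s := by
    have e : s = ⋃ l : Ioi (0 : ℝ), (fun z : E n => (⟨(l : ℝ)⁻¹ • z⟩ : Hyp n)) ⁻¹' Ω := by
      ext z
      rw [hmem, mem_iUnion]
      constructor
      · rintro ⟨l, hl, x, hx, rfl⟩
        refine ⟨⟨l, hl⟩, ?_⟩
        change (⟨l⁻¹ • (l • x)⟩ : Hyp n) ∈ Ω
        rw [smul_smul, inv_mul_cancel₀ hl.ne', one_smul]
        exact hx
      · rintro ⟨⟨l, hl⟩, h⟩
        have hl' : 0 < l := hl
        refine ⟨l, hl', l⁻¹ • z, h, ?_⟩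
        rw [smul_smul, mul_inv_cancel₀ hl'.ne', one_smul]
    rw [e]
    refine isOpen_iUnion fun l => ?_
    have h1 : Continuous fun z : E n => (l : ℝ)⁻¹ • z := by fun_prop
    exact hΩ.preimage (continuous_mk.comp h1)
  have hadd : ∀ (x y : E n) (l m : ℝ), (⟨x⟩ : Hyp n) ∈ Ω → (⟨y⟩ : Hyp n) ∈ Ω → 0 < l → 0 < m →
      l • x + m • y ∈ s := by
    intro x y l m hx hy hl hm
    obtain ⟨z, hz⟩ : ∃ z, z = l • x + m • y := ⟨_, rfl⟩
    obtain ⟨T, hT⟩ : ∃ T, T = l * tc x + m * tc y := ⟨_, rfl⟩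
    have hzT : ‖z‖ < T := by
      have h1 : ‖z‖ ≤ l * ‖x‖ + m * ‖y‖ := by
        rw [hz]
        refine (norm_add_le _ _).trans (le_of_eq ?_)
        rw [norm_smul, norm_smul, Real.norm_of_nonneg hl.le, Real.norm_of_nonneg hm.le]
      have h2 := mul_lt_mul_of_pos_left (norm_lt_tc x) hl
      have h3 := mul_lt_mul_of_pos_left (norm_lt_tc y) hm
      rw [hT]
      linarith
    have hT0 : 0 < T := lt_of_le_of_lt (norm_nonneg _) hzT
    have hpos : 0 < T ^ 2 - ‖z‖ ^ 2 := by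
      have := norm_nonneg z
      nlinarith
    obtain ⟨κ, hκ⟩ : ∃ κ, κ = √(T ^ 2 - ‖z‖ ^ 2) := ⟨_, rfl⟩
    have hκ0 : 0 < κ := by
      rw [hκ]
      exact Real.sqrt_pos.2 hpos
    have hκ2 : κ ^ 2 = T ^ 2 - ‖z‖ ^ 2 := by
      rw [hκ, Real.sq_sqrt hpos.le]
    obtain ⟨w, hw⟩ : ∃ w, w = κ⁻¹ • z := ⟨_, rfl⟩
    have hw1 : w = (l / κ) • x + (m / κ) • y := by
      rw [hw, hz, smul_add, smul_smul, smul_smul, div_eq_inv_mul, div_eq_inv_mul]
    have hwn : ‖w‖ = ‖z‖ / κ := by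
      rw [hw, norm_smul, norm_inv, Real.norm_of_nonneg hκ0.le, div_eq_inv_mul]
    have htw : tc w = T / κ := by
      have h1 : tc w ^ 2 = (T / κ) ^ 2 := by
        rw [tc_sq, hwn, div_pow, div_pow]
        field_simp
        linarith
      have h2 : 0 < T / κ := div_pos hT0 hκ0
      have h3 := tc_pos w
      exact (pow_left_inj₀ h3.le h2.le two_ne_zero).1 h1
    have htw2 : tc w = l / κ * tc x + m / κ * tc y := by
      rw [htw, hT]
      ring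
    have h4 := dist_add_dist (div_nonneg hl.le hκ0.le) (div_nonneg hm.le hκ0.le) hw1 htw2
    have h5 := hc _ hx _ hy _ h4
    rw [hmem]
    refine ⟨κ, hκ0, w, h5, ?_⟩
    rw [hw, smul_smul, mul_inv_cancel₀ hκ0.ne', one_smul, hz]
  have hconv : Convex ℝ s := by
    rw [convex_iff_forall_pos]
    intro z1 h1 z2 h2 a b ha hb _
    rw [hmem] at h1 h2
    obtain ⟨l, hl, x, hx, rfl⟩ := h1
    obtain ⟨m, hm, y, hy, rfl⟩ := h2
    rw [smul_smul, smul_smul]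
    exact hadd x y _ _ hx hy (mul_pos ha hl) (mul_pos hb hm)
  have h0 : (0 : E n) ∉ s := by
    rw [hmem]
    rintro ⟨l, hl, x, hx, h⟩
    have hx0 : x = 0 := by
      rcases smul_eq_zero.1 h.symm with h1 | h1
      · exact absurd h1 hl.ne'
      · exact h1
    rw [hx0] at hx
    exact hp hx
  obtain ⟨f, hf⟩ := geometric_hahn_banach_open_point hconv hopen h0
  rw [map_zero] at hf
  obtain ⟨v, hv⟩ : ∃ v : E n, ∀ z, ⟪v, z⟫ = f z := by
    refine ⟨(InnerProductSpace.toDual ℝ (E n)).symm f, fun z => ?_⟩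
    rw [InnerProductSpace.toDual_symm_apply]
  have hΩs : ∀ q ∈ Ω, q.pt ∈ s := by
    intro q hq
    rw [hmem]
    exact ⟨1, one_pos, q.pt, hq, (one_smul _ _).symm⟩
  have hv0 : v ≠ 0 := by
    intro h1
    obtain ⟨q, hq⟩ := hne
    have h2 := hf q.pt (hΩs q hq)
    rw [← hv, h1, inner_zero_left] at h2
    exact lt_irrefl _ h2
  have hvn : 0 < ‖v‖ := norm_pos_iff.2 hv0
  refine ⟨‖v‖⁻¹ • v, ?_, fun q hq => ?_⟩
  · rw [norm_smul, norm_inv, norm_norm, inv_mul_cancel₀ hvn.ne']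
  · rw [real_inner_smul_left, hv]
    exact mul_neg_of_pos_of_neg (inv_pos.2 hvn) (hf _ (hΩs q hq))

theorem exists_sep {Ω : Set (Hyp n)} (hΩ : IsOpen Ω) (hc : GeodConvex Ω) (hne : Ω.Nonempty)
    {p : Hyp n} (hp : p ∉ Ω) :
    ∃ v : E n, ‖v‖ = 1 ∧ ∀ q ∈ Ω, ⟪v, boost p.pt q.pt⟫ < 0 := by
  have h1 : IsOpen (boostIso p.pt '' Ω) := (boostIso p.pt).toHomeomorph.isOpenMap Ω hΩ
  have h2 : org n ∉ boostIso p.pt '' Ω := by
    rintro ⟨q, hq, h⟩
    rw [← boostIso_self p] at h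
    exact hp ((boostIso p.pt).injective h ▸ hq)
  obtain ⟨v, hv, hv2⟩ := sep_org h1 (hc.image _) (hne.image _) h2
  exact ⟨v, hv, fun q hq => hv2 _ (mem_image_of_mem _ hq)⟩

end Pool.Agent.H62.WS
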