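import Pool.Agent.H62.WS.EqualA
import Pool.Agent.H62.WS.Seg
import Pool.Agent.H62.WS.Ray

set_option autoImplicit false

/-!
# [H62 WS EQUAL] A convex set with constant outer radius is a ball

`⊇`: if `q ∈ ball (org n) R`, `q ∉ Ω`: `v` from `exists_sep`; `H = {z | 0 < ⟪v, boost q.pt z.pt⟫}` is open (`continuous_boost`, `continuous_pt`) and disjoint from `Ω`.  Some point of the sphere of
radius `R` is in `H`: the ray `ray q.pt v τ`, `τ ≥ 0`, starts in the ball (`ray_zero`) and leaves it (`dist_ray`, triangle inequality), so it meets the sphere at some `τ > 0` (intermediate value theorem, `continuous_ray`), and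
`⟪v, boost q.pt (ray q.pt v τ)⟫ = sinh τ > 0` (`boost_ray`).  So (`exists_sph`, `continuous_sph`) there are `ε > 0` (`ε < R`) and an open nonempty set `D` of directions with `sph r θ ∈ H` for `θ ∈ D`, `|r - R| < ε`; for `θ ∈ D`
`Eth Ω θ` does not meet `(R-ε, R+ε)`, so `rho Ω θ ≠ R` (`rho = R > 0` would give points of `Eth Ω θ` in `(R-ε, R]`, `exists_lt_of_lt_csSup`).  Contradiction to `h` (`sg_pos_of_isOpen`).
-/

namespace Pool.Agent.H62.WS

open scoped RealInnerProductSpace MeasureTheory ENNReal NNReal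
open MeasureTheory Set Metric

variable {n : ℕ}

theorem eq_ball_of_rho (hn : 2 ≤ n) {Ω : Set (Hyp n)} (hΩ : IsOpen Ω)
    (hb : Bornology.IsBounded Ω) (hc : GeodConvex Ω) (hne : Ω.Nonempty) {R : ℝ} (hR : 0 < R)
    (h : ∀ᵐ θ ∂sg n, rho Ω θ = R) : Ω = ball (org n) R := by
  refine Set.Subset.antisymm (subset_ball_of_rho hn hΩ hb hR h) ?_
  intro q hq
  by_contra hqΩ
  obtain ⟨v, hv, hsep⟩ := exists_sep hΩ hc hne hqΩ
  have hqR : dist (org n) q < R := by
    rw [dist_comm]
    exact hq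
  set H : Set (Hyp n) := {z | 0 < ⟪v, boost q.pt z.pt⟫} with hH
  have hHo : IsOpen H := by
    have hcont : Continuous fun z : Hyp n => ⟪v, boost q.pt z.pt⟫ :=
      continuous_const.inner ((continuous_boost _).comp continuous_pt)
    exact isOpen_lt continuous_const hcont
  have hHΩ : ∀ z ∈ Ω, z ∉ H := by
    intro z hz hzH
    have h1 := hsep z hz
    have h2 : 0 < ⟪v, boost q.pt z.pt⟫ := hzH
    linarith
  -- a point of the sphere of radius `R` in `H`
  have hfcont : Continuous fun τ : ℝ => dist (org n) (⟨ray q.pt v τ⟩ : Hyp n) :=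
    continuous_const.dist (continuous_mk.comp (continuous_ray q.pt v))
  have hf0 : dist (org n) (⟨ray q.pt v 0⟩ : Hyp n) < R := by
    rw [ray_zero]
    exact hqR
  have hf1 : R ≤ dist (org n) (⟨ray q.pt v (2 * R)⟩ : Hyp n) := by
    have h1 : dist q (⟨ray q.pt v (2 * R)⟩ : Hyp n) = 2 * R := dist_ray q.pt hv (by positivity)
    have h2 := dist_triangle q (org n) (⟨ray q.pt v (2 * R)⟩ : Hyp n)
    rw [h1, dist_comm q (org n)] at h2
    linarith
  obtain ⟨τ, hτ, hτR⟩ := intermediate_value_Icc (by positivity : (0 : ℝ) ≤ 2 * R)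
    hfcont.continuousOn (show R ∈ Icc (dist (org n) (⟨ray q.pt v 0⟩ : Hyp n))
      (dist (org n) (⟨ray q.pt v (2 * R)⟩ : Hyp n)) from ⟨hf0.le, hf1⟩)
  have hτR' : dist (org n) (⟨ray q.pt v τ⟩ : Hyp n) = R := hτR
  have hτ0 : 0 < τ := by
    rcases hτ.1.eq_or_lt with h0 | h0
    · rw [← h0] at hτR'
      exact absurd hτR' hf0.ne
    · exact h0
  have hzH : (⟨ray q.pt v τ⟩ : Hyp n) ∈ H := by
    change 0 < ⟪v, boost q.pt (ray q.pt v τ)⟫
    rw [boost_ray, real_inner_smul_right, real_inner_self_eq_norm_sq, hv]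
    have := Real.sinh_pos_iff.2 hτ0
    simpa using this
  clear_value H
  obtain ⟨θ₀, hθ₀⟩ := exists_sph hn (⟨ray q.pt v τ⟩ : Hyp n)
  rw [hτR'] at hθ₀
  rw [hθ₀] at hzH
  have hopen : IsOpen ((fun p : ℝ × sphere (0 : E n) 1 => sph p.1 p.2) ⁻¹' H) :=
    hHo.preimage continuous_sph
  obtain ⟨u, D, hu, hD, hRu, hθD, huD⟩ := isOpen_prod_iff.1 hopen R θ₀ hzH
  obtain ⟨ε, hε, hεu⟩ := Metric.isOpen_iff.1 hu R hRu
  have hDne : ∀ θ ∈ D, rho Ω θ ≠ R := by
    intro θ hθ hrho
    have hne' : (Eth Ω θ).Nonempty := by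
      by_contra hcon
      rw [Set.not_nonempty_iff_eq_empty] at hcon
      rw [rho, hcon, Real.sSup_empty] at hrho
      exact hR.ne hrho
    obtain ⟨r, hr, hrlt⟩ := exists_lt_of_lt_csSup hne' (show R - ε < sSup (Eth Ω θ) by
      have : sSup (Eth Ω θ) = R := hrho
      rw [this]
      linarith)
    have hr2 : r < R := by
      have := (Eth_subset hΩ hb θ hr).2
      rwa [hrho] at this
    have hru : r ∈ u := by
      apply hεu
      rw [Metric.mem_ball, Real.dist_eq, abs_lt]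
      constructor <;> linarith
    have h0 : (r, θ) ∈ u ×ˢ D := Set.mk_mem_prod hru hθ
    have h1 : (r, θ) ∈ (fun p : ℝ × sphere (0 : E n) 1 => sph p.1 p.2) ⁻¹' H := huD h0
    rw [Set.mem_preimage] at h1
    exact hHΩ _ hr.2 h1
  have hpos := sg_pos_of_isOpen hn hD ⟨θ₀, hθD⟩
  have hzero : sg n D = 0 := by
    have h1 : sg n {θ | ¬ rho Ω θ = R} = 0 := h
    exact measure_mono_null (fun θ hθ => hDne θ hθ) h1
  exact hpos.ne' hzero

end Pool.Agent.H62.WS
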