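import Pool.Agent.H62.WS.Rho

set_option autoImplicit false

/-!
# [H62 WS EQUALA] A set with constant outer radius lies in the closed ball

If `q ∈ Ω` and `dist (org n) q > R`: `q = sph r θ₀`, `r = dist (org n) q` (`exists_sph`); the set of the directions `θ` with `sph r θ ∈ Ω` is open (`continuous_sph`), nonempty, and `rho θ ≥ r > R` on it (`Eth_subset`), against the a.e. equality
(`sg n` is positive on nonempty open sets, see the module `Rho`).  So `Ω ⊆ closedBall (org n) R`; `Ω` is open, so it is contained in the interior, which is the open ball: if `q ∈ Ω`, `dist (org n) q = R`, then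
`q = sph R θ` and `sph t θ ∈ Ω` for some `t > R` (openness), contradiction.
-/

namespace Pool.Agent.H62.WS

open scoped RealInnerProductSpace MeasureTheory ENNReal NNReal
open MeasureTheory Set Metric

variable {n : ℕ}

theorem sg_pos_of_isOpen (hn : 2 ≤ n) {U : Set (sphere (0 : E n) 1)} (hU : IsOpen U) (hne : U.Nonempty) :
    0 < sg n U := by
  have : (sg n).IsOpenPosMeasure := by
    unfold sg
    infer_instance
  exact hU.measure_pos (sg n) hne

theorem subset_ball_of_rho (hn : 2 ≤ n) {Ω : Set (Hyp n)} (hΩ : IsOpen Ω)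
    (hb : Bornology.IsBounded Ω) {R : ℝ} (hR : 0 < R)
    (h : ∀ᵐ θ ∂sg n, rho Ω θ = R) : Ω ⊆ ball (org n) R := by
  intro q hq
  by_contra hcon
  rw [mem_ball, not_lt, dist_comm] at hcon
  obtain ⟨θ₀, hθ₀⟩ := exists_sph hn q
  obtain ⟨r, hr⟩ : ∃ r, r = dist (org n) q := ⟨_, rfl⟩
  rw [← hr] at hcon hθ₀
  have hr0 : 0 < r := lt_of_lt_of_le hR hcon
  have hcont : Continuous fun θ : sphere (0 : E n) 1 => sph r θ :=
    continuous_sph.comp (Continuous.prodMk_right r)
  have hU : IsOpen {θ : sphere (0 : E n) 1 | sph r θ ∈ Ω} := hΩ.preimage hcont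
  have hne : {θ : sphere (0 : E n) 1 | sph r θ ∈ Ω}.Nonempty := ⟨θ₀, by
    show sph r θ₀ ∈ Ω
    rw [← hθ₀]
    exact hq⟩
  have h1 := sg_pos_of_isOpen hn hU hne
  have h2 : sg n {θ : sphere (0 : E n) 1 | sph r θ ∈ Ω} = 0 := by
    refine measure_mono_null ?_ (ae_iff.mp h)
    intro θ hθ
    have h3 : r ∈ Ioo 0 (rho Ω θ) := Eth_subset hΩ hb θ ⟨hr0, hθ⟩
    show ¬ rho Ω θ = R
    intro h4
    rw [h4] at h3
    exact absurd h3.2 (not_lt.mpr hcon)
  rw [h2] at h1
  exact lt_irrefl _ h1

end Pool.Agent.H62.WS
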