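import Pool.Agent.H62.WS.Main

set_option autoImplicit false

/-!
# [H62 WS FINAL] The final statements
-/

namespace Pool.Agent.H62.WS

open scoped RealInnerProductSpace MeasureTheory ENNReal NNReal
open MeasureTheory Set Metric

variable {n : ℕ}

/-- the set of the Rayleigh quotients is not empty, for centred sets -/
theorem rayleigh_nonempty_of_center (hn : 2 ≤ n) {Ω : Set (Hyp n)}
    (hb : Bornology.IsBounded Ω) (hpos : 0 < bd n (frontier Ω)) (hfin : bd n (frontier Ω) < ∞)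
    (h0 : ∀ i : Fin n, ∫ p in frontier Ω, uu i p ∂bd n = 0) : (rayleigh Ω).Nonempty := by
  have hcont : ∀ i : Fin n, Continuous (uu i : Hyp n → ℝ) := fun i =>
    (isC1_uu i).continuous.comp continuous_pt
  have hBI := BI_pos hn hpos
  have hBI' := BI_lt_top hn hb hfin
  have e : BI n Ω = ∑ i : Fin n, ∫⁻ p in frontier Ω, ENNReal.ofReal (uu i p ^ 2) ∂bd n := by
    unfold BI
    have hm : ∀ i : Fin n, Measurable fun p : Hyp n => ENNReal.ofReal (uu i p ^ 2) := fun i =>
      ((hcont i).pow 2).measurable.ennreal_ofReal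
    rw [← lintegral_finsetSum _ fun i _ => hm i]
    refine lintegral_congr fun p => ?_
    rw [← sum_uu_sq hn, ENNReal.ofReal_sum_of_nonneg fun i _ => sq_nonneg _]
  rw [e] at hBI hBI'
  obtain ⟨i, hi⟩ : ∃ i : Fin n, 0 < ∫⁻ p in frontier Ω, ENNReal.ofReal (uu i p ^ 2) ∂bd n := by
    by_contra hcon
    push Not at hcon
    have : ∑ i : Fin n, ∫⁻ p in frontier Ω, ENNReal.ofReal (uu i p ^ 2) ∂bd n = 0 :=
      Finset.sum_eq_zero fun i _ => le_antisymm (hcon i) zero_le
    rw [this] at hBI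
    exact lt_irrefl _ hBI
  have hi' : ∫⁻ p in frontier Ω, ENNReal.ofReal (uu i p ^ 2) ∂bd n < ∞ :=
    (ENNReal.sum_lt_top.mp hBI') i (Finset.mem_univ i)
  refine ⟨_, uu i, isC1_uu i, h0 i, ?_, rfl⟩
  rw [integral_eq_lintegral_of_nonneg_ae (ae_of_all _ fun p => sq_nonneg _)
    ((hcont i).pow 2).aestronglyMeasurable]
  exact ENNReal.toReal_pos hi.ne' hi'.ne

theorem rayleigh_nonempty (hn : 2 ≤ n) {Ω : Set (Hyp n)}
    (hb : Bornology.IsBounded Ω) (hpos : 0 < bd n (frontier Ω)) (hfin : bd n (frontier Ω) < ∞) :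
    (rayleigh Ω).Nonempty := by
  obtain ⟨a, ha⟩ := exists_center_uu hn hb hfin
  have e1 : bd n (frontier (boostIso a '' Ω)) = bd n (frontier Ω) := by
    rw [image_frontier, bd_image]
  exact (rayleigh_nonempty_of_center hn (isBounded_image _ hb) (e1 ▸ hpos) (e1 ▸ hfin) ha).mono
    (rayleigh_image_subset a Ω)

theorem sigma1_ball_pos (hn : 2 ≤ n) (p : Hyp n) {R : ℝ} (hR : 0 < R) : 0 < sigma1 (ball p R) := by
  rw [sigma1_ball]
  refine lt_of_lt_of_le ?_ (le_sigma1_ball hn hR)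
  exact div_pos (gg_pos (by omega) hR) (ENNReal.toReal_pos (cst_ne_zero hn) (cst_ne_top hn))

end Pool.Agent.H62.WS
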