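import Mathlib

set_option autoImplicit false

/-!
# [H62 WS GAUSS0] The Gaussian kernel

`φ(x) = gaussianPDFReal 0 1 x = (√(2π))⁻¹ e^{-x²/2}`, `φ' = -x φ`, so `∫_u^∞ t φ(t) dt = φ(u)` and `∫_{-∞}^u (-s) φ(s) ds = φ(u)` (`integral_Ioi_of_hasDerivAt_of_tendsto`, `integral_Iic_of_hasDerivAt_of_tendsto`).
`∬_{s<u<t} (t-s) φ(s) φ(t) = Φ(u) φ(u) + φ(u) (1 - Φ(u)) = φ(u)`, `Φ(u) = γ (Iio u)`, `γ (Iio u) + γ (Ioi u) = 1` (no atoms).
(For fixed `s < u`: `∫_{t>u} (t - s) dγ = φ(u) - s (1 - Φ(u))`, a nonnegative real; integrate over `s < u`.)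
-/

namespace Pool.Agent.H62.WS

open scoped ENNReal
open MeasureTheory Set ProbabilityTheory

private noncomputable abbrev ph (x : ℝ) : ℝ := gaussianPDFReal 0 1 x

private theorem ph_eq (x : ℝ) :
    ph x = (Real.sqrt (2 * Real.pi))⁻¹ * Real.exp (-(1 / 2) * x ^ 2) := by
  unfold ph gaussianPDFReal
  norm_num
  left
  ring

private theorem ph_deriv (x : ℝ) : HasDerivAt ph (-(x * ph x)) x := by
  have h0 : ph = fun x => (Real.sqrt (2 * Real.pi))⁻¹ * Real.exp (-(1 / 2) * x ^ 2) :=
    funext ph_eq
  have h1 : HasDerivAt (fun x : ℝ => -(1 / 2) * x ^ 2) (-(1 / 2) * (2 * x)) x := by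
    have := (hasDerivAt_pow 2 x).const_mul (-(1 / 2) : ℝ)
    simpa using this
  have h2 := (h1.exp).const_mul (Real.sqrt (2 * Real.pi))⁻¹
  rw [h0]
  refine h2.congr_deriv ?_
  ring

private theorem ph_top : Filter.Tendsto ph Filter.atTop (nhds 0) := by
  have h0 : ph = fun x => (Real.sqrt (2 * Real.pi))⁻¹ * Real.exp (-(1 / 2) * x ^ 2) :=
    funext ph_eq
  rw [h0]
  have h1 : Filter.Tendsto (fun x : ℝ => -(1 / 2) * x ^ 2) Filter.atTop Filter.atBot :=
    (Filter.tendsto_pow_atTop two_ne_zero).const_mul_atTop_of_neg (by norm_num)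
  have h2 := (Real.tendsto_exp_atBot.comp h1).const_mul (Real.sqrt (2 * Real.pi))⁻¹
  simpa using h2

private theorem ph_bot : Filter.Tendsto ph Filter.atBot (nhds 0) := by
  have h0 : ph = ph ∘ fun x => -x := by
    funext x
    simp only [Function.comp_apply, ph_eq, neg_sq]
  rw [h0]
  exact ph_top.comp Filter.tendsto_neg_atBot_atTop

private theorem xph_int : Integrable (fun x => x * ph x) := by
  have h1 := (integrable_mul_exp_neg_mul_sq (b := 1 / 2) (by norm_num)).const_mul
    (Real.sqrt (2 * Real.pi))⁻¹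
  refine h1.congr (Filter.Eventually.of_forall fun x => ?_)
  simp only [ph_eq]
  ring

private theorem ph_int : Integrable ph := integrable_gaussianPDFReal 0 1

private theorem int_Ioi (u : ℝ) : ∫ t in Ioi u, t * ph t = ph u := by
  have h := integral_Ioi_of_hasDerivAt_of_tendsto' (f := fun x => - ph x) (m := -0)
    (f' := fun x => x * ph x) (a := u)
    (fun x _ => (ph_deriv x).fun_neg.congr_deriv (by ring)) xph_int.integrableOn ph_top.neg
  rw [h]
  ring

private theorem int_Iio (u : ℝ) : ∫ t in Iio u, t * ph t = - ph u := by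
  have h := integral_Iic_of_hasDerivAt_of_tendsto' (f := fun x => - ph x) (m := -0)
    (f' := fun x => x * ph x) (a := u)
    (fun x _ => (ph_deriv x).fun_neg.congr_deriv (by ring)) xph_int.integrableOn ph_bot.neg
  rw [← integral_Iic_eq_integral_Iio, h]
  ring

private theorem lint_eq (S : Set ℝ) (hS : MeasurableSet S) (f : ℝ → ℝ) (hf : Measurable f)
    (h0 : ∀ t ∈ S, 0 ≤ f t) (hi : Integrable (fun t => f t * ph t)) :
    ∫⁻ t in S, ENNReal.ofReal (f t) ∂gaussianReal 0 1 =
      ENNReal.ofReal (∫ t in S, f t * ph t) := by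
  rw [gaussianReal_of_var_ne_zero 0 one_ne_zero, restrict_withDensity hS,
    lintegral_withDensity_eq_lintegral_mul _ (measurable_gaussianPDF 0 1) hf.ennreal_ofReal,
    ofReal_integral_eq_lintegral_ofReal hi.integrableOn]
  · refine setLIntegral_congr_fun hS fun t ht => ?_
    simp only [Pi.mul_apply, gaussianPDF]
    rw [← ENNReal.ofReal_mul (gaussianPDFReal_nonneg 0 1 t), mul_comm]
  · filter_upwards [ae_restrict_mem hS] with t ht
    exact mul_nonneg (h0 t ht) (gaussianPDFReal_nonneg 0 1 t)

theorem gauss_kernel (u : ℝ) :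
    ∫⁻ s in Iio u, (∫⁻ t in Ioi u, ENNReal.ofReal (t - s) ∂gaussianReal 0 1) ∂gaussianReal 0 1 =
      gaussianPDF 0 1 u := by
  obtain ⟨a, ha⟩ : ∃ a, a = ∫ t in Ioi u, ph t := ⟨_, rfl⟩
  obtain ⟨b, hb⟩ : ∃ b, b = ∫ t in Iio u, ph t := ⟨_, rfl⟩
  have hab : b + a = 1 := by
    rw [hb, ha, ← integral_Iic_eq_integral_Iio]
    rw [intervalIntegral.integral_Iic_add_Ioi ph_int.integrableOn ph_int.integrableOn]
    exact integral_gaussianPDFReal_eq_one 0 one_ne_zero
  have ha0 : 0 ≤ a := by
    rw [ha]
    exact integral_nonneg fun t => gaussianPDFReal_nonneg 0 1 t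
  have hb0 : 0 ≤ b := by
    rw [hb]
    exact integral_nonneg fun t => gaussianPDFReal_nonneg 0 1 t
  have hi : ∀ c d : ℝ, Integrable (fun t => (c * t + d) * ph t) := by
    intro c d
    refine ((xph_int.const_mul c).add (ph_int.const_mul d)).congr
      (Filter.Eventually.of_forall fun t => ?_)
    simp only [Pi.add_apply]
    ring
  have hI1 : ∀ s ∈ Iio u, ∫⁻ t in Ioi u, ENNReal.ofReal (t - s) ∂gaussianReal 0 1 =
      ENNReal.ofReal (ph u - s * a) := by
    intro s hs
    have h1 := lint_eq (Ioi u) measurableSet_Ioi (fun t => t - s) (by fun_prop)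
      (fun t ht => by
        have h2 : s < u := hs
        have h3 : u < t := ht
        linarith)
      ((hi 1 (-s)).congr (Filter.Eventually.of_forall fun t => by ring))
    rw [h1]
    congr 1
    have h2 : ∫ t in Ioi u, (t - s) * ph t = ∫ t in Ioi u, (t * ph t - s * ph t) := by
      refine integral_congr_ae (Filter.Eventually.of_forall fun t => ?_)
      ring
    rw [h2, integral_sub xph_int.integrableOn (ph_int.integrableOn.const_mul s), int_Ioi,
      integral_const_mul, ha]
  have hpos : ∀ s ∈ Iio u, 0 ≤ ph u - s * a := by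
    intro s hs
    have h1 : 0 ≤ ph u - u * a := by
      have h2 : ∫ t in Ioi u, (t - u) * ph t = ph u - u * a := by
        have h3 : ∫ t in Ioi u, (t - u) * ph t = ∫ t in Ioi u, (t * ph t - u * ph t) := by
          refine integral_congr_ae (Filter.Eventually.of_forall fun t => ?_)
          ring
        rw [h3, integral_sub xph_int.integrableOn (ph_int.integrableOn.const_mul u), int_Ioi,
          integral_const_mul, ha]
      rw [← h2]
      refine setIntegral_nonneg measurableSet_Ioi fun t ht => ?_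
      have h3 : u < t := ht
      exact mul_nonneg (by linarith) (gaussianPDFReal_nonneg 0 1 t)
    have h2 : s < u := hs
    nlinarith
  rw [setLIntegral_congr_fun measurableSet_Iio hI1]
  have h1 := lint_eq (Iio u) measurableSet_Iio (fun s => ph u - s * a) (by fun_prop) hpos
    ((hi (-a) (ph u)).congr (Filter.Eventually.of_forall fun t => by ring))
  rw [h1]
  have h2 : ∫ t in Iio u, (ph u - t * a) * ph t =
      ∫ t in Iio u, (ph u * ph t - a * (t * ph t)) := by
    refine integral_congr_ae (Filter.Eventually.of_forall fun t => ?_)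
    ring
  rw [h2, integral_sub (ph_int.integrableOn.const_mul _) (xph_int.integrableOn.const_mul a),
    integral_const_mul, integral_const_mul, int_Iio, ← hb]
  unfold gaussianPDF
  congr 1
  linear_combination (ph u) * hab

end Pool.Agent.H62.WS
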