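import Pool.Agent.H62.WS.Gauss0

set_option autoImplicit false

/-!
# [H62 WS GAUSS1] The Gaussian Poincare inequality in dimension one

For `s < t`: `(h t - h s)² ≤ (t - s) ∫_s^t h'²` (Cauchy-Schwarz).  By symmetry (the diagonal gives `0`) and Tonelli
`∬ (h s - h t)² = 2 ∬_{s<t} (h t - h s)² ≤ 2 ∬_{s<t} (t-s) ∫_{u ∈ (s,t)} h'(u)² du = 2 ∫ h'(u)² (∬_{s<u<t} (t - s) dγ dγ) du` and `gauss_kernel`; `gaussianReal 0 1 = volume.withDensity (gaussianPDF 0 1)`.
-/

namespace Pool.Agent.H62.WS

open scoped ENNReal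
open MeasureTheory Set ProbabilityTheory

/-- Cauchy-Schwarz on an interval -/
private theorem gp_cs {h : ℝ → ℝ} (hh : ContDiff ℝ 1 h) {s t : ℝ} (hst : s < t) :
    ENNReal.ofReal ((h s - h t) ^ 2) ≤
      ENNReal.ofReal (t - s) * ∫⁻ u in Ioo s t, ENNReal.ofReal (deriv h u ^ 2) := by
  have hd : Continuous (deriv h) := hh.continuous_deriv le_rfl
  have hdiff : Differentiable ℝ h := hh.differentiable (by norm_num)
  have h1 : ∫ u in s..t, deriv h u = h t - h s :=
    intervalIntegral.integral_eq_sub_of_hasDerivAt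
      (fun u _ => (hdiff u).hasDerivAt) (hd.intervalIntegrable _ _)
  have h2 : ∫⁻ u in Ioo s t, ENNReal.ofReal (deriv h u ^ 2) =
      ENNReal.ofReal (∫ u in s..t, deriv h u ^ 2) := by
    rw [intervalIntegral.integral_of_le hst.le, ← ofReal_integral_eq_lintegral_ofReal]
    · rw [integral_Ioc_eq_integral_Ioo]
    · have h3 : IntervalIntegrable (fun u => deriv h u ^ 2) volume s t :=
        (hd.pow 2).intervalIntegrable _ _
      rw [intervalIntegrable_iff_integrableOn_Ioo_of_le hst.le] at h3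
      exact h3
    · exact Filter.Eventually.of_forall fun u => sq_nonneg _
  rw [h2, ← ENNReal.ofReal_mul (by linarith)]
  refine ENNReal.ofReal_le_ofReal ?_
  -- `0 ≤ ∫ (h' - c)^2` with `c` the mean value
  obtain ⟨c, hc⟩ : ∃ c, c = (h t - h s) / (t - s) := ⟨_, rfl⟩
  have h3 : 0 ≤ ∫ u in s..t, (deriv h u - c) ^ 2 :=
    intervalIntegral.integral_nonneg hst.le fun u _ => sq_nonneg _
  have h4 : ∫ u in s..t, (deriv h u - c) ^ 2 =
      (∫ u in s..t, deriv h u ^ 2) - 2 * c * (h t - h s) + c ^ 2 * (t - s) := by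
    have e : ∀ u, (deriv h u - c) ^ 2 = deriv h u ^ 2 - 2 * c * deriv h u + c ^ 2 := by
      intro u
      ring
    simp_rw [e]
    rw [intervalIntegral.integral_add, intervalIntegral.integral_sub,
      intervalIntegral.integral_const_mul, h1, intervalIntegral.integral_const, smul_eq_mul]
    · ring
    · exact (hd.pow 2).intervalIntegrable _ _
    · exact (continuous_const.mul hd).intervalIntegrable _ _
    · exact ((hd.pow 2).sub (continuous_const.mul hd)).intervalIntegrable _ _
    · exact continuous_const.intervalIntegrable _ _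
  rw [h4] at h3
  have hts : 0 < t - s := by linarith
  have h5 : c * (t - s) = h t - h s := by
    rw [hc]
    field_simp
  nlinarith [mul_nonneg hts.le h3]

theorem gauss_poincare_one {h : ℝ → ℝ} (hh : ContDiff ℝ 1 h) :
    ∫⁻ s, (∫⁻ t, ENNReal.ofReal ((h s - h t) ^ 2) ∂gaussianReal 0 1) ∂gaussianReal 0 1 ≤
      2 * ∫⁻ u, ENNReal.ofReal (deriv h u ^ 2) ∂gaussianReal 0 1 := by
  have hd : Continuous (deriv h) := hh.continuous_deriv le_rfl
  have hcont : Continuous h := hh.continuous
  obtain ⟨γ, hγ⟩ : ∃ γ : Measure ℝ, γ = gaussianReal 0 1 := ⟨_, rfl⟩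
  obtain ⟨G, hG⟩ : ∃ G : ℝ → ℝ≥0∞, G = fun u => ENNReal.ofReal (deriv h u ^ 2) := ⟨_, rfl⟩
  obtain ⟨F, hF⟩ : ∃ F : ℝ → ℝ → ℝ≥0∞, F = fun s t => ENNReal.ofReal ((h s - h t) ^ 2) := ⟨_, rfl⟩
  have hprob : IsProbabilityMeasure γ := by rw [hγ]; infer_instance
  have hGm : Measurable G := by
    rw [hG]
    exact ENNReal.measurable_ofReal.comp (hd.pow 2).measurable
  have hFm : Measurable (Function.uncurry F) := by
    rw [hF]
    refine ENNReal.measurable_ofReal.comp ?_
    exact ((hcont.comp continuous_fst).sub (hcont.comp continuous_snd)).pow 2 |>.measurable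
  -- the upper half
  obtain ⟨H, hH⟩ : ∃ H : ℝ → ℝ → ℝ≥0∞, H = fun s t => if s < t then F s t else 0 := ⟨_, rfl⟩
  have hHm : Measurable (Function.uncurry H) := by
    rw [hH]
    refine Measurable.ite ?_ hFm measurable_const
    exact measurableSet_lt measurable_fst measurable_snd
  have hsym : ∀ s t, F s t = H s t + H t s := by
    intro s t
    rw [hH, hF]
    dsimp only
    rcases lt_trichotomy s t with h1 | h1 | h1
    · rw [if_pos h1, if_neg (not_lt.2 h1.le), add_zero]
    · rw [h1, sub_self, if_neg (lt_irrefl _)]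
      simp
    · rw [if_neg (not_lt.2 h1.le), if_pos h1, zero_add]
      congr 1
      ring
  have hHm1 : ∀ s, Measurable fun t => H s t := fun s => hHm.comp measurable_prodMk_left
  have hHm2 : ∀ t, Measurable fun s => H s t := fun t => hHm.comp measurable_prodMk_right
  have hswap : Measurable (Function.uncurry fun s t => H t s) := hHm.comp measurable_swap
  have e1 : ∫⁻ s, (∫⁻ t, F s t ∂γ) ∂γ = 2 * ∫⁻ s, (∫⁻ t, H s t ∂γ) ∂γ := by
    have e2 : ∀ s, ∫⁻ t, F s t ∂γ = (∫⁻ t, H s t ∂γ) + ∫⁻ t, H t s ∂γ := by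
      intro s
      rw [← lintegral_add_left (hHm1 s)]
      exact lintegral_congr fun t => hsym s t
    simp_rw [e2]
    rw [lintegral_add_left (Measurable.lintegral_prod_right hHm),
      lintegral_lintegral_swap hswap.aemeasurable, two_mul]
  -- the kernel
  obtain ⟨K, hK⟩ : ∃ K : ℝ → ℝ → ℝ → ℝ≥0∞, K = fun s t u =>
    if s < u ∧ u < t then ENNReal.ofReal (t - s) * G u else 0 := ⟨_, rfl⟩
  have hKm : Measurable fun p : ℝ × ℝ × ℝ => K p.1 p.2.1 p.2.2 := by
    rw [hK]
    refine Measurable.ite ?_ ?_ measurable_const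
    · exact (measurableSet_lt measurable_fst (measurable_snd.comp measurable_snd)).inter
        (measurableSet_lt (measurable_snd.comp measurable_snd)
          (measurable_fst.comp measurable_snd))
    · refine Measurable.mul ?_ (hGm.comp (measurable_snd.comp measurable_snd))
      exact ENNReal.measurable_ofReal.comp
        ((measurable_fst.comp measurable_snd).sub measurable_fst)
  have hKle : ∀ s t, H s t ≤ ∫⁻ u, K s t u := by
    intro s t
    rw [hH, hK]
    dsimp only
    split_ifs with h1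
    · rw [hF]
      refine (gp_cs hh h1).trans (le_of_eq ?_)
      rw [← lintegral_const_mul _ (by rw [hG] at hGm; exact hGm),
        ← lintegral_indicator measurableSet_Ioo]
      refine lintegral_congr fun u => ?_
      by_cases h2 : s < u ∧ u < t
      · rw [if_pos h2, indicator_of_mem (show u ∈ Ioo s t from h2), hG]
      · rw [if_neg h2, indicator_of_notMem (show u ∉ Ioo s t from h2)]
    · exact bot_le
  have hK1 : ∀ s, Measurable (Function.uncurry fun t u => K s t u) := by
    intro s
    exact hKm.comp measurable_prodMk_left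
  have hK2 : Measurable (Function.uncurry fun s u => ∫⁻ t, K s t u ∂γ) := by
    have h1 : Measurable fun p : (ℝ × ℝ) × ℝ => K p.1.1 p.2 p.1.2 := by
      have h2 : Measurable fun p : (ℝ × ℝ) × ℝ => ((p.1.1, p.2, p.1.2) : ℝ × ℝ × ℝ) :=
        (measurable_fst.comp measurable_fst).prodMk
          (measurable_snd.prodMk (measurable_snd.comp measurable_fst))
      exact hKm.comp h2
    exact h1.lintegral_prod_right'
  have e3 : ∫⁻ s, (∫⁻ t, (∫⁻ u, K s t u) ∂γ) ∂γ =
      ∫⁻ u, (∫⁻ s, (∫⁻ t, K s t u ∂γ) ∂γ) := by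
    have e4 : ∀ s, ∫⁻ t, (∫⁻ u, K s t u) ∂γ = ∫⁻ u, (∫⁻ t, K s t u ∂γ) := fun s =>
      lintegral_lintegral_swap (hK1 s).aemeasurable
    simp_rw [e4]
    exact lintegral_lintegral_swap hK2.aemeasurable
  have e5 : ∀ u, ∫⁻ s, (∫⁻ t, K s t u ∂γ) ∂γ = gaussianPDF 0 1 u * G u := by
    intro u
    rw [← gauss_kernel u, ← hγ]
    have e6 : ∀ s, ∫⁻ t, K s t u ∂γ =
        (Iio u).indicator (fun s => (∫⁻ t in Ioi u, ENNReal.ofReal (t - s) ∂γ) * G u) s := by
      intro s
      by_cases h1 : s < u
      · rw [indicator_of_mem (show s ∈ Iio u from h1),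
          ← lintegral_mul_const (G u) (show Measurable fun t : ℝ => ENNReal.ofReal (t - s) from
            ENNReal.measurable_ofReal.comp (measurable_id.sub measurable_const)),
          ← lintegral_indicator measurableSet_Ioi]
        refine lintegral_congr fun t => ?_
        rw [hK]
        by_cases h2 : u < t
        · rw [indicator_of_mem (show t ∈ Ioi u from h2)]
          dsimp only
          rw [if_pos ⟨h1, h2⟩]
        · rw [indicator_of_notMem (show t ∉ Ioi u from h2)]
          dsimp only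
          rw [if_neg (fun h3 => h2 h3.2)]
      · rw [indicator_of_notMem (show s ∉ Iio u from h1)]
        rw [lintegral_eq_zero_of_ae_eq_zero]
        refine Filter.Eventually.of_forall fun t => ?_
        rw [hK]
        dsimp only
        rw [if_neg (fun h3 => h1 h3.1)]
        rfl
    simp_rw [e6]
    rw [lintegral_indicator measurableSet_Iio, lintegral_mul_const]
    have h7 : Measurable (Function.uncurry fun s t => (Ioi u).indicator
        (fun t => ENNReal.ofReal (t - s)) t) := by
      have h8 : (Function.uncurry fun s t => (Ioi u).indicator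
          (fun t => ENNReal.ofReal (t - s)) t) =
          (Prod.snd ⁻¹' (Ioi u)).indicator (fun p : ℝ × ℝ => ENNReal.ofReal (p.2 - p.1)) := by
        funext p
        rfl
      rw [h8]
      exact (ENNReal.measurable_ofReal.comp (measurable_snd.sub measurable_fst)).indicator
        (measurable_snd measurableSet_Ioi)
    have h9 := h7.lintegral_prod_right' (ν := γ)
    have h10 : (fun s => ∫⁻ t in Ioi u, ENNReal.ofReal (t - s) ∂γ) =
        fun s => ∫⁻ t, (Ioi u).indicator (fun t => ENNReal.ofReal (t - s)) t ∂γ := by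
      funext s
      rw [lintegral_indicator measurableSet_Ioi]
    rw [h10]
    exact h9
  have e7 : ∫⁻ u, G u ∂γ = ∫⁻ u, gaussianPDF 0 1 u * G u := by
    rw [hγ, gaussianReal_of_var_ne_zero 0 one_ne_zero,
      lintegral_withDensity_eq_lintegral_mul _ (measurable_gaussianPDF 0 1) hGm]
    rfl
  have main : ∫⁻ s, (∫⁻ t, F s t ∂γ) ∂γ ≤ 2 * ∫⁻ u, G u ∂γ := by
    rw [e1]
    refine mul_le_mul_right ?_ 2
    calc ∫⁻ s, (∫⁻ t, H s t ∂γ) ∂γ ≤ ∫⁻ s, (∫⁻ t, (∫⁻ u, K s t u) ∂γ) ∂γ :=
          lintegral_mono fun s => lintegral_mono fun t => hKle s t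
      _ = ∫⁻ u, (∫⁻ s, (∫⁻ t, K s t u ∂γ) ∂γ) := e3
      _ = ∫⁻ u, gaussianPDF 0 1 u * G u := lintegral_congr e5
      _ = ∫⁻ u, G u ∂γ := e7.symm
  rw [hF, hG, hγ] at main
  exact main

end Pool.Agent.H62.WS
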