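import Pool.Agent.H62.WS.Iso

set_option autoImplicit false

/-!
# [H62 WS GRADA] The derivative of a boost

`boost a x = x - (tc x - ⟪x,a⟫/(1+tc a)) • a`, `tc x = √(1+‖x‖²)`, `D(tc)(x) v = ⟪x,v⟫/tc x`, so
`D(boost a)(x) v = v - (⟪x,v⟫/tc x - ⟪v,a⟫/(1+tc a)) • a`.  `IsC1.comp_boost`: `x ↦ (u ∘ boostIso a) ⟨x⟩` is `(fun y => u ⟨y⟩) ∘ boost a`.
-/

namespace Pool.Agent.H62.WS

open scoped RealInnerProductSpace MeasureTheory ENNReal NNReal
open MeasureTheory Set Metric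

variable {n : ℕ}

theorem hasFDerivAt_tc (x : E n) : HasFDerivAt (tc : E n → ℝ) ((tc x)⁻¹ • innerSL ℝ x) x := by
  have h1 : HasFDerivAt (fun x : E n => 1 + ‖x‖ ^ 2) (2 • innerSL ℝ x) x :=
    ((hasStrictFDerivAt_norm_sq x).hasFDerivAt).const_add 1
  have h2 : (1 + ‖x‖ ^ 2 : ℝ) ≠ 0 := by positivity
  have h3 := h1.sqrt h2
  have h4 : (1 / (2 * √(1 + ‖x‖ ^ 2))) • (2 • innerSL ℝ x) = (tc x)⁻¹ • innerSL ℝ x := by
    have htc : √(1 + ‖x‖ ^ 2) = tc x := rfl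
    rw [htc]
    have hpos := (tc_pos x).ne'
    ext v
    simp only [smul_apply, nsmul_eq_mul, smul_eq_mul]
    push_cast
    field_simp
  rw [h4] at h3
  exact h3

theorem hasFDerivAt_boost (a x : E n) : HasFDerivAt (boost a)
    (ContinuousLinearMap.id ℝ (E n) -
      (innerSL ℝ ((tc x)⁻¹ • x - (1 + tc a)⁻¹ • a)).smulRight a) x := by
  have h1 : HasFDerivAt (fun x : E n => ⟪x, a⟫ / (1 + tc a)) ((1 + tc a)⁻¹ • innerSL ℝ a) x := by
    have h0 : HasFDerivAt (⇑((1 + tc a)⁻¹ • innerSL ℝ a : E n →L[ℝ] ℝ))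
        ((1 + tc a)⁻¹ • innerSL ℝ a) x := ContinuousLinearMap.hasFDerivAt _
    have e0 : (fun x : E n => ⟪x, a⟫ / (1 + tc a)) = ⇑((1 + tc a)⁻¹ • innerSL ℝ a : E n →L[ℝ] ℝ) := by
      funext x
      rw [smul_apply, innerSL_apply_apply, real_inner_comm, smul_eq_mul]
      ring
    rw [e0]
    exact h0
  have h2 : HasFDerivAt (fun x : E n => tc x - ⟪x, a⟫ / (1 + tc a))
      (innerSL ℝ ((tc x)⁻¹ • x - (1 + tc a)⁻¹ • a)) x := by
    have h3 := (hasFDerivAt_tc x).sub h1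
    have e1 : (tc x)⁻¹ • innerSL ℝ x - (1 + tc a)⁻¹ • innerSL ℝ a
        = innerSL ℝ ((tc x)⁻¹ • x - (1 + tc a)⁻¹ • a) := by
      ext v
      simp only [sub_apply, smul_apply, innerSL_apply_apply,
        inner_sub_left, real_inner_smul_left, smul_eq_mul]
    rw [e1] at h3
    exact h3
  exact (hasFDerivAt_id x).sub (h2.smul_const a)

theorem contDiff_boost (a : E n) : ContDiff ℝ 1 (boost a) := by
  have h1 : ContDiff ℝ 1 (fun x : E n => tc x) := by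
    have h0 : ContDiff ℝ 1 (fun x : E n => 1 + ‖x‖ ^ 2) := contDiff_const.add (contDiff_norm_sq ℝ)
    exact h0.sqrt (fun x => by positivity)
  have h2 : ContDiff ℝ 1 (fun x : E n => ⟪x, a⟫ / (1 + tc a)) :=
    (contDiff_id.inner ℝ contDiff_const).div_const _
  exact contDiff_id.sub ((h1.sub h2).smul contDiff_const)

theorem IsC1.comp_boost {u : Hyp n → ℝ} (hu : IsC1 u) (a : E n) : IsC1 (u ∘ boostIso a) :=
  ContDiff.comp (g := fun x : E n => u ⟨x⟩) (f := boost a) hu (contDiff_boost a)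

end Pool.Agent.H62.WS
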