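import Pool.Agent.H62.WS.GradA

set_option autoImplicit false

/-!
# [H62 WS GRADINV] The hyperbolic gradient is invariant under boosts

`D(boost a)(x) v = v - ⟪w,v⟫ • a`, `w = x/tc x - a/(1+tc a)` (`hasFDerivAt_boost`).  Let `η` be the gradient vector of `y ↦ u ⟨y⟩` at `boost a x`
(`InnerProductSpace.toDual`): the derivative of `u ∘ boost a` at `x` is `v ↦ ⟪η - ⟪η,a⟫ w, v⟫` (chain rule `HasFDerivAt.comp`), its norm is
`‖η - ⟪η,a⟫ w‖`; the claim is `‖η - ⟪η,a⟫ w‖² + ⟪η - ⟪η,a⟫ w, x⟫² = ‖η‖² + ⟪η, boost a x⟫²`, an identity in `⟪η,x⟫, ⟪η,a⟫, ⟪x,a⟫, tc x, tc a`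
(`‖x‖² = tc x² - 1`, `‖a‖² = (tc a - 1)(tc a + 1)`; field_simp, ring).
-/

namespace Pool.Agent.H62.WS

open scoped RealInnerProductSpace MeasureTheory ENNReal NNReal
open MeasureTheory Set Metric

variable {n : ℕ}

private theorem gradInv_identity (η a x : E n) :
    ‖η - ⟪η, a⟫ • ((tc x)⁻¹ • x - (1 + tc a)⁻¹ • a)‖ ^ 2
      + ⟪η - ⟪η, a⟫ • ((tc x)⁻¹ • x - (1 + tc a)⁻¹ • a), x⟫ ^ 2
      = ‖η‖ ^ 2 + ⟪η, boost a x⟫ ^ 2 := by
  have hx := (tc_pos x).ne'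
  have ha : (1 + tc a) ≠ 0 := by
    have := tc_pos a
    positivity
  have ha2 := tc_sq a
  have hx2 := tc_sq x
  set w : E n := (tc x)⁻¹ • x - (1 + tc a)⁻¹ • a with hw
  have e1 : ‖η - ⟪η, a⟫ • w‖ ^ 2 = ‖η‖ ^ 2 - 2 * ⟪η, a⟫ * ⟪η, w⟫ + ⟪η, a⟫ ^ 2 * ⟪w, w⟫ := by
    rw [norm_sub_sq_real, real_inner_smul_right, norm_smul, mul_pow, Real.norm_eq_abs, sq_abs,
      real_inner_self_eq_norm_sq]
    ring
  have e2 : ⟪η, w⟫ = ⟪η, x⟫ / tc x - ⟪η, a⟫ / (1 + tc a) := by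
    rw [hw, inner_sub_right, real_inner_smul_right, real_inner_smul_right]
    ring
  have e3 : ⟪w, w⟫ = ‖x‖ ^ 2 / tc x ^ 2 - 2 * ⟪x, a⟫ / (tc x * (1 + tc a))
      + ‖a‖ ^ 2 / (1 + tc a) ^ 2 := by
    rw [hw, inner_sub_left, inner_sub_right, inner_sub_right]
    simp only [real_inner_smul_left, real_inner_smul_right]
    rw [real_inner_self_eq_norm_sq, real_inner_self_eq_norm_sq, real_inner_comm x a]
    field_simp
    ring
  have e4 : ⟪η - ⟪η, a⟫ • w, x⟫ = ⟪η, x⟫ - ⟪η, a⟫ * (‖x‖ ^ 2 / tc x - ⟪x, a⟫ / (1 + tc a)) := by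
    rw [inner_sub_left, real_inner_smul_left, hw, inner_sub_left, real_inner_smul_left,
      real_inner_smul_left, real_inner_self_eq_norm_sq, real_inner_comm x a]
    ring
  have e5 : ⟪η, boost a x⟫ = ⟪η, x⟫ - (tc x - ⟪x, a⟫ / (1 + tc a)) * ⟪η, a⟫ := by
    rw [boost_def, inner_sub_right, real_inner_smul_right]
  have e6 : ‖a‖ ^ 2 = (tc a - 1) * (1 + tc a) := by nlinarith
  have e7 : ‖x‖ ^ 2 = tc x ^ 2 - 1 := by linarith
  rw [e1, e2, e3, e4, e5, e6, e7]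
  field_simp
  ring

theorem gradSq_boost {u : Hyp n → ℝ} (hu : IsC1 u) (a : E n) (p : Hyp n) :
    gradSq (u ∘ boostIso a) p = gradSq u (boostIso a p) := by
  set x := p.pt with hx
  have hd : DifferentiableAt ℝ (fun y : E n => u ⟨y⟩) (boost a x) :=
    (hu.differentiable one_ne_zero) _
  set L := fderiv ℝ (fun y : E n => u ⟨y⟩) (boost a x) with hL
  set η := (InnerProductSpace.toDual ℝ (E n)).symm L with hη
  have hLv : ∀ v, L v = ⟪η, v⟫ := fun v => by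
    rw [hη, InnerProductSpace.toDual_symm_apply]
  have hLn : ‖L‖ = ‖η‖ := by
    rw [hη, LinearIsometryEquiv.norm_map]
  set w : E n := (tc x)⁻¹ • x - (1 + tc a)⁻¹ • a with hw
  have hcomp : HasFDerivAt (fun y : E n => (u ∘ boostIso a) ⟨y⟩)
      (L.comp (ContinuousLinearMap.id ℝ (E n) - (innerSL ℝ w).smulRight a)) x :=
    HasFDerivAt.comp (g := fun y : E n => u ⟨y⟩) (f := boost a) x hd.hasFDerivAt
      (hasFDerivAt_boost a x)
  have hM : L.comp (ContinuousLinearMap.id ℝ (E n) - (innerSL ℝ w).smulRight a)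
      = innerSL ℝ (η - ⟪η, a⟫ • w) := by
    ext v
    simp only [ContinuousLinearMap.comp_apply, ContinuousLinearMap.sub_apply,
      ContinuousLinearMap.smulRight_apply, innerSL_apply_apply, hLv, inner_sub_left,
      inner_sub_right, real_inner_smul_left, real_inner_smul_right]
    simp
    ring
  rw [hM] at hcomp
  have e1 : gradSq (u ∘ boostIso a) p
      = ‖innerSL ℝ (η - ⟪η, a⟫ • w)‖ ^ 2 + (innerSL ℝ (η - ⟪η, a⟫ • w) x) ^ 2 := by
    unfold gradSq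
    rw [← hx, hcomp.fderiv]
  have e2 : gradSq u (boostIso a p) = ‖L‖ ^ 2 + (L (boost a x)) ^ 2 := rfl
  rw [e1, e2, innerSL_apply_norm, innerSL_apply_apply, hLn, hLv]
  exact gradInv_identity η a x

end Pool.Agent.H62.WS
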