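import Pool.Agent.H62.WS.Top

set_option autoImplicit false

/-!
# [H62 WS ISO] The boosts are isometries
-/

namespace Pool.Agent.H62.WS

open scoped RealInnerProductSpace MeasureTheory
open MeasureTheory Set Metric

variable {n : ℕ}

/-- the isometry of `H^n` which moves `a` to the origin -/
noncomputable def boostIso (a : E n) : Hyp n ≃ᵢ Hyp n where
  toFun p := ⟨boost a p.pt⟩
  invFun p := ⟨boost (-a) p.pt⟩
  left_inv p := by simp only [boost_neg_boost]
  right_inv p := by simp only [boost_boost_neg]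
  isometry_toFun := by
    refine Isometry.of_dist_eq fun p q => ?_
    rw [dist_def, dist_def, lor_boost]

theorem boostIso_apply (a : E n) (p : Hyp n) : boostIso a p = ⟨boost a p.pt⟩ := rfl

theorem boostIso_symm_apply (a : E n) (p : Hyp n) : (boostIso a).symm p = ⟨boost (-a) p.pt⟩ := rfl

theorem boostIso_self (p : Hyp n) : boostIso p.pt p = org n := by
  rw [boostIso_apply, boost_self]
  rfl

theorem boostIso_symm_org (p : Hyp n) : (boostIso p.pt).symm (org n) = p := by
  rw [← boostIso_self p, IsometryEquiv.symm_apply_apply]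

theorem image_frontier (φ : Hyp n ≃ᵢ Hyp n) (Ω : Set (Hyp n)) :
    frontier (φ '' Ω) = φ '' frontier Ω :=
  (φ.toHomeomorph.image_frontier Ω).symm

theorem bd_image (φ : Hyp n ≃ᵢ Hyp n) (A : Set (Hyp n)) : bd n (φ '' A) = bd n A :=
  φ.isometry.euclideanHausdorffMeasure_image A

theorem BallCond.image {Ω : Set (Hyp n)} (h : BallCond Ω) (φ : Hyp n ≃ᵢ Hyp n) :
    BallCond (φ '' Ω) := by
  intro p t ht hlt
  have e1 : φ '' sphere (φ.symm p) t = sphere p t := by
    rw [IsometryEquiv.image_sphere, IsometryEquiv.apply_symm_apply]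
  have e2 : φ '' ball (φ.symm p) t = ball p t := by
    rw [IsometryEquiv.image_ball, IsometryEquiv.apply_symm_apply]
  rw [image_frontier, ← e1, bd_image, bd_image] at hlt
  rw [image_frontier, ← e1, ← e2, ← image_inter φ.injective, ← image_sdiff φ.injective, bd_image,
    bd_image]
  exact h _ t ht hlt

theorem GeodConvex.image {Ω : Set (Hyp n)} (h : GeodConvex Ω) (φ : Hyp n ≃ᵢ Hyp n) :
    GeodConvex (φ '' Ω) := by
  rintro _ ⟨p, hp, rfl⟩ _ ⟨q, hq, rfl⟩ m hm
  refine ⟨φ.symm m, h p hp q hq _ ?_, φ.apply_symm_apply m⟩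
  rw [← φ.dist_eq p, ← φ.dist_eq _ q, φ.apply_symm_apply, hm, φ.dist_eq]

end Pool.Agent.H62.WS
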