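import Pool.Agent.H62.WS.HSph
import Pool.Agent.H62.WS.Iso

set_option autoImplicit false

/-!
# [H62 WS HHYP] The boundary measure on geodesic spheres

`2 sinh (d/2) = s |θ-η|`, `s = sinh r` (`dist_sph_sph`): `d ≤ s |θ-η|` and, for `d` small, `|θ-η| ≤ (1/s + ε) d`
(`hausdorffMeasure_image_le_of_local` for `sph r` and for its inverse on `sph r '' A`).
-/

namespace Pool.Agent.H62.WS

open scoped RealInnerProductSpace MeasureTheory ENNReal NNReal
open MeasureTheory Set Metric

variable {n : ℕ}

private theorem sinh_le_near {c : ℝ} (hc : 1 < c) : ∃ δ : ℝ, 0 < δ ∧ ∀ t : ℝ, 0 ≤ t → t < δ →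
    Real.sinh t ≤ c * t := by
  have h1 := (Real.hasDerivAt_sinh 0).isLittleO
  have h2 := h1.def (sub_pos.mpr hc)
  obtain ⟨δ, hδ, hball⟩ := Metric.eventually_nhds_iff.mp h2
  refine ⟨δ, hδ, fun t ht htδ => ?_⟩
  have h3 := hball (y := t) (by rwa [Real.dist_eq, sub_zero, abs_of_nonneg ht])
  simp only [Real.sinh_zero, Real.cosh_zero, sub_zero, smul_eq_mul, mul_one, Real.norm_eq_abs] at h3
  rw [abs_of_nonneg ht] at h3
  have h4 := le_abs_self (Real.sinh t - t)
  nlinarith

private theorem sph_cont (r : ℝ) : Continuous (sph r : sphere (0 : E n) 1 → Hyp n) :=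
  continuous_sph.comp (continuous_const.prodMk continuous_id)

private theorem sph_meas_image {r : ℝ} (hr : 0 < r) {A : Set (sphere (0 : E n) 1)}
    (hA : MeasurableSet A) : MeasurableSet (sph r '' A) := by
  have hinj : Function.Injective (sph r : sphere (0 : E n) 1 → Hyp n) :=
    fun θ η h => (sph_injective hr hr h).2
  have hemb : Topology.IsClosedEmbedding (sph r : sphere (0 : E n) 1 → Hyp n) :=
    (sph_cont r).isClosedEmbedding hinj
  exact hemb.measurableEmbedding.measurableSet_image.mpr hA

theorem bd_sph_image (hn : 2 ≤ n) {r : ℝ} (hr : 0 < r) {A : Set (sphere (0 : E n) 1)}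
    (hA : MeasurableSet A) :
    bd n (sph r '' A) = ENNReal.ofReal (Real.sinh r ^ (n - 1)) * (cst n * sg n A) := by
  have hs : 0 < Real.sinh r := Real.sinh_pos_iff.mpr hr
  set s := Real.sinh r with hsdef
  rw [← hsph hn hA]
  unfold bd
  have hinj : Function.Injective (sph r : sphere (0 : E n) 1 → Hyp n) :=
    fun θ η h => (sph_injective hr hr h).2
  apply le_antisymm
  · -- upper bound
    have hlip : LipschitzOnWith s.toNNReal (sph r : sphere (0 : E n) 1 → Hyp n) A := by
      refine LipschitzOnWith.of_dist_le_mul fun θ _ η _ => ?_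
      rw [Real.coe_toNNReal _ hs.le]
      have h1 := dist_sph_sph hr.le θ η
      have h2 : dist (sph r θ) (sph r η) / 2 ≤ Real.sinh (dist (sph r θ) (sph r η) / 2) :=
        Real.self_le_sinh_iff.mpr (by positivity)
      rw [← hsdef] at h1
      linarith
    have h3 := euclideanHausdorffMeasure_image_le (n - 1) hlip
    refine h3.trans (le_of_eq ?_)
    congr 1
    rw [ENNReal.ofReal_pow hs.le]
    rfl
  · -- lower bound
    obtain ⟨θ0, _⟩ := exists_sph hn (org n)
    have : Nonempty (sphere (0 : E n) 1) := ⟨θ0⟩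
    have hg : ∀ θ, Function.invFun (sph r) (sph r θ : Hyp n) = θ :=
      fun θ => Function.leftInverse_invFun hinj θ
    have himg : (Function.invFun (sph r : sphere (0 : E n) 1 → Hyp n)) '' (sph r '' A) = A := by
      rw [image_image]
      simp only [hg, image_id']
    have hK : (0 : ℝ≥0) < (s⁻¹).toNNReal := by
      rw [Real.toNNReal_pos]; positivity
    have key := hausdorffMeasure_image_le_of_local (X := Hyp n) (Y := sphere (0 : E n) 1)
      (f := Function.invFun (sph r : sphere (0 : E n) 1 → Hyp n)) (sph_meas_image hr hA) (n - 1)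
      hK (by
        intro K' hK'
        have hK2 : s⁻¹ < (K' : ℝ) := by
          have := NNReal.coe_lt_coe.mpr hK'
          rwa [Real.coe_toNNReal _ (by positivity)] at this
        have hc : 1 < (K' : ℝ) * s := by
          rw [inv_eq_one_div, div_lt_iff₀ hs] at hK2
          exact hK2
        obtain ⟨δ, hδ, hsmall⟩ := sinh_le_near hc
        refine ⟨2 * δ, by positivity, ?_⟩
        rintro _ ⟨θ, _, rfl⟩ _ ⟨η, _, rfl⟩ hd
        rw [hg, hg]
        have h1 := dist_sph_sph hr.le θ η
        rw [← hsdef] at h1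
        have h2 := hsmall (dist (sph r θ) (sph r η) / 2) (by positivity) (by linarith)
        have h3 : s * dist θ η ≤ s * (K' * dist (sph r θ) (sph r η)) := by
          rw [← h1]
          calc 2 * Real.sinh (dist (sph r θ) (sph r η) / 2)
              ≤ 2 * ((K' : ℝ) * s * (dist (sph r θ) (sph r η) / 2)) := by linarith
            _ = s * (K' * dist (sph r θ) (sph r η)) := by ring
        exact le_of_mul_le_mul_left h3 hs)
    rw [himg] at key
    calc ENNReal.ofReal (s ^ (n - 1)) * μHE[n - 1] A
        ≤ ENNReal.ofReal (s ^ (n - 1)) * (((s⁻¹).toNNReal : ℝ≥0∞) ^ (n - 1) *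
          μHE[n - 1] (sph r '' A)) := by gcongr
      _ = μHE[n - 1] (sph r '' A) := by
        rw [← mul_assoc]
        have h1 : ENNReal.ofReal (s ^ (n - 1)) * ((s⁻¹).toNNReal : ℝ≥0∞) ^ (n - 1) = 1 := by
          have h2 : ((s⁻¹).toNNReal : ℝ≥0∞) = ENNReal.ofReal s⁻¹ := rfl
          rw [h2, ← ENNReal.ofReal_pow (by positivity), ← ENNReal.ofReal_mul (by positivity),
            ← mul_pow, mul_inv_cancel₀ hs.ne', one_pow, ENNReal.ofReal_one]
        rw [h1, one_mul]

end Pool.Agent.H62.WS
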