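import Mathlib

set_option autoImplicit false

/-!
# [H62 WS HLOC] Hausdorff measure of the image under a locally almost `K`-Lipschitz map

For `K' > K` take `δ`; cover `X` by countably many balls of radius `δ/2` (second countable), make the cover disjoint
(`disjointed`), pieces `A ∩ B_i` of `A`: on each piece `f` is `K'`-Lipschitz (`LipschitzOnWith`), so
`μH[d] (f '' (A ∩ B_i)) ≤ K'^d μH[d] (A ∩ B_i)` (`LipschitzOnWith.hausdorffMeasure_image_le`); sum over `i`
(`measure_iUnion_le`, `measure_iUnion` for the disjoint measurable pieces); let `K' → K` (if `μH[d] A = ∞` and `K = 0` the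
right hand side is `0 * ∞ = 0`: treat `K = 0` through the pieces with finite measure, or assume `0 < K`).
-/

namespace Pool.Agent.H62.WS

open scoped MeasureTheory ENNReal NNReal
open MeasureTheory Set Metric

/-- the global version for `μHE` -/
theorem euclideanHausdorffMeasure_image_le {X Y : Type*} [MetricSpace X] [MetricSpace Y]
    [MeasurableSpace X] [BorelSpace X] [MeasurableSpace Y] [BorelSpace Y]
    {f : X → Y} {A : Set X} (k : ℕ) {K : ℝ≥0} (h : LipschitzOnWith K f A) :
    μHE[k] (f '' A) ≤ (K : ℝ≥0∞) ^ k * μHE[k] A := by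
  have h1 := h.hausdorffMeasure_image_le (d := (k : ℝ)) (Nat.cast_nonneg k)
  rw [ENNReal.rpow_natCast] at h1
  simp only [Measure.euclideanHausdorffMeasure_def, Measure.smul_apply, ENNReal.smul_def, smul_eq_mul]
  calc _ ≤ _ := mul_le_mul_right h1 _
    _ = _ := by ring

theorem hausdorffMeasure_image_le_of_local {X Y : Type*} [MetricSpace X] [MetricSpace Y]
    [SecondCountableTopology X] [MeasurableSpace X] [BorelSpace X] [MeasurableSpace Y] [BorelSpace Y]
    {f : X → Y} {A : Set X} (hA : MeasurableSet A) (k : ℕ) {K : ℝ≥0} (hK : 0 < K)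
    (h : ∀ K' : ℝ≥0, K < K' → ∃ δ > 0, ∀ x ∈ A, ∀ y ∈ A, dist x y < δ →
      dist (f x) (f y) ≤ K' * dist x y) :
    μHE[k] (f '' A) ≤ (K : ℝ≥0∞) ^ k * μHE[k] A := by
  rcases isEmpty_or_nonempty X with hX | hX
  · have : A = ∅ := Set.eq_empty_of_isEmpty A
    simp [this]
  have key : ∀ K' : ℝ≥0, K < K' → μHE[k] (f '' A) ≤ (K' : ℝ≥0∞) ^ k * μHE[k] A := by
    intro K' hK'
    obtain ⟨δ, hδ, hf⟩ := h K' hK'
    let B : ℕ → Set X := fun i => ball (TopologicalSpace.denseSeq X i) (δ / 2)
    have hB : ⋃ i, B i = univ := by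
      refine eq_univ_of_forall fun x => ?_
      obtain ⟨y, hy⟩ := (TopologicalSpace.denseRange_denseSeq X).exists_dist_lt x (half_pos hδ)
      exact mem_iUnion.2 ⟨y, mem_ball.2 hy⟩
    have hD : ⋃ i, disjointed B i = univ := by rw [iUnion_disjointed, hB]
    have hDm : ∀ i, MeasurableSet (disjointed B i) :=
      fun i => MeasurableSet.disjointed (fun i => isOpen_ball.measurableSet) i
    have hL : ∀ i, LipschitzOnWith K' f (A ∩ disjointed B i) := by
      intro i
      refine LipschitzOnWith.of_dist_le_mul ?_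
      rintro x ⟨hx, hxi⟩ y ⟨hy, hyi⟩
      have hx' : x ∈ B i := disjointed_subset B i hxi
      have hy' : y ∈ B i := disjointed_subset B i hyi
      refine hf x hx y hy ?_
      calc dist x y ≤ dist x (TopologicalSpace.denseSeq X i) +
            dist y (TopologicalSpace.denseSeq X i) := dist_triangle_right _ _ _
        _ < δ / 2 + δ / 2 := add_lt_add hx' hy'
        _ = δ := add_halves δ
    have hAe : A = ⋃ i, A ∩ disjointed B i := by rw [← inter_iUnion, hD, inter_univ]
    calc μHE[k] (f '' A) = μHE[k] (⋃ i, f '' (A ∩ disjointed B i)) := by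
          conv_lhs => rw [hAe, image_iUnion]
      _ ≤ ∑' i, μHE[k] (f '' (A ∩ disjointed B i)) := measure_iUnion_le _
      _ ≤ ∑' i, (K' : ℝ≥0∞) ^ k * μHE[k] (A ∩ disjointed B i) :=
          ENNReal.tsum_le_tsum fun i => euclideanHausdorffMeasure_image_le k (hL i)
      _ = (K' : ℝ≥0∞) ^ k * ∑' i, μHE[k] (A ∩ disjointed B i) := ENNReal.tsum_mul_left
      _ = (K' : ℝ≥0∞) ^ k * μHE[k] A := by
          rw [← measure_iUnion (fun i j hij => ((disjoint_disjointed B) hij).mono
            inter_subset_right inter_subset_right) (fun i => hA.inter (hDm i)), ← hAe]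
  by_cases hT : μHE[k] A = ∞
  · have h0 : (K : ℝ≥0∞) ^ k ≠ 0 := pow_ne_zero _ (by exact_mod_cast hK.ne')
    rw [hT, ENNReal.mul_top h0]
    exact le_top
  · have ht : Filter.Tendsto (fun K' : ℝ≥0 => (K' : ℝ≥0∞) ^ k * μHE[k] A) (nhdsWithin K (Ioi K))
        (nhds ((K : ℝ≥0∞) ^ k * μHE[k] A)) := by
      refine ENNReal.Tendsto.mul_const ?_ (Or.inr hT)
      refine Filter.Tendsto.mono_left ?_ nhdsWithin_le_nhds
      exact ((ENNReal.continuous_pow k).comp ENNReal.continuous_coe).tendsto K
    exact ge_of_tendsto ht (Filter.eventually_of_mem self_mem_nhdsWithin fun K' hK' => key K' hK')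

end Pool.Agent.H62.WS
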