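import Pool.Agent.H62.WS.HLoc
import Pool.Agent.H62.WS.Polar

set_option autoImplicit false

/-!
# [H62 WS HSPHFIN] The Hausdorff measure of the unit sphere is finite

`P x = ‖x‖⁻¹ • x` is `2`-Lipschitz on `{x | 1 ≤ ‖x‖}` (`‖P x - P y‖ ≤ ‖x - y‖/‖x‖ + ‖y‖ |1/‖x‖ - 1/‖y‖| ≤ 2 ‖x-y‖`); the sphere is contained in the image under `P` of
the union of the `2n` faces `{x | x i = ±1, |x j| ≤ 1}` of the cube (norm `≥ 1` on the faces; for `x` in the sphere divide by `max |x i| > 0`).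
`euclideanHausdorffMeasure_image_le` (HLoc).  Each face has finite `μHE[n-1]`: write `n = m + 1`; it is the image of a bounded
(compact) subset of `E m` under an isometry (insert the coordinate `i`, `Fin.insertNth`), and on `E m` `μHE[m]` is finite on compact sets
(Mathlib: `μHE[m] = volume` on a euclidean space, `IsAddHaarMeasure` instance), `Isometry.euclideanHausdorffMeasure_image`.
(Any other proof: e.g. the graph of a Lipschitz map over balls of `E m`: `{x in the sphere | |x i| ≥ 1/√n}`.)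
-/

namespace Pool.Agent.H62.WS

open scoped RealInnerProductSpace MeasureTheory ENNReal NNReal
open MeasureTheory Set Metric

variable {n : ℕ}

/-- insertion of a coordinate -/
private noncomputable def ins {m : ℕ} (i : Fin (m + 1)) (e : ℝ) (y : E m) : E (m + 1) :=
  WithLp.toLp 2 (i.insertNth (α := fun _ => ℝ) e (fun j => y j))

private theorem ins_same {m : ℕ} (i : Fin (m + 1)) (e : ℝ) (y : E m) : ins i e y i = e := by
  simp [ins]

private theorem ins_above {m : ℕ} (i : Fin (m + 1)) (e : ℝ) (y : E m) (j : Fin m) :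
    ins i e y (i.succAbove j) = y j := by
  simp [ins]

private theorem ins_dist {m : ℕ} (i : Fin (m + 1)) (e : ℝ) (y z : E m) :
    dist (ins i e y) (ins i e z) = dist y z := by
  rw [EuclideanSpace.dist_eq, EuclideanSpace.dist_eq, Fin.sum_univ_succAbove _ i]
  simp only [ins_same, ins_above, dist_self]
  simp

private theorem one_le_ins {m : ℕ} (i : Fin (m + 1)) {e : ℝ} (he : |e| = 1) (y : E m) :
    1 ≤ ‖ins i e y‖ := by
  have h := PiLp.norm_apply_le (ins i e y) i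
  rw [ins_same, Real.norm_eq_abs, he] at h
  exact h

private theorem unit_lip {F : Type*} [NormedAddCommGroup F] [NormedSpace ℝ F] {a b : F}
    (ha : 1 ≤ ‖a‖) (hb : 1 ≤ ‖b‖) : ‖‖a‖⁻¹ • a - ‖b‖⁻¹ • b‖ ≤ 2 * ‖a - b‖ := by
  have ha0 : 0 < ‖a‖ := by linarith
  have hb0 : 0 < ‖b‖ := by linarith
  have hai : ‖a‖⁻¹ ≤ 1 := inv_le_one_of_one_le₀ ha
  have e : ‖a‖⁻¹ • a - ‖b‖⁻¹ • b = ‖a‖⁻¹ • (a - b) + (‖a‖⁻¹ - ‖b‖⁻¹) • b := by
    rw [smul_sub, sub_smul]
    abel
  rw [e]
  refine (norm_add_le _ _).trans ?_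
  rw [norm_smul, norm_smul, norm_inv, norm_norm]
  have h1 : ‖a‖⁻¹ * ‖a - b‖ ≤ ‖a - b‖ := mul_le_of_le_one_left (norm_nonneg _) hai
  have h2 : ‖‖a‖⁻¹ - ‖b‖⁻¹‖ * ‖b‖ ≤ ‖a - b‖ := by
    have e2 : (‖a‖⁻¹ - ‖b‖⁻¹) * ‖b‖ = ‖a‖⁻¹ * (‖b‖ - ‖a‖) := by
      field_simp
    have e3 : ‖‖a‖⁻¹ - ‖b‖⁻¹‖ * ‖b‖ = ‖(‖a‖⁻¹ - ‖b‖⁻¹) * ‖b‖‖ := by
      rw [norm_mul, norm_norm]
    rw [e3, e2, norm_mul, norm_inv, norm_norm]
    have h3 : ‖‖b‖ - ‖a‖‖ ≤ ‖a - b‖ := by
      rw [Real.norm_eq_abs, norm_sub_rev]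
      exact abs_norm_sub_norm_le b a
    exact (mul_le_of_le_one_left (norm_nonneg _) hai).trans h3
  linarith

private noncomputable def psi {m : ℕ} (i : Fin (m + 1)) (e : ℝ) (y : E m) : E (m + 1) :=
  ‖ins i e y‖⁻¹ • ins i e y

private theorem psi_lip {m : ℕ} (i : Fin (m + 1)) {e : ℝ} (he : |e| = 1) (s : Set (E m)) :
    LipschitzOnWith 2 (psi i e) s := by
  refine LipschitzOnWith.of_dist_le_mul fun y _ z _ => ?_
  have h := unit_lip (one_le_ins i he y) (one_le_ins i he z)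
  rw [← dist_eq_norm, ← dist_eq_norm, ins_dist] at h
  exact h

private theorem psi_fin {m : ℕ} (i : Fin (m + 1)) {e : ℝ} (he : |e| = 1) :
    μHE[m] (psi i e '' closedBall (0 : E m) (√m)) < ∞ := by
  refine (euclideanHausdorffMeasure_image_le m (psi_lip i he _)).trans_lt ?_
  rw [EuclideanSpace.euclideanHausdorffMeasure_eq_volume]
  refine ENNReal.mul_lt_top ?_ measure_closedBall_lt_top
  exact ENNReal.pow_lt_top (by simp)

private theorem sphere_cover {m : ℕ} (x : E (m + 1)) (hx : ‖x‖ = 1) :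
    ∃ (i : Fin (m + 1)) (b : Bool),
      x ∈ psi i (if b then 1 else -1) '' closedBall (0 : E m) (√m) := by
  obtain ⟨i, hi⟩ := Finite.exists_max (fun i => |x i|)
  have ha : 0 < |x i| := by
    rw [abs_pos]
    intro h0
    have : x = 0 := by
      ext j
      have := hi j
      simp only [h0, abs_zero] at this
      simpa using abs_nonpos_iff.mp this
    rw [this, norm_zero] at hx
    exact zero_ne_one hx
  obtain ⟨b, hb⟩ : ∃ b : Bool, (if b then (1 : ℝ) else -1) = |x i|⁻¹ * x i := by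
    rcases le_or_gt 0 (x i) with h | h
    · refine ⟨true, ?_⟩
      rw [abs_of_nonneg h] at ha ⊢
      simp [inv_mul_cancel₀ ha.ne']
    · refine ⟨false, ?_⟩
      rw [abs_of_neg h]
      have : x i ≠ 0 := h.ne
      simp only [Bool.false_eq_true, if_false]
      field_simp
  refine ⟨i, b, WithLp.toLp 2 (fun j => |x i|⁻¹ * x (i.succAbove j)), ?_, ?_⟩
  · rw [mem_closedBall_zero_iff, EuclideanSpace.norm_eq]
    apply Real.sqrt_le_sqrt
    calc ∑ j : Fin m, ‖|x i|⁻¹ * x (i.succAbove j)‖ ^ 2 ≤ ∑ _j : Fin m, (1 : ℝ) := by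
          refine Finset.sum_le_sum fun j _ => ?_
          have h1 : ‖|x i|⁻¹ * x (i.succAbove j)‖ ≤ 1 := by
            rw [norm_mul, norm_inv, Real.norm_eq_abs, abs_abs, Real.norm_eq_abs,
              inv_mul_le_iff₀ ha, mul_one]
            exact hi _
          exact pow_le_one₀ (norm_nonneg _) h1
      _ = m := by simp
  · have e1 : ins i (if b then (1 : ℝ) else -1)
        (WithLp.toLp 2 (fun j => |x i|⁻¹ * x (i.succAbove j)) : E m) = |x i|⁻¹ • x := by
      ext k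
      rcases Fin.eq_self_or_eq_succAbove i k with h | ⟨j, h⟩
      · rw [h, ins_same, hb]
        rfl
      · rw [h, ins_above]
        rfl
    unfold psi
    rw [e1, norm_smul, norm_inv, hx, mul_one, Real.norm_eq_abs, abs_abs, inv_inv, smul_smul,
      mul_inv_cancel₀ ha.ne', one_smul]

theorem sphere_meas_lt_top (hn : 2 ≤ n) : μHE[n - 1] (sphere (0 : E n) 1) < ∞ := by
  obtain ⟨m, rfl⟩ : ∃ m, n = m + 1 := ⟨n - 1, by omega⟩
  rw [Nat.add_sub_cancel]
  have hc : sphere (0 : E (m + 1)) 1 ⊆ ⋃ p : Fin (m + 1) × Bool,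
      psi p.1 (if p.2 then 1 else -1) '' closedBall (0 : E m) (√m) := by
    intro x hx
    obtain ⟨i, b, h⟩ := sphere_cover x (by simpa using hx)
    exact mem_iUnion.mpr ⟨(i, b), h⟩
  refine (measure_mono hc).trans_lt ((measure_iUnion_le _).trans_lt ?_)
  rw [tsum_fintype]
  refine ENNReal.sum_lt_top.mpr fun p _ => psi_fin _ ?_
  cases p.2 <;> simp

end Pool.Agent.H62.WS
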