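import Pool.Agent.H62.WS.RhoA

set_option autoImplicit false

/-!
# [H62 WS RHOB] The outer radius: measurability, frontier points

* `measurable_rho`: `{θ | a < rho Ω θ}` is, for `0 ≤ a`, the set of the `θ` with `sph r θ ∈ Ω` for some `r > a`, a union of open sets (`lt_csSup_iff`, `bddAbove_Eth`); for `a < 0` it is everything.
  `measurable_of_Ioi`.
* `sph_rho_mem_frontier`: `sph (rho θ) θ` is a limit of points `sph r θ ∈ Ω`, `r ∈ Eth`, `r → rho` (`exists_lt_of_lt_csSup`) and does not lie in `Ω` (`Eth_subset`: `rho ∉ Ioo 0 rho`).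
* `measurableSet_slices`: an open set (`continuous_sph`).
-/

namespace Pool.Agent.H62.WS

open scoped RealInnerProductSpace MeasureTheory ENNReal NNReal
open MeasureTheory Set Metric

variable {n : ℕ}

theorem measurable_rho {Ω : Set (Hyp n)} (hΩ : IsOpen Ω) (hb : Bornology.IsBounded Ω) :
    Measurable (rho Ω) := by
  refine measurable_of_Ioi fun a => ?_
  rcases lt_or_ge a 0 with ha | ha
  · have h1 : rho Ω ⁻¹' Ioi a = univ := by
      ext θ
      simp only [mem_preimage, mem_Ioi, mem_univ, iff_true]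
      exact lt_of_lt_of_le ha (rho_nonneg Ω θ)
    rw [h1]
    exact MeasurableSet.univ
  · have h1 : rho Ω ⁻¹' Ioi a = ⋃ r ∈ Ioi a, {θ : sphere (0 : E n) 1 | sph r θ ∈ Ω} := by
      ext θ
      simp only [mem_preimage, mem_Ioi, mem_iUnion, mem_setOf_eq, exists_prop]
      constructor
      · intro h
        have hne : (Eth Ω θ).Nonempty := by
          by_contra hcon
          rw [not_nonempty_iff_eq_empty] at hcon
          rw [rho, hcon, Real.sSup_empty] at h
          exact absurd h (not_lt.mpr ha)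
        obtain ⟨r, hr, har⟩ := exists_lt_of_lt_csSup hne h
        exact ⟨r, har, hr.2⟩
      · rintro ⟨r, har, hr⟩
        exact har.trans (Eth_subset hΩ hb θ ⟨lt_of_le_of_lt ha har, hr⟩).2
    rw [h1]
    refine (isOpen_biUnion fun r _ => ?_).measurableSet
    have h2 : Continuous fun θ : sphere (0 : E n) 1 => sph r θ :=
      continuous_sph.comp (continuous_const.prodMk continuous_id)
    exact hΩ.preimage h2

theorem sph_rho_mem_frontier {Ω : Set (Hyp n)} (hΩ : IsOpen Ω) (hb : Bornology.IsBounded Ω)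
    {θ : sphere (0 : E n) 1} (h : 0 < rho Ω θ) : sph (rho Ω θ) θ ∈ frontier Ω := by
  have hc : Continuous fun r : ℝ => sph r θ :=
    continuous_sph.comp (continuous_id.prodMk continuous_const)
  have hne : (Eth Ω θ).Nonempty := by
    by_contra hcon
    rw [not_nonempty_iff_eq_empty] at hcon
    rw [rho, hcon, Real.sSup_empty] at h
    exact lt_irrefl _ h
  rw [hΩ.frontier_eq]
  refine ⟨?_, fun hmem => ?_⟩
  · have h1 : rho Ω θ ∈ closure (Eth Ω θ) := csSup_mem_closure hne (bddAbove_Eth hb θ)
    have h2 : sph (rho Ω θ) θ ∈ closure ((fun r : ℝ => sph r θ) '' Eth Ω θ) :=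
      image_closure_subset_closure_image hc ⟨_, h1, rfl⟩
    refine closure_mono ?_ h2
    rintro _ ⟨r, hr, rfl⟩
    exact hr.2
  · exact lt_irrefl _ (Eth_subset hΩ hb θ ⟨h, hmem⟩).2

theorem measurableSet_slices {Ω : Set (Hyp n)} (hΩ : IsOpen Ω) :
    MeasurableSet {p : sphere (0 : E n) 1 × ℝ | p.2 ∈ Eth Ω p.1} := by
  have h1 : IsOpen {p : sphere (0 : E n) 1 × ℝ | 0 < p.2} :=
    isOpen_lt continuous_const continuous_snd
  have h2 : IsOpen {p : sphere (0 : E n) 1 × ℝ | sph p.2 p.1 ∈ Ω} :=
    hΩ.preimage (continuous_sph.comp continuous_swap)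
  exact (h1.inter h2).measurableSet

end Pool.Agent.H62.WS
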