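import Pool.Agent.H62.WS.HHyp
import Pool.Agent.H62.WS.RhoB

set_option autoImplicit false

/-!
# [H62 WS ININT] The inner integral inequality

Tonelli (`lintegral_lintegral_swap`; `bd n` restricted to the frontier is finite, hence s-finite; the set `{(p,t) | dist (org n) p < t < r₀}` is measurable):
`∫⁻_{∂Ω} ∫⁻ t in Ioo (dist org p) r₀, b t = ∫⁻ t in Ioo 0 r₀, b t * bd n (∂Ω ∩ ball (org n) t)` (for `t > 0`: `dist (org n) p < t` iff `p ∈ ball (org n) t`; `mem_ball'`),
`≤ ∫⁻ t in Ioo 0 r₀, b t * bd n (sphere (org n) t \ Ω)`, `bd_sphere_org_diff`, Tonelli again with `{θ | sph t θ ∉ Ω} = {θ | t ∉ Eth Ω θ}` for `t > 0` (`measurableSet_slices`).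
-/

namespace Pool.Agent.H62.WS

open scoped RealInnerProductSpace MeasureTheory ENNReal NNReal
open MeasureTheory Set Metric

variable {n : ℕ}

theorem inner_int (hn : 2 ≤ n) {Ω : Set (Hyp n)} (hΩ : IsOpen Ω) (hfin : bd n (frontier Ω) < ∞)
    {r₀ : ℝ} (h : ∀ t, 0 < t → t < r₀ →
      bd n (frontier Ω ∩ ball (org n) t) ≤ bd n (sphere (org n) t \ Ω))
    {b : ℝ → ℝ≥0∞} (hbm : Measurable b) :
    ∫⁻ p in frontier Ω, (∫⁻ t in Ioo (dist (org n) p) r₀, b t) ∂bd n ≤
      cst n * ∫⁻ θ, (∫⁻ t in Ioo 0 r₀ \ Eth Ω θ, b t * ENNReal.ofReal (Real.sinh t ^ (n - 1))) ∂sg n := by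
  have hfm : IsFiniteMeasure ((bd n).restrict (frontier Ω)) :=
    ⟨by rw [Measure.restrict_apply_univ]; exact hfin⟩
  -- the left side
  obtain ⟨G, hG⟩ : ∃ G : Hyp n → ℝ → ℝ≥0∞, G = fun p t =>
    (Ioi (dist (org n) p)).indicator b t := ⟨_, rfl⟩
  have hGm : Measurable (Function.uncurry G) := by
    have h1 : MeasurableSet {q : Hyp n × ℝ | dist (org n) q.1 < q.2} :=
      (isOpen_lt (continuous_const.dist continuous_fst) continuous_snd).measurableSet
    have h2 : Function.uncurry G =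
        {q : Hyp n × ℝ | dist (org n) q.1 < q.2}.indicator (fun q => b q.2) := by
      ext q
      rw [hG]
      simp only [Function.uncurry, indicator, mem_Ioi, mem_setOf_eq]
    rw [h2]
    exact (hbm.comp measurable_snd).indicator h1
  have hL : ∀ p : Hyp n, ∫⁻ t in Ioo (dist (org n) p) r₀, b t = ∫⁻ t in Ioo 0 r₀, G p t := by
    intro p
    rw [hG]
    simp only
    rw [lintegral_indicator measurableSet_Ioi, Measure.restrict_restrict measurableSet_Ioi]
    congr 2
    ext t
    simp only [mem_inter_iff, mem_Ioi, mem_Ioo]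
    constructor
    · rintro ⟨h1, h2⟩
      exact ⟨h1, lt_of_le_of_lt dist_nonneg h1, h2⟩
    · rintro ⟨h1, _, h2⟩
      exact ⟨h1, h2⟩
  -- the right side
  have hsm : Measurable fun t : ℝ => b t * ENNReal.ofReal (Real.sinh t ^ (n - 1)) :=
    hbm.mul (Real.continuous_sinh.pow (n - 1)).measurable.ennreal_ofReal
  obtain ⟨H, hH⟩ : ∃ H : sphere (0 : E n) 1 → ℝ → ℝ≥0∞, H = fun θ t =>
    {t : ℝ | sph t θ ∉ Ω}.indicator
      (fun t => b t * ENNReal.ofReal (Real.sinh t ^ (n - 1))) t := ⟨_, rfl⟩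
  have hclosed : IsClosed {q : sphere (0 : E n) 1 × ℝ | sph q.2 q.1 ∉ Ω} :=
    hΩ.isClosed_compl.preimage (continuous_sph.comp continuous_swap)
  have hHm : Measurable (Function.uncurry H) := by
    have h2 : Function.uncurry H = {q : sphere (0 : E n) 1 × ℝ | sph q.2 q.1 ∉ Ω}.indicator
        (fun q => b q.2 * ENNReal.ofReal (Real.sinh q.2 ^ (n - 1))) := by
      ext q
      rw [hH]
      rfl
    rw [h2]
    exact (hsm.comp measurable_snd).indicator hclosed.measurableSet
  have hR : ∀ θ : sphere (0 : E n) 1,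
      ∫⁻ t in Ioo 0 r₀ \ Eth Ω θ, b t * ENNReal.ofReal (Real.sinh t ^ (n - 1)) =
        ∫⁻ t in Ioo 0 r₀, H θ t := by
    intro θ
    have hcl : IsClosed {t : ℝ | sph t θ ∉ Ω} :=
      hΩ.isClosed_compl.preimage (continuous_sph.comp (continuous_id.prodMk continuous_const))
    rw [hH]
    simp only
    rw [lintegral_indicator hcl.measurableSet, Measure.restrict_restrict hcl.measurableSet]
    congr 2
    ext t
    simp only [Eth, mem_sdiff, mem_inter_iff, mem_Ioo, mem_setOf_eq]
    constructor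
    · rintro ⟨h1, h2⟩
      exact ⟨fun h3 => h2 ⟨h1.1, h3⟩, h1⟩
    · rintro ⟨h1, h2⟩
      exact ⟨h2, fun h3 => h1 h3.2⟩
  simp only [hL, hR]
  rw [lintegral_lintegral_swap hGm.aemeasurable, lintegral_lintegral_swap hHm.aemeasurable,
    ← lintegral_const_mul' _ _ (cst_ne_top hn)]
  refine setLIntegral_mono' measurableSet_Ioo fun t ht => ?_
  have h1 : ∫⁻ p in frontier Ω, G p t ∂bd n = b t * bd n (frontier Ω ∩ ball (org n) t) := by
    have h2 : ∀ p, G p t = (ball (org n) t).indicator (fun _ => b t) p := by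
      intro p
      rw [hG]
      simp only [indicator, mem_Ioi, mem_ball']
    simp only [h2]
    rw [lintegral_indicator measurableSet_ball, lintegral_const, Measure.restrict_apply_univ,
      Measure.restrict_apply measurableSet_ball, inter_comm]
  have h3 : ∫⁻ θ, H θ t ∂sg n =
      b t * ENNReal.ofReal (Real.sinh t ^ (n - 1)) * sg n {θ | sph t θ ∉ Ω} := by
    have hcl : IsClosed {θ : sphere (0 : E n) 1 | sph t θ ∉ Ω} :=
      hΩ.isClosed_compl.preimage (continuous_sph.comp (continuous_const.prodMk continuous_id))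
    have h4 : ∀ θ, H θ t = {θ : sphere (0 : E n) 1 | sph t θ ∉ Ω}.indicator
        (fun _ => b t * ENNReal.ofReal (Real.sinh t ^ (n - 1))) θ := by
      intro θ
      rw [hH]
      rfl
    simp only [h4]
    rw [lintegral_indicator hcl.measurableSet, lintegral_const, Measure.restrict_apply_univ]
  rw [h1, h3]
  calc b t * bd n (frontier Ω ∩ ball (org n) t)
      ≤ b t * bd n (sphere (org n) t \ Ω) := mul_le_mul_right (h t ht.1 ht.2) _
    _ = cst n * (b t * ENNReal.ofReal (Real.sinh t ^ (n - 1)) * sg n {θ | sph t θ ∉ Ω}) := by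
        rw [bd_sphere_org_diff hn ht.1 hΩ.measurableSet]
        ring

end Pool.Agent.H62.WS
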