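import Mathlib

set_option autoImplicit false

/-!
# [H62 WS LOR] The hyperboloid chart of hyperbolic space: algebra of the Lorentz form and of boosts

The point `x` of `R^n` stands for the point `(tc x, x)` of the upper sheet of the hyperboloid.
-/

namespace Pool.Agent.H62.WS

open scoped RealInnerProductSpace

/-- the chart `R^n` -/
abbrev E (n : ℕ) := EuclideanSpace ℝ (Fin n)

variable {n : ℕ}

/-- the time coordinate of the point of the hyperboloid above `x` -/
noncomputable def tc (x : E n) : ℝ := √(1 + ‖x‖ ^ 2)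

/-- minus the Lorentz product of the points of the hyperboloid above `x` and `y` -/
noncomputable def lor (x y : E n) : ℝ := tc x * tc y - ⟪x, y⟫

/-- the boost (an isometry of hyperbolic space) which moves `a` to the origin -/
noncomputable def boost (a x : E n) : E n := x - (tc x - ⟪x, a⟫ / (1 + tc a)) • a

theorem boost_def (a x : E n) : boost a x = x - (tc x - ⟪x, a⟫ / (1 + tc a)) • a := rfl

theorem tc_sq (x : E n) : tc x ^ 2 = 1 + ‖x‖ ^ 2 := by
  unfold tc
  rw [Real.sq_sqrt (by positivity)]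

theorem tc_pos (x : E n) : 0 < tc x := by
  unfold tc
  positivity

theorem one_le_tc (x : E n) : 1 ≤ tc x := by
  have h := tc_sq x
  have h1 := tc_pos x
  nlinarith [sq_nonneg ‖x‖]

theorem norm_lt_tc (x : E n) : ‖x‖ < tc x := by
  have h := tc_sq x
  have h1 := tc_pos x
  nlinarith [norm_nonneg x]

@[simp] theorem tc_zero : tc (0 : E n) = 1 := by simp [tc]

@[simp] theorem tc_neg (x : E n) : tc (-x) = tc x := by simp [tc]

theorem lor_comm (x y : E n) : lor x y = lor y x := by
  unfold lor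
  rw [real_inner_comm, mul_comm]

@[simp] theorem lor_self (x : E n) : lor x x = 1 := by
  unfold lor
  rw [real_inner_self_eq_norm_sq]
  have h := tc_sq x
  nlinarith

@[simp] theorem lor_zero_left (x : E n) : lor 0 x = tc x := by simp [lor]

@[simp] theorem lor_zero_right (x : E n) : lor x 0 = tc x := by simp [lor]

theorem two_mul_lor_sub_one (x y : E n) : 2 * (lor x y - 1) = ‖x - y‖ ^ 2 - (tc x - tc y) ^ 2 := by
  unfold lor
  rw [norm_sub_sq_real]
  have h := tc_sq x
  have h' := tc_sq y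
  nlinarith

theorem abs_tc_sub_le (x y : E n) : |tc x - tc y| ≤ ‖x - y‖ := by
  have hx := tc_sq x
  have hy := tc_sq y
  have px := tc_pos x
  have py := tc_pos y
  have h1 : (tc x - tc y) * (tc x + tc y) = (‖x‖ - ‖y‖) * (‖x‖ + ‖y‖) := by nlinarith
  have h2 : |tc x - tc y| * (tc x + tc y) = |‖x‖ - ‖y‖| * (‖x‖ + ‖y‖) := by
    have := congrArg abs h1
    rwa [abs_mul, abs_mul, abs_of_pos (by linarith : 0 < tc x + tc y),
      abs_of_nonneg (by positivity : 0 ≤ ‖x‖ + ‖y‖)] at this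
  have h3 : |‖x‖ - ‖y‖| ≤ ‖x - y‖ := abs_norm_sub_norm_le x y
  have h4 : ‖x‖ + ‖y‖ ≤ tc x + tc y := by linarith [norm_lt_tc x, norm_lt_tc y]
  have h5 : |tc x - tc y| * (tc x + tc y) ≤ ‖x - y‖ * (tc x + tc y) := by
    rw [h2]
    exact mul_le_mul h3 h4 (by positivity) (norm_nonneg _)
  exact le_of_mul_le_mul_right h5 (by linarith)

theorem one_le_lor (x y : E n) : 1 ≤ lor x y := by
  have h := two_mul_lor_sub_one x y
  have h1 := abs_tc_sub_le x y
  have h2 : (tc x - tc y) ^ 2 ≤ ‖x - y‖ ^ 2 := by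
    rw [← sq_abs]
    gcongr
  linarith

theorem eq_of_lor_eq_one {x y : E n} (h : lor x y = 1) : x = y := by
  have h0 := two_mul_lor_sub_one x y
  rw [h, sub_self, mul_zero] at h0
  have hx := tc_sq x
  have hy := tc_sq y
  have px := tc_pos x
  have py := tc_pos y
  by_contra hne
  have hpos : 0 < ‖x - y‖ := norm_pos_iff.mpr (sub_ne_zero.mpr hne)
  have h1 : (tc x - tc y) * (tc x + tc y) = (‖x‖ - ‖y‖) * (‖x‖ + ‖y‖) := by nlinarith
  have h2 : |tc x - tc y| * (tc x + tc y) = |‖x‖ - ‖y‖| * (‖x‖ + ‖y‖) := by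
    have := congrArg abs h1
    rwa [abs_mul, abs_mul, abs_of_pos (by linarith : 0 < tc x + tc y),
      abs_of_nonneg (by positivity : 0 ≤ ‖x‖ + ‖y‖)] at this
  have h3 : |‖x‖ - ‖y‖| ≤ ‖x - y‖ := abs_norm_sub_norm_le x y
  have h4 : ‖x‖ + ‖y‖ < tc x + tc y := by linarith [norm_lt_tc x, norm_lt_tc y]
  have h5 : |tc x - tc y| = ‖x - y‖ := by
    have : (tc x - tc y) ^ 2 = ‖x - y‖ ^ 2 := by linarith
    rw [← abs_of_pos hpos]
    exact (sq_eq_sq_iff_abs_eq_abs _ _).mp this
  rw [h5] at h2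
  have h6 : |‖x‖ - ‖y‖| * (‖x‖ + ‖y‖) ≤ ‖x - y‖ * (‖x‖ + ‖y‖) := by gcongr
  have h7 : ‖x - y‖ * (‖x‖ + ‖y‖) < ‖x - y‖ * (tc x + tc y) := by gcongr
  linarith

theorem lor_eq_one_iff {x y : E n} : lor x y = 1 ↔ x = y :=
  ⟨eq_of_lor_eq_one, fun h => by rw [h, lor_self]⟩

theorem tc_boost (a x : E n) : tc (boost a x) = lor a x := by
  have hpos : 0 < 1 + tc a := by linarith [tc_pos a]
  have h1 : 0 ≤ lor a x := by linarith [one_le_lor a x]
  have hx := tc_sq x
  have ha := tc_sq a
  rw [tc, ← Real.sqrt_sq h1]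
  congr 1
  have e : ‖boost a x‖ ^ 2 = ‖x‖ ^ 2 - 2 * (tc x - ⟪x, a⟫ / (1 + tc a)) * ⟪x, a⟫
      + (tc x - ⟪x, a⟫ / (1 + tc a)) ^ 2 * ‖a‖ ^ 2 := by
    unfold boost
    rw [norm_sub_sq_real, real_inner_smul_right, norm_smul, mul_pow, Real.norm_eq_abs, sq_abs]
    ring
  rw [e, lor, real_inner_comm]
  have e2 : ‖a‖ ^ 2 = (tc a - 1) * (1 + tc a) := by nlinarith
  rw [e2]
  field_simp
  have e3 : ‖x‖ ^ 2 = tc x ^ 2 - 1 := by linarith
  rw [e3]
  ring

theorem lor_boost (a x y : E n) : lor (boost a x) (boost a y) = lor x y := by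
  have hpos : 0 < 1 + tc a := by linarith [tc_pos a]
  have ha := tc_sq a
  have e2 : ‖a‖ ^ 2 = (tc a - 1) * (1 + tc a) := by nlinarith
  have e : ⟪boost a x, boost a y⟫ = ⟪x, y⟫ - (tc y - ⟪y, a⟫ / (1 + tc a)) * ⟪x, a⟫
      - (tc x - ⟪x, a⟫ / (1 + tc a)) * ⟪y, a⟫
      + (tc x - ⟪x, a⟫ / (1 + tc a)) * (tc y - ⟪y, a⟫ / (1 + tc a)) * ‖a‖ ^ 2 := by
    unfold boost
    rw [inner_sub_left, inner_sub_right, inner_sub_right, real_inner_smul_right,
      real_inner_smul_left, real_inner_smul_left, real_inner_smul_right,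
      real_inner_self_eq_norm_sq, real_inner_comm a y]
    ring
  rw [lor, tc_boost, tc_boost, e, e2, lor, lor, lor, real_inner_comm x a, real_inner_comm y a]
  field_simp
  ring

@[simp] theorem boost_self (a : E n) : boost a a = 0 := by
  have hpos : 0 < 1 + tc a := by linarith [tc_pos a]
  have ha := tc_sq a
  have e2 : ‖a‖ ^ 2 = (tc a - 1) * (1 + tc a) := by nlinarith
  unfold boost
  rw [real_inner_self_eq_norm_sq, e2, mul_div_assoc, div_self hpos.ne', mul_one]
  simp

@[simp] theorem boost_zero_right (a : E n) : boost a 0 = -a := by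
  simp [boost]

@[simp] theorem boost_zero_left (x : E n) : boost 0 x = x := by
  simp [boost]

theorem boost_neg_boost (a x : E n) : boost (-a) (boost a x) = x := by
  have hpos : 0 < 1 + tc a := by linarith [tc_pos a]
  have ha := tc_sq a
  have e2 : ‖a‖ ^ 2 = (tc a - 1) * (1 + tc a) := by nlinarith
  have h1 : ⟪boost a x, a⟫ = ⟪x, a⟫ - (tc x - ⟪x, a⟫ / (1 + tc a)) * ‖a‖ ^ 2 := by
    unfold boost
    rw [inner_sub_left, real_inner_smul_left, real_inner_self_eq_norm_sq]
  have h2 : boost (-a) (boost a x) =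
      boost a x + (tc (boost a x) + ⟪boost a x, a⟫ / (1 + tc a)) • a := by
    rw [boost_def (-a), inner_neg_right, tc_neg, smul_neg, sub_neg_eq_add]
    congr 2
    ring
  rw [h2, h1, tc_boost, lor, e2]
  unfold boost
  rw [sub_add_eq_add_sub, add_sub_assoc, ← sub_smul, real_inner_comm x a]
  have : tc a * tc x - ⟪x, a⟫ + (⟪x, a⟫ - (tc x - ⟪x, a⟫ / (1 + tc a)) * ((tc a - 1) * (1 + tc a)))
      / (1 + tc a) - (tc x - ⟪x, a⟫ / (1 + tc a)) = 0 := by
    field_simp
    ring
  rw [this, zero_smul, add_zero]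

theorem boost_boost_neg (a x : E n) : boost a (boost (-a) x) = x := by
  have h := boost_neg_boost (-a) x
  rwa [neg_neg] at h

theorem continuous_tc : Continuous (tc : E n → ℝ) := by
  unfold tc
  fun_prop

theorem continuous_lor : Continuous fun p : E n × E n => lor p.1 p.2 := by
  unfold lor
  exact ((continuous_tc.comp continuous_fst).mul (continuous_tc.comp continuous_snd)).sub
    (continuous_fst.inner continuous_snd)

theorem continuous_boost (a : E n) : Continuous (boost a) := by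
  unfold boost
  exact continuous_id.sub ((continuous_tc.sub ((continuous_id.inner continuous_const).div_const _)).smul
    continuous_const)

theorem norm_boost_sq (a x : E n) : ‖boost a x‖ ^ 2 = lor a x ^ 2 - 1 := by
  have h := tc_sq (boost a x)
  rw [tc_boost] at h
  linarith

end Pool.Agent.H62.WS
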