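import Pool.Agent.H62.WS.HHyp
import Pool.Agent.H62.WS.HHypF

set_option autoImplicit false

/-!
# [H62 WS RADIUS] The radius of the ball with a given boundary measure

`bd n (frontier (ball p R)) = ofReal (sinh R ^ (n-1)) * (cst n * sg n univ)` (`frontier_ball_hyp`, `bd_sphere`), `K = cst n * sg n univ` is positive and finite (`cst_ne_zero`, `cst_ne_top`, `sg_univ_pos`).  `R = arsinh ((m/K).toReal ^ (1/(n-1)))`; uniqueness:
`sinh^(n-1)` is injective on `(0,∞)`.
-/

namespace Pool.Agent.H62.WS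

open scoped RealInnerProductSpace MeasureTheory ENNReal NNReal
open MeasureTheory Set Metric

variable {n : ℕ}

private theorem radius_K0 (hn : 2 ≤ n) : cst n * sg n univ ≠ 0 :=
  mul_ne_zero (cst_ne_zero hn) (sg_univ_pos hn).ne'

private theorem radius_Kt (hn : 2 ≤ n) : cst n * sg n univ ≠ ∞ :=
  ENNReal.mul_ne_top (cst_ne_top hn) (measure_ne_top _ _)

private theorem radius_bd (hn : 2 ≤ n) (p : Hyp n) {R : ℝ} (hR : 0 < R) :
    bd n (frontier (ball p R)) =
      ENNReal.ofReal (Real.sinh R ^ (n - 1)) * (cst n * sg n univ) := by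
  rw [frontier_ball_hyp hn p hR, bd_sphere hn p hR]

private theorem radius_eq' (hn : 2 ≤ n) {p q : Hyp n} {R S : ℝ} (hR : 0 < R) (hS : 0 < S)
    (h : bd n (frontier (ball p R)) = bd n (frontier (ball q S))) : R = S := by
  rw [radius_bd hn p hR, radius_bd hn q hS,
    ENNReal.mul_left_inj (radius_K0 hn) (radius_Kt hn)] at h
  have h1 : 0 < Real.sinh R := Real.sinh_pos_iff.mpr hR
  have h2 : 0 < Real.sinh S := Real.sinh_pos_iff.mpr hS
  rw [ENNReal.ofReal_eq_ofReal_iff (by positivity) (by positivity)] at h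
  have h3 := (pow_left_inj₀ h1.le h2.le (by omega : n - 1 ≠ 0)).mp h
  exact Real.sinh_injective h3

/-- the radius of the ball with the same boundary measure -/
theorem exists_radius (hn : 2 ≤ n) {m : ℝ≥0∞} (h0 : 0 < m) (h1 : m < ∞) :
    ∃! R : ℝ, 0 < R ∧ ∀ p : Hyp n, bd n (frontier (ball p R)) = m := by
  have hK0 := radius_K0 hn
  have hKt := radius_Kt hn
  have hpos : 0 < (m / (cst n * sg n univ)).toReal :=
    ENNReal.toReal_pos (ENNReal.div_pos h0.ne' hKt).ne' (ENNReal.div_lt_top h1.ne hK0).ne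
  have hR : 0 < Real.arsinh ((m / (cst n * sg n univ)).toReal ^ (((n - 1 : ℕ) : ℝ)⁻¹)) :=
    Real.arsinh_pos_iff.mpr (Real.rpow_pos_of_pos hpos _)
  refine ⟨Real.arsinh ((m / (cst n * sg n univ)).toReal ^ (((n - 1 : ℕ) : ℝ)⁻¹)),
    ⟨hR, fun p => ?_⟩, fun S hS => ?_⟩
  · rw [radius_bd hn p hR, Real.sinh_arsinh, Real.rpow_inv_natCast_pow hpos.le (by omega),
      ENNReal.ofReal_toReal (ENNReal.div_lt_top h1.ne hK0).ne, ENNReal.div_mul_cancel hK0 hKt]
  · refine radius_eq' hn (p := org n) (q := org n) hS.1 hR ?_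
    rw [hS.2, radius_bd hn (org n) hR, Real.sinh_arsinh,
      Real.rpow_inv_natCast_pow hpos.le (by omega),
      ENNReal.ofReal_toReal (ENNReal.div_lt_top h1.ne hK0).ne, ENNReal.div_mul_cancel hK0 hKt]

/-- two balls with the same boundary measure have the same radius -/
theorem radius_eq (hn : 2 ≤ n) {p q : Hyp n} {R S : ℝ} (hR : 0 < R) (hS : 0 < S)
    (h : bd n (frontier (ball p R)) = bd n (frontier (ball q S))) : R = S :=
  radius_eq' hn hR hS h

end Pool.Agent.H62.WS
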