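import Pool.Agent.H62.WS.MainIneq
import Pool.Agent.H62.WS.BallSig
import Pool.Agent.H62.WS.Radius
import Pool.Agent.H62.WS.Com
import Pool.Agent.H62.WS.Conv
import Pool.Agent.H62.WS.Equal

set_option autoImplicit false

/-!
# [H62 WS MAIN] The Weinstock inequality in hyperbolic space
-/

namespace Pool.Agent.H62.WS

open scoped RealInnerProductSpace MeasureTheory ENNReal NNReal
open MeasureTheory Set Metric

variable {n : ℕ}

theorem sigma1_ball (p : Hyp n) (R : ℝ) : sigma1 (ball p R) = sigma1 (ball (org n) R) := by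
  rw [← sigma1_image p.pt (ball p R), IsometryEquiv.image_ball, boostIso_self]

theorem sigma1_nonneg (Ω : Set (Hyp n)) : 0 ≤ sigma1 Ω :=
  Real.sInf_nonneg fun _ ht => rayleigh_nonneg ht

theorem sigma1_le_of_center (hn : 2 ≤ n) {Ω : Set (Hyp n)} (hΩ : IsOpen Ω)
    (hb : Bornology.IsBounded Ω) (hpos : 0 < bd n (frontier Ω)) (hfin : bd n (frontier Ω) < ∞)
    (hB : BallCond Ω) {R : ℝ} (hR : 0 < R) (hRe : bd n (frontier Ω) = bd n (sphere (org n) R))
    (h0 : ∀ i : Fin n, ∫ p in frontier Ω, uu i p ∂bd n = 0) :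
    sigma1 Ω ≤ gg (n - 1) R / (cst n).toReal := by
  have hN : 1 ≤ n - 1 := by omega
  have h1 := main_ineq hn hΩ hb hfin hB hR hRe
  have h2 := sigma1_mul_le hn hΩ hb hfin h0
  have h3 : cst n * ENNReal.ofReal (sigma1 Ω) * BI n Ω ≤ ENNReal.ofReal (gg (n - 1) R) * BI n Ω := by
    rw [mul_assoc]
    exact (mul_le_mul_right h2 (cst n)).trans h1
  have h4 : cst n * ENNReal.ofReal (sigma1 Ω) ≤ ENNReal.ofReal (gg (n - 1) R) :=
    (ENNReal.mul_le_mul_iff_left (BI_pos hn hpos).ne' (BI_lt_top hn hb hfin).ne).mp h3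
  have hc : 0 < (cst n).toReal := ENNReal.toReal_pos (cst_ne_zero hn) (cst_ne_top hn)
  rw [le_div_iff₀ hc, mul_comm]
  have h5 := ENNReal.toReal_mono ENNReal.ofReal_ne_top h4
  rwa [ENNReal.toReal_mul, ENNReal.toReal_ofReal (sigma1_nonneg Ω),
    ENNReal.toReal_ofReal (gg_pos hN hR).le] at h5

theorem sigma1_lt_of_center (hn : 2 ≤ n) {Ω : Set (Hyp n)} (hΩ : IsOpen Ω)
    (hb : Bornology.IsBounded Ω) (hpos : 0 < bd n (frontier Ω)) (hfin : bd n (frontier Ω) < ∞)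
    (hB : BallCond Ω) {R : ℝ} (hR : 0 < R) (hRe : bd n (frontier Ω) = bd n (sphere (org n) R))
    (h0 : ∀ i : Fin n, ∫ p in frontier Ω, uu i p ∂bd n = 0)
    (hne : ¬ ∀ᵐ θ ∂sg n, rho Ω θ = R) :
    sigma1 Ω < gg (n - 1) R / (cst n).toReal := by
  have hN : 1 ≤ n - 1 := by omega
  have h1 := main_strict hn hΩ hb hfin hB hR hRe hne
  have h2 := sigma1_mul_le hn hΩ hb hfin h0
  have h3 : cst n * ENNReal.ofReal (sigma1 Ω) * BI n Ω < ENNReal.ofReal (gg (n - 1) R) * BI n Ω := by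
    rw [mul_assoc]
    exact (mul_le_mul_right h2 (cst n)).trans_lt h1
  have h4 : cst n * ENNReal.ofReal (sigma1 Ω) < ENNReal.ofReal (gg (n - 1) R) :=
    (ENNReal.mul_lt_mul_iff_left (BI_pos hn hpos).ne' (BI_lt_top hn hb hfin).ne).mp h3
  have hc : 0 < (cst n).toReal := ENNReal.toReal_pos (cst_ne_zero hn) (cst_ne_top hn)
  rw [lt_div_iff₀ hc, mul_comm]
  have h5 := ENNReal.toReal_strict_mono ENNReal.ofReal_ne_top h4
  rwa [ENNReal.toReal_mul, ENNReal.toReal_ofReal (sigma1_nonneg Ω),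
    ENNReal.toReal_ofReal (gg_pos hN hR).le] at h5

theorem isBounded_image (φ : Hyp n ≃ᵢ Hyp n) {Ω : Set (Hyp n)} (hb : Bornology.IsBounded Ω) :
    Bornology.IsBounded (φ '' Ω) :=
  φ.isometry.lipschitz.isBounded_image hb

/-- the inequality for the large class -/
theorem weinstock_class (hn : 2 ≤ n) {Ω : Set (Hyp n)} (hΩ : IsOpen Ω)
    (hb : Bornology.IsBounded Ω) (hne : Ω.Nonempty) (hfin : bd n (frontier Ω) < ∞)
    (hB : BallCond Ω) {R : ℝ} (hR : 0 < R)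
    (hRe : ∀ p : Hyp n, bd n (frontier (ball p R)) = bd n (frontier Ω)) (p : Hyp n) :
    sigma1 Ω ≤ sigma1 (ball p R) := by
  obtain ⟨a, ha⟩ := exists_center_uu hn hb hfin
  set Ω' := boostIso a '' Ω with hΩ'
  have e1 : bd n (frontier Ω') = bd n (frontier Ω) := by
    rw [hΩ', image_frontier, bd_image]
  have hRe' : bd n (frontier Ω') = bd n (sphere (org n) R) := by
    rw [e1, ← hRe (org n), frontier_ball_hyp hn _ hR]
  have h1 := sigma1_le_of_center hn ((boostIso a).toHomeomorph.isOpenMap Ω hΩ)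
    (isBounded_image _ hb) (e1 ▸ bd_frontier_pos hn hΩ hb hne) (e1 ▸ hfin) (hB.image _) hR hRe' ha
  rw [sigma1_ball, ← sigma1_image a Ω]
  exact h1.trans (le_sigma1_ball hn hR)

theorem weinstock_eq (hn : 2 ≤ n) {Ω : Set (Hyp n)} (hΩ : IsOpen Ω)
    (hb : Bornology.IsBounded Ω) (hne : Ω.Nonempty) (hc : GeodConvex Ω) {R : ℝ} (hR : 0 < R)
    (hRe : ∀ p : Hyp n, bd n (frontier (ball p R)) = bd n (frontier Ω)) (p : Hyp n)
    (he : sigma1 Ω = sigma1 (ball p R)) : ∃ q, Ω = ball q R := by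
  have hfin := bd_frontier_lt_top hn hΩ hc hb hne
  have hB := hc.ballCond hΩ hne
  obtain ⟨a, ha⟩ := exists_center_uu hn hb hfin
  set Ω' := boostIso a '' Ω with hΩ'
  have e1 : bd n (frontier Ω') = bd n (frontier Ω) := by
    rw [hΩ', image_frontier, bd_image]
  have hRe' : bd n (frontier Ω') = bd n (sphere (org n) R) := by
    rw [e1, ← hRe (org n), frontier_ball_hyp hn _ hR]
  have ho : IsOpen Ω' := (boostIso a).toHomeomorph.isOpenMap Ω hΩ
  have hb' : Bornology.IsBounded Ω' := isBounded_image _ hb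
  have hae : ∀ᵐ θ ∂sg n, rho Ω' θ = R := by
    by_contra hcon
    have h1 := sigma1_lt_of_center hn ho hb' (e1 ▸ bd_frontier_pos hn hΩ hb hne) (e1 ▸ hfin)
      (hB.image _) hR hRe' ha hcon
    have h2 := le_sigma1_ball hn hR
    rw [← sigma1_ball p R, ← he, ← sigma1_image a Ω] at h2
    exact absurd h1 (not_lt.mpr h2)
  have h3 := eq_ball_of_rho hn ho hb' (hc.image _) (hne.image _) hR hae
  refine ⟨(boostIso a).symm (org n), ?_⟩
  rw [← IsometryEquiv.image_ball, ← h3, hΩ', ← image_comp]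
  have : ((boostIso a).symm : Hyp n → Hyp n) ∘ boostIso a = id := by
    ext q : 1
    simp
  rw [this, image_id]

theorem weinstock_convex (hn : 2 ≤ n) {Ω : Set (Hyp n)} (hΩ : IsOpen Ω)
    (hb : Bornology.IsBounded Ω) (hne : Ω.Nonempty) (hc : GeodConvex Ω) :
    0 < bd n (frontier Ω) ∧ bd n (frontier Ω) < ∞ ∧
    ∃! R : ℝ, (0 < R ∧ ∀ p : Hyp n, bd n (frontier (ball p R)) = bd n (frontier Ω)) ∧
      ∀ p : Hyp n, sigma1 Ω ≤ sigma1 (ball p R) ∧
        (sigma1 Ω = sigma1 (ball p R) ↔ ∃ q S, Ω = ball q S) := by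
  have hfin := bd_frontier_lt_top hn hΩ hc hb hne
  have hpos := bd_frontier_pos hn hΩ hb hne
  obtain ⟨R, ⟨hR, hRe⟩, huniq⟩ := exists_radius hn hpos hfin
  refine ⟨hpos, hfin, R, ⟨⟨hR, hRe⟩, fun p => ⟨?_, ?_, ?_⟩⟩, fun S hS => huniq S hS.1⟩
  · exact weinstock_class hn hΩ hb hne hfin (hc.ballCond hΩ hne) hR hRe p
  · intro he
    obtain ⟨q, hq⟩ := weinstock_eq hn hΩ hb hne hc hR hRe p he
    exact ⟨q, R, hq⟩
  · rintro ⟨q, S, hq⟩
    have hS : 0 < S := by
      by_contra hcon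
      rw [hq, ball_eq_empty.mpr (not_lt.mp hcon)] at hne
      exact not_nonempty_empty hne
    have h1 := hRe q
    rw [hq] at h1
    have h2 := radius_eq hn hR hS h1
    rw [hq, ← h2, sigma1_ball, sigma1_ball p]

end Pool.Agent.H62.WS
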