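import Pool.Agent.H62.WS.Out
import Pool.Agent.H62.WS.RhoB

set_option autoImplicit false

/-!
# [H62 WS RHO] Positivity

* `sg_rho_pos`: `Ω ∖ {org n}` is nonempty (an open nonempty set in `Hyp n`, `n ≥ 2`, is not a single point: by the chart `homeo n`) ; take a point `p = sph r₁ θ₁` of it, `r₁ > 0` (`exists_sph`);
  `{θ | sph r₁ θ ∈ Ω}` is open and nonempty, contained in `{θ | 0 < rho Ω θ}` (`Eth_subset`); `Measure.toSphere` is positive on nonempty open sets (`IsOpenPosMeasure` instance for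
  `toSphere`; if there is none: `toSphere_apply'`, the open cone `Ioo 0 1 • U` is a nonempty open set of `E n`).
* `bd_frontier_pos`: for a small `a > 0` the set `D = {θ | a < rho Ω θ}` has positive measure (`{0 < rho} = ⋃ {1/(k+1) < rho}`, `measure_iUnion_null`); `outer_meas` with `K = frontier Ω`, `r = a`
  (`sph_rho_mem_frontier`), `cst_ne_zero`.
-/

namespace Pool.Agent.H62.WS

open scoped RealInnerProductSpace MeasureTheory ENNReal NNReal
open MeasureTheory Set Metric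

variable {n : ℕ}

theorem sg_rho_pos (hn : 2 ≤ n) {Ω : Set (Hyp n)} (hΩ : IsOpen Ω) (hb : Bornology.IsBounded Ω)
    (hne : Ω.Nonempty) : 0 < sg n {θ | 0 < rho Ω θ} := by
  have hnt : Nontrivial (E n) :=
    Module.nontrivial_of_finrank_pos (R := ℝ) (by rw [finrank_euclideanSpace_fin]; omega)
  -- a point of `Ω` which is not the origin
  obtain ⟨p, hp, hp0⟩ : ∃ p ∈ Ω, p ≠ org n := by
    obtain ⟨q, hq⟩ := hne
    by_cases hq0 : q = org n
    · have h1 : IsOpen ((Hyp.mk : E n → Hyp n) ⁻¹' Ω) := hΩ.preimage continuous_mk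
      have h2 : (0 : E n) ∈ (Hyp.mk : E n → Hyp n) ⁻¹' Ω := by
        rw [hq0] at hq
        exact hq
      obtain ⟨ε, hε, hball⟩ := Metric.isOpen_iff.mp h1 0 h2
      obtain ⟨v, hv⟩ := exists_ne (0 : E n)
      have hv' : 0 < ‖v‖ := norm_pos_iff.mpr hv
      have h3 : 0 < ε / 2 / ‖v‖ := by positivity
      refine ⟨⟨(ε / 2 / ‖v‖) • v⟩, hball ?_, fun h => ?_⟩
      · rw [mem_ball_zero_iff, norm_smul, Real.norm_of_nonneg h3.le, div_mul_cancel₀ _ hv'.ne']
        linarith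
      · have h4 : (ε / 2 / ‖v‖) • v = 0 := congrArg Hyp.pt h
        rcases smul_eq_zero.mp h4 with h5 | h5
        · exact h3.ne' h5
        · exact hv h5
    · exact ⟨q, hq, hq0⟩
  obtain ⟨θ₁, hθ₁⟩ := exists_sph hn p
  have hr : 0 < dist (org n) p := dist_pos.mpr (Ne.symm hp0)
  have h1 : IsOpen {θ : sphere (0 : E n) 1 | sph (dist (org n) p) θ ∈ Ω} :=
    hΩ.preimage (continuous_sph.comp (continuous_const.prodMk continuous_id))
  have h2 : (0 : ℝ≥0∞) < sg n {θ : sphere (0 : E n) 1 | sph (dist (org n) p) θ ∈ Ω} := by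
    have : (sg n).IsOpenPosMeasure := by
      unfold sg
      infer_instance
    refine h1.measure_pos (sg n) ⟨θ₁, ?_⟩
    rw [mem_setOf_eq, ← hθ₁]
    exact hp
  refine h2.trans_le (measure_mono fun θ hθ => ?_)
  exact hr.trans (Eth_subset hΩ hb θ ⟨hr, hθ⟩).2

theorem bd_frontier_pos (hn : 2 ≤ n) {Ω : Set (Hyp n)} (hΩ : IsOpen Ω) (hb : Bornology.IsBounded Ω)
    (hne : Ω.Nonempty) : 0 < bd n (frontier Ω) := by
  have h1 := sg_rho_pos hn hΩ hb hne
  have h2 : {θ : sphere (0 : E n) 1 | 0 < rho Ω θ} =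
      ⋃ k : ℕ, {θ | 1 / ((k : ℝ) + 1) < rho Ω θ} := by
    ext θ
    simp only [mem_setOf_eq, mem_iUnion]
    constructor
    · intro h
      exact exists_nat_one_div_lt h
    · rintro ⟨k, hk⟩
      have : (0 : ℝ) < 1 / ((k : ℝ) + 1) := by positivity
      linarith
  obtain ⟨k, hk⟩ : ∃ k : ℕ, sg n {θ : sphere (0 : E n) 1 | 1 / ((k : ℝ) + 1) < rho Ω θ} ≠ 0 := by
    by_contra hcon
    push Not at hcon
    rw [h2, measure_iUnion_null hcon] at h1
    exact lt_irrefl _ h1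
  have ha : (0 : ℝ) < 1 / ((k : ℝ) + 1) := by positivity
  have hD : MeasurableSet {θ : sphere (0 : E n) 1 | 1 / ((k : ℝ) + 1) < rho Ω θ} :=
    measurableSet_lt measurable_const (measurable_rho hΩ hb)
  have h3 := outer_meas hn ha hD (frontier Ω) (fun θ hθ =>
    ⟨rho Ω θ, le_of_lt hθ, sph_rho_mem_frontier hΩ hb (ha.trans hθ)⟩)
  have h4 : 0 < ENNReal.ofReal (Real.sinh (1 / ((k : ℝ) + 1)) ^ (n - 1)) *
      (cst n * sg n {θ : sphere (0 : E n) 1 | 1 / ((k : ℝ) + 1) < rho Ω θ}) := by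
    have h5 : 0 < Real.sinh (1 / ((k : ℝ) + 1)) ^ (n - 1) := pow_pos (Real.sinh_pos_iff.mpr ha) _
    exact ENNReal.mul_pos (ENNReal.ofReal_pos.mpr h5).ne' (mul_ne_zero (cst_ne_zero hn) hk)
  exact h4.trans_le (h3.trans (measure_mono inter_subset_left))

end Pool.Agent.H62.WS
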