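import Pool.Agent.H62.WS.Dir
import Pool.Agent.H62.WS.Rho
import Pool.Agent.H62.WS.UpperA

set_option autoImplicit false

/-!
# [H62 WS MAINA] The two sides of the main inequality: finiteness, positivity

* `BI_lt_top`, `A_minus_lt_top`: the integrands are bounded on the bounded set `frontier Ω` (`ff_le`, `0 ≤ ff`; `-aa ≤ mm`), the measure is finite.
* `BI_pos`: otherwise `ff (dist (org n) p) = 0` for a.e. `p ∈ frontier Ω`, i.e. `dist = 0` (`ff_pos`), so `frontier Ω` is `{org n}` up to a null set; points are null for `μHE[n-1]`, `n ≥ 2`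
  (`MeasureTheory.Measure.euclideanHausdorffMeasure`: no atoms / via `hausdorffMeasure` of a singleton).
* `BI_identity`: pointwise `ofReal (g f²) + ofReal (-a) = ofReal a + ofReal m0` as `g f² = a + m0`, `m0 > 0`, `g f² ≥ 0` (`n - 1 ≥ 1`, `hR`); `lintegral_add_left`, `lintegral_const_mul`, measurability (`measurable_aa`, `measurable_ff`).
-/

namespace Pool.Agent.H62.WS

open scoped RealInnerProductSpace MeasureTheory ENNReal NNReal
open MeasureTheory Set Metric

variable {n : ℕ}

/-- the energy side, as an integral over the directions -/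
noncomputable def WI (n : ℕ) (Ω : Set (Hyp n)) : ℝ≥0∞ :=
  ∫⁻ θ, (∫⁻ r in Eth Ω θ, ENNReal.ofReal (ww (n - 1) r)) ∂sg n

/-- the boundary side -/
noncomputable def BI (n : ℕ) (Ω : Set (Hyp n)) : ℝ≥0∞ :=
  ∫⁻ p in frontier Ω, ENNReal.ofReal (ff (n - 1) (dist (org n) p) ^ 2) ∂bd n

/-- the integrands of the two sides of `dir_ineq` -/
noncomputable def Lhs (n : ℕ) (Ω : Set (Hyp n)) (R r₀ : ℝ) (θ : sphere (0 : E n) 1) : ℝ≥0∞ :=
  (∫⁻ t in Ioo 0 r₀ \ Eth Ω θ, ENNReal.ofReal (aa' (n - 1) R t) *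
    ENNReal.ofReal (Real.sinh t ^ (n - 1))) +
    ∫⁻ t in Eth Ω θ, ENNReal.ofReal (ww (n - 1) t)

noncomputable def Rhs (n : ℕ) (Ω : Set (Hyp n)) (R : ℝ) (θ : sphere (0 : E n) 1) : ℝ≥0∞ :=
  ENNReal.ofReal (aa (n - 1) R (rho Ω θ)) * ENNReal.ofReal (Real.sinh (rho Ω θ) ^ (n - 1)) +
    ENNReal.ofReal (mm (n - 1) R * Real.sinh R ^ (n - 1))

private theorem mainA_ff_zero (N : ℕ) : ff N 0 = 0 := by
  unfold ff
  rw [VV_zero, zero_div]

private theorem mainA_ff_nonneg (N : ℕ) {r : ℝ} (hr : 0 ≤ r) : 0 ≤ ff N r := by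
  rcases hr.eq_or_lt with rfl | h
  · rw [mainA_ff_zero]
  · exact (ff_pos N h).le

private theorem mainA_dist : Measurable fun p : Hyp n => dist (org n) p :=
  (continuous_const.dist continuous_id).measurable

/-- `BI` is finite: `ff` is bounded on bounded sets, the boundary measure is finite -/
theorem BI_lt_top (hn : 2 ≤ n) {Ω : Set (Hyp n)} (hb : Bornology.IsBounded Ω)
    (hfin : bd n (frontier Ω) < ∞) : BI n Ω < ∞ := by
  obtain ⟨M, hM⟩ := hb.subset_closedBall (org n)
  have hfr : ∀ p ∈ frontier Ω, dist (org n) p ≤ M := by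
    intro p hp
    have h1 : p ∈ closedBall (org n) M :=
      (closure_minimal hM isClosed_closedBall) (frontier_subset_closure hp)
    rw [mem_closedBall, dist_comm] at h1
    exact h1
  have hle : ∀ p ∈ frontier Ω, ENNReal.ofReal (ff (n - 1) (dist (org n) p) ^ 2) ≤
      ENNReal.ofReal (Real.sinh M ^ 2) := by
    intro p hp
    apply ENNReal.ofReal_le_ofReal
    apply pow_le_pow_left₀ (mainA_ff_nonneg _ dist_nonneg)
    rcases (dist_nonneg (x := org n) (y := p)).eq_or_lt with h | h
    · rw [← h, mainA_ff_zero]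
      exact Real.sinh_nonneg_iff.mpr (dist_nonneg.trans (hfr p hp))
    · exact (ff_le (n - 1) h).trans (Real.sinh_le_sinh.mpr (hfr p hp))
  calc BI n Ω ≤ ∫⁻ _ in frontier Ω, ENNReal.ofReal (Real.sinh M ^ 2) ∂bd n :=
        setLIntegral_mono' isClosed_frontier.measurableSet hle
    _ = ENNReal.ofReal (Real.sinh M ^ 2) * bd n (frontier Ω) := by
        rw [lintegral_const, Measure.restrict_apply_univ]
    _ < ∞ := ENNReal.mul_lt_top ENNReal.ofReal_lt_top hfin

/-- `BI` is positive: points are null sets (`n ≥ 2`), `ff > 0` off the origin -/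
theorem BI_pos (hn : 2 ≤ n) {Ω : Set (Hyp n)} (hpos : 0 < bd n (frontier Ω)) : 0 < BI n Ω := by
  have hm : Measurable fun p : Hyp n => ENNReal.ofReal (ff (n - 1) (dist (org n) p) ^ 2) :=
    (((measurable_ff (n - 1)).comp mainA_dist).pow_const 2).ennreal_ofReal
  have hpt : bd n {org n} = 0 := by
    unfold bd
    rw [Measure.euclideanHausdorffMeasure_def]
    haveI : NullSingletonClass (μH[((n - 1 : ℕ) : ℝ)] : Measure (Hyp n)) := by
      apply Measure.nullSingletonClass_hausdorff
      have h1 : 0 < n - 1 := by omega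
      exact_mod_cast h1
    rw [Measure.smul_apply, measure_singleton, smul_zero]
  have h1 : frontier Ω ⊆ (Function.support
      (fun p : Hyp n => ENNReal.ofReal (ff (n - 1) (dist (org n) p) ^ 2)) ∩ frontier Ω) ∪
        {org n} := by
    intro p hp
    by_cases h : p = org n
    · exact Or.inr h
    · left
      refine ⟨?_, hp⟩
      rw [Function.mem_support]
      have h2 : 0 < dist (org n) p := dist_pos.mpr (Ne.symm h)
      have h3 := ff_pos (n - 1) h2
      exact (ENNReal.ofReal_pos.mpr (by positivity)).ne'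
  have h2 := measure_mono (μ := bd n) h1
  have h3 := h2.trans (measure_union_le _ _)
  rw [hpt, add_zero] at h3
  unfold BI
  exact (setLIntegral_pos_iff hm).mpr (hpos.trans_le h3)

/-- `g(R) BI + A⁻ = A⁺ + m0 |∂Ω|` -/
theorem BI_identity (hn : 2 ≤ n) {Ω : Set (Hyp n)} {R : ℝ} (hR : 0 < R) :
    ENNReal.ofReal (gg (n - 1) R) * BI n Ω +
      ∫⁻ p in frontier Ω, ENNReal.ofReal (-aa (n - 1) R (dist (org n) p)) ∂bd n =
    (∫⁻ p in frontier Ω, ENNReal.ofReal (aa (n - 1) R (dist (org n) p)) ∂bd n) +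
      ENNReal.ofReal (mm (n - 1) R) * bd n (frontier Ω) := by
  have hm : Measurable fun p : Hyp n => ENNReal.ofReal (ff (n - 1) (dist (org n) p) ^ 2) :=
    (((measurable_ff (n - 1)).comp mainA_dist).pow_const 2).ennreal_ofReal
  have ha : Measurable fun p : Hyp n => ENNReal.ofReal (aa (n - 1) R (dist (org n) p)) :=
    ((measurable_aa (n - 1) R).comp mainA_dist).ennreal_ofReal
  have hN : 1 ≤ n - 1 := by omega
  have hmm := mm_pos hN hR
  have hgg := gg_pos hN hR
  unfold BI
  rw [← lintegral_const_mul _ hm, ← lintegral_add_left (hm.const_mul _)]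
  have hc : ENNReal.ofReal (mm (n - 1) R) * bd n (frontier Ω) =
      ∫⁻ _ in frontier Ω, ENNReal.ofReal (mm (n - 1) R) ∂bd n := by
    rw [lintegral_const, Measure.restrict_apply_univ]
  rw [hc, ← lintegral_add_left ha]
  apply lintegral_congr
  intro p
  have h1 : gg (n - 1) R * ff (n - 1) (dist (org n) p) ^ 2 =
      aa (n - 1) R (dist (org n) p) + mm (n - 1) R := by
    unfold aa
    ring
  have h2 : 0 ≤ aa (n - 1) R (dist (org n) p) + mm (n - 1) R := by
    rw [← h1]
    positivity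
  rw [← ENNReal.ofReal_mul hgg.le, h1]
  generalize aa (n - 1) R (dist (org n) p) = x at h2 ⊢
  rcases le_total 0 x with h | h
  · rw [ENNReal.ofReal_of_nonpos (neg_nonpos.mpr h), add_zero, ENNReal.ofReal_add h hmm.le]
  · rw [ENNReal.ofReal_of_nonpos h, zero_add, ← ENNReal.ofReal_add h2 (neg_nonneg.mpr h)]
    congr 1
    ring

theorem A_minus_lt_top (hn : 2 ≤ n) {Ω : Set (Hyp n)} (hb : Bornology.IsBounded Ω)
    (hfin : bd n (frontier Ω) < ∞) {R : ℝ} (hR : 0 < R) :
    ∫⁻ p in frontier Ω, ENNReal.ofReal (-aa (n - 1) R (dist (org n) p)) ∂bd n < ∞ := by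
  have hN : 1 ≤ n - 1 := by omega
  have hgg := gg_pos hN hR
  calc ∫⁻ p in frontier Ω, ENNReal.ofReal (-aa (n - 1) R (dist (org n) p)) ∂bd n
      ≤ ∫⁻ _ in frontier Ω, ENNReal.ofReal (mm (n - 1) R) ∂bd n := by
        apply lintegral_mono
        intro p
        apply ENNReal.ofReal_le_ofReal
        unfold aa
        have : 0 ≤ gg (n - 1) R * ff (n - 1) (dist (org n) p) ^ 2 := by positivity
        linarith
    _ = ENNReal.ofReal (mm (n - 1) R) * bd n (frontier Ω) := by
        rw [lintegral_const, Measure.restrict_apply_univ]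
    _ < ∞ := ENNReal.mul_lt_top ENNReal.ofReal_lt_top hfin

end Pool.Agent.H62.WS
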