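import Pool.Agent.H62.WS.OutStep
import Pool.Agent.H62.WS.Rho

set_option autoImplicit false

/-!
# [H62 WS OUTINT] The outer integral inequality

`outer_step` with `δ = 1/(m+1)`; `δ ⌊rho/δ⌋₊ → rho` as `m → ∞` (`|δ ⌊x/δ⌋₊ - x| ≤ δ` for `x ≥ 0`), so where `rho Ω θ > 0` the integrand tends to `φ(rho θ) ofReal (sinh(rho θ)^(n-1))` (`hc`; `φ(rho)` may be `∞`: multiplication
of `ENNReal` limits: `ENNReal.Tendsto.mul`, the second factor tends to a finite nonzero limit), and where `rho Ω θ = 0` the right integrand is `φ 0 * 0 = 0`.  Fatou: `lintegral_liminf_le` (measurability of the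
approximations: `θ ↦ ⌊rho Ω θ/δ⌋₊` is measurable with countable range, compose with any function on `ℕ`: `measurable_from_top`/`Measurable.comp`).
-/

namespace Pool.Agent.H62.WS

open scoped RealInnerProductSpace MeasureTheory ENNReal NNReal
open MeasureTheory Set Metric

variable {n : ℕ}

theorem outer_int (hn : 2 ≤ n) {Ω : Set (Hyp n)} (hΩ : IsOpen Ω) (hb : Bornology.IsBounded Ω)
    {φ : ℝ → ℝ≥0∞} (hφ : MonotoneOn φ (Ioi 0)) (hc : ContinuousOn φ (Ioi 0)) :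
    cst n * ∫⁻ θ, φ (rho Ω θ) * ENNReal.ofReal (Real.sinh (rho Ω θ) ^ (n - 1)) ∂sg n ≤
      ∫⁻ p in frontier Ω, φ (dist (org n) p) ∂bd n := by
  obtain ⟨RHS, hRHS⟩ : ∃ RHS : ℝ≥0∞, RHS = ∫⁻ p in frontier Ω, φ (dist (org n) p) ∂bd n := ⟨_, rfl⟩
  obtain ⟨x, hx⟩ : ∃ x : ℕ → sphere (0 : E n) 1 → ℝ, x = fun (m : ℕ) θ =>
    1 / ((m : ℝ) + 1) * (⌊rho Ω θ / (1 / ((m : ℝ) + 1))⌋₊ : ℝ) := ⟨_, rfl⟩
  obtain ⟨F, hF⟩ : ∃ F : ℕ → sphere (0 : E n) 1 → ℝ≥0∞, F = fun m θ =>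
    φ (x m θ) * ENNReal.ofReal (Real.sinh (x m θ) ^ (n - 1)) := ⟨_, rfl⟩
  have hstep : ∀ m, cst n * ∫⁻ θ, F m θ ∂sg n ≤ RHS := by
    intro m
    have hδ : (0 : ℝ) < 1 / ((m : ℝ) + 1) := by positivity
    have h1 := outer_step hn hΩ hb hφ hδ
    rw [hRHS, hF, hx]
    exact h1
  have hFm : ∀ m, Measurable (F m) := by
    intro m
    have h1 : Measurable fun θ : sphere (0 : E n) 1 => ⌊rho Ω θ / (1 / ((m : ℝ) + 1))⌋₊ :=
      Nat.measurable_floor.comp ((measurable_rho hΩ hb).div_const _)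
    have h2 : Measurable fun k : ℕ => φ (1 / ((m : ℝ) + 1) * (k : ℝ)) *
        ENNReal.ofReal (Real.sinh (1 / ((m : ℝ) + 1) * (k : ℝ)) ^ (n - 1)) :=
      measurable_of_countable _
    have h3 := h2.comp h1
    rw [hF, hx]
    exact h3
  have hxt : ∀ θ, Filter.Tendsto (fun m => x m θ) Filter.atTop (nhds (rho Ω θ)) := by
    intro θ
    have h1 := tendsto_nat_floor_mul_div_atTop (rho_nonneg Ω θ)
    have h2 : Filter.Tendsto (fun m : ℕ => (m : ℝ) + 1) Filter.atTop Filter.atTop :=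
      Filter.tendsto_atTop_add_const_right _ _ tendsto_natCast_atTop_atTop
    have h3 := h1.comp h2
    refine h3.congr fun m => ?_
    rw [hx]
    simp only [Function.comp_apply, div_div_eq_mul_div, div_one]
    ring
  have hlim : ∀ θ, φ (rho Ω θ) * ENNReal.ofReal (Real.sinh (rho Ω θ) ^ (n - 1)) ≤
      Filter.liminf (fun m => F m θ) Filter.atTop := by
    intro θ
    rcases (rho_nonneg Ω θ).eq_or_lt with h0 | h0
    · rw [← h0, Real.sinh_zero, zero_pow (by omega), ENNReal.ofReal_zero, mul_zero]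
      exact zero_le
    · have h1 : Filter.Tendsto (fun m => φ (x m θ)) Filter.atTop (nhds (φ (rho Ω θ))) :=
        ((hc.continuousAt (Ioi_mem_nhds h0)).tendsto).comp (hxt θ)
      have h2 : Filter.Tendsto (fun m => ENNReal.ofReal (Real.sinh (x m θ) ^ (n - 1)))
          Filter.atTop (nhds (ENNReal.ofReal (Real.sinh (rho Ω θ) ^ (n - 1)))) := by
        refine ENNReal.tendsto_ofReal ?_
        exact (((Real.continuous_sinh.tendsto _).comp (hxt θ)).pow (n - 1))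
      have h3 : 0 < Real.sinh (rho Ω θ) ^ (n - 1) := pow_pos (Real.sinh_pos_iff.mpr h0) _
      have h4 := ENNReal.Tendsto.mul h1 (Or.inr ENNReal.ofReal_ne_top) h2
        (Or.inl (ENNReal.ofReal_pos.mpr h3).ne')
      have h5 : Filter.liminf (fun m => F m θ) Filter.atTop =
          φ (rho Ω θ) * ENNReal.ofReal (Real.sinh (rho Ω θ) ^ (n - 1)) := by
        rw [hF]
        exact h4.liminf_eq
      exact h5.ge
  rw [← hRHS]
  have h1 : ∫⁻ θ, φ (rho Ω θ) * ENNReal.ofReal (Real.sinh (rho Ω θ) ^ (n - 1)) ∂sg n ≤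
      Filter.liminf (fun m => ∫⁻ θ, F m θ ∂sg n) Filter.atTop :=
    (lintegral_mono hlim).trans (lintegral_liminf_le hFm)
  have h2 : Filter.liminf (fun m => ∫⁻ θ, F m θ ∂sg n) Filter.atTop ≤ RHS / cst n := by
    refine Filter.liminf_le_of_le (by isBoundedDefault) fun b hb' => ?_
    obtain ⟨m, hm⟩ := hb'.exists
    refine hm.trans ?_
    rw [ENNReal.le_div_iff_mul_le (Or.inl (cst_ne_zero hn)) (Or.inl (cst_ne_top hn)), mul_comm]
    exact hstep m
  have h3 := h1.trans h2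
  rw [ENNReal.le_div_iff_mul_le (Or.inl (cst_ne_zero hn)) (Or.inl (cst_ne_top hn)), mul_comm] at h3
  exact h3

end Pool.Agent.H62.WS
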