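import Pool.Agent.H62.WS.UpperB
import Pool.Agent.H62.WS.Rho

set_option autoImplicit false

/-!
# [H62 WS UPPER] The Rayleigh bound with the test functions

For every `i`: `sigma1 Ω * ∫_{∂Ω} u_i² ≤ ∫_Ω |∇u_i|²` (if `∫ u_i² > 0` the quotient belongs to `rayleigh Ω` (`isC1_uu`, `h0`), `csInf_le` with `bddBelow_rayleigh`; otherwise the left side is `≤ 0`: `sigma1 Ω ≥ 0` (`Real.sInf_nonneg`)).  Sum over `i`:
`integral_finset_sum` (the `u_i²` are continuous, `frontier Ω` is compact with finite measure; the `gradSq (uu i)` are integrable on `Ω`), `sum_uu_sq`, `lintegral_gradSq_uu`; translate with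
`ofReal_integral_eq_lintegral_ofReal`, `ENNReal.ofReal_mul`.
-/

namespace Pool.Agent.H62.WS

open scoped RealInnerProductSpace MeasureTheory ENNReal NNReal
open MeasureTheory Set Metric

variable {n : ℕ}

theorem sigma1_mul_le (hn : 2 ≤ n) {Ω : Set (Hyp n)} (hΩ : IsOpen Ω) (hb : Bornology.IsBounded Ω)
    (hfin : bd n (frontier Ω) < ∞) (h0 : ∀ i : Fin n, ∫ p in frontier Ω, uu i p ∂bd n = 0) :
    ENNReal.ofReal (sigma1 Ω) * ∫⁻ p in frontier Ω, ENNReal.ofReal (ff (n - 1) (dist (org n) p) ^ 2) ∂bd n ≤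
      ∫⁻ θ, (∫⁻ r in Eth Ω θ, ENNReal.ofReal (ww (n - 1) r)) ∂sg n := by
  have hcont : ∀ i : Fin n, Continuous (uu i) := fun i =>
    (isC1_uu i).continuous.comp continuous_pt
  have hfc : IsCompact (frontier Ω) :=
    hb.isCompact_closure.of_isClosed_subset isClosed_frontier frontier_subset_closure
  have hint : ∀ {g : Hyp n → ℝ}, Continuous g → IntegrableOn g (frontier Ω) (bd n) := by
    intro g hg
    obtain ⟨C, hC⟩ := hfc.exists_bound_of_continuousOn hg.continuousOn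
    exact Measure.integrableOn_of_bounded hfin.ne hg.aestronglyMeasurable
      (ae_restrict_of_forall_mem isClosed_frontier.measurableSet hC)
  have hintv : ∀ {g : Hyp n → ℝ}, Continuous g → IntegrableOn g Ω (vol n) := by
    intro g hg
    obtain ⟨C, hC⟩ := hb.isCompact_closure.exists_bound_of_continuousOn hg.continuousOn
    exact Measure.integrableOn_of_bounded (vol_lt_top_of_isBounded hb).ne hg.aestronglyMeasurable
      (ae_restrict_of_forall_mem hΩ.measurableSet fun x hx => hC x (subset_closure hx))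
  have hs0 : 0 ≤ sigma1 Ω := Real.sInf_nonneg fun t ht => rayleigh_nonneg ht
  have hi : ∀ i : Fin n, sigma1 Ω * ∫ p in frontier Ω, uu i p ^ 2 ∂bd n ≤
      ∫ p in Ω, gradSq (uu i) p ∂vol n := by
    intro i
    by_cases hpos : 0 < ∫ p in frontier Ω, uu i p ^ 2 ∂bd n
    · have h1 : sigma1 Ω ≤ (∫ p in Ω, gradSq (uu i) p ∂vol n) /
          ∫ p in frontier Ω, uu i p ^ 2 ∂bd n :=
        csInf_le (bddBelow_rayleigh Ω) ⟨uu i, isC1_uu i, h0 i, hpos, rfl⟩
      exact (le_div_iff₀ hpos).1 h1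
    · have h1 : ∫ p in frontier Ω, uu i p ^ 2 ∂bd n = 0 :=
        le_antisymm (not_lt.1 hpos) (integral_nonneg fun p => sq_nonneg _)
      rw [h1, mul_zero]
      exact integral_nonneg fun p => gradSq_nonneg _ _
  have hsum : ∑ i : Fin n, sigma1 Ω * ∫ p in frontier Ω, uu i p ^ 2 ∂bd n ≤
      ∑ i : Fin n, ∫ p in Ω, gradSq (uu i) p ∂vol n := Finset.sum_le_sum fun i _ => hi i
  have e2 : ∫ p in frontier Ω, ∑ i : Fin n, uu i p ^ 2 ∂bd n =
      ∑ i : Fin n, ∫ p in frontier Ω, uu i p ^ 2 ∂bd n :=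
    integral_finsetSum _ fun i _ => hint ((hcont i).pow 2)
  have e3 : ∫ p in Ω, (∑ i : Fin n, gradSq (uu i) p) ∂vol n =
      ∑ i : Fin n, ∫ p in Ω, gradSq (uu i) p ∂vol n :=
    integral_finsetSum _ fun i _ => hintv (continuous_gradSq (isC1_uu i))
  rw [← Finset.mul_sum, ← e2, ← e3] at hsum
  have e1 : ∫⁻ p in frontier Ω, ENNReal.ofReal (ff (n - 1) (dist (org n) p) ^ 2) ∂bd n =
      ENNReal.ofReal (∫ p in frontier Ω, ∑ i : Fin n, uu i p ^ 2 ∂bd n) := by
    have hc : Continuous fun p : Hyp n => ∑ i : Fin n, uu i p ^ 2 :=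
      continuous_finsetSum _ fun i _ => (hcont i).pow 2
    rw [ofReal_integral_eq_lintegral_ofReal (f := fun p : Hyp n => ∑ i : Fin n, uu i p ^ 2)
      (hint hc) (Filter.Eventually.of_forall fun p => Finset.sum_nonneg fun i _ => sq_nonneg _)]
    simp_rw [sum_uu_sq hn]
  rw [e1, ← ENNReal.ofReal_mul hs0, ← lintegral_gradSq_uu hn hΩ hb]
  exact ENNReal.ofReal_le_ofReal hsum

end Pool.Agent.H62.WS
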