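import Pool.Agent.H62.WS.MainA
import Pool.Agent.H62.WS.OutInt
import Pool.Agent.H62.WS.InInt
import Pool.Agent.H62.WS.Upper

set_option autoImplicit false

/-!
# [H62 WS MAINB] The two sides of the main inequality: comparison

* `rhs_le`: `outer_int` with `φ = ofReal ∘ aa (n-1) R` (monotone, continuous on `Ioi 0`), and `mm * bd (frontier Ω) = mm sinh^N(R) cst sg(univ)` (`hRe`, `bd_sphere`); `lintegral_add_right` with a constant.
* `le_lhs`: `ofReal (-aa R d) = ∫⁻ t in Ioo d r₀, ofReal (aa' t)` (`int_aa'`, `d = dist (org n) p ≥ 0`), `inner_int` with `b = ofReal ∘ aa' (n-1) R` (`measurable_aa'`); its hypothesis `h` is `BallCond` for the ball of radius `t < r₀ ≤ R`: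
  `bd n (sphere (org n) t) < bd n (sphere (org n) R) = bd n (frontier Ω)` by `bd_sphere` (`sinh^N` strictly increasing, `cst * sg univ` positive and finite).  `lintegral_add_right`/`lintegral_add_left`: measurability in `θ` of
  `∫⁻ t in Eth Ω θ, ofReal (ww t)` by Tonelli (`Measurable.lintegral_prod_right'` with `measurableSet_slices`, `measurable_ww`).
* `lhs_lt_top`: `Rhs` is bounded (`exists_rho_le`, `aa_monotoneOn`; at `rho = 0` the first term is `0`), `sg n` is finite.  `measurable_Rhs`: `measurable_rho`, `measurable_aa`.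
-/

namespace Pool.Agent.H62.WS

open scoped RealInnerProductSpace MeasureTheory ENNReal NNReal
open MeasureTheory Set Metric

variable {n : ℕ}

/-- `A⁺ + m0 |∂Ω| ≥ cst ∫ Rhs` -/
theorem rhs_le (hn : 2 ≤ n) {Ω : Set (Hyp n)} (hΩ : IsOpen Ω) (hb : Bornology.IsBounded Ω)
    {R : ℝ} (hR : 0 < R) (hRe : bd n (frontier Ω) = bd n (sphere (org n) R)) :
    cst n * ∫⁻ θ, Rhs n Ω R θ ∂sg n ≤
      (∫⁻ p in frontier Ω, ENNReal.ofReal (aa (n - 1) R (dist (org n) p)) ∂bd n) +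
        ENNReal.ofReal (mm (n - 1) R) * bd n (frontier Ω) := by
  have hN : 1 ≤ n - 1 := by omega
  have h1 : ∫⁻ θ, Rhs n Ω R θ ∂sg n =
      (∫⁻ θ, ENNReal.ofReal (aa (n - 1) R (rho Ω θ)) *
        ENNReal.ofReal (Real.sinh (rho Ω θ) ^ (n - 1)) ∂sg n) +
        ENNReal.ofReal (mm (n - 1) R * Real.sinh R ^ (n - 1)) * sg n univ := by
    unfold Rhs
    rw [lintegral_add_right _ measurable_const, lintegral_const]
  have h2 := outer_int hn hΩ hb (φ := fun t => ENNReal.ofReal (aa (n - 1) R t))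
    (ENNReal.ofReal_mono.comp_monotoneOn (aa_monotoneOn hN hR))
    (ENNReal.continuous_ofReal.comp_continuousOn (aa_continuousOn (n - 1) R))
  have h3 : cst n * (ENNReal.ofReal (mm (n - 1) R * Real.sinh R ^ (n - 1)) * sg n univ) =
      ENNReal.ofReal (mm (n - 1) R) * bd n (frontier Ω) := by
    rw [hRe, bd_sphere hn (org n) hR, ENNReal.ofReal_mul (mm_pos hN hR).le]
    ring
  rw [h1, mul_add, h3]
  exact add_le_add h2 le_rfl

/-- `A⁻ + cst WI ≤ cst ∫ Lhs` -/
theorem le_lhs (hn : 2 ≤ n) {Ω : Set (Hyp n)} (hΩ : IsOpen Ω) (hb : Bornology.IsBounded Ω)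
    (hfin : bd n (frontier Ω) < ∞) (hB : BallCond Ω) {R : ℝ} (hR : 0 < R)
    (hRe : bd n (frontier Ω) = bd n (sphere (org n) R)) {r₀ : ℝ} (h0 : 0 < r₀) (h0R : r₀ ≤ R)
    (ha : aa (n - 1) R r₀ = 0) (hneg : ∀ t, 0 < t → t < r₀ → aa (n - 1) R t < 0)
    (hpos : ∀ t, r₀ ≤ t → 0 ≤ aa (n - 1) R t) :
    (∫⁻ p in frontier Ω, ENNReal.ofReal (-aa (n - 1) R (dist (org n) p)) ∂bd n) +
      cst n * WI n Ω ≤ cst n * ∫⁻ θ, Lhs n Ω R r₀ θ ∂sg n := by
  have hN : 1 ≤ n - 1 := by omega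
  have hK0 : cst n * sg n univ ≠ 0 := mul_ne_zero (cst_ne_zero hn) (sg_univ_pos hn).ne'
  have hKt : cst n * sg n univ ≠ ∞ := ENNReal.mul_ne_top (cst_ne_top hn) (measure_ne_top _ _)
  have hball : ∀ t, 0 < t → t < r₀ →
      bd n (frontier Ω ∩ ball (org n) t) ≤ bd n (sphere (org n) t \ Ω) := by
    intro t ht htr
    refine hB (org n) t ht ?_
    rw [hRe, bd_sphere hn (org n) ht, bd_sphere hn (org n) hR, mul_comm,
      mul_comm (ENNReal.ofReal (Real.sinh R ^ (n - 1))),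
      ENNReal.mul_lt_mul_iff_right hK0 hKt]
    have h1 : 0 < Real.sinh t := Real.sinh_pos_iff.mpr ht
    have h2 : Real.sinh t < Real.sinh R := Real.sinh_lt_sinh.mpr (lt_of_lt_of_le htr h0R)
    have h3 : Real.sinh t ^ (n - 1) < Real.sinh R ^ (n - 1) :=
      pow_lt_pow_left₀ h2 h1.le (by omega)
    exact (ENNReal.ofReal_lt_ofReal_iff (by positivity)).mpr h3
  have h1 : ∫⁻ p in frontier Ω, ENNReal.ofReal (-aa (n - 1) R (dist (org n) p)) ∂bd n =
      ∫⁻ p in frontier Ω, (∫⁻ t in Ioo (dist (org n) p) r₀,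
        ENNReal.ofReal (aa' (n - 1) R t)) ∂bd n := by
    congr 1
    funext p
    rw [int_aa' hN hR h0 ha hneg hpos dist_nonneg]
  have h2 := inner_int hn hΩ hfin hball (b := fun t => ENNReal.ofReal (aa' (n - 1) R t))
    (measurable_aa' (n - 1) R).ennreal_ofReal
  have hmeas : Measurable fun θ : sphere (0 : E n) 1 =>
      ∫⁻ t in Eth Ω θ, ENNReal.ofReal (ww (n - 1) t) := by
    have h4 : Measurable fun p : sphere (0 : E n) 1 × ℝ =>
        ({p : sphere (0 : E n) 1 × ℝ | p.2 ∈ Eth Ω p.1}).indicator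
          (fun p => ENNReal.ofReal (ww (n - 1) p.2)) p :=
      (((measurable_ww (n - 1)).comp measurable_snd).ennreal_ofReal).indicator
        (measurableSet_slices hΩ)
    have h5 := h4.lintegral_prod_right' (ν := (volume : Measure ℝ))
    have h6 : (fun θ : sphere (0 : E n) 1 => ∫⁻ t in Eth Ω θ, ENNReal.ofReal (ww (n - 1) t)) =
        fun θ => ∫⁻ t, ({p : sphere (0 : E n) 1 × ℝ | p.2 ∈ Eth Ω p.1}).indicator
          (fun p => ENNReal.ofReal (ww (n - 1) p.2)) (θ, t) := by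
      funext θ
      rw [← lintegral_indicator (isOpen_Eth hΩ θ).measurableSet]
      rfl
    rw [h6]
    exact h5
  have h3 : ∫⁻ θ, Lhs n Ω R r₀ θ ∂sg n =
      (∫⁻ θ, (∫⁻ t in Ioo 0 r₀ \ Eth Ω θ, ENNReal.ofReal (aa' (n - 1) R t) *
        ENNReal.ofReal (Real.sinh t ^ (n - 1))) ∂sg n) + WI n Ω := by
    unfold Lhs WI
    rw [lintegral_add_right _ hmeas]
  rw [h3, mul_add, h1]
  exact add_le_add h2 le_rfl

theorem lhs_lt_top (hn : 2 ≤ n) {Ω : Set (Hyp n)} (hΩ : IsOpen Ω) (hb : Bornology.IsBounded Ω)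
    {R : ℝ} (hR : 0 < R) : ∫⁻ θ, Rhs n Ω R θ ∂sg n < ∞ := by
  have hN : 1 ≤ n - 1 := by omega
  obtain ⟨M, hM, hrho⟩ := exists_rho_le (n := n) hb
  have h1 : ∀ θ, Rhs n Ω R θ ≤ ENNReal.ofReal (aa (n - 1) R M) *
      ENNReal.ofReal (Real.sinh M ^ (n - 1)) +
      ENNReal.ofReal (mm (n - 1) R * Real.sinh R ^ (n - 1)) := by
    intro θ
    unfold Rhs
    refine add_le_add ?_ le_rfl
    rcases eq_or_lt_of_le (rho_nonneg Ω θ) with h | h
    · rw [← h, Real.sinh_zero, zero_pow (by omega), ENNReal.ofReal_zero, mul_zero]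
      exact zero_le
    · have h2 : aa (n - 1) R (rho Ω θ) ≤ aa (n - 1) R M := aa_monotoneOn hN hR h hM (hrho θ)
      have h3 : 0 < Real.sinh (rho Ω θ) := Real.sinh_pos_iff.mpr h
      have h4 : Real.sinh (rho Ω θ) ≤ Real.sinh M := Real.sinh_le_sinh.mpr (hrho θ)
      exact mul_le_mul' (ENNReal.ofReal_le_ofReal h2)
        (ENNReal.ofReal_le_ofReal (pow_le_pow_left₀ h3.le h4 _))
  refine lt_of_le_of_lt (lintegral_mono h1) ?_
  rw [lintegral_const]
  exact ENNReal.mul_lt_top (ENNReal.add_lt_top.mpr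
    ⟨ENNReal.mul_lt_top ENNReal.ofReal_lt_top ENNReal.ofReal_lt_top, ENNReal.ofReal_lt_top⟩)
    (measure_lt_top _ _)

theorem measurable_Rhs (hn : 2 ≤ n) {Ω : Set (Hyp n)} (hΩ : IsOpen Ω) (hb : Bornology.IsBounded Ω)
    (R : ℝ) : Measurable (Rhs n Ω R) := by
  have h := measurable_rho hΩ hb
  unfold Rhs
  exact ((((measurable_aa (n - 1) R).comp h).ennreal_ofReal).mul
    (((Real.measurable_sinh.comp h).pow_const (n - 1)).ennreal_ofReal)).add_const _

end Pool.Agent.H62.WS
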