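import Pool.Agent.H62.WS.MainB

set_option autoImplicit false

/-!
# [H62 WS MAININEQ] The main integral inequality

(proved)
-/

namespace Pool.Agent.H62.WS

open scoped RealInnerProductSpace MeasureTheory ENNReal NNReal
open MeasureTheory Set Metric

variable {n : ℕ}

theorem main_ineq (hn : 2 ≤ n) {Ω : Set (Hyp n)} (hΩ : IsOpen Ω) (hb : Bornology.IsBounded Ω)
    (hfin : bd n (frontier Ω) < ∞) (hB : BallCond Ω) {R : ℝ} (hR : 0 < R)
    (hRe : bd n (frontier Ω) = bd n (sphere (org n) R)) :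
    cst n * WI n Ω ≤ ENNReal.ofReal (gg (n - 1) R) * BI n Ω := by
  have hN : 1 ≤ n - 1 := by omega
  obtain ⟨r₀, h0, h0R, ha, hneg, hpos⟩ := exists_r0 hN hR
  have h1 : (∫⁻ θ, Lhs n Ω R r₀ θ ∂sg n) ≤ ∫⁻ θ, Rhs n Ω R θ ∂sg n := by
    apply lintegral_mono
    intro θ
    exact dir_ineq hN hR h0 h0R ha hneg hpos (isOpen_Eth hΩ θ).measurableSet (rho_nonneg Ω θ)
      (Eth_subset hΩ hb θ)
  have h2 := le_lhs hn hΩ hb hfin hB hR hRe h0 h0R ha hneg hpos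
  have h3 := rhs_le hn hΩ hb hR hRe
  rw [← BI_identity hn hR] at h3
  have h4 := (h2.trans (mul_le_mul_right h1 (cst n))).trans h3
  rw [add_comm] at h4
  exact (ENNReal.add_le_add_iff_right (A_minus_lt_top hn hb hfin hR).ne).mp h4

theorem main_strict (hn : 2 ≤ n) {Ω : Set (Hyp n)} (hΩ : IsOpen Ω) (hb : Bornology.IsBounded Ω)
    (hfin : bd n (frontier Ω) < ∞) (hB : BallCond Ω) {R : ℝ} (hR : 0 < R)
    (hRe : bd n (frontier Ω) = bd n (sphere (org n) R)) (hne : ¬ ∀ᵐ θ ∂sg n, rho Ω θ = R) :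
    cst n * WI n Ω < ENNReal.ofReal (gg (n - 1) R) * BI n Ω := by
  have hN : 1 ≤ n - 1 := by omega
  obtain ⟨r₀, h0, h0R, ha, hneg, hpos⟩ := exists_r0 hN hR
  have h1' : (∫⁻ θ, Lhs n Ω R r₀ θ ∂sg n) ≤ ∫⁻ θ, Rhs n Ω R θ ∂sg n := by
    apply lintegral_mono
    intro θ
    exact dir_ineq hN hR h0 h0R ha hneg hpos (isOpen_Eth hΩ θ).measurableSet (rho_nonneg Ω θ)
      (Eth_subset hΩ hb θ)
  have h1 : (∫⁻ θ, Lhs n Ω R r₀ θ ∂sg n) < ∫⁻ θ, Rhs n Ω R θ ∂sg n := by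
    apply lintegral_strict_mono_of_ae_le_of_frequently_ae_lt (measurable_Rhs hn hΩ hb R).aemeasurable
      (h1'.trans_lt (lhs_lt_top hn hΩ hb hR)).ne
    · exact Filter.Eventually.of_forall fun θ => dir_ineq hN hR h0 h0R ha hneg hpos
        (isOpen_Eth hΩ θ).measurableSet (rho_nonneg Ω θ) (Eth_subset hΩ hb θ)
    · rw [Filter.not_eventually] at hne
      refine hne.mono fun θ hθ => ?_
      exact (dir_ineq_strict hN hR h0 h0R ha hneg hpos (isOpen_Eth hΩ θ).measurableSet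
        (rho_nonneg Ω θ) (Eth_subset hΩ hb θ) hθ).ne
  have h2 := le_lhs hn hΩ hb hfin hB hR hRe h0 h0R ha hneg hpos
  have h3 := rhs_le hn hΩ hb hR hRe
  rw [← BI_identity hn hR] at h3
  have h5 : cst n * (∫⁻ θ, Lhs n Ω R r₀ θ ∂sg n) < cst n * ∫⁻ θ, Rhs n Ω R θ ∂sg n :=
    (ENNReal.mul_lt_mul_iff_right (cst_ne_zero hn) (cst_ne_top hn)).mpr h1
  have h4 := (h2.trans_lt h5).trans_le h3
  rw [add_comm] at h4
  exact (ENNReal.add_lt_add_iff_right (A_minus_lt_top hn hb hfin hR).ne).mp h4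

end Pool.Agent.H62.WS
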