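import Mathlib

set_option autoImplicit false

/-!
# [H62 WS ODE] The radial functions

`s = sinh r`, `c = cth r = cosh r/sinh r`, `V(r) = ∫_0^r sinh^N`, `f = V/s^N`, `g = s^N/V - N c`, `G = g² + N c g - N/s²`.
For `r > 0`: `c' = -1/s²`, `V' = s^N` (`intervalIntegral.integral_hasDerivAt_right`), `f' = 1 - N c f = g f`.
-/

namespace Pool.Agent.H62.WS

open MeasureTheory Set

/-- `cosh/sinh` -/
noncomputable def cth (r : ℝ) : ℝ := Real.cosh r / Real.sinh r

/-- `∫_0^r sinh^N` -/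
noncomputable def VV (N : ℕ) (r : ℝ) : ℝ := ∫ t in (0 : ℝ)..r, Real.sinh t ^ N

/-- the radial part of the eigenfunctions -/
noncomputable def ff (N : ℕ) (r : ℝ) : ℝ := VV N r / Real.sinh r ^ N

/-- `f'/f`, the first Steklov eigenvalue of the ball of radius `r` -/
noncomputable def gg (N : ℕ) (r : ℝ) : ℝ := Real.sinh r ^ N / VV N r - N * cth r

/-- `-g'` -/
noncomputable def GG (N : ℕ) (r : ℝ) : ℝ := gg N r ^ 2 + N * cth r * gg N r - N / Real.sinh r ^ 2

theorem sinh_pos' {r : ℝ} (hr : 0 < r) : 0 < Real.sinh r := Real.sinh_pos_iff.mpr hr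

theorem hasDerivAt_cth {r : ℝ} (hr : 0 < r) : HasDerivAt cth (-(1 / Real.sinh r ^ 2)) r := by
  have hs := sinh_pos' hr
  have h1 : HasDerivAt cth _ r := (Real.hasDerivAt_cosh r).div (Real.hasDerivAt_sinh r) hs.ne'
  have h2 : (Real.sinh r * Real.sinh r - Real.cosh r * Real.cosh r) / Real.sinh r ^ 2 =
      -(1 / Real.sinh r ^ 2) := by
    have h3 : Real.sinh r * Real.sinh r - Real.cosh r * Real.cosh r = -1 := by
      nlinarith [Real.cosh_sq r]
    rw [h3, neg_div]
  rw [h2] at h1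
  exact h1

theorem one_lt_cth {r : ℝ} (hr : 0 < r) : 1 < cth r := by
  exact (one_lt_div (sinh_pos' hr)).2 (Real.sinh_lt_cosh r)

theorem hasDerivAt_VV (N : ℕ) (r : ℝ) : HasDerivAt (VV N) (Real.sinh r ^ N) r := by
  have hc : Continuous fun t : ℝ => Real.sinh t ^ N := Real.continuous_sinh.pow N
  exact (hc.integral_hasStrictDerivAt 0 r).hasDerivAt

theorem VV_zero (N : ℕ) : VV N 0 = 0 := by simp [VV]

theorem VV_pos (N : ℕ) {r : ℝ} (hr : 0 < r) : 0 < VV N r := by
  refine intervalIntegral.intervalIntegral_pos_of_pos_on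
    ((Real.continuous_sinh.pow N).intervalIntegrable 0 r) (fun x hx => ?_) hr
  exact pow_pos (sinh_pos' hx.1) N

theorem ff_pos (N : ℕ) {r : ℝ} (hr : 0 < r) : 0 < ff N r := by
  exact div_pos (VV_pos N hr) (pow_pos (sinh_pos' hr) N)

theorem Ode_pow (N : ℕ) {r : ℝ} (hr : 0 < r) :
    HasDerivAt (fun x => Real.sinh x ^ N) (N * cth r * Real.sinh r ^ N) r := by
  have hs := sinh_pos' hr
  have h1 := (Real.hasDerivAt_sinh r).pow N
  have h2 : (N : ℝ) * Real.sinh r ^ (N - 1) * Real.cosh r = N * cth r * Real.sinh r ^ N := by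
    unfold cth
    cases N with
    | zero => simp
    | succ M =>
      rw [Nat.add_sub_cancel, pow_succ]
      field_simp
  rw [h2] at h1
  exact h1

/-- a function with nonnegative value at `0` and positive derivative on `(0,∞)` -/
theorem Ode_pos_of (F F' : ℝ → ℝ) (hd : ∀ x, HasDerivAt F (F' x) x) (h0 : 0 ≤ F 0)
    (hp : ∀ x, 0 < x → 0 < F' x) {r : ℝ} (hr : 0 < r) : 0 < F r := by
  have h1 : StrictMonoOn F (Ici 0) := by
    refine strictMonoOn_of_deriv_pos (convex_Ici 0)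
      (fun x _ => (hd x).continuousAt.continuousWithinAt) fun x hx => ?_
    rw [interior_Ici] at hx
    rw [(hd x).deriv]
    exact hp x hx
  have h2 := h1 (mem_Ici.2 le_rfl) (mem_Ici.2 hr.le) hr
  linarith

/-- a function with nonnegative derivative on `(0,∞)` -/
theorem Ode_mono_of (F F' : ℝ → ℝ) (hd : ∀ x, HasDerivAt F (F' x) x)
    (hp : ∀ x, 0 < x → 0 ≤ F' x) {r : ℝ} (hr : 0 < r) : F 0 ≤ F r := by
  have h1 : MonotoneOn F (Ici 0) := by
    refine monotoneOn_of_deriv_nonneg (convex_Ici 0)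
      (fun x _ => (hd x).continuousAt.continuousWithinAt)
      (fun x _ => (hd x).differentiableAt.differentiableWithinAt) fun x hx => ?_
    rw [interior_Ici] at hx
    rw [(hd x).deriv]
    exact hp x hx
  exact h1 (mem_Ici.2 le_rfl) (mem_Ici.2 hr.le) hr.le

theorem hasDerivAt_ff (N : ℕ) {r : ℝ} (hr : 0 < r) : HasDerivAt (ff N) (gg N r * ff N r) r := by
  have hs := sinh_pos' hr
  have hV := VV_pos N hr
  have h1 : HasDerivAt (ff N) _ r :=
    (hasDerivAt_VV N r).div (Ode_pow N hr) (pow_pos hs N).ne'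
  have h2 : (Real.sinh r ^ N * Real.sinh r ^ N - VV N r * (N * cth r * Real.sinh r ^ N)) /
      (Real.sinh r ^ N) ^ 2 = gg N r * ff N r := by
    unfold gg ff
    field_simp
  rw [h2] at h1
  exact h1

end Pool.Agent.H62.WS
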