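import Pool.Agent.H62.WS.Ode

set_option autoImplicit false

/-!
# [H62 WS ODEB] The derivatives of `g` and `G`

`g' = N s^(N-1) C/V - s^(2N)/V² + N/s²`; with `s^N/V = g + N c`: `N c (g + N c) - (g + N c)² + N/s² = -(g² + N c g) + N/s² = -G`.
`G' = 2 g g' + N c' g + N c g' + 2 N C/s³ = -(2g + N c) G - N g/s² + 2 N c/s²`.
-/

namespace Pool.Agent.H62.WS

open MeasureTheory Set

theorem hasDerivAt_gg (N : ℕ) {r : ℝ} (hr : 0 < r) : HasDerivAt (gg N) (-GG N r) r := by
  have hs := sinh_pos' hr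
  have hV := VV_pos N hr
  have h1 : HasDerivAt (gg N) _ r :=
    ((Ode_pow N hr).div (hasDerivAt_VV N r) hV.ne').sub ((hasDerivAt_cth hr).const_mul (N : ℝ))
  have h2 : (N * cth r * Real.sinh r ^ N * VV N r - Real.sinh r ^ N * Real.sinh r ^ N) / VV N r ^ 2 -
      N * -(1 / Real.sinh r ^ 2) = -GG N r := by
    unfold GG gg
    field_simp
    ring
  rw [h2] at h1
  exact h1

theorem hasDerivAt_GG (N : ℕ) {r : ℝ} (hr : 0 < r) : HasDerivAt (GG N)
    (-(2 * gg N r + N * cth r) * GG N r + N * (2 * cth r - gg N r) / Real.sinh r ^ 2) r := by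
  have hs := sinh_pos' hr
  have h1 := (hasDerivAt_gg N hr).pow 2
  have h2 := ((hasDerivAt_cth hr).const_mul (N : ℝ)).mul (hasDerivAt_gg N hr)
  have h3 : HasDerivAt (fun x => (N : ℝ) / Real.sinh x ^ 2) _ r :=
    (hasDerivAt_const r (N : ℝ)).div (Ode_pow 2 hr) (pow_pos hs 2).ne'
  have h4 : HasDerivAt (GG N) _ r := (h1.add h2).sub h3
  convert h4 using 1
  simp only [Nat.cast_ofNat, Nat.reduceSub, pow_one, zero_mul, zero_sub]
  field_simp
  ring

end Pool.Agent.H62.WS
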