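import Pool.Agent.H62.WS.OdeB

set_option autoImplicit false

/-!
# [H62 WS ODEINEQB] `s g ≤ 1`, `f ≤ s` (`C = cosh`, `s = sinh`, `V = VV N`)

* `s g ≤ 1` is `s^(N+1) ≤ (1 + N C) V` (values `0` at `0`): the difference of the derivatives is `N s V + (1 + N C) s^N - (N+1) s^N C = N s V + s^N - s^N C = s (N V - s^(N-1) (C - 1)) ≥ 0`:
  `N V ≥ s^(N-1) (C - 1)` (values `0` at `0`; `N ≥ 1`): for the derivatives `N s^N ≥ (N-1) s^(N-2) C (C-1) + s^N` because `C (C-1) ≤ C² - 1 = s²` (`N ≥ 2`; for `N = 1` it is `V = C - 1`).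
* `f ≤ s` is `V ≤ s^(N+1)`: values `0` at `0`, derivatives `s^N ≤ (N+1) s^N C`.
-/

namespace Pool.Agent.H62.WS

open MeasureTheory Set

theorem sinh_mul_gg_le_one {N : ℕ} (hN : 1 ≤ N) {r : ℝ} (hr : 0 < r) : Real.sinh r * gg N r ≤ 1 := by
  obtain ⟨M, rfl⟩ : ∃ M, N = M + 1 := ⟨N - 1, by omega⟩
  have hs := sinh_pos' hr
  have hV := VV_pos (M + 1) hr
  have hin : ∀ x, 0 < x →
      0 ≤ ((M : ℝ) + 1) * VV (M + 1) x - Real.sinh x ^ M * (Real.cosh x - 1) := by
    have hd : ∀ x, HasDerivAt (fun x => ((M : ℝ) + 1) * VV (M + 1) x -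
        Real.sinh x ^ M * (Real.cosh x - 1)) (M * Real.sinh x ^ (M - 1) * (Real.cosh x - 1)) x := by
      intro x
      have h1 := ((hasDerivAt_VV (M + 1) x).const_mul ((M : ℝ) + 1)).sub
        (((Real.hasDerivAt_sinh x).pow M).mul ((Real.hasDerivAt_cosh x).sub_const 1))
      refine h1.congr_deriv ?_
      have hc := Real.cosh_sq x
      cases M with
      | zero => simp
      | succ K =>
        simp only [Nat.add_sub_cancel, Pi.pow_apply]
        push_cast
        have e1 : ((K : ℝ) + 1) * Real.sinh x ^ K * Real.cosh x * (Real.cosh x - 1) =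
            ((K : ℝ) + 1) * Real.sinh x ^ K * (Real.sinh x ^ 2 + 1 - Real.cosh x) := by
          rw [← hc]
          ring
        rw [e1]
        ring
    intro x hx
    have h1 := Ode_mono_of _ _ hd (fun y hy => by
      have h2 := pow_pos (sinh_pos' hy) (M - 1)
      have h3 := Real.one_le_cosh y
      have h4 : 0 ≤ Real.cosh y - 1 := by linarith
      positivity) hx
    refine le_trans ?_ h1
    rw [VV_zero]
    simp
  have hout : 0 ≤ (1 + ((M : ℝ) + 1) * Real.cosh r) * VV (M + 1) r - Real.sinh r ^ (M + 2) := by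
    have hd : ∀ x, HasDerivAt (fun x => (1 + ((M : ℝ) + 1) * Real.cosh x) * VV (M + 1) x -
        Real.sinh x ^ (M + 2))
        (Real.sinh x * (((M : ℝ) + 1) * VV (M + 1) x - Real.sinh x ^ M * (Real.cosh x - 1))) x := by
      intro x
      have h1 := ((((Real.hasDerivAt_cosh x).const_mul ((M : ℝ) + 1)).const_add 1).mul
        (hasDerivAt_VV (M + 1) x)).sub ((Real.hasDerivAt_sinh x).pow (M + 2))
      refine h1.congr_deriv ?_
      simp only [Nat.add_succ_sub_one, Nat.add_sub_cancel]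
      push_cast
      ring
    have h1 := Ode_mono_of _ _ hd (fun y hy => mul_nonneg (sinh_pos' hy).le (hin y hy)) hr
    refine le_trans ?_ h1
    rw [VV_zero]
    simp
  unfold gg cth
  have e1 : Real.sinh r * (Real.sinh r ^ (M + 1) / VV (M + 1) r -
      (M + 1 : ℕ) * (Real.cosh r / Real.sinh r)) =
      Real.sinh r ^ (M + 2) / VV (M + 1) r - ((M : ℝ) + 1) * Real.cosh r := by
    push_cast
    field_simp
    ring
  rw [e1, sub_le_iff_le_add, div_le_iff₀ hV]
  linarith

/-- `f(r) ≤ sinh r` and `f → 0` at `0` -/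
theorem ff_le (N : ℕ) {r : ℝ} (hr : 0 < r) : ff N r ≤ Real.sinh r := by
  have hs := sinh_pos' hr
  have hout : 0 ≤ Real.sinh r ^ (N + 1) - VV N r := by
    have hd : ∀ x, HasDerivAt (fun x => Real.sinh x ^ (N + 1) - VV N x)
        (((N : ℝ) + 1) * Real.sinh x ^ N * Real.cosh x - Real.sinh x ^ N) x := by
      intro x
      have h1 := ((Real.hasDerivAt_sinh x).pow (N + 1)).sub (hasDerivAt_VV N x)
      refine h1.congr_deriv ?_
      simp only [Nat.add_sub_cancel]
      push_cast
      ring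
    have h1 := Ode_mono_of _ _ hd (fun y hy => by
      have h2 := pow_pos (sinh_pos' hy) N
      have h3 := Real.one_le_cosh y
      have h4 : 0 ≤ (N : ℝ) := Nat.cast_nonneg N
      have h5 : 1 ≤ ((N : ℝ) + 1) * Real.cosh y := by nlinarith
      nlinarith) hr
    refine le_trans ?_ h1
    rw [VV_zero]
    simp
  unfold ff
  rw [div_le_iff₀ (pow_pos hs N)]
  have e2 : Real.sinh r * Real.sinh r ^ N = Real.sinh r ^ (N + 1) := by ring
  rw [e2]
  linarith

end Pool.Agent.H62.WS
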