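import Pool.Agent.H62.WS.OdeIneq
import Pool.Agent.H62.WS.OdeIneqB

set_option autoImplicit false

/-!
# [H62 WS ODEG] `G > 0`, monotonicity

* `GG_pos`: `P = G f² s^N` has `P' = (-(2g + N c) G + N (2c - g)/s² + 2 g G + N c G) f² s^N = N (2c - g) f² s^(N-2) > 0` on `(0,∞)` (`g < c`), so `P` is strictly increasing; and `P → 0` at `0`:
  `|G| f² s^N ≤ (g² + N c g + N/s²) s^(N+2)`, `0 < g < c`, `f ≤ s`, so `|P| ≤ ((1 + N) C² + N) s^N → 0` (`N ≥ 1`).  Hence `P > 0`.
* `gg_strictAntiOn`: `g' = -G < 0`; `ff_strictMonoOn`: `f' = g f > 0`; `cth_strictAntiOn`: `c' < 0`.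
-/

namespace Pool.Agent.H62.WS

open MeasureTheory Set

theorem GG_pos {N : ℕ} (hN : 1 ≤ N) {r : ℝ} (hr : 0 < r) : 0 < GG N r := by
  have hd : ∀ x, 0 < x → HasDerivAt (fun x => GG N x * ff N x ^ 2 * Real.sinh x ^ N)
      (N * (2 * cth x - gg N x) / Real.sinh x ^ 2 * ff N x ^ 2 * Real.sinh x ^ N) x := by
    intro x hx
    have h1 := ((hasDerivAt_GG N hx).mul ((hasDerivAt_ff N hx).pow 2)).mul (Ode_pow N hx)
    refine h1.congr_deriv ?_
    simp only [Nat.cast_ofNat, Nat.reduceSub, pow_one, Pi.mul_apply, Pi.pow_apply]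
    ring
  have hmono : StrictMonoOn (fun x => GG N x * ff N x ^ 2 * Real.sinh x ^ N) (Ioi 0) := by
    refine strictMonoOn_of_deriv_pos (convex_Ioi 0)
      (fun x hx => (hd x hx).continuousAt.continuousWithinAt) fun x hx => ?_
    rw [interior_Ioi] at hx
    rw [(hd x hx).deriv]
    have h1 := gg_lt_cth N hx
    have h2 := one_lt_cth hx
    have h3 : 0 < 2 * cth x - gg N x := by linarith
    have h4 := ff_pos N hx
    have h5 := sinh_pos' hx
    have h6 : (0 : ℝ) < N := by exact_mod_cast hN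
    positivity
  have hlim : Filter.Tendsto (fun x => GG N x * ff N x ^ 2 * Real.sinh x ^ N)
      (nhdsWithin 0 (Ioi 0)) (nhds 0) := by
    have hb : Filter.Tendsto (fun x => ((1 + (N : ℝ)) * Real.cosh x ^ 2 + N) * Real.sinh x ^ N)
        (nhdsWithin 0 (Ioi 0)) (nhds 0) := by
      have hc : Continuous fun x => ((1 + (N : ℝ)) * Real.cosh x ^ 2 + N) * Real.sinh x ^ N :=
        ((continuous_const.mul (Real.continuous_cosh.pow 2)).add continuous_const).mul
          (Real.continuous_sinh.pow N)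
      have h1 := hc.tendsto 0
      have h2 : ((1 + (N : ℝ)) * Real.cosh 0 ^ 2 + N) * Real.sinh 0 ^ N = 0 := by
        rw [Real.sinh_zero, zero_pow (by omega), mul_zero]
      rw [h2] at h1
      exact h1.mono_left nhdsWithin_le_nhds
    refine squeeze_zero_norm' ?_ hb
    filter_upwards [self_mem_nhdsWithin] with x hx
    have hx' : 0 < x := hx
    have hs := sinh_pos' hx'
    have h1 := gg_lt_cth N hx'
    have h2 := gg_pos hN hx'
    have h3 := one_lt_cth hx'
    have h4 := ff_pos N hx'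
    have h5 := ff_le N hx'
    have h6 : (0 : ℝ) ≤ N := Nat.cast_nonneg N
    have h7 : |GG N x| ≤ (1 + (N : ℝ)) * cth x ^ 2 + N / Real.sinh x ^ 2 := by
      unfold GG
      have e1 : 0 ≤ (N : ℝ) / Real.sinh x ^ 2 := by positivity
      have e2 : gg N x ^ 2 ≤ cth x ^ 2 := by nlinarith
      have e3 : (N : ℝ) * cth x * gg N x ≤ N * cth x ^ 2 := by
        have : (N : ℝ) * cth x * gg N x ≤ N * cth x * cth x :=
          mul_le_mul_of_nonneg_left h1.le (by positivity)
        nlinarith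
      have e4 : 0 ≤ (N : ℝ) * cth x * gg N x := by positivity
      have e5 : 0 ≤ (N : ℝ) * cth x ^ 2 := by positivity
      rw [abs_le]
      constructor
      · nlinarith [sq_nonneg (gg N x), sq_nonneg (cth x)]
      · nlinarith
    rw [Real.norm_eq_abs, abs_mul, abs_mul, abs_of_nonneg (sq_nonneg (ff N x)),
      abs_of_pos (pow_pos hs N)]
    have h8 : ff N x ^ 2 ≤ Real.sinh x ^ 2 := by nlinarith
    calc |GG N x| * ff N x ^ 2 * Real.sinh x ^ N
        ≤ ((1 + (N : ℝ)) * cth x ^ 2 + N / Real.sinh x ^ 2) * Real.sinh x ^ 2 *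
            Real.sinh x ^ N := by gcongr
      _ = ((1 + (N : ℝ)) * Real.cosh x ^ 2 + N) * Real.sinh x ^ N := by
          unfold cth
          field_simp
  have hr2 : 0 < r / 2 := by linarith
  have h1 : 0 ≤ GG N (r / 2) * ff N (r / 2) ^ 2 * Real.sinh (r / 2) ^ N := by
    refine le_of_tendsto hlim ?_
    have h2 : Ioo 0 (r / 2) ∈ nhdsWithin (0 : ℝ) (Ioi 0) := Ioo_mem_nhdsGT hr2
    filter_upwards [h2] with x hx
    exact (hmono (mem_Ioi.2 hx.1) (mem_Ioi.2 hr2) hx.2).le
  have h3 : GG N (r / 2) * ff N (r / 2) ^ 2 * Real.sinh (r / 2) ^ N <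
      GG N r * ff N r ^ 2 * Real.sinh r ^ N :=
    hmono (mem_Ioi.2 hr2) (mem_Ioi.2 hr) (by linarith)
  have h4 : 0 < GG N r * (ff N r ^ 2 * Real.sinh r ^ N) := by
    rw [← mul_assoc]
    linarith
  have h5 : 0 < ff N r ^ 2 * Real.sinh r ^ N :=
    mul_pos (pow_pos (ff_pos N hr) 2) (pow_pos (sinh_pos' hr) N)
  exact (mul_pos_iff_of_pos_right h5).1 h4

theorem gg_strictAntiOn {N : ℕ} (hN : 1 ≤ N) : StrictAntiOn (gg N) (Ioi 0) := by
  refine strictAntiOn_of_deriv_neg (convex_Ioi 0)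
    (fun x hx => (hasDerivAt_gg N hx).continuousAt.continuousWithinAt) fun x hx => ?_
  rw [interior_Ioi] at hx
  rw [(hasDerivAt_gg N hx).deriv]
  have := GG_pos hN hx
  linarith

theorem ff_strictMonoOn {N : ℕ} (hN : 1 ≤ N) : StrictMonoOn (ff N) (Ioi 0) := by
  refine strictMonoOn_of_deriv_pos (convex_Ioi 0)
    (fun x hx => (hasDerivAt_ff N hx).continuousAt.continuousWithinAt) fun x hx => ?_
  rw [interior_Ioi] at hx
  rw [(hasDerivAt_ff N hx).deriv]
  exact mul_pos (gg_pos hN hx) (ff_pos N hx)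

theorem cth_strictAntiOn : StrictAntiOn cth (Ioi 0) := by
  refine strictAntiOn_of_deriv_neg (convex_Ioi 0)
    (fun x hx => (hasDerivAt_cth hx).continuousAt.continuousWithinAt) fun x hx => ?_
  rw [interior_Ioi] at hx
  rw [(hasDerivAt_cth hx).deriv]
  have h1 := sinh_pos' hx
  have h2 : 0 < 1 / Real.sinh x ^ 2 := by positivity
  linarith

end Pool.Agent.H62.WS
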