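import Pool.Agent.H62.WS.OdeG

set_option autoImplicit false

/-!
# [H62 WS ODEH] The function `h`: derivative

`m0 = G(R) f(R)²/(N c(R))`, `h(t) = (g(R) f² - m0 - g f²) s^N`;
`h' = (2 g(R) g f² + G f² - 2 g² f²) s^N + N c s^N (g(R) f² - m0 - g f²) = s^N [(2g + N c)(g(R) - g) f² + G f² - N c m0]` (`(s^N)' = N c s^N`).
-/

namespace Pool.Agent.H62.WS

open MeasureTheory Set

/-- the multiplier -/
noncomputable def mm (N : ℕ) (R : ℝ) : ℝ := GG N R * ff N R ^ 2 / (N * cth R)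

/-- `g(R) f(t)² - m0` -/
noncomputable def aa (N : ℕ) (R t : ℝ) : ℝ := gg N R * ff N t ^ 2 - mm N R

/-- the density `f'² + N f²/s²` times `s^N`, the derivative of `f f' s^N` -/
noncomputable def ww (N : ℕ) (t : ℝ) : ℝ :=
  (gg N t ^ 2 + N / Real.sinh t ^ 2) * ff N t ^ 2 * Real.sinh t ^ N

/-- `h(t) = (g(R) f² - m0 - g f²) s^N` -/
noncomputable def hh (N : ℕ) (R t : ℝ) : ℝ := (aa N R t - gg N t * ff N t ^ 2) * Real.sinh t ^ N

/-- the derivative of `aa` -/
noncomputable def aa' (N : ℕ) (R t : ℝ) : ℝ := 2 * gg N R * gg N t * ff N t ^ 2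

theorem mm_pos {N : ℕ} (hN : 1 ≤ N) {R : ℝ} (hR : 0 < R) : 0 < mm N R := by
  have h1 := GG_pos hN hR
  have h2 := ff_pos N hR
  have h3 := one_lt_cth hR
  have h4 : (0 : ℝ) < N := by exact_mod_cast hN
  unfold mm
  have h5 : 0 < cth R := by linarith
  positivity

theorem hh_self (N : ℕ) (R : ℝ) : hh N R R = -(mm N R * Real.sinh R ^ N) := by
  simp only [hh, aa]
  ring

theorem hasDerivAt_aa (N : ℕ) (R : ℝ) {t : ℝ} (ht : 0 < t) : HasDerivAt (aa N R) (aa' N R t) t := by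
  have h1 := hasDerivAt_ff N ht
  have h2 := ((h1.fun_pow 2).const_mul (gg N R)).sub_const (mm N R)
  refine h2.congr_deriv ?_
  unfold aa'
  simp only [Nat.cast_ofNat, Nat.add_one_sub_one, pow_one]
  ring

private theorem odeh_sinh (N : ℕ) {t : ℝ} (ht : 0 < t) :
    HasDerivAt (fun t => Real.sinh t ^ N) (N * cth t * Real.sinh t ^ N) t := by
  have h1 := (Real.hasDerivAt_sinh t).fun_pow N
  refine h1.congr_deriv ?_
  have hs := sinh_pos' ht
  rcases N with _ | N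
  · simp
  · unfold cth
    rw [pow_succ, Nat.add_sub_cancel]
    field_simp

theorem hasDerivAt_hh (N : ℕ) (R : ℝ) {t : ℝ} (ht : 0 < t) : HasDerivAt (hh N R)
    (Real.sinh t ^ N * ((2 * gg N t + N * cth t) * (gg N R - gg N t) * ff N t ^ 2 +
      GG N t * ff N t ^ 2 - N * cth t * mm N R)) t := by
  have h1 := hasDerivAt_aa N R ht
  have h2 := hasDerivAt_gg N ht
  have h3 := (hasDerivAt_ff N ht).fun_pow 2
  have h4 := (h1.fun_sub (h2.fun_mul h3)).fun_mul (odeh_sinh N ht)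
  have h5 : hh N R = fun t => (aa N R t - gg N t * ff N t ^ 2) * Real.sinh t ^ N := rfl
  rw [h5]
  refine h4.congr_deriv ?_
  unfold aa' aa
  simp only [Nat.cast_ofNat, Nat.add_one_sub_one, pow_one]
  ring

end Pool.Agent.H62.WS
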