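import Pool.Agent.H62.WS.OdeH

set_option autoImplicit false

/-!
# [H62 WS ODEHA] The function `h` decreases on `(0,R]`

For `0 < t < R`: `-h'/(s^N f²) = (2g + N c)(g - g(R)) - G + (c/c(R)) (f(R)²/f²) G(R) > 0`, because
`Y(t) = (2g + N c)(g - g(R)) - G(t) + G(R)` has `Y(R) = 0` and (`hasDerivAt_gg`, `hasDerivAt_GG`, `hasDerivAt_cth`)
`Y' = (-2G - N/s²)(g - g(R)) - (2g + N c) G + (2g + N c) G - N(2c - g)/s² = (-2G - N/s²)(g - g(R)) - N(2c - g)/s² < 0` on `(0,R)` (`g > g(R)` there, `g < c`), so `Y > 0` on `(0,R)`;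
and `(c/c(R)) (f(R)/f)² ≥ 1` (`cth_strictAntiOn`, `ff_strictMonoOn`), `G(R) > 0`.
-/

namespace Pool.Agent.H62.WS

open MeasureTheory Set

theorem hh_strictAntiOn {N : ℕ} (hN : 1 ≤ N) {R : ℝ} (hR : 0 < R) :
    StrictAntiOn (hh N R) (Ioc 0 R) := by
  have hN0 : (0 : ℝ) < N := by exact_mod_cast hN
  -- the auxiliary function
  have hYd : ∀ t, 0 < t → HasDerivAt
      (fun t => (2 * gg N t + N * cth t) * (gg N t - gg N R) - GG N t + GG N R)
      ((-2 * GG N t - N / Real.sinh t ^ 2) * (gg N t - gg N R) -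
        N * (2 * cth t - gg N t) / Real.sinh t ^ 2) t := by
    intro t ht
    have hg := hasDerivAt_gg N ht
    have h1 := (((hg.const_mul 2).fun_add ((hasDerivAt_cth ht).const_mul (N : ℝ))).fun_mul
      (hg.sub_const (gg N R))).fun_sub (hasDerivAt_GG N ht)
    refine (h1.add_const (GG N R)).congr_deriv ?_
    ring
  have hYanti : StrictAntiOn (fun t => (2 * gg N t + N * cth t) * (gg N t - gg N R) -
      GG N t + GG N R) (Ioc 0 R) := by
    refine strictAntiOn_of_deriv_neg (convex_Ioc 0 R)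
      (fun x hx => (hYd x hx.1).continuousAt.continuousWithinAt) fun x hx => ?_
    rw [interior_Ioc] at hx
    rw [(hYd x hx.1).deriv]
    have h1 := GG_pos hN hx.1
    have h2 := gg_strictAntiOn hN (mem_Ioi.2 hx.1) (mem_Ioi.2 hR) hx.2
    have h3 := gg_lt_cth N hx.1
    have h4 := one_lt_cth hx.1
    have h5 := sinh_pos' hx.1
    have h6 : 0 < (2 * GG N x + N / Real.sinh x ^ 2) * (gg N x - gg N R) :=
      mul_pos (by positivity) (by linarith)
    have h7 : 0 < N * (2 * cth x - gg N x) / Real.sinh x ^ 2 := by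
      have : 0 < 2 * cth x - gg N x := by linarith
      positivity
    have h8 : (-2 * GG N x - N / Real.sinh x ^ 2) * (gg N x - gg N R) =
        -((2 * GG N x + N / Real.sinh x ^ 2) * (gg N x - gg N R)) := by ring
    rw [h8]
    linarith
  refine strictAntiOn_of_deriv_neg (convex_Ioc 0 R)
    (fun x hx => (hasDerivAt_hh N R hx.1).continuousAt.continuousWithinAt) fun x hx => ?_
  rw [interior_Ioc] at hx
  rw [(hasDerivAt_hh N R hx.1).deriv]
  have hs := sinh_pos' hx.1
  have hf := ff_pos N hx.1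
  have hY : (2 * gg N R + N * cth R) * (gg N R - gg N R) - GG N R + GG N R <
      (2 * gg N x + N * cth x) * (gg N x - gg N R) - GG N x + GG N R :=
    hYanti ⟨hx.1, hx.2.le⟩ ⟨hR, le_rfl⟩ hx.2
  have hY' : 0 < (2 * gg N x + N * cth x) * (gg N x - gg N R) - GG N x + GG N R := by
    have : (2 * gg N R + N * cth R) * (gg N R - gg N R) - GG N R + GG N R = 0 := by ring
    linarith
  have hGR := GG_pos hN hR
  have hcR : 0 < cth R := by linarith [one_lt_cth hR]
  have hc : cth R < cth x := cth_strictAntiOn (mem_Ioi.2 hx.1) (mem_Ioi.2 hR) hx.2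
  have hfR : ff N x < ff N R := ff_strictMonoOn hN (mem_Ioi.2 hx.1) (mem_Ioi.2 hR) hx.2
  have hm : GG N R * ff N x ^ 2 ≤ N * cth x * mm N R := by
    have e1 : N * cth x * mm N R = cth x / cth R * (GG N R * ff N R ^ 2) := by
      unfold mm
      field_simp
    have e2 : 1 ≤ cth x / cth R := (one_le_div hcR).2 hc.le
    have e3 : GG N R * ff N x ^ 2 ≤ GG N R * ff N R ^ 2 := by gcongr
    have e4 : 0 ≤ GG N R * ff N R ^ 2 := by positivity
    rw [e1]
    nlinarith
  refine mul_neg_of_pos_of_neg (pow_pos hs N) ?_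
  have h9 : 0 < ((2 * gg N x + N * cth x) * (gg N x - gg N R) - GG N x + GG N R) * ff N x ^ 2 :=
    mul_pos hY' (pow_pos hf 2)
  nlinarith

end Pool.Agent.H62.WS
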