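import Pool.Agent.H62.WS.OdeB

set_option autoImplicit false

/-!
# [H62 WS ODEINEQ] `0 < g < c` (`C = cosh`, `s = sinh`, `V = VV N`)

* `g > 0` is `s^(N+1) - N C V > 0` (value `0` at `0`): its derivative is `(N+1) s^N C - N s V - N C s^N = s^N C - N s V = s (s^(N-1) C - N V)`, and `s^(N-1) C - N V` is, for `N = 1`, `C - (C - 1) = 1`
  (`V = C - 1`), and for `N ≥ 2` it has the value `0` at `0` and the derivative `(N-1) s^(N-2) C² + s^N - N s^N = (N-1) s^(N-2) > 0` (`C² = 1 + s²`).
* `g < c` is `(N+1) C V > s^(N+1)`: values `0` at `0`, derivatives `(N+1) (s V + C s^N) > (N+1) s^N C`.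
Monotonicity from the derivative: `strictMonoOn_of_deriv_pos` on `Ici 0` (`VV N` is differentiable everywhere: `hasDerivAt_VV`, `VV_zero`).
-/

namespace Pool.Agent.H62.WS

open MeasureTheory Set

theorem gg_pos {N : ℕ} (hN : 1 ≤ N) {r : ℝ} (hr : 0 < r) : 0 < gg N r := by
  obtain ⟨M, rfl⟩ : ∃ M, N = M + 1 := ⟨N - 1, by omega⟩
  have hs := sinh_pos' hr
  have hV := VV_pos (M + 1) hr
  -- the inner function
  have hin : ∀ x, 0 < x → 0 < Real.sinh x ^ M * Real.cosh x - (M + 1 : ℕ) * VV (M + 1) x := by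
    have hd : ∀ x, HasDerivAt (fun x => Real.sinh x ^ M * Real.cosh x - (M + 1 : ℕ) * VV (M + 1) x)
        (M * Real.sinh x ^ (M - 1)) x := by
      intro x
      have h1 := (((Real.hasDerivAt_sinh x).pow M).mul (Real.hasDerivAt_cosh x)).sub
        ((hasDerivAt_VV (M + 1) x).const_mul ((M + 1 : ℕ) : ℝ))
      refine h1.congr_deriv ?_
      have hc := Real.cosh_sq x
      cases M with
      | zero => simp
      | succ K =>
        simp only [Nat.add_sub_cancel, Pi.pow_apply]
        push_cast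
        have e1 : ((K : ℝ) + 1) * Real.sinh x ^ K * Real.cosh x * Real.cosh x =
            ((K : ℝ) + 1) * Real.sinh x ^ K * (Real.sinh x ^ 2 + 1) := by
          rw [← hc]
          ring
        rw [e1]
        ring
    intro x hx
    rcases Nat.eq_zero_or_pos M with h0 | h0
    · have h1 := Ode_mono_of _ _ hd (fun y hy => by
        have := pow_pos (sinh_pos' hy) (M - 1)
        positivity) hx
      refine lt_of_lt_of_le ?_ h1
      subst h0
      rw [VV_zero]
      simp
    · refine Ode_pos_of _ _ hd ?_ (fun y hy => ?_) hx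
      · rw [VV_zero, Real.sinh_zero, zero_pow h0.ne']
        simp
      · have h1 := pow_pos (sinh_pos' hy) (M - 1)
        have h2 : (0 : ℝ) < M := by exact_mod_cast h0
        positivity
  have hout : 0 < Real.sinh r ^ (M + 2) - (M + 1 : ℕ) * (Real.cosh r * VV (M + 1) r) := by
    have hd : ∀ x, HasDerivAt (fun x => Real.sinh x ^ (M + 2) -
        (M + 1 : ℕ) * (Real.cosh x * VV (M + 1) x))
        (Real.sinh x * (Real.sinh x ^ M * Real.cosh x - (M + 1 : ℕ) * VV (M + 1) x)) x := by
      intro x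
      have h1 := ((Real.hasDerivAt_sinh x).pow (M + 2)).sub
        (((Real.hasDerivAt_cosh x).mul (hasDerivAt_VV (M + 1) x)).const_mul ((M + 1 : ℕ) : ℝ))
      refine h1.congr_deriv ?_
      simp only [Nat.add_succ_sub_one, Nat.add_sub_cancel]
      push_cast
      ring
    refine Ode_pos_of _ _ hd ?_ (fun y hy => mul_pos (sinh_pos' hy) (hin y hy)) hr
    rw [VV_zero]
    simp
  unfold gg cth
  rw [sub_pos, ← mul_div_assoc, div_lt_div_iff₀ hs hV]
  have e2 : Real.sinh r ^ (M + 1) * Real.sinh r = Real.sinh r ^ (M + 2) := by ring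
  rw [e2]
  linarith

theorem gg_lt_cth (N : ℕ) {r : ℝ} (hr : 0 < r) : gg N r < cth r := by
  have hs := sinh_pos' hr
  have hV := VV_pos N hr
  have hout : 0 < ((N : ℝ) + 1) * (Real.cosh r * VV N r) - Real.sinh r ^ (N + 1) := by
    have hd : ∀ x, HasDerivAt (fun x => ((N : ℝ) + 1) * (Real.cosh x * VV N x) -
        Real.sinh x ^ (N + 1)) (((N : ℝ) + 1) * (Real.sinh x * VV N x)) x := by
      intro x
      have h1 := (((Real.hasDerivAt_cosh x).mul (hasDerivAt_VV N x)).const_mul ((N : ℝ) + 1)).sub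
        ((Real.hasDerivAt_sinh x).pow (N + 1))
      refine h1.congr_deriv ?_
      simp only [Nat.add_sub_cancel]
      push_cast
      ring
    refine Ode_pos_of _ _ hd ?_ (fun y hy => ?_) hr
    · rw [VV_zero]
      simp
    · have h1 := sinh_pos' hy
      have h2 := VV_pos N hy
      positivity
  unfold gg cth
  rw [sub_lt_iff_lt_add, ← mul_div_assoc, ← add_div, div_lt_div_iff₀ hV hs]
  have e2 : Real.sinh r ^ N * Real.sinh r = Real.sinh r ^ (N + 1) := by ring
  rw [e2]
  linarith

end Pool.Agent.H62.WS
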