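import Pool.Agent.H62.WS.HHyp
import Pool.Agent.H62.WS.DistSph

set_option autoImplicit false

/-!
# [H62 WS OUT] The lower bound of the boundary measure by projection

Let `S = K ∩ {p | ∃ θ ∈ D, ∃ t, r ≤ t ∧ p = sph t θ}` and `g p = ⟨(sinh r / ‖p.pt‖) • p.pt⟩`.  `g (sph t θ) = sph r θ` for `t ≥ r > 0`, so `g` is `1`-Lipschitz on `S` (`dist_sph_le`) and
`sph r '' D ⊆ g '' S` (hypothesis `h`).  `euclideanHausdorffMeasure_image_le` (HLoc, `K = 1`) and `bd_sph_image`.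
-/

namespace Pool.Agent.H62.WS

open scoped RealInnerProductSpace MeasureTheory ENNReal NNReal
open MeasureTheory Set Metric

variable {n : ℕ}

theorem outer_meas (hn : 2 ≤ n) {r : ℝ} (hr : 0 < r) {D : Set (sphere (0 : E n) 1)}
    (hD : MeasurableSet D) (K : Set (Hyp n)) (h : ∀ θ ∈ D, ∃ t, r ≤ t ∧ sph t θ ∈ K) :
    ENNReal.ofReal (Real.sinh r ^ (n - 1)) * (cst n * sg n D) ≤
      bd n (K ∩ {p | ∃ θ ∈ D, ∃ t, r ≤ t ∧ p = sph t θ}) := by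
  obtain ⟨S, hS⟩ : ∃ S : Set (Hyp n), S = K ∩ {p | ∃ θ ∈ D, ∃ t, r ≤ t ∧ p = sph t θ} := ⟨_, rfl⟩
  obtain ⟨g, hgd⟩ : ∃ g : Hyp n → Hyp n, g = fun p => ⟨(Real.sinh r / ‖p.pt‖) • p.pt⟩ := ⟨_, rfl⟩
  have hg : ∀ t, r ≤ t → ∀ θ : sphere (0 : E n) 1, g (sph t θ) = sph r θ := by
    intro t ht θ
    have h1 : ‖(θ : E n)‖ = 1 := by simp
    have h2 : 0 < Real.sinh t := Real.sinh_pos_iff.mpr (lt_of_lt_of_le hr ht)
    have h3 : (sph t θ).pt = Real.sinh t • (θ : E n) := rfl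
    rw [hgd]
    apply Hyp.ext
    show (Real.sinh r / ‖(sph t θ).pt‖) • (sph t θ).pt = Real.sinh r • (θ : E n)
    rw [h3, norm_smul, h1, mul_one, Real.norm_of_nonneg h2.le, smul_smul,
      div_mul_cancel₀ _ h2.ne']
  have hL : LipschitzOnWith 1 g S := by
    refine LipschitzOnWith.of_dist_le_mul fun p hp q hq => ?_
    rw [hS] at hp hq
    obtain ⟨_, θ, _, t, ht, rfl⟩ := hp
    obtain ⟨_, η, _, s, hs, rfl⟩ := hq
    rw [hg t ht, hg s hs, NNReal.coe_one, one_mul]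
    exact dist_sph_le hr.le ht hs θ η
  have h1 := euclideanHausdorffMeasure_image_le (n - 1) hL
  have h2 : sph r '' D ⊆ g '' S := by
    rintro _ ⟨θ, hθ, rfl⟩
    obtain ⟨t, ht, hK⟩ := h θ hθ
    refine ⟨sph t θ, ?_, hg t ht θ⟩
    rw [hS]
    exact ⟨hK, θ, hθ, t, ht, rfl⟩
  rw [← bd_sph_image hn hr hD, ← hS]
  have h3 := measure_mono (μ := bd n) h2
  refine h3.trans ?_
  simpa [bd] using h1

end Pool.Agent.H62.WS
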