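import Pool.Agent.H62.WS.Out
import Pool.Agent.H62.WS.RhoB
import Pool.Agent.H62.WS.Cone

set_option autoImplicit false

/-!
# [H62 WS OUTSTEP] The outer integral inequality, discretised

Put `j θ = ⌊rho Ω θ / δ⌋₊`, `D_j = {θ | j θ = j}` (measurable: `measurable_rho`, `Nat.measurable_floor`).  For `j ≥ 1` and `θ ∈ D_j`: `jδ ≤ rho θ`, `sph (rho θ) θ ∈ frontier Ω`
(`sph_rho_mem_frontier`, `rho θ > 0`).  The sets `S_j = frontier Ω ∩ {p | ∃ θ ∈ D_j, ∃ t, jδ ≤ t ∧ p = sph t θ}` (`j ≥ 1`) are pairwise disjoint (`sph_injective`) and measurable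
(`measurableSet_cone`, `frontier` closed), `dist (org n) p ≥ jδ` on `S_j` (`dist_org_sph`), and `ofReal (sinh (jδ)^(n-1)) * (cst * sg D_j) ≤ bd n (S_j)` (`outer_meas` with `r = jδ`, `K = frontier Ω`).  Hence
`∫⁻_{frontier Ω} φ(dist org p) ≥ Σ_{j≥1} ∫⁻_{S_j} φ(dist org p) ≥ Σ_{j≥1} φ(jδ) bd(S_j) ≥ cst Σ_{j≥1} φ(jδ) ofReal(sinh(jδ)^(n-1)) sg(D_j)`, and the last sum is `cst` times the left integral:
the integrand is constant on `D_j` and `0` on `D_0` (`sinh 0 ^ (n-1) = 0`, `n ≥ 2`) (`lintegral_iUnion`, `measure_iUnion`-type sums; the `D_j` partition the sphere).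
-/

namespace Pool.Agent.H62.WS

open scoped RealInnerProductSpace MeasureTheory ENNReal NNReal
open MeasureTheory Set Metric

variable {n : ℕ}

theorem outer_step (hn : 2 ≤ n) {Ω : Set (Hyp n)} (hΩ : IsOpen Ω) (hb : Bornology.IsBounded Ω)
    {φ : ℝ → ℝ≥0∞} (hφ : MonotoneOn φ (Ioi 0)) {δ : ℝ} (hδ : 0 < δ) :
    cst n * ∫⁻ θ, φ (δ * ⌊rho Ω θ / δ⌋₊) *
        ENNReal.ofReal (Real.sinh (δ * ⌊rho Ω θ / δ⌋₊) ^ (n - 1)) ∂sg n ≤
      ∫⁻ p in frontier Ω, φ (dist (org n) p) ∂bd n := by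
  obtain ⟨j, hj⟩ : ∃ j : sphere (0 : E n) 1 → ℕ, j = fun θ => ⌊rho Ω θ / δ⌋₊ := ⟨_, rfl⟩
  have hjm : Measurable j := by
    rw [hj]
    exact Nat.measurable_floor.comp ((measurable_rho hΩ hb).div_const δ)
  obtain ⟨c, hc⟩ : ∃ c : ℕ → ℝ≥0∞, c = fun k : ℕ => φ (δ * (k : ℝ)) *
    ENNReal.ofReal (Real.sinh (δ * (k : ℝ)) ^ (n - 1)) := ⟨_, rfl⟩
  have hcm : Measurable c := measurable_of_countable c
  have hint : ∫⁻ θ, φ (δ * ⌊rho Ω θ / δ⌋₊) *
      ENNReal.ofReal (Real.sinh (δ * ⌊rho Ω θ / δ⌋₊) ^ (n - 1)) ∂sg n =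
      ∑' k, c k * sg n (j ⁻¹' {k}) := by
    have h1 : ∫⁻ θ, φ (δ * ⌊rho Ω θ / δ⌋₊) *
      ENNReal.ofReal (Real.sinh (δ * ⌊rho Ω θ / δ⌋₊) ^ (n - 1)) ∂sg n =
        ∫⁻ θ, c (j θ) ∂sg n := by
      rw [hc, hj]
    rw [h1, ← lintegral_map hcm hjm, lintegral_countable']
    refine tsum_congr fun k => ?_
    rw [Measure.map_apply hjm (measurableSet_singleton k)]
  rw [hint, ← ENNReal.tsum_mul_left]
  obtain ⟨S, hS⟩ : ∃ S : ℕ → Set (Hyp n), S = fun k => if k = 0 then ∅ else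
    frontier Ω ∩ {p | ∃ θ ∈ j ⁻¹' {k}, ∃ t, δ * k ≤ t ∧ p = sph t θ} := ⟨_, rfl⟩
  have hSm : ∀ k, MeasurableSet (S k) := by
    intro k
    rw [hS]
    dsimp only
    split_ifs with hk
    · exact MeasurableSet.empty
    · have hk0 : (0 : ℝ) < k := by
        have : 0 < k := Nat.pos_of_ne_zero hk
        exact_mod_cast this
      exact isClosed_frontier.measurableSet.inter
        (measurableSet_cone hn (mul_pos hδ hk0) (hjm (measurableSet_singleton k)))
  have hdis : Pairwise (Function.onFun Disjoint S) := by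
    intro k l hkl
    rw [Function.onFun, Set.disjoint_left]
    intro p hp hp'
    rw [hS] at hp hp'
    dsimp only at hp hp'
    by_cases hk : k = 0
    · rw [if_pos hk] at hp
      exact hp
    by_cases hl : l = 0
    · rw [if_pos hl] at hp'
      exact hp'
    · rw [if_neg hk] at hp
      rw [if_neg hl] at hp'
      obtain ⟨_, θ, hθ, t, ht, rfl⟩ := hp
      obtain ⟨_, θ', hθ', t', ht', he⟩ := hp'
      have hk0 : (0 : ℝ) < k := by
        have : 0 < k := Nat.pos_of_ne_zero hk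
        exact_mod_cast this
      have hl0 : (0 : ℝ) < l := by
        have : 0 < l := Nat.pos_of_ne_zero hl
        exact_mod_cast this
      have h1 := (sph_injective (lt_of_lt_of_le (mul_pos hδ hk0) ht)
        (lt_of_lt_of_le (mul_pos hδ hl0) ht') he).2
      apply hkl
      rw [Set.mem_preimage, Set.mem_singleton_iff] at hθ hθ'
      rw [← hθ, ← hθ', h1]
  have hterm : ∀ k, cst n * (c k * sg n (j ⁻¹' {k})) ≤
      ∫⁻ p in S k, φ (dist (org n) p) ∂bd n := by
    intro k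
    by_cases hk : k = 0
    · subst hk
      have h1 : c 0 = 0 := by
        rw [hc]
        have h2 : n - 1 ≠ 0 := by omega
        simp [h2]
      rw [h1, zero_mul, mul_zero]
      exact zero_le
    · have hk0 : (0 : ℝ) < k := by
        have : 0 < k := Nat.pos_of_ne_zero hk
        exact_mod_cast this
      have hr : 0 < δ * k := mul_pos hδ hk0
      have hD := hjm (measurableSet_singleton k)
      have hfr : ∀ θ ∈ j ⁻¹' {k}, ∃ t, δ * k ≤ t ∧ sph t θ ∈ frontier Ω := by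
        intro θ hθ
        rw [Set.mem_preimage, Set.mem_singleton_iff, hj] at hθ
        have h1 : (k : ℝ) ≤ rho Ω θ / δ := by
          rw [← hθ]
          exact Nat.floor_le (div_nonneg (rho_nonneg Ω θ) hδ.le)
        rw [le_div_iff₀ hδ] at h1
        have h2 : δ * k ≤ rho Ω θ := by linarith
        exact ⟨rho Ω θ, h2, sph_rho_mem_frontier hΩ hb (lt_of_lt_of_le hr h2)⟩
      have hout := outer_meas hn hr hD (frontier Ω) hfr
      have hSk : S k = frontier Ω ∩ {p | ∃ θ ∈ j ⁻¹' {k}, ∃ t, δ * k ≤ t ∧ p = sph t θ} := by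
        rw [hS]
        dsimp only
        rw [if_neg hk]
      rw [← hSk] at hout
      calc cst n * (c k * sg n (j ⁻¹' {k}))
          = φ (δ * k) * (ENNReal.ofReal (Real.sinh (δ * k) ^ (n - 1)) *
              (cst n * sg n (j ⁻¹' {k}))) := by
            rw [hc]
            ring
        _ ≤ φ (δ * k) * bd n (S k) := mul_le_mul_right hout _
        _ = ∫⁻ _ in S k, φ (δ * k) ∂bd n := (setLIntegral_const _ _).symm
        _ ≤ ∫⁻ p in S k, φ (dist (org n) p) ∂bd n := by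
            refine setLIntegral_mono' (hSm k) fun p hp => ?_
            rw [hSk] at hp
            obtain ⟨_, θ, _, t, ht, rfl⟩ := hp
            rw [dist_org_sph (hr.le.trans ht)]
            exact hφ hr (lt_of_lt_of_le hr ht) ht
  calc ∑' k, cst n * (c k * sg n (j ⁻¹' {k}))
      ≤ ∑' k, ∫⁻ p in S k, φ (dist (org n) p) ∂bd n := ENNReal.tsum_le_tsum hterm
    _ = ∫⁻ p in ⋃ k, S k, φ (dist (org n) p) ∂bd n := (lintegral_iUnion hSm hdis _).symm
    _ ≤ ∫⁻ p in frontier Ω, φ (dist (org n) p) ∂bd n := by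
        refine lintegral_mono_set ?_
        refine Set.iUnion_subset fun k => ?_
        rw [hS]
        dsimp only
        split_ifs
        · exact Set.empty_subset _
        · exact Set.inter_subset_left

end Pool.Agent.H62.WS
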