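import Pool.Agent.H62.WS.OdeG

set_option autoImplicit false

/-!
# [H62 WS PAIR] One pair of directions

`(g s^N D²)' = s^N (2 g D D' + (N/s² - g²) D²) ≤ s^N (D'² + N D²/s²)` (`g' + N c g = N/s² - g²`), integrate over `[ε, R]`, `ε → 0`:
`|D(r)| ≤ M r` on `[0,R]`, so `g s^N D² ≤ (cosh/sinh) sinh^N M² r² → 0`, and the integrand `s^N (D'² + N D²/s²)` is bounded, hence
integrable.
-/

namespace Pool.Agent.H62.WS

open MeasureTheory Set

private theorem pair_W {N : ℕ} (hN : 1 ≤ N) {R : ℝ} (hR : 0 < R) {D D' : ℝ → ℝ}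
    (hD : ∀ r ∈ Icc 0 R, HasDerivAt D (D' r) r) (hc : ContinuousOn D' (Icc 0 R)) (h0 : D 0 = 0) :
    ContinuousOn (fun r => Real.sinh r ^ N * (D' r ^ 2 + N * D r ^ 2 / Real.sinh r ^ 2))
      (Icc 0 R) := by
  obtain ⟨M, hM⟩ := isCompact_Icc.exists_bound_of_continuousOn hc
  have hDM : ∀ r ∈ Icc 0 R, |D r| ≤ M * r := by
    intro r hr
    have := (convex_Icc 0 R).norm_image_sub_le_of_norm_hasDerivWithin_le (f := D) (f' := D')
      (C := M) (fun x hx => (hD x hx).hasDerivWithinAt) hM (left_mem_Icc.mpr hR.le) hr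
    simpa [h0, abs_of_nonneg hr.1] using this
  have hN0 : N ≠ 0 := by omega
  intro r hr
  rcases hr.1.eq_or_lt with h | h
  · subst h
    have hz : Real.sinh 0 ^ N * (D' 0 ^ 2 + N * D 0 ^ 2 / Real.sinh 0 ^ 2) = 0 := by
      simp [hN0]
    unfold ContinuousWithinAt
    simp only [hz]
    apply squeeze_zero_norm' (a := fun r => Real.sinh r ^ N * ((1 + N) * M ^ 2))
    · filter_upwards [self_mem_nhdsWithin] with x hx
      rcases hx.1.eq_or_lt with hx0 | hx0
      · rw [← hx0, hz, norm_zero, Real.sinh_zero, zero_pow hN0, zero_mul]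
      · have hs : 0 < Real.sinh x := sinh_pos' hx0
        have hsx : x ≤ Real.sinh x := Real.self_le_sinh_iff.mpr hx0.le
        have h1 : D' x ^ 2 ≤ M ^ 2 := by
          have := hM x hx
          rw [Real.norm_eq_abs] at this
          exact sq_le_sq' (by linarith [neg_abs_le (D' x)]) (by linarith [le_abs_self (D' x)])
        have h2 : D x ^ 2 ≤ (M * Real.sinh x) ^ 2 := by
          have h3 := hDM x hx
          have hM0 : 0 ≤ M := (norm_nonneg _).trans (hM x hx)
          have h4 : M * x ≤ M * Real.sinh x := mul_le_mul_of_nonneg_left hsx hM0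
          exact sq_le_sq' (by linarith [neg_abs_le (D x)]) (by linarith [le_abs_self (D x)])
        have h5 : (N : ℝ) * D x ^ 2 / Real.sinh x ^ 2 ≤ N * M ^ 2 := by
          rw [div_le_iff₀ (by positivity)]
          have : (N : ℝ) * D x ^ 2 ≤ N * (M * Real.sinh x) ^ 2 :=
            mul_le_mul_of_nonneg_left h2 (by positivity)
          linarith [this, show (N : ℝ) * (M * Real.sinh x) ^ 2 = N * M ^ 2 * Real.sinh x ^ 2 by ring]
        have h6 : 0 ≤ Real.sinh x ^ N * (D' x ^ 2 + N * D x ^ 2 / Real.sinh x ^ 2) := by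
          positivity
        rw [Real.norm_of_nonneg h6]
        exact mul_le_mul_of_nonneg_left (by linarith) (by positivity)
    · have hcn : Continuous fun r => Real.sinh r ^ N * ((1 + N) * M ^ 2) := by fun_prop
      have ht := hcn.tendsto 0
      simp only [Real.sinh_zero, zero_pow hN0, zero_mul] at ht
      exact ht.mono_left nhdsWithin_le_nhds
  · have hs : Real.sinh r ≠ 0 := (sinh_pos' h).ne'
    have hD1 : ContinuousWithinAt D (Icc 0 R) r := (hD r hr).continuousAt.continuousWithinAt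
    have hD2 : ContinuousWithinAt D' (Icc 0 R) r := hc r hr
    have h1 : ContinuousWithinAt Real.sinh (Icc 0 R) r := Real.continuous_sinh.continuousWithinAt
    exact (h1.pow N).mul ((hD2.pow 2).add ((continuousWithinAt_const.mul (hD1.pow 2)).div
      (h1.pow 2) (pow_ne_zero 2 hs)))

private theorem pair_F {N : ℕ} (hN : 1 ≤ N) {R : ℝ} {D D' : ℝ → ℝ}
    (hD : ∀ r ∈ Icc 0 R, HasDerivAt D (D' r) r) (h0 : D 0 = 0) :
    ContinuousOn (fun r => gg N r * Real.sinh r ^ N * D r ^ 2) (Icc 0 R) := by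
  obtain ⟨n, rfl⟩ : ∃ n, N = n + 1 := ⟨N - 1, by omega⟩
  intro r hr
  have hD1 : ContinuousWithinAt D (Icc 0 R) r := (hD r hr).continuousAt.continuousWithinAt
  rcases hr.1.eq_or_lt with h | h
  · subst h
    have hz : gg (n + 1) 0 * Real.sinh 0 ^ (n + 1) * D 0 ^ 2 = 0 := by simp
    unfold ContinuousWithinAt
    simp only [hz]
    apply squeeze_zero_norm' (a := fun r => Real.sinh r ^ n * D r ^ 2)
    · filter_upwards [self_mem_nhdsWithin] with x hx
      rcases hx.1.eq_or_lt with hx0 | hx0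
      · rw [← hx0, hz, norm_zero, h0]
        simp
      · have hs : 0 < Real.sinh x := sinh_pos' hx0
        have h1 := sinh_mul_gg_le_one hN hx0
        have h2 := gg_pos hN hx0
        have h3 : 0 ≤ gg (n + 1) x * Real.sinh x ^ (n + 1) * D x ^ 2 := by positivity
        rw [Real.norm_of_nonneg h3]
        have h4 : gg (n + 1) x * Real.sinh x ^ (n + 1) * D x ^ 2 =
            (Real.sinh x * gg (n + 1) x) * (Real.sinh x ^ n * D x ^ 2) := by ring
        rw [h4]
        exact mul_le_of_le_one_left (by positivity) h1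
    · have h1 : ContinuousWithinAt Real.sinh (Icc 0 R) 0 :=
        Real.continuous_sinh.continuousWithinAt
      have h2 : ContinuousWithinAt (fun r => Real.sinh r ^ n * D r ^ 2) (Icc 0 R) 0 :=
        (h1.pow n).mul (hD1.pow 2)
      unfold ContinuousWithinAt at h2
      simpa [h0] using h2
  · have hg : ContinuousWithinAt (gg (n + 1)) (Icc 0 R) r :=
      (hasDerivAt_gg (n + 1) h).continuousAt.continuousWithinAt
    have h1 : ContinuousWithinAt Real.sinh (Icc 0 R) r := Real.continuous_sinh.continuousWithinAt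
    exact (hg.mul (h1.pow (n + 1))).mul (hD1.pow 2)

theorem pair_ineq {N : ℕ} (hN : 1 ≤ N) {R : ℝ} (hR : 0 < R) {D D' : ℝ → ℝ}
    (hD : ∀ r ∈ Icc 0 R, HasDerivAt D (D' r) r) (hc : ContinuousOn D' (Icc 0 R)) (h0 : D 0 = 0) :
    gg N R * Real.sinh R ^ N * D R ^ 2 ≤
      ∫ r in (0 : ℝ)..R, Real.sinh r ^ N * (D' r ^ 2 + N * D r ^ 2 / Real.sinh r ^ 2) := by
  have hW := pair_W hN hR hD hc h0
  have hF := pair_F hN hD h0
  have key := intervalIntegral.sub_le_integral_of_hasDeriv_right_of_le hR.le hF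
    (g' := fun x => ((-GG N x) * Real.sinh x ^ N + gg N x * (N * Real.sinh x ^ (N - 1) *
      Real.cosh x)) * D x ^ 2 + gg N x * Real.sinh x ^ N * (2 * D x ^ (2 - 1) * D' x))
    (fun x hx => by
      have h1 := hasDerivAt_gg N hx.1
      have h2 := (Real.hasDerivAt_sinh x).pow N
      have h3 := (hD x ⟨hx.1.le, hx.2.le⟩).pow 2
      have h4 := (h1.mul h2).mul h3
      refine (h4.congr_deriv ?_).hasDerivWithinAt
      simp only [Pi.mul_apply, Pi.pow_apply]
      push_cast
      ring)
    hW.integrableOn_Icc (fun x hx => by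
      have hs : 0 < Real.sinh x := sinh_pos' hx.1
      have e : (N : ℝ) * Real.sinh x ^ (N - 1) * Real.cosh x =
          N * cth x * Real.sinh x ^ N := by
        obtain ⟨n, rfl⟩ : ∃ n, N = n + 1 := ⟨N - 1, by omega⟩
        unfold cth
        rw [Nat.add_sub_cancel, pow_succ]
        field_simp
      rw [e]
      unfold GG
      have e2 : (-(gg N x ^ 2 + N * cth x * gg N x - N / Real.sinh x ^ 2) * Real.sinh x ^ N +
            gg N x * (N * cth x * Real.sinh x ^ N)) * D x ^ 2 +
            gg N x * Real.sinh x ^ N * (2 * D x ^ (2 - 1) * D' x) =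
          Real.sinh x ^ N * (D' x ^ 2 + N * D x ^ 2 / Real.sinh x ^ 2) -
            Real.sinh x ^ N * (D' x - gg N x * D x) ^ 2 := by
        norm_num
        ring
      rw [e2]
      have : 0 ≤ Real.sinh x ^ N * (D' x - gg N x * D x) ^ 2 := by positivity
      linarith)
  simpa [h0] using key

theorem pair_integrable {N : ℕ} (hN : 1 ≤ N) {R : ℝ} (hR : 0 < R) {D D' : ℝ → ℝ}
    (hD : ∀ r ∈ Icc 0 R, HasDerivAt D (D' r) r) (hc : ContinuousOn D' (Icc 0 R)) (h0 : D 0 = 0) :
    IntervalIntegrable (fun r => Real.sinh r ^ N * (D' r ^ 2 + N * D r ^ 2 / Real.sinh r ^ 2))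
      volume 0 R :=
  (pair_W hN hR hD hc h0).intervalIntegrable_of_Icc hR.le

end Pool.Agent.H62.WS
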