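import Pool.Agent.H62.WS.Lor

set_option autoImplicit false

/-!
# [H62 WS POINF] The one-homogeneous extension of a function on the sphere

`F(x) = ‖x‖ (u(s x/‖x‖) - m)`.  Continuous: off `0` clear, at `0`: `u` is bounded on the sphere of radius `s` (compact).  `C^1` off `0`: norm and `x ↦ ‖x‖⁻¹ • x` are smooth off `0`.
Derivative at `x = r θ` (`r > 0`): the derivative of `x ↦ ‖x‖⁻¹ • x` at `rθ` is `w ↦ r⁻¹ (w - ⟪θ,w⟫ θ)`, so
`DF(rθ) w = ⟪θ,w⟫ v + s Du(sθ)(w - ⟪θ,w⟫ θ)`, `v = u(sθ) - m`; i.e. the gradient vector is `v θ + s (η - ⟪η,θ⟫ θ)`, `η` the gradient of `u` at `sθ`; the two parts are orthogonal, `‖η - ⟪η,θ⟫θ‖² = ‖η‖² - ⟪η,θ⟫²`.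
Bounded: compactness of the sphere (`Du` continuous).
-/

namespace Pool.Agent.H62.WS

open scoped RealInnerProductSpace MeasureTheory ENNReal NNReal
open MeasureTheory Set Metric

variable {n : ℕ}

/-- the one-homogeneous extension of `θ ↦ u (s θ) - m` -/
noncomputable def FF (u : E n → ℝ) (s m : ℝ) (x : E n) : ℝ := ‖x‖ * (u (s • (‖x‖⁻¹ • x)) - m)

theorem contDiffAt_FF {u : E n → ℝ} (hu : ContDiff ℝ 1 u) (s m : ℝ) {x : E n} (hx : x ≠ 0) :
    ContDiffAt ℝ 1 (FF u s m) x := by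
  have h1 : ContDiffAt ℝ 1 (fun x : E n => ‖x‖) x := contDiffAt_norm ℝ hx
  have h2 : ContDiffAt ℝ 1 (fun x : E n => ‖x‖⁻¹) x := h1.inv (norm_ne_zero_iff.mpr hx)
  have h2' : ContDiffAt ℝ 1 (fun x : E n => ‖x‖⁻¹ • x) x := h2.smul contDiffAt_id
  have h3 : ContDiffAt ℝ 1 (fun x : E n => s • (‖x‖⁻¹ • x)) x := h2'.const_smul s
  exact h1.mul ((hu.contDiffAt.comp x h3).sub contDiffAt_const)

theorem contDiffOn_FF {u : E n → ℝ} (hu : ContDiff ℝ 1 u) (s m : ℝ) :
    ContDiffOn ℝ 1 (FF u s m) {x | x ≠ 0} := fun _ hx =>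
  (contDiffAt_FF hu s m hx).contDiffWithinAt

theorem continuous_FF {u : E n → ℝ} (hu : ContDiff ℝ 1 u) (s m : ℝ) : Continuous (FF u s m) := by
  rw [continuous_iff_continuousAt]
  intro x
  by_cases hx : x = 0
  · subst hx
    have hc : Continuous fun y : E n => u (s • y) - m := by
      have := hu.continuous
      fun_prop
    obtain ⟨B, hB⟩ := (isCompact_closedBall (0 : E n) 1).exists_bound_of_continuousOn hc.continuousOn
    have h0 : FF u s m 0 = 0 := by simp [FF]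
    rw [ContinuousAt, h0]
    have hb : ∀ x : E n, ‖FF u s m x‖ ≤ ‖x‖ * B := by
      intro x
      rw [FF, norm_mul, norm_norm]
      refine mul_le_mul_of_nonneg_left (hB _ ?_) (norm_nonneg _)
      rw [mem_closedBall_zero_iff, norm_smul, norm_inv, norm_norm]
      exact inv_mul_le_one
    refine squeeze_zero_norm hb ?_
    have h1 : Continuous fun x : E n => ‖x‖ * B := by fun_prop
    have h2 := h1.tendsto 0
    simpa using h2
  · exact (contDiffAt_FF hu s m hx).continuousAt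

theorem fderiv_FF {u : E n → ℝ} (hu : ContDiff ℝ 1 u) (s m : ℝ) {r : ℝ} (hr : 0 < r)
    {θ : E n} (h1 : ‖θ‖ = 1) (w : E n) :
    fderiv ℝ (FF u s m) (r • θ) w = s * fderiv ℝ u (s • θ) w +
      (u (s • θ) - m - s * fderiv ℝ u (s • θ) θ) * ⟪θ, w⟫ := by
  have hn : ‖r • θ‖ = r := by rw [norm_smul, h1, mul_one, Real.norm_of_nonneg hr.le]
  have h2 : r⁻¹ • r • θ = θ := by rw [smul_smul, inv_mul_cancel₀ hr.ne', one_smul]
  -- the norm
  have hN : HasFDerivAt (fun x : E n => ‖x‖) (innerSL ℝ θ) (r • θ) := by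
    have h3 : HasFDerivAt (fun x : E n => ‖x‖ ^ 2) (2 • innerSL ℝ (r • θ)) (r • θ) :=
      (hasStrictFDerivAt_norm_sq (r • θ)).hasFDerivAt
    have h4 := h3.sqrt (by rw [hn]; positivity)
    have e : (fun x : E n => √(‖x‖ ^ 2)) = fun x => ‖x‖ := by
      ext x
      rw [Real.sqrt_sq (norm_nonneg _)]
    rw [e] at h4
    convert! h4 using 1
    ext w
    rw [hn, Real.sqrt_sq hr.le]
    simp only [innerSL_apply_apply, ContinuousLinearMap.smul_apply, smul_eq_mul,
      real_inner_smul_left, nsmul_eq_mul, Nat.cast_ofNat]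
    field_simp
  have hI : HasFDerivAt (fun x : E n => ‖x‖⁻¹) ((-(r ^ 2)⁻¹) • innerSL ℝ θ) (r • θ) := by
    have h3 : HasDerivAt (fun t : ℝ => t⁻¹) (-(r ^ 2)⁻¹) ‖r • θ‖ := by
      rw [hn]
      exact hasDerivAt_inv hr.ne'
    exact h3.comp_hasFDerivAt (r • θ) hN
  have hP := hI.smul (hasFDerivAt_id (r • θ))
  have hsP := hP.const_smul s
  have hx : s • (‖r • θ‖⁻¹ • r • θ) = s • θ := by rw [hn, h2]
  have hu1 : HasFDerivAt u (fderiv ℝ u (s • θ)) (s • (‖r • θ‖⁻¹ • r • θ)) := by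
    rw [hx]
    exact (hu.differentiable one_ne_zero _).hasFDerivAt
  have hcomp := hu1.comp (r • θ) hsP
  have hF := hN.mul (hcomp.sub_const m)
  have e : (fun x : E n => ‖x‖) * (fun x => (u ∘ (s • ((fun x : E n => ‖x‖⁻¹) • id))) x - m) =
      FF u s m := by
    ext x
    rfl
  have hF' : HasFDerivAt (FF u s m) _ (r • θ) := hF
  rw [hF'.fderiv]
  simp only [ContinuousLinearMap.add_apply, ContinuousLinearMap.smul_apply,
    ContinuousLinearMap.comp_apply, ContinuousLinearMap.smulRight_apply, innerSL_apply_apply,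
    ContinuousLinearMap.id_apply, smul_eq_mul, id, Function.comp_apply, Pi.smul_apply, Pi.smul_apply',
    hn, h2, map_smul, map_add, smul_smul]
  field_simp
  ring

theorem norm_fderiv_FF {u : E n → ℝ} (hu : ContDiff ℝ 1 u) (s m : ℝ) {r : ℝ} (hr : 0 < r)
    (θ : sphere (0 : E n) 1) :
    ‖fderiv ℝ (FF u s m) (r • (θ : E n))‖ ^ 2 =
      (u (s • (θ : E n)) - m) ^ 2 + s ^ 2 * (‖fderiv ℝ u (s • (θ : E n))‖ ^ 2 -
        (fderiv ℝ u (s • (θ : E n)) (θ : E n)) ^ 2) := by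
  have h1 : ‖(θ : E n)‖ = 1 := by simp
  set L := fderiv ℝ u (s • (θ : E n)) with hL
  set g := (InnerProductSpace.toDual ℝ (E n)).symm L with hg
  have hgn : ‖L‖ = ‖g‖ := by rw [hg, LinearIsometryEquiv.norm_map]
  have hgL : ∀ w, L w = ⟪g, w⟫ := fun w => by
    rw [hg, InnerProductSpace.toDual_symm_apply]
  set c := u (s • (θ : E n)) - m - s * L (θ : E n) with hc
  have e : fderiv ℝ (FF u s m) (r • (θ : E n)) =
      InnerProductSpace.toDual ℝ (E n) (s • g + c • (θ : E n)) := by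
    ext w
    rw [fderiv_FF hu s m hr h1, InnerProductSpace.toDual_apply_apply, inner_add_left,
      real_inner_smul_left, real_inner_smul_left, ← hgL]
  rw [e, LinearIsometryEquiv.norm_map, norm_add_sq_real, norm_smul, norm_smul, h1, mul_one,
    real_inner_smul_left, real_inner_smul_right, mul_pow, Real.norm_eq_abs, Real.norm_eq_abs, sq_abs,
    sq_abs, hgn, hgL, hc, hgL]
  ring

theorem exists_bound_FF {u : E n → ℝ} (hu : ContDiff ℝ 1 u) (s m : ℝ) :
    ∃ C : ℝ, ∀ x, x ≠ 0 → ‖fderiv ℝ (FF u s m) x‖ ≤ C := by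
  have hsc : Continuous fun θ : E n => s • θ := continuous_id.const_smul s
  have hdc : Continuous fun θ : E n => fderiv ℝ u (s • θ) :=
    (hu.continuous_fderiv one_ne_zero).comp hsc
  have hcont : Continuous fun θ : E n => (u (s • θ) - m) ^ 2 + s ^ 2 * (‖fderiv ℝ u (s • θ)‖ ^ 2 -
        (fderiv ℝ u (s • θ) θ) ^ 2) :=
    (((hu.continuous.comp hsc).sub continuous_const).pow 2).add
      (continuous_const.mul ((hdc.norm.pow 2).sub ((hdc.clm_apply continuous_id).pow 2)))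
  obtain ⟨B, hB⟩ := (isCompact_sphere (0 : E n) 1).exists_bound_of_continuousOn hcont.continuousOn
  refine ⟨√B, fun x hx => ?_⟩
  have hxn : 0 < ‖x‖ := norm_pos_iff.mpr hx
  have hmem : ‖x‖⁻¹ • x ∈ sphere (0 : E n) 1 := by
    rw [mem_sphere_zero_iff_norm, norm_smul, norm_inv, norm_norm, inv_mul_cancel₀ hxn.ne']
  have h1 := norm_fderiv_FF hu s m hxn ⟨‖x‖⁻¹ • x, hmem⟩
  simp only [smul_inv_smul₀ hxn.ne'] at h1
  have h2 := hB _ hmem
  simp only [← h1] at h2
  rw [Real.norm_of_nonneg (sq_nonneg _)] at h2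
  exact Real.le_sqrt_of_sq_le h2

end Pool.Agent.H62.WS
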