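import Pool.Agent.H62.WS.Top

set_option autoImplicit false

/-!
# [H62 WS RHOA] The radial slices of a bounded open set

`Eth Ω θ` is the preimage of `Ω` under the continuous `r ↦ sph r θ` intersected with `Ioi 0`.  It is bounded: `r = dist (org n) (sph r θ)` (`dist_org_sph`).  `Eth_subset`: an open set does not contain
its supremum.  `exists_rho_le`: `Ω ⊆ closedBall (org n) M`.
-/

namespace Pool.Agent.H62.WS

open scoped RealInnerProductSpace MeasureTheory ENNReal NNReal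
open MeasureTheory Set Metric

variable {n : ℕ}

/-- the slice of `Ω` in the direction `θ` -/
def Eth (Ω : Set (Hyp n)) (θ : sphere (0 : E n) 1) : Set ℝ := {r | 0 < r ∧ sph r θ ∈ Ω}

/-- the outer radius in the direction `θ` (`0` if the slice is empty) -/
noncomputable def rho (Ω : Set (Hyp n)) (θ : sphere (0 : E n) 1) : ℝ := sSup (Eth Ω θ)

theorem isOpen_Eth {Ω : Set (Hyp n)} (hΩ : IsOpen Ω) (θ : sphere (0 : E n) 1) : IsOpen (Eth Ω θ) := by
  have h1 : Continuous fun r : ℝ => sph r θ :=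
    continuous_sph.comp (continuous_id.prodMk continuous_const)
  exact isOpen_Ioi.inter (hΩ.preimage h1)

theorem bddAbove_Eth {Ω : Set (Hyp n)} (hb : Bornology.IsBounded Ω) (θ : sphere (0 : E n) 1) :
    BddAbove (Eth Ω θ) := by
  obtain ⟨M, hM⟩ := hb.subset_closedBall (org n)
  refine ⟨M, fun r hr => ?_⟩
  have h1 := hM hr.2
  rwa [mem_closedBall, dist_comm, dist_org_sph hr.1.le] at h1

theorem Eth_subset {Ω : Set (Hyp n)} (hΩ : IsOpen Ω) (hb : Bornology.IsBounded Ω)
    (θ : sphere (0 : E n) 1) : Eth Ω θ ⊆ Ioo 0 (rho Ω θ) := by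
  intro r hr
  refine ⟨hr.1, ?_⟩
  obtain ⟨ε, hε, hball⟩ := Metric.isOpen_iff.mp (isOpen_Eth hΩ θ) r hr
  have h2 : r + ε / 2 ∈ Eth Ω θ := by
    apply hball
    rw [mem_ball, Real.dist_eq, add_sub_cancel_left, abs_of_pos (by linarith)]
    linarith
  have h3 : r + ε / 2 ≤ rho Ω θ := le_csSup (bddAbove_Eth hb θ) h2
  linarith

theorem rho_nonneg (Ω : Set (Hyp n)) (θ : sphere (0 : E n) 1) : 0 ≤ rho Ω θ :=
  Real.sSup_nonneg fun _ hr => hr.1.le

/-- `rho` is bounded -/
theorem exists_rho_le {Ω : Set (Hyp n)} (hb : Bornology.IsBounded Ω) :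
    ∃ M : ℝ, 0 < M ∧ ∀ θ, rho Ω θ ≤ M := by
  obtain ⟨M, hM⟩ := hb.subset_closedBall (org n)
  have h0 : (0 : ℝ) < max M 1 := lt_of_lt_of_le one_pos (le_max_right _ _)
  refine ⟨max M 1, h0, fun θ => ?_⟩
  refine Real.sSup_le (fun r hr => ?_) h0.le
  have h1 := hM hr.2
  rw [mem_closedBall, dist_comm, dist_org_sph hr.1.le] at h1
  exact h1.trans (le_max_left _ _)

end Pool.Agent.H62.WS
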