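import Pool.Agent.H62.WS.Iso

set_option autoImplicit false

/-!
# [H62 WS SEG0] Points on geodesic segments

Put `B = lor x y = tc x tc y - ⟪x,y⟫`.  `lor x m = α + β B`, `lor m y = α B + β` (`tc m` and `m` are the same combination), `1 = lor m m = α² + β² + 2αβB`.
`cosh (d₁+d₂) = cosh d₁ cosh d₂ + sinh d₁ sinh d₂`, `sinh² d₁ = (α+βB)² - 1 = β² (B²-1)`, `sinh² d₂ = α² (B² - 1)` (use the equation `1 = ..`), so `sinh d₁ sinh d₂ = αβ (B²-1)` and
`cosh (d₁+d₂) = (α+βB)(αB+β) + αβ(B²-1) = B (α² + β² + 2αβB) = B = cosh (dist x y)`; both nonnegative: `Real.cosh_injOn`-type or `Real.arcosh_cosh`.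
-/

namespace Pool.Agent.H62.WS

open scoped RealInnerProductSpace MeasureTheory ENNReal NNReal
open MeasureTheory Set Metric

variable {n : ℕ}

theorem dist_add_dist {x y m : E n} {α β : ℝ} (hα : 0 ≤ α) (hβ : 0 ≤ β) (hm : m = α • x + β • y)
    (ht : tc m = α * tc x + β * tc y) :
    dist (⟨x⟩ : Hyp n) ⟨m⟩ + dist (⟨m⟩ : Hyp n) ⟨y⟩ = dist (⟨x⟩ : Hyp n) ⟨y⟩ := by
  have hx := tc_sq x
  have hy := tc_sq y
  have hmm := tc_sq m
  have hB := one_le_lor x y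
  have e1 : lor x m = α + β * lor x y := by
    unfold lor
    rw [ht, hm, inner_add_right, real_inner_smul_right, real_inner_smul_right,
      real_inner_self_eq_norm_sq]
    linear_combination α * hx
  have e2 : lor m y = α * lor x y + β := by
    unfold lor
    rw [ht, hm, inner_add_left, real_inner_smul_left, real_inner_smul_left,
      real_inner_self_eq_norm_sq]
    linear_combination β * hy
  have e3 : α ^ 2 + β ^ 2 + 2 * α * β * lor x y = 1 := by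
    have h1 : lor m m = 1 := lor_self m
    have h2 : lor m m = α * lor x m + β * lor m y := by
      unfold lor
      rw [show ⟪m, m⟫ = α * ⟪x, m⟫ + β * ⟪m, y⟫ by
        rw [real_inner_comm m x, hm]
        simp only [inner_add_left, inner_add_right, real_inner_smul_left, real_inner_smul_right,
          real_inner_comm y x]
        ring]
      rw [ht]
      ring
    rw [h2, e1, e2] at h1
    linear_combination h1
  have c1 := cosh_dist (⟨x⟩ : Hyp n) ⟨m⟩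
  have c2 := cosh_dist (⟨m⟩ : Hyp n) ⟨y⟩
  have c3 := cosh_dist (⟨x⟩ : Hyp n) ⟨y⟩
  have s1 : Real.sinh (dist (⟨x⟩ : Hyp n) ⟨m⟩) = β * √(lor x y ^ 2 - 1) := by
    have h0 : 0 ≤ Real.sinh (dist (⟨x⟩ : Hyp n) ⟨m⟩) := Real.sinh_nonneg_iff.mpr dist_nonneg
    have h1 : 0 ≤ lor x y ^ 2 - 1 := by nlinarith
    have h2 : Real.sinh (dist (⟨x⟩ : Hyp n) ⟨m⟩) ^ 2 = (β * √(lor x y ^ 2 - 1)) ^ 2 := by
      rw [Real.sinh_sq, c1, mul_pow, Real.sq_sqrt h1]
      have : lor (⟨x⟩ : Hyp n).pt (⟨m⟩ : Hyp n).pt = α + β * lor x y := e1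
      rw [this]
      linear_combination e3
    exact (pow_left_inj₀ h0 (by positivity) two_ne_zero).mp h2
  have s2 : Real.sinh (dist (⟨m⟩ : Hyp n) ⟨y⟩) = α * √(lor x y ^ 2 - 1) := by
    have h0 : 0 ≤ Real.sinh (dist (⟨m⟩ : Hyp n) ⟨y⟩) := Real.sinh_nonneg_iff.mpr dist_nonneg
    have h1 : 0 ≤ lor x y ^ 2 - 1 := by nlinarith
    have h2 : Real.sinh (dist (⟨m⟩ : Hyp n) ⟨y⟩) ^ 2 = (α * √(lor x y ^ 2 - 1)) ^ 2 := by
      rw [Real.sinh_sq, c2, mul_pow, Real.sq_sqrt h1]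
      have : lor (⟨m⟩ : Hyp n).pt (⟨y⟩ : Hyp n).pt = α * lor x y + β := e2
      rw [this]
      linear_combination e3
    exact (pow_left_inj₀ h0 (by positivity) two_ne_zero).mp h2
  have h1 : 0 ≤ lor x y ^ 2 - 1 := by nlinarith
  have key : Real.cosh (dist (⟨x⟩ : Hyp n) ⟨m⟩ + dist (⟨m⟩ : Hyp n) ⟨y⟩) =
      Real.cosh (dist (⟨x⟩ : Hyp n) ⟨y⟩) := by
    rw [Real.cosh_add, s1, s2, c1, c2, c3]
    have f1 : lor (⟨x⟩ : Hyp n).pt (⟨m⟩ : Hyp n).pt = α + β * lor x y := e1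
    have f2 : lor (⟨m⟩ : Hyp n).pt (⟨y⟩ : Hyp n).pt = α * lor x y + β := e2
    have f3 : lor (⟨x⟩ : Hyp n).pt (⟨y⟩ : Hyp n).pt = lor x y := rfl
    rw [f1, f2, f3]
    have h4 : √(lor x y ^ 2 - 1) * √(lor x y ^ 2 - 1) = lor x y ^ 2 - 1 := Real.mul_self_sqrt h1
    linear_combination α * β * h4 + lor x y * e3
  have h5 := Real.cosh_injOn
  exact h5 (add_nonneg dist_nonneg dist_nonneg) dist_nonneg key

end Pool.Agent.H62.WS
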