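import Pool.Agent.H62.WS.Lor

set_option autoImplicit false

/-!
# [H62 WS SPACE] Hyperbolic space as a metric space
-/

namespace Pool.Agent.H62.WS

open scoped RealInnerProductSpace
open MeasureTheory

variable {n : ℕ}

/-- Hyperbolic space `H^n`, in the hyperboloid chart: the point `⟨x⟩` is the point `(√(1+|x|²), x)` of
the upper sheet of the hyperboloid in Minkowski space. -/
@[ext] structure Hyp (n : ℕ) where
  pt : E n

/-- the hyperbolic distance: `cosh d = √(1+|x|²) √(1+|y|²) - ⟨x,y⟩` -/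
noncomputable instance : Dist (Hyp n) := ⟨fun p q => Real.arcosh (lor p.pt q.pt)⟩

theorem dist_def (p q : Hyp n) : dist p q = Real.arcosh (lor p.pt q.pt) := rfl

theorem cosh_dist' (p q : Hyp n) : Real.cosh (dist p q) = lor p.pt q.pt := by
  rw [dist_def, Real.cosh_arcosh (one_le_lor _ _)]

theorem sinh_dist' (p q : Hyp n) : Real.sinh (dist p q) = ‖boost p.pt q.pt‖ := by
  rw [dist_def, Real.sinh_arcosh (one_le_lor _ _), ← norm_boost_sq, Real.sqrt_sq (norm_nonneg _)]

theorem dist_nonneg' (p q : Hyp n) : 0 ≤ dist p q := by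
  rw [dist_def]
  exact Real.arcosh_nonneg (one_le_lor _ _)

theorem dist_comm' (p q : Hyp n) : dist p q = dist q p := by
  rw [dist_def, dist_def, lor_comm]

theorem dist_triangle' (p q r : Hyp n) : dist p r ≤ dist p q + dist q r := by
  have h1 : Real.cosh (dist p r) ≤ Real.cosh (dist p q + dist q r) := by
    rw [Real.cosh_add, dist_comm' p q, cosh_dist', cosh_dist', sinh_dist', sinh_dist', cosh_dist',
      ← lor_boost q.pt p.pt r.pt]
    conv_lhs => unfold lor
    rw [tc_boost, tc_boost]
    have h2 : -⟪boost q.pt p.pt, boost q.pt r.pt⟫ ≤ ‖boost q.pt p.pt‖ * ‖boost q.pt r.pt‖ := by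
      have := abs_real_inner_le_norm (boost q.pt p.pt) (boost q.pt r.pt)
      linarith [neg_abs_le ⟪boost q.pt p.pt, boost q.pt r.pt⟫]
    linarith
  have h3 := (Real.cosh_le_cosh).mp h1
  rwa [abs_of_nonneg (dist_nonneg' _ _),
    abs_of_nonneg (add_nonneg (dist_nonneg' _ _) (dist_nonneg' _ _))] at h3

theorem eq_of_dist_eq_zero' {p q : Hyp n} (h : dist p q = 0) : p = q := by
  have h1 := cosh_dist' p q
  rw [h, Real.cosh_zero] at h1
  exact Hyp.ext (eq_of_lor_eq_one h1.symm)

noncomputable instance : MetricSpace (Hyp n) where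
  dist_self p := by rw [dist_def, lor_self, Real.arcosh_zero]
  dist_comm := dist_comm'
  dist_triangle := dist_triangle'
  eq_of_dist_eq_zero := eq_of_dist_eq_zero'

noncomputable instance : MeasurableSpace (Hyp n) := borel _

instance : BorelSpace (Hyp n) := ⟨rfl⟩

theorem cosh_dist (p q : Hyp n) : Real.cosh (dist p q) = lor p.pt q.pt := cosh_dist' p q

theorem sinh_dist (p q : Hyp n) : Real.sinh (dist p q) = ‖boost p.pt q.pt‖ := sinh_dist' p q

instance : Inhabited (Hyp n) := ⟨⟨0⟩⟩

/-- the origin -/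
noncomputable def org (n : ℕ) : Hyp n := ⟨0⟩

@[simp] theorem org_pt : (org n).pt = 0 := rfl

theorem sinh_dist_org (p : Hyp n) : Real.sinh (dist (org n) p) = ‖p.pt‖ := by
  rw [sinh_dist, org_pt, boost_zero_left]

theorem cosh_dist_org (p : Hyp n) : Real.cosh (dist (org n) p) = tc p.pt := by
  rw [cosh_dist, org_pt, lor_zero_left]

theorem dist_org (p : Hyp n) : dist (org n) p = Real.arsinh ‖p.pt‖ := by
  rw [← sinh_dist_org, Real.arsinh_sinh]

end Pool.Agent.H62.WS
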