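import Pool.Agent.H62.WS.TestQ
import Pool.Agent.H62.WS.OdeG

set_option autoImplicit false

/-!
# [H62 WS TESTA] The profile of the test functions: values

* `qq_pos`, `le_qq`: the integrand is positive on `(0,1)`, `√(1 + τ² z) ≤ √(1+z)`, `∫_0^1 τ^N = 1/(N+1)`.
* `qq_sinh`: `qq N (sinh² r) sinh^(N+1) r = ∫_0^1 (τ sinh r)^N sinh r/√(1 + τ² sinh² r) dτ = ∫_0^{sinh r} y^N/√(1+y²) dy = ∫_0^r sinh^N ρ dρ = VV N r` (substitutions `y = τ sinh r`, `y = sinh ρ`; or compare derivatives).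
-/

namespace Pool.Agent.H62.WS

open MeasureTheory Set

/-- the lower bound for coercivity: `qq N z ≥ 1/((N+1) √(1+z))` -/
theorem le_qq (N : ℕ) {z : ℝ} (hz : 0 ≤ z) : 1 / ((N + 1) * √(1 + z)) ≤ qq N z := by
  have h1 : 0 < √(1 + z) := Real.sqrt_pos.mpr (by linarith)
  have e : 1 / ((N + 1) * √(1 + z)) = ∫ t in (0 : ℝ)..1, t ^ N / √(1 + z) := by
    rw [intervalIntegral.integral_div, integral_pow]
    simp
    ring
  rw [e, qq]
  have hpos : ∀ t : ℝ, 0 < 1 + t ^ 2 * z := fun t => by positivity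
  refine intervalIntegral.integral_mono_on zero_le_one ?_ ?_ ?_
  · exact (Continuous.intervalIntegrable (by fun_prop) _ _)
  · refine ContinuousOn.intervalIntegrable ?_
    exact ContinuousOn.div (by fun_prop) (by fun_prop) fun t _ => (Real.sqrt_pos.mpr (hpos t)).ne'
  · intro t ht
    have h2 : t ^ 2 ≤ 1 := pow_le_one₀ ht.1 ht.2
    have h3 : √(1 + t ^ 2 * z) ≤ √(1 + z) := Real.sqrt_le_sqrt (by nlinarith)
    have h4 : 0 < √(1 + t ^ 2 * z) := Real.sqrt_pos.mpr (hpos t)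
    exact div_le_div_of_nonneg_left (pow_nonneg ht.1 N) h4 h3

theorem qq_pos (N : ℕ) {z : ℝ} (hz : 0 ≤ z) : 0 < qq N z :=
  lt_of_lt_of_le (by positivity) (le_qq N hz)

theorem qq_sinh (N : ℕ) {r : ℝ} (hr : 0 < r) : qq N (Real.sinh r ^ 2) * Real.sinh r = ff N r := by
  have hs : 0 < Real.sinh r := sinh_pos' hr
  have h1 : ∀ t ∈ uIcc (0 : ℝ) 1, HasDerivAt (fun t : ℝ => Real.arsinh (t * Real.sinh r))
      ((√(1 + (t * Real.sinh r) ^ 2))⁻¹ * Real.sinh r) t := by
    intro t _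
    have h2 : HasDerivAt (fun t : ℝ => t * Real.sinh r) (Real.sinh r) t := by
      simpa using (hasDerivAt_id t).mul_const (Real.sinh r)
    have h3 := HasDerivAt.comp (h₂ := Real.arsinh) t (Real.hasDerivAt_arsinh (t * Real.sinh r)) h2
    exact h3
  have hpos : ∀ t : ℝ, √(1 + (t * Real.sinh r) ^ 2) ≠ 0 := fun t => by positivity
  have h2 := intervalIntegral.integral_comp_mul_deriv (g := fun ρ : ℝ => Real.sinh ρ ^ N) h1
    (by
      refine ContinuousOn.mul (ContinuousOn.inv₀ (by fun_prop) fun t _ => hpos t) (by fun_prop))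
    (by fun_prop)
  simp only [Function.comp_apply, Real.sinh_arsinh, zero_mul, Real.arsinh_zero, one_mul,
    Real.arsinh_sinh] at h2
  rw [ff, eq_div_iff (by positivity), VV, ← h2, qq, mul_assoc, ← pow_succ', mul_comm,
    ← intervalIntegral.integral_const_mul]
  refine intervalIntegral.integral_congr fun t _ => ?_
  rw [mul_pow, mul_pow]
  field_simp
  ring

end Pool.Agent.H62.WS
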