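import Pool.Agent.H62.WS.Test

set_option autoImplicit false

/-!
# [H62 WS TESTG] The energy density of the test functions

With `z = ‖x‖²`, `φ = qq (n-1)`, `φ' = deriv φ z`: `D u_i(x) v = 2 φ' ⟪x,v⟫ x_i + φ v_i`; the gradient vector of `u_i` at `x` is `2 φ' x_i x + φ e_i`, `‖·‖² = 4 φ'² x_i² z + 4 φ' φ x_i² + φ²`,
`D u_i(x) x = (2 z φ' + φ) x_i`.  The sum over `i` of `‖D u_i‖² + (D u_i x)²` is `4 φ'² z² + 4 φ' φ z + n φ² + (2 z φ' + φ)² z = (1+z)(2 z φ' + φ)² + (n-1) φ²`.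
At `x = sinh r • θ`, `z = sinh² r`: differentiating `qq_sinh` (`hasDerivAt_ff`) gives `gg f = cosh r (2 z φ' + φ)`, and `φ = f/sinh r`.
-/

namespace Pool.Agent.H62.WS

open scoped RealInnerProductSpace MeasureTheory ENNReal NNReal
open MeasureTheory Set Metric

variable {n : ℕ}

private theorem tg_qq (N : ℕ) {z : ℝ} (hz : 0 ≤ z) :
    HasDerivAt (qq N) (deriv (qq N) z) z := by
  have h1 := (contDiffOn_qq N).differentiableOn one_ne_zero
  have h2 : DifferentiableAt ℝ (qq N) z :=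
    h1.differentiableAt (Ioi_mem_nhds (by linarith))
  exact h2.hasDerivAt

private theorem tg_rel (N : ℕ) {r : ℝ} (hr : 0 < r) :
    gg N r * ff N r = Real.cosh r *
      (2 * Real.sinh r ^ 2 * deriv (qq N) (Real.sinh r ^ 2) + qq N (Real.sinh r ^ 2)) := by
  have h1 := hasDerivAt_ff N hr
  have h2 : HasDerivAt (fun r => Real.sinh r ^ 2)
      ((2 : ℕ) * Real.sinh r ^ (2 - 1) * Real.cosh r) r := (Real.hasDerivAt_sinh r).fun_pow 2
  have h3 : HasDerivAt (fun r => qq N (Real.sinh r ^ 2))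
      (deriv (qq N) (Real.sinh r ^ 2) * ((2 : ℕ) * Real.sinh r ^ (2 - 1) * Real.cosh r)) r :=
    HasDerivAt.comp (h₂ := qq N) (h := fun r => Real.sinh r ^ 2) r
      (tg_qq N (sq_nonneg (Real.sinh r))) h2
  have h4 := h3.fun_mul (Real.hasDerivAt_sinh r)
  have h5 : (fun r => qq N (Real.sinh r ^ 2) * Real.sinh r) =ᶠ[nhds r] ff N := by
    filter_upwards [Ioi_mem_nhds hr] with t ht
    exact qq_sinh N ht
  have h6 := h1.congr_of_eventuallyEq h5
  have h7 := h6.unique h4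
  rw [h7]
  simp only [Nat.cast_ofNat, Nat.add_one_sub_one, pow_one]
  ring

private theorem tg_fderiv (i : Fin n) (x : E n) :
    HasFDerivAt (fun y : E n => uu i ⟨y⟩)
      (innerSL ℝ (qq (n - 1) (‖x‖ ^ 2) • EuclideanSpace.single i (1 : ℝ) +
        (2 * deriv (qq (n - 1)) (‖x‖ ^ 2) * x i) • x)) x := by
  have h1 : HasFDerivAt (fun x : E n => ‖x‖ ^ 2) (2 • innerSL ℝ x) x :=
    (hasStrictFDerivAt_norm_sq x).hasFDerivAt
  have h2 := (tg_qq (n - 1) (sq_nonneg ‖x‖)).comp_hasFDerivAt x h1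
  have h3 : HasFDerivAt (fun y : E n => y i) (innerSL ℝ (EuclideanSpace.single i (1 : ℝ))) x := by
    have h4 : (fun y : E n => y i) = fun y => innerSL ℝ (EuclideanSpace.single i (1 : ℝ)) y := by
      funext y
      rw [innerSL_apply_apply, EuclideanSpace.inner_single_left]
      simp
    rw [h4]
    exact (innerSL ℝ (EuclideanSpace.single i (1 : ℝ))).hasFDerivAt
  have h5 := h2.mul h3
  have h6 : (fun y : E n => uu i ⟨y⟩) = fun y => (qq (n - 1) ∘ fun x : E n => ‖x‖ ^ 2) y * y i := rfl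
  rw [h6]
  refine h5.congr_fderiv ?_
  ext v
  simp only [Function.comp_apply, add_apply, smul_apply,
    innerSL_apply_apply, inner_add_left, real_inner_smul_left, smul_eq_mul, nsmul_eq_mul]
  push_cast
  ring

theorem sum_gradSq_uu (hn : 2 ≤ n) {r : ℝ} (hr : 0 < r) (θ : sphere (0 : E n) 1) :
    ∑ i : Fin n, gradSq (uu i) (sph r θ) =
      (gg (n - 1) r ^ 2 + (n - 1 : ℕ) / Real.sinh r ^ 2) * ff (n - 1) r ^ 2 := by
  have hs := sinh_pos' hr
  obtain ⟨x, hx⟩ : ∃ x : E n, x = Real.sinh r • (θ : E n) := ⟨_, rfl⟩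
  have hpt : (sph r θ).pt = x := hx.symm
  have hz : ‖x‖ ^ 2 = Real.sinh r ^ 2 := by
    have h1 : ‖(θ : E n)‖ = 1 := by simp
    rw [hx, norm_smul, h1, mul_one, Real.norm_eq_abs, sq_abs]
  obtain ⟨φ, hφ⟩ : ∃ φ : ℝ, φ = qq (n - 1) (‖x‖ ^ 2) := ⟨_, rfl⟩
  obtain ⟨φ', hφ'⟩ : ∃ φ' : ℝ, φ' = deriv (qq (n - 1)) (‖x‖ ^ 2) := ⟨_, rfl⟩
  have hg : ∀ i : Fin n, gradSq (uu i) (sph r θ) =
      φ ^ 2 + 4 * φ * φ' * x i ^ 2 + 4 * φ' ^ 2 * x i ^ 2 * ‖x‖ ^ 2 +
        (φ + 2 * φ' * ‖x‖ ^ 2) ^ 2 * x i ^ 2 := by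
    intro i
    unfold gradSq
    rw [hpt, (tg_fderiv i x).fderiv, ← hφ, ← hφ', innerSL_apply_norm, innerSL_apply_apply]
    have e1 : ⟪EuclideanSpace.single i (1 : ℝ), x⟫ = x i := by
      rw [EuclideanSpace.inner_single_left]
      simp
    have e2 : ⟪φ • EuclideanSpace.single i (1 : ℝ) + (2 * φ' * x i) • x, x⟫ =
        (φ + 2 * φ' * ‖x‖ ^ 2) * x i := by
      rw [inner_add_left, real_inner_smul_left, real_inner_smul_left, e1,
        real_inner_self_eq_norm_sq]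
      ring
    have e3 : ‖φ • EuclideanSpace.single i (1 : ℝ) + (2 * φ' * x i) • x‖ ^ 2 =
        φ ^ 2 + 4 * φ * φ' * x i ^ 2 + 4 * φ' ^ 2 * x i ^ 2 * ‖x‖ ^ 2 := by
      rw [norm_add_sq_real, real_inner_smul_left, real_inner_smul_right, e1, norm_smul, norm_smul,
        mul_pow, mul_pow, Real.norm_eq_abs, Real.norm_eq_abs, sq_abs, sq_abs]
      simp
      ring
    rw [e2, e3]
    ring
  have hsum : ∑ i : Fin n, x i ^ 2 = ‖x‖ ^ 2 := by
    rw [EuclideanSpace.norm_sq_eq]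
    refine Finset.sum_congr rfl fun i _ => ?_
    rw [Real.norm_eq_abs, sq_abs]
  rw [Finset.sum_congr rfl fun i _ => hg i]
  simp only [Finset.sum_add_distrib, ← Finset.mul_sum, ← Finset.sum_mul, Finset.sum_const,
    Finset.card_univ, Fintype.card_fin, nsmul_eq_mul, hsum]
  have hrel := tg_rel (n - 1) hr
  have hf := qq_sinh (n - 1) hr
  rw [← hz] at hrel
  rw [hz] at hφ
  rw [← hφ] at hf
  rw [hz, ← hφ, ← hz] at hrel
  rw [← hφ'] at hrel
  have hcosh := Real.cosh_sq r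
  have hnn : ((n - 1 : ℕ) : ℝ) = n - 1 := by
    rw [Nat.cast_sub (by omega)]
    simp
  have hrhs : (gg (n - 1) r ^ 2 + (n - 1 : ℕ) / Real.sinh r ^ 2) * ff (n - 1) r ^ 2 =
      (gg (n - 1) r * ff (n - 1) r) ^ 2 + ((n : ℝ) - 1) * φ ^ 2 := by
    rw [hnn, add_mul, mul_pow]
    congr 1
    rw [← hf]
    field_simp
  rw [hrhs, hrel, mul_pow, hcosh, hz]
  ring

end Pool.Agent.H62.WS
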