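import Pool.Agent.H62.WS.TopM

set_option autoImplicit false

/-!
# [H62 WS TOPA] The chart is a homeomorphism, `Hyp n` is a proper space

* `continuous_mk`: `dist_mk_le` (`LipschitzWith.of_dist_le_mul` with constant 1).
* `continuous_pt`: `Metric.continuous_iff`/`continuous_iff_continuousAt`; near `p` the points `q` with `dist q p < 1` have `‖q.pt‖ ≤ sinh (dist (org n) p + 1) =: M`
  (`sinh_dist_org`, triangle inequality), then `norm_sub_le` and continuity of `sinh` at `0`.
* `ProperSpace`: `closedBall (org n) r` is the image under `Hyp.mk` of `closedBall (0 : E n) (sinh r)` (or contained in this compact set and closed),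
  `ProperSpace.of_isCompact_closedBall_of_le`; a general closed ball is a closed subset of a closed ball around the origin.
-/

namespace Pool.Agent.H62.WS

open scoped RealInnerProductSpace MeasureTheory ENNReal NNReal
open MeasureTheory Set Metric

variable {n : ℕ}

theorem continuous_mk : Continuous (Hyp.mk : E n → Hyp n) := by
  have h : LipschitzWith 1 (Hyp.mk : E n → Hyp n) := by
    apply LipschitzWith.of_dist_le_mul
    intro x y
    rw [NNReal.coe_one, one_mul, dist_eq_norm]
    exact dist_mk_le x y
  exact h.continuous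

theorem continuous_pt : Continuous (Hyp.pt : Hyp n → E n) := by
  rw [Metric.continuous_iff]
  intro p ε hε
  set M := Real.sinh (dist (org n) p + 1) with hM
  have hK : 0 < 2 * √(1 + M ^ 2) := by positivity
  set K := 2 * √(1 + M ^ 2) with hKdef
  have hεK : 0 < ε / K := by positivity
  refine ⟨min 1 (2 * Real.arsinh (ε / K)), lt_min one_pos ?_, ?_⟩
  · have := Real.arsinh_pos_iff.mpr hεK
    positivity
  · intro q hq
    have hq1 : dist q p < 1 := lt_of_lt_of_le hq (min_le_left _ _)
    have hq2 : dist q p < 2 * Real.arsinh (ε / K) := lt_of_lt_of_le hq (min_le_right _ _)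
    have hpM : ‖p.pt‖ ≤ M := by
      rw [← sinh_dist_org, hM, Real.sinh_le_sinh]
      linarith
    have hqM : ‖q.pt‖ ≤ M := by
      rw [← sinh_dist_org, hM, Real.sinh_le_sinh]
      have := dist_triangle (org n) p q
      rw [dist_comm p q] at this
      linarith
    have h1 := norm_sub_le hqM hpM
    rw [dist_eq_norm]
    have h2 : Real.sinh (dist (⟨q.pt⟩ : Hyp n) ⟨p.pt⟩ / 2) < ε / K := by
      have h3 : dist (⟨q.pt⟩ : Hyp n) ⟨p.pt⟩ / 2 < Real.arsinh (ε / K) := by
        have : dist (⟨q.pt⟩ : Hyp n) ⟨p.pt⟩ = dist q p := rfl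
        rw [this]
        linarith
      calc Real.sinh (dist (⟨q.pt⟩ : Hyp n) ⟨p.pt⟩ / 2) < Real.sinh (Real.arsinh (ε / K)) :=
            Real.sinh_lt_sinh.mpr h3
        _ = ε / K := Real.sinh_arsinh _
    calc ‖q.pt - p.pt‖ ≤ K * Real.sinh (dist (⟨q.pt⟩ : Hyp n) ⟨p.pt⟩ / 2) := h1
      _ < K * (ε / K) := mul_lt_mul_of_pos_left h2 hK
      _ = ε := by field_simp

/-- the chart as a homeomorphism -/
noncomputable def homeo (n : ℕ) : E n ≃ₜ Hyp n where
  toFun := Hyp.mk
  invFun := Hyp.pt
  left_inv _ := rfl
  right_inv _ := rfl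
  continuous_toFun := continuous_mk
  continuous_invFun := continuous_pt

instance : ProperSpace (Hyp n) := by
  refine ⟨fun x r => ?_⟩
  have hcomp : IsCompact (Hyp.mk '' closedBall (0 : E n) (Real.sinh (dist (org n) x + r))) :=
    (isCompact_closedBall _ _).image continuous_mk
  refine hcomp.of_isClosed_subset isClosed_closedBall ?_
  intro q hq
  refine ⟨q.pt, ?_, rfl⟩
  rw [mem_closedBall_zero_iff, ← sinh_dist_org, Real.sinh_le_sinh]
  have h1 := dist_triangle (org n) x q
  have h2 : dist q x ≤ r := mem_closedBall.mp hq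
  rw [dist_comm x q] at h1
  linarith

end Pool.Agent.H62.WS
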