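import Pool.Agent.H62.WS.Defs

set_option autoImplicit false

/-!
# [H62 WS TOPM] Metric comparison in the chart

* `four_sinh_half_sq`: `cosh d = 2 sinh² (d/2) + 1`, `cosh_dist`, `two_mul_lor_sub_one` (Lor.lean).
* `two_sinh_half_le`: `0 ≤ sinh (d/2)`, from `four_sinh_half_sq` (`abs_le_abs`/`pow_le_pow_left`).
* `dist_mk_le`: `t ≤ sinh t` for `t ≥ 0` (`Real.self_le_sinh_iff`).
* `norm_sub_le`: `|tc x - tc y| (tc x + tc y) = |‖x‖ - ‖y‖| (‖x‖ + ‖y‖)` (see the proof of `abs_tc_sub_le`), `‖x‖ ≤ (M/√(1+M²)) tc x` for `‖x‖ ≤ M`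
  (square: `‖x‖² (1+M²) ≤ M² (1 + ‖x‖²)`), so `(tc x - tc y)² ≤ M²/(1+M²) ‖x-y‖²` and `4 sinh² (d/2) ≥ ‖x-y‖²/(1+M²)`.
-/

namespace Pool.Agent.H62.WS

open scoped RealInnerProductSpace MeasureTheory ENNReal NNReal
open MeasureTheory Set Metric

variable {n : ℕ}

theorem four_sinh_half_sq (x y : E n) :
    4 * Real.sinh (dist (⟨x⟩ : Hyp n) ⟨y⟩ / 2) ^ 2 = ‖x - y‖ ^ 2 - (tc x - tc y) ^ 2 := by
  have h1 := cosh_dist (⟨x⟩ : Hyp n) ⟨y⟩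
  have h2 := two_mul_lor_sub_one x y
  have h3 := Real.cosh_two_mul (dist (⟨x⟩ : Hyp n) ⟨y⟩ / 2)
  have h4 := Real.cosh_sq (dist (⟨x⟩ : Hyp n) ⟨y⟩ / 2)
  rw [mul_div_cancel₀ _ (two_ne_zero)] at h3
  simp only at h1
  rw [← h2, ← h1, h3, h4]
  ring

private theorem sinh_half_nonneg (x y : E n) : 0 ≤ Real.sinh (dist (⟨x⟩ : Hyp n) ⟨y⟩ / 2) := by
  rw [Real.sinh_nonneg_iff]
  positivity

theorem two_sinh_half_le (x y : E n) : 2 * Real.sinh (dist (⟨x⟩ : Hyp n) ⟨y⟩ / 2) ≤ ‖x - y‖ := by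
  have h1 := four_sinh_half_sq x y
  have h2 := sinh_half_nonneg x y
  apply le_of_sq_le_sq _ (norm_nonneg _)
  nlinarith [sq_nonneg (tc x - tc y)]

theorem dist_mk_le (x y : E n) : dist (⟨x⟩ : Hyp n) ⟨y⟩ ≤ ‖x - y‖ := by
  have h1 : dist (⟨x⟩ : Hyp n) ⟨y⟩ / 2 ≤ Real.sinh (dist (⟨x⟩ : Hyp n) ⟨y⟩ / 2) :=
    Real.self_le_sinh_iff.mpr (by positivity)
  have h2 := two_sinh_half_le x y
  linarith

theorem norm_sub_le {M : ℝ} {x y : E n} (hx : ‖x‖ ≤ M) (hy : ‖y‖ ≤ M) :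
    ‖x - y‖ ≤ 2 * √(1 + M ^ 2) * Real.sinh (dist (⟨x⟩ : Hyp n) ⟨y⟩ / 2) := by
  have hM : 0 ≤ M := (norm_nonneg x).trans hx
  set s := √(1 + M ^ 2) with hs
  have hs2 : s ^ 2 = 1 + M ^ 2 := by
    rw [hs, Real.sq_sqrt (by positivity)]
  have hs0 : 0 < s := by rw [hs]; positivity
  have key : ∀ z : E n, ‖z‖ ≤ M → s * ‖z‖ ≤ M * tc z := by
    intro z hz
    have h1 := tc_sq z
    have h2 := tc_pos z
    apply le_of_sq_le_sq _ (by positivity)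
    rw [mul_pow, mul_pow, hs2, h1]
    have : ‖z‖ ^ 2 ≤ M ^ 2 := by
      have := norm_nonneg z
      nlinarith
    nlinarith
  have hx' := key x hx
  have hy' := key y hy
  have htx := tc_pos x
  have hty := tc_pos y
  have hx2 := tc_sq x
  have hy2 := tc_sq y
  have h1 : (tc x - tc y) * (tc x + tc y) = (‖x‖ - ‖y‖) * (‖x‖ + ‖y‖) := by nlinarith
  have h2 : |tc x - tc y| * (tc x + tc y) = |‖x‖ - ‖y‖| * (‖x‖ + ‖y‖) := by
    have := congrArg abs h1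
    rwa [abs_mul, abs_mul, abs_of_pos (by linarith : 0 < tc x + tc y),
      abs_of_nonneg (by positivity : 0 ≤ ‖x‖ + ‖y‖)] at this
  have h3 : |‖x‖ - ‖y‖| ≤ ‖x - y‖ := abs_norm_sub_norm_le x y
  have h4 : s * |tc x - tc y| ≤ M * ‖x - y‖ := by
    have h5 : (s * |tc x - tc y|) * (tc x + tc y) ≤ (M * ‖x - y‖) * (tc x + tc y) := by
      calc (s * |tc x - tc y|) * (tc x + tc y) = |‖x‖ - ‖y‖| * (s * ‖x‖ + s * ‖y‖) := by
            rw [mul_assoc, h2]; ring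
        _ ≤ ‖x - y‖ * (M * tc x + M * tc y) := by
            apply mul_le_mul h3 (by linarith) (by positivity) (norm_nonneg _)
        _ = (M * ‖x - y‖) * (tc x + tc y) := by ring
    exact le_of_mul_le_mul_right h5 (by linarith)
  have h5 : (s * |tc x - tc y|) ^ 2 ≤ (M * ‖x - y‖) ^ 2 := by
    apply pow_le_pow_left₀ (by positivity) h4
  rw [mul_pow, mul_pow, sq_abs, hs2] at h5
  have h6 := four_sinh_half_sq x y
  have h7 := sinh_half_nonneg x y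
  apply le_of_sq_le_sq _ (by positivity)
  have h8 : (2 * s * Real.sinh (dist (⟨x⟩ : Hyp n) ⟨y⟩ / 2)) ^ 2
      = s ^ 2 * (4 * Real.sinh (dist (⟨x⟩ : Hyp n) ⟨y⟩ / 2) ^ 2) := by ring
  rw [h8, h6, hs2]
  nlinarith

end Pool.Agent.H62.WS
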