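import Pool.Agent.H62.WS.UpperA
import Pool.Agent.H62.WS.TestG
import Pool.Agent.H62.WS.OdeH
import Pool.Agent.H62.WS.RhoB
import Pool.Agent.H62.WS.Polar

set_option autoImplicit false

/-!
# [H62 WS UPPERB] The energy of the test functions in polar coordinates

`ofReal_integral_eq_lintegral_ofReal` (integrable: continuous by `continuous_gradSq`, `isC1_uu`, on a bounded set of finite volume `vol_lt_top_of_isBounded`; contained in a compact set), then `lintegral_vol` for the indicator of `Ω` times
`ofReal (Σ gradSq (uu i))`, `sum_gradSq_uu` for `r > 0`, `Ioi 0 ∩ {r | sph r θ ∈ Ω} = Eth Ω θ`, and `ww (n-1) r = (gg² + N/s²) ff² s^N`.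
-/

namespace Pool.Agent.H62.WS

open scoped RealInnerProductSpace MeasureTheory ENNReal NNReal
open MeasureTheory Set Metric

variable {n : ℕ}

theorem lintegral_gradSq_uu (hn : 2 ≤ n) {Ω : Set (Hyp n)} (hΩ : IsOpen Ω)
    (hb : Bornology.IsBounded Ω) :
    ENNReal.ofReal (∫ p in Ω, (∑ i : Fin n, gradSq (uu i) p) ∂vol n) =
      ∫⁻ θ, (∫⁻ r in Eth Ω θ, ENNReal.ofReal (ww (n - 1) r)) ∂sg n := by
  have hG : Continuous fun p : Hyp n => ∑ i : Fin n, gradSq (uu i) p :=
    continuous_finsetSum _ fun i _ => continuous_gradSq (isC1_uu i)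
  have hG0 : ∀ p : Hyp n, 0 ≤ ∑ i : Fin n, gradSq (uu i) p :=
    fun p => Finset.sum_nonneg fun i _ => gradSq_nonneg (uu i) p
  have hK : IsCompact (closure Ω) := Metric.isCompact_of_isClosed_isBounded isClosed_closure hb.closure
  obtain ⟨C, hC⟩ := hK.exists_bound_of_continuousOn hG.continuousOn
  have hint : IntegrableOn (fun p : Hyp n => ∑ i : Fin n, gradSq (uu i) p) Ω (vol n) := by
    refine Measure.integrableOn_of_bounded (M := C) (vol_lt_top_of_isBounded hb).ne
      hG.aestronglyMeasurable ?_
    exact (ae_restrict_iff' hΩ.measurableSet).mpr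
      (Filter.Eventually.of_forall fun p hp => hC p (subset_closure hp))
  rw [ofReal_integral_eq_lintegral_ofReal hint (Filter.Eventually.of_forall fun p => hG0 p),
    ← lintegral_indicator hΩ.measurableSet, lintegral_vol hn
      (hG.measurable.ennreal_ofReal.indicator hΩ.measurableSet)]
  apply lintegral_congr
  intro θ
  have hE : MeasurableSet (Eth Ω θ) := (measurableSet_slices hΩ).preimage measurable_prodMk_left
  have hE' : Eth Ω θ = Ioi 0 ∩ Eth Ω θ := by
    ext r
    exact ⟨fun h => ⟨h.1, h⟩, fun h => h.2⟩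
  rw [hE', inter_comm, ← setLIntegral_indicator hE]
  apply setLIntegral_congr_fun measurableSet_Ioi
  intro r hr
  have hr' : (0 : ℝ) < r := hr
  by_cases h : sph r θ ∈ Ω
  · have h' : r ∈ Eth Ω θ := ⟨hr', h⟩
    simp only [indicator_of_mem h, indicator_of_mem h']
    rw [sum_gradSq_uu hn hr', ← ENNReal.ofReal_mul (by have := sinh_pos' hr'; positivity)]
    congr 1
    unfold ww
    ring
  · have h' : r ∉ Eth Ω θ := fun h2 => h h2.2
    simp only [indicator_of_notMem h, indicator_of_notMem h', mul_zero]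

end Pool.Agent.H62.WS
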