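import Pool.Agent.H62.WS.GradA

set_option autoImplicit false

/-!
# [H62 WS VOLD] The Jacobian determinant of a boost

`id - f.smulRight a` has determinant `1 - f a`, `f = ⟪w,·⟫`,
`w = x/tc x - a/(1+tc a)`; `1 - ⟪w,a⟫ = 1 - ⟪x,a⟫/tc x + ‖a‖²/(1+tc a) = tc a - ⟪x,a⟫/tc x = lor a x/tc x`, by `‖a‖² = (tc a - 1)(tc a + 1)`.
-/

namespace Pool.Agent.H62.WS

open scoped RealInnerProductSpace MeasureTheory ENNReal NNReal
open MeasureTheory Set Metric

variable {n : ℕ}

theorem det_boost (a x : E n) :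
    (ContinuousLinearMap.id ℝ (E n) -
      (innerSL ℝ ((tc x)⁻¹ • x - (1 + tc a)⁻¹ • a)).smulRight a).det = lor a x / tc x := by
  set w : E n := (tc x)⁻¹ • x - (1 + tc a)⁻¹ • a with hw
  have h1 : ((ContinuousLinearMap.id ℝ (E n) - (innerSL ℝ w).smulRight a : E n →L[ℝ] E n) :
      E n →ₗ[ℝ] E n) = LinearMap.transvection (innerSL ℝ w : E n →ₗ[ℝ] ℝ) (-a) := by
    ext1 v
    rw [LinearMap.transvection.apply]
    simp [sub_eq_add_neg]
  rw [ContinuousLinearMap.det, h1, LinearMap.transvection.det]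
  have hx := (tc_pos x).ne'
  have ha : (1 + tc a) ≠ 0 := by
    have := tc_pos a
    positivity
  have ha2 := tc_sq a
  have h2 : (innerSL ℝ w : E n →ₗ[ℝ] ℝ) (-a) = -(⟪x, a⟫ / tc x - ‖a‖ ^ 2 / (1 + tc a)) := by
    simp only [ContinuousLinearMap.coe_coe, map_neg, innerSL_apply_apply]
    rw [hw, inner_sub_left, real_inner_smul_left, real_inner_smul_left, real_inner_self_eq_norm_sq]
    ring
  have h3 : ‖a‖ ^ 2 = (tc a - 1) * (1 + tc a) := by nlinarith
  rw [h2, h3, lor, real_inner_comm]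
  field_simp
  ring

end Pool.Agent.H62.WS
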