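import Pool.Agent.H62.WS.VolD
import Pool.Agent.H62.WS.GradInv

set_option autoImplicit false

/-!
# [H62 WS VOLINV] The volume is invariant under boosts

`vol n` is the image under `Hyp.mk` of the measure `λ = withDensity (1/tc)` on `E n`; `boostIso a ∘ Hyp.mk = Hyp.mk ∘ boost a`, so it suffices that `boost a`
preserves `λ`: for `A` measurable, `λ (boost a ⁻¹' A)`; with `B = boost a ⁻¹' A`, `A = boost a '' B` (bijective, inverse `boost (-a)`):
`λ A = ∫⁻_{boost a '' B} ofReal (1/tc y) = ∫⁻_B ofReal |det D(boost a)(x)| * ofReal (1/tc (boost a x))` (`lintegral_image_eq_lintegral_abs_det_fderiv_mul`)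
`= ∫⁻_B ofReal (1/tc x)`, as `det = lor a x/tc x > 0` (`det_boost`) and `tc (boost a x) = lor a x` (`tc_boost`, `one_le_lor`).
-/

namespace Pool.Agent.H62.WS

open scoped RealInnerProductSpace MeasureTheory ENNReal NNReal
open MeasureTheory Set Metric

variable {n : ℕ}

theorem measurePreserving_boostIso (a : E n) : MeasurePreserving (boostIso a) (vol n) (vol n) := by
  have hmk : Measurable (Hyp.mk : E n → Hyp n) := continuous_mk.measurable
  have hb : Continuous (boost a : E n → E n) := (contDiff_boost a).continuous
  have hbi : Measurable (boostIso a : Hyp n → Hyp n) :=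
    (boostIso a).isometry.continuous.measurable
  have hinj : Function.Injective (boost a : E n → E n) :=
    Function.LeftInverse.injective (g := boost (-a)) (fun x => boost_neg_boost a x)
  have hsurj : Function.Surjective (boost a : E n → E n) :=
    Function.RightInverse.surjective (g := boost (-a)) (fun x => boost_boost_neg a x)
  refine ⟨hbi, ?_⟩
  unfold vol
  rw [Measure.map_map hbi hmk]
  have hcomp : (⇑(boostIso a) ∘ Hyp.mk : E n → Hyp n) = Hyp.mk ∘ boost a := rfl
  rw [hcomp, ← Measure.map_map hmk hb.measurable]
  congr 1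
  ext A hA
  rw [Measure.map_apply hb.measurable hA, withDensity_apply _ (hb.measurable hA),
    withDensity_apply _ hA]
  have himg : boost a '' (boost a ⁻¹' A) = A := image_preimage_eq A hsurj
  have key := lintegral_image_eq_lintegral_abs_det_fderiv_mul (volume : Measure (E n))
    (hb.measurable hA) (fun x _ => (hasFDerivAt_boost a x).hasFDerivWithinAt) hinj.injOn
    (fun x => ENNReal.ofReal (1 / tc x))
  rw [himg] at key
  rw [key]
  apply lintegral_congr
  intro x
  rw [det_boost, tc_boost, ← ENNReal.ofReal_mul (abs_nonneg _)]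
  congr 1
  have h1 : 0 < lor a x := lt_of_lt_of_le one_pos (one_le_lor a x)
  have h2 := tc_pos x
  rw [abs_of_pos (div_pos h1 h2)]
  field_simp

end Pool.Agent.H62.WS
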